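import Pool.Agent.ANC.Stmts

/-!
# AVG: one block of a deterministic machine, all instances
-/

set_option autoImplicit false

namespace Pool.Agent.ANC

open Finset MeasureTheory

namespace AVGM

variable {k K d N q L : ℕ} {E : Type}

theorem blk_lt (b₀ : Ys k d q → List E) (b₁ : Fin L → (Fin k → Nm K N) → List E)
    (o : Xs k L K N) (j₀ : Fin L) (x : Fin k → Nm K N) (y : Ys k d q) (i : ℕ)
    (hi : i < (j₀ : ℕ) + 1) : blk b₀ b₁ (ins o j₀ x, y) i = blk b₀ b₁ (o, y) i := by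
  cases i with
  | zero => rfl
  | succ i =>
    have hiL : i < L := by
      have := j₀.isLt
      omega
    have hne : (⟨i, hiL⟩ : Fin L) ≠ j₀ := by
      intro h
      have := congrArg Fin.val h
      simp only at this
      omega
    simp only [blk, dif_pos hiL]
    congr 1
    funext u
    simp only [ins]
    rw [Function.update_of_ne hne]

theorem blk_self (b₀ : Ys k d q → List E) (b₁ : Fin L → (Fin k → Nm K N) → List E)
    (o : Xs k L K N) (j₀ : Fin L) (x : Fin k → Nm K N) (y : Ys k d q) :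
    blk b₀ b₁ (ins o j₀ x, y) ((j₀ : ℕ) + 1) = b₁ j₀ x := by
  simp only [blk, dif_pos j₀.isLt, Fin.eta]
  congr 1
  funext u
  simp only [ins]
  rw [Function.update_self]

end AVGM

open AVGM in
open Classical in
theorem AVG_thm (hSTA : Stmt_STA) (hFUL : Stmt_FUL) (hMCH : Stmt_MCH) : Stmt_AVG := by
  intro z k K d N q L β hPar A Γ Q E _ _ _ _ P b₀ b₁ B j₀ hB h1 h2
  have hL : 1 ≤ L := by
    have := j₀.isLt
    omega
  set cond : Xs k L K N × Ys k d q → Prop := fun p =>
    P.ans (blk b₀ b₁ p) (j₀ + 1) = false ∧ P.cost (blk b₀ b₁ p) (j₀ + 1) ≤ B ∧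
      ∑ i ∈ range (j₀ + 1), P.cost (blk b₀ b₁ p) i ≤ B * L with hcond
  -- the machine of one block
  have hconf : ∀ (o : Xs k L K N) (x : Fin k → Nm K N) (y : Ys k d q),
      P.conf (blk b₀ b₁ (ins o j₀ x, y)) (j₀ + 1) = P.conf (blk b₀ b₁ (o, y)) (j₀ + 1) :=
    fun o x y => (hMCH A Γ Q E P _ _ _).1 (fun i hi => blk_lt b₀ b₁ o j₀ x y i hi)
  have hans : ∀ (o : Xs k L K N) (x : Fin k → Nm K N) (y : Ys k d q),
      P.ans (blk b₀ b₁ (ins o j₀ x, y)) (j₀ + 1) =
        ((P.prog (j₀ + 1) (P.conf (blk b₀ b₁ (o, y)) (j₀ + 1)).1 (b₁ j₀ x)).out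
          (P.conf (blk b₀ b₁ (o, y)) (j₀ + 1)).2).1 := by
    intro o x y
    unfold Machine.ans
    rw [hconf, blk_self]
  have hcost : ∀ (o : Xs k L K N) (x : Fin k → Nm K N) (y : Ys k d q),
      P.cost (blk b₀ b₁ (ins o j₀ x, y)) (j₀ + 1) =
        (P.prog (j₀ + 1) (P.conf (blk b₀ b₁ (o, y)) (j₀ + 1)).1 (b₁ j₀ x)).cost
          (P.conf (blk b₀ b₁ (o, y)) (j₀ + 1)).2 := by
    intro o x y
    unfold Machine.cost
    rw [hconf, blk_self]
  have key : ∀ o : Xs k L K N,
      47 / 50 * (((Om (fun u => Ed β K (Yo β o j₀ u))).filter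
        fun z => cond (ins o j₀ (nms z), wds z)).card : ℝ) -
        3 / 100 * ((Om (fun u => Ed β K (Yo β o j₀ u))).card : ℝ) ≤
      yes β (Yo β o j₀) (fun z =>
        P.ans (blk b₀ b₁ (ins o j₀ (nms z), wds z)) (j₀ + 1) = false) := by
    intro o
    have h := hSTA (hPar o j₀) A Γ Q (fun x q => P.prog (j₀ + 1) q (b₁ j₀ x))
      (fun y => P.conf (blk b₀ b₁ (o, y)) (j₀ + 1)) P.mem0 B L hB hL h1 h2
    have hF : (fun z : Cf k K d N q =>
        P.ans (blk b₀ b₁ (ins o j₀ (nms z), wds z)) (j₀ + 1) = false) =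
        fun z => ((P.prog (j₀ + 1) (P.conf (blk b₀ b₁ (o, wds z)) (j₀ + 1)).1
          (b₁ j₀ (nms z))).out (P.conf (blk b₀ b₁ (o, wds z)) (j₀ + 1)).2).1 = false := by
      funext z
      rw [hans]
    rw [hF]
    refine le_trans ?_ h
    refine sub_le_sub_right ?_ _
    refine mul_le_mul_of_nonneg_left ?_ (by norm_num)
    refine Nat.cast_le.2 (card_le_card ?_)
    intro z hz
    rw [mem_filter] at hz ⊢
    obtain ⟨hz1, hz2, hz3, hz4⟩ := hz
    refine ⟨hz1, ?_, ?_, ?_⟩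
    · rw [hans] at hz2
      exact hz2
    · rw [hcost] at hz3
      exact hz3
    · have h5 := (hMCH A Γ Q E P (blk b₀ b₁ (ins o j₀ (nms z), wds z))
        (blk b₀ b₁ (ins o j₀ (nms z), wds z)) (j₀ + 1)).2
      rw [hconf] at h5
      exact h5.trans hz4
  -- summation over `o`
  have hs1 := hFUL β j₀ (fun p => if cond p then (1 : ℝ) else 0)
  have hs2 := hFUL (k := k) (K := K) β j₀ (fun _ => (1 : ℝ))
  have e1 : ∀ o : Xs k L K N, ∑ z ∈ Om (fun u => Ed β K (Yo β o j₀ u)),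
      (if cond (ins o j₀ (nms z), wds z) then (1 : ℝ) else 0) =
      (((Om (fun u => Ed β K (Yo β o j₀ u))).filter
        fun z => cond (ins o j₀ (nms z), wds z)).card : ℝ) := by
    intro o
    rw [card_filter]
    push_cast
    rfl
  have e2 : ∑ p ∈ (Ome β : Finset (Xs k L K N × Ys k d q)),
      (if cond p then (1 : ℝ) else 0) =
      (((Ome β : Finset (Xs k L K N × Ys k d q)).filter fun p => cond p).card : ℝ) := by
    rw [card_filter]
    push_cast
    rfl
  simp only [e1, e2] at hs1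
  simp only [sum_const, nsmul_eq_mul, mul_one] at hs2
  have hsum := Finset.sum_le_sum fun (o : Xs k L K N) (_ : o ∈ univ) => key o
  rw [sum_sub_distrib, ← mul_sum, ← mul_sum, hs1, hs2] at hsum
  refine le_trans (le_of_eq ?_) hsum
  rw [mul_sub]
  simp only [hcond]
  ring

end Pool.Agent.ANC
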