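import Pool.Agent.ANC.Stmts

/-!
# BIN: the number of the small subsets
-/

set_option autoImplicit false

namespace Pool.Agent.ANC

open Finset MeasureTheory

theorem BIN_thm : Stmt_BIN := by
  intro B L hL
  have hL1 : (1 : ℝ) ≤ L := by exact_mod_cast hL
  have hL0 : (0 : ℝ) < L := by linarith
  have h1 : ∑ J : Finset (Fin (B * L)), ((L : ℝ)⁻¹) ^ J.card =
      ((L : ℝ)⁻¹ + 1) ^ (B * L) := by
    have h := Finset.sum_pow_mul_eq_add_pow ((L : ℝ)⁻¹) 1 (univ : Finset (Fin (B * L)))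
    rw [Finset.powerset_univ, Finset.card_univ, Fintype.card_fin] at h
    rw [← h]
    refine Finset.sum_congr rfl fun J _ => ?_
    rw [one_pow, mul_one]
  have h2 : ((L : ℝ)⁻¹ + 1) ^ (B * L) ≤ Real.exp B := by
    calc ((L : ℝ)⁻¹ + 1) ^ (B * L) ≤ (Real.exp ((L : ℝ)⁻¹)) ^ (B * L) :=
          pow_le_pow_left₀ (by positivity) (Real.add_one_le_exp _) _
      _ = Real.exp B := by
          rw [← Real.exp_nat_mul]
          congr 1
          push_cast
          field_simp
  have h3 : ((((univ : Finset (Finset (Fin (B * L)))).filter fun J => J.card ≤ B).card : ℝ)) *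
      ((L : ℝ)⁻¹) ^ B ≤ ∑ J : Finset (Fin (B * L)), ((L : ℝ)⁻¹) ^ J.card := by
    rw [← nsmul_eq_mul]
    refine (Finset.card_nsmul_le_sum _ (fun J => ((L : ℝ)⁻¹) ^ J.card) _ fun J hJ => ?_).trans
      (Finset.sum_le_sum_of_subset_of_nonneg (Finset.filter_subset _ _) fun J _ _ => by
        positivity)
    have hJ2 := (Finset.mem_filter.1 hJ).2
    exact pow_le_pow_of_le_one (by positivity) (inv_le_one_of_one_le₀ hL1) hJ2
  have h4 := h3.trans (h1.le.trans h2)
  have h5 : Real.exp (B * (1 + Real.log L)) = Real.exp B * (L : ℝ) ^ B := by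
    rw [mul_add, mul_one, Real.exp_add, Real.exp_nat_mul, Real.exp_log hL0]
  rw [h5]
  have h6 : ((L : ℝ)⁻¹) ^ B * (L : ℝ) ^ B = 1 := by
    rw [← mul_pow, inv_mul_cancel₀ hL0.ne', one_pow]
  calc ((((univ : Finset (Finset (Fin (B * L)))).filter fun J => J.card ≤ B).card : ℝ))
      = ((((univ : Finset (Finset (Fin (B * L)))).filter fun J => J.card ≤ B).card : ℝ)) *
        ((L : ℝ)⁻¹) ^ B * (L : ℝ) ^ B := by rw [mul_assoc, h6, mul_one]
    _ ≤ Real.exp B * (L : ℝ) ^ B := mul_le_mul_of_nonneg_right h4 (by positivity)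

end Pool.Agent.ANC
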