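import Pool.Agent.ANC.Stmts

/-!
# CHT: Chernoff

The number of the words with few positions in the sets `T i`.
-/

set_option autoImplicit false

namespace Pool.Agent.ANC

open Finset

namespace CHTM

theorem exp_neg_le (x : ℝ) (hx : 0 ≤ x) : Real.exp (-x) ≤ 1 - x + x ^ 2 / 2 := by
  have h1 : 1 + x + x ^ 2 / 2 ≤ Real.exp x := Real.quadratic_le_exp_of_nonneg hx
  have h2 : 0 < Real.exp (-x) := Real.exp_pos _
  have h3 : Real.exp (-x) * Real.exp x = 1 := by
    rw [← Real.exp_add]
    simp
  have h4 : Real.exp (-x) * (1 + x + x ^ 2 / 2) ≤ 1 := by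
    calc Real.exp (-x) * (1 + x + x ^ 2 / 2) ≤ Real.exp (-x) * Real.exp x :=
          mul_le_mul_of_nonneg_left h1 h2.le
      _ = 1 := h3
  have h5 : 0 < 1 + x + x ^ 2 / 2 := by positivity
  have h6 : 1 ≤ (1 - x + x ^ 2 / 2) * (1 + x + x ^ 2 / 2) := by
    have : (1 - x + x ^ 2 / 2) * (1 + x + x ^ 2 / 2) = 1 + x ^ 4 / 4 := by ring
    rw [this]
    have : 0 ≤ x ^ 4 / 4 := by positivity
    linarith
  exact le_of_mul_le_mul_right (h4.trans h6) h5

/-- The sum over all words of a product over the positions. -/
theorem sum_words {d q : ℕ} (f : Fin d → Fin q → ℝ) :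
    ∑ w : Wo d q, ∏ i, f i (w i) = ∏ i, ∑ t, f i t := by
  rw [Finset.prod_univ_sum]
  simp only [Fintype.piFinset_univ]

/-- The sum over the letters of one position. -/
theorem sum_letters {q : ℕ} (S : Finset (Fin q)) (a : ℝ) :
    ∑ t : Fin q, (if t ∈ S then a else 1) = q - S.card * (1 - a) := by
  rw [Finset.sum_ite, Finset.sum_const, Finset.sum_const]
  have h1 : (univ.filter fun t => t ∈ S) = S := by ext t; simp
  have h2 : (univ.filter fun t => t ∉ S).card = q - S.card := by
    have h := Finset.card_compl S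
    rw [Fintype.card_fin] at h
    rw [← h]
    congr 1
    ext t
    simp
  rw [h1, h2]
  have h3 : S.card ≤ q := by
    have := Finset.card_le_univ S
    rwa [Fintype.card_fin] at this
  rw [nsmul_eq_mul, nsmul_eq_mul, Nat.cast_sub h3]
  ring

/-- The last step: the exponents. -/
theorem last_step (η Q S q c : ℝ) (hQ : 0 ≤ Q) (hS0 : 0 ≤ S) (hq : 0 < q) (h0 : 0 ≤ η)
    (hm : c * Real.exp (-η * ((1 - η) * S / q)) ≤
      Q * Real.exp (-(1 - Real.exp (-η)) * S / q)) :
    c ≤ Real.exp (-(η ^ 2 / 2) * S / q) * Q := by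
  have h2 : 0 < Real.exp (η * ((1 - η) * S / q)) := Real.exp_pos _
  have h3 := mul_le_mul_of_nonneg_right hm h2.le
  have h4 : c * Real.exp (-η * ((1 - η) * S / q)) * Real.exp (η * ((1 - η) * S / q)) = c := by
    rw [mul_assoc, ← Real.exp_add]
    have : -η * ((1 - η) * S / q) + η * ((1 - η) * S / q) = 0 := by ring
    rw [this, Real.exp_zero, mul_one]
  rw [h4, mul_assoc, ← Real.exp_add] at h3
  refine h3.trans ?_
  rw [mul_comm]
  refine mul_le_mul_of_nonneg_right ?_ hQ
  apply Real.exp_le_exp.mpr
  have he := exp_neg_le η h0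
  have h5 : -(1 - Real.exp (-η)) * S / q + η * ((1 - η) * S / q) =
      (-(1 - Real.exp (-η)) + η * (1 - η)) * (S / q) := by ring
  have h6 : -(η ^ 2 / 2) * S / q = -(η ^ 2 / 2) * (S / q) := by ring
  rw [h5, h6]
  refine mul_le_mul_of_nonneg_right ?_ (div_nonneg hS0 hq.le)
  nlinarith

end CHTM

open CHTM in
theorem CHT_thm : Stmt_CHT := by
  classical
  intro d q T η hq h0 h1
  have hqR : (0 : ℝ) < q := by exact_mod_cast hq
  set S : ℝ := ((∑ i, (T i).card : ℕ) : ℝ) with hS
  have hS0 : 0 ≤ S := by positivity
  have hSsum : S = ∑ i, ((T i).card : ℝ) := by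
    rw [hS]; push_cast; rfl
  set X : Wo d q → ℕ := fun w => (univ.filter fun i => w i ∈ T i).card with hX
  -- the exponential moment
  have hprod : ∀ w : Wo d q, Real.exp (-η * X w) =
      ∏ i, (if w i ∈ T i then Real.exp (-η) else 1) := by
    intro w
    rw [Finset.prod_ite, Finset.prod_const, Finset.prod_const_one, mul_one, ← Real.exp_nat_mul]
    congr 1
    rw [hX]
    ring
  have hmom : ∑ w : Wo d q, Real.exp (-η * X w) ≤
      (q : ℝ) ^ d * Real.exp (-(1 - Real.exp (-η)) * S / q) := by
    calc ∑ w : Wo d q, Real.exp (-η * X w)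
        = ∑ w : Wo d q, ∏ i, (if w i ∈ T i then Real.exp (-η) else 1) :=
          Finset.sum_congr rfl fun w _ => hprod w
      _ = ∏ i, ∑ t : Fin q, (if t ∈ T i then Real.exp (-η) else 1) :=
          sum_words (fun i t => if t ∈ T i then Real.exp (-η) else 1)
      _ = ∏ i, ((q : ℝ) - (T i).card * (1 - Real.exp (-η))) :=
          Finset.prod_congr rfl fun i _ => sum_letters (T i) _
      _ ≤ ∏ i, ((q : ℝ) * Real.exp (-(1 - Real.exp (-η)) * (T i).card / q)) := by
          apply Finset.prod_le_prod
          · intro i _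
            have hle : ((T i).card : ℝ) ≤ q := by
              have := Finset.card_le_univ (T i)
              rw [Fintype.card_fin] at this
              exact_mod_cast this
            have he : 0 < Real.exp (-η) := Real.exp_pos _
            have he1 : Real.exp (-η) ≤ 1 := Real.exp_le_one_iff.mpr (by linarith)
            have hc : (0 : ℝ) ≤ (T i).card := Nat.cast_nonneg _
            nlinarith
          · intro i _
            have hx := Real.add_one_le_exp (-(1 - Real.exp (-η)) * (T i).card / q)
            have : (q : ℝ) * (-(1 - Real.exp (-η)) * (T i).card / q + 1) =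
                (q : ℝ) - (T i).card * (1 - Real.exp (-η)) := by
              field_simp
              ring
            rw [← this]
            exact mul_le_mul_of_nonneg_left hx hqR.le
      _ = (q : ℝ) ^ d * Real.exp (-(1 - Real.exp (-η)) * S / q) := by
          rw [Finset.prod_mul_distrib, Finset.prod_const, Finset.card_univ, Fintype.card_fin,
            ← Real.exp_sum]
          congr 2
          rw [hSsum, Finset.mul_sum, Finset.sum_div]
  -- Markov
  set F : Finset (Wo d q) := (univ : Finset (Wo d q)).filter fun w =>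
    (X w : ℝ) * q ≤ (1 - η) * S with hF
  have hmark : (F.card : ℝ) * Real.exp (-η * ((1 - η) * S / q)) ≤
      ∑ w : Wo d q, Real.exp (-η * X w) := by
    calc (F.card : ℝ) * Real.exp (-η * ((1 - η) * S / q))
        = ∑ _w ∈ F, Real.exp (-η * ((1 - η) * S / q)) := by
          rw [Finset.sum_const, nsmul_eq_mul]
      _ ≤ ∑ w ∈ F, Real.exp (-η * X w) := by
          apply Finset.sum_le_sum
          intro w hw
          apply Real.exp_le_exp.mpr
          have hw' := (Finset.mem_filter.mp hw).2
          have h2 : (X w : ℝ) ≤ (1 - η) * S / q := by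
            rw [le_div_iff₀ hqR]
            exact hw'
          have := mul_le_mul_of_nonneg_left h2 h0
          linarith
      _ ≤ ∑ w : Wo d q, Real.exp (-η * X w) := by
          apply Finset.sum_le_sum_of_subset_of_nonneg (Finset.subset_univ _)
          intro w _ _
          exact (Real.exp_pos _).le
  exact last_step η ((q : ℝ) ^ d) S q F.card (pow_nonneg hqR.le d) hS0 hqR h0
    (hmark.trans hmom)

end Pool.Agent.ANC
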