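import Pool.Agent.ANC.Stmts

/-!
# Module COB: few codes are unbalanced at a given letter
-/

set_option autoImplicit false

namespace Pool.Agent.ANC

open Finset

namespace COBM

/-- The weight of a word. -/
noncomputable def g {d q : ℕ} (i : Fin d) (t : Fin q) (w : Wo d q) : ℝ :=
  if w i = t then 2 else 1

lemma sum_g {d q : ℕ} (i : Fin d) (t : Fin q) :
    ∑ w : Wo d q, g i t w = (q : ℝ) ^ d * (1 + 1 / q) := by
  have hq : (q : ℝ) ≠ 0 := by
    have : 0 < q := t.pos
    positivity
  have h1 : ∀ w : Wo d q, g i t w =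
      ∏ j : Fin d, (if j = i then (if w j = t then (2 : ℝ) else 1) else 1) := by
    intro w
    rw [Finset.prod_ite_eq' Finset.univ i]
    simp [g]
  have h2 : ∑ w : Wo d q, ∏ j : Fin d, (if j = i then (if w j = t then (2 : ℝ) else 1) else 1) =
      ∏ j : Fin d, ∑ s : Fin q, (if j = i then (if s = t then (2 : ℝ) else 1) else 1) := by
    rw [Finset.prod_univ_sum, Fintype.piFinset_univ]
  have h3 : ∀ j : Fin d, ∑ s : Fin q, (if j = i then (if s = t then (2 : ℝ) else 1) else 1) =
      (q : ℝ) * (if j = i then (1 + 1 / (q : ℝ)) else 1) := by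
    intro j
    by_cases hj : j = i
    · simp only [hj, if_true]
      have h4 : ∀ s : Fin q, (if s = t then (2 : ℝ) else 1) = 1 + (if s = t then 1 else 0) := by
        intro s
        split_ifs <;> norm_num
      rw [Finset.sum_congr rfl fun s _ => h4 s, Finset.sum_add_distrib]
      simp only [Finset.sum_const, Finset.card_univ, Fintype.card_fin, nsmul_eq_mul, mul_one,
        Finset.sum_ite_eq', Finset.mem_univ, if_true]
      field_simp
    · simp [hj]
  rw [Finset.sum_congr rfl fun w _ => h1 w, h2, Finset.prod_congr rfl fun j _ => h3 j,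
    Finset.prod_mul_distrib, Finset.prod_ite_eq' Finset.univ i]
  simp

lemma sum_pow_g {d q : ℕ} (i : Fin d) (t : Fin q) (N : ℕ) :
    ∑ β : Fin N → Wo d q, ∏ x, g i t (β x) = ((q : ℝ) ^ d * (1 + 1 / q)) ^ N := by
  rw [← sum_g i t, Fintype.sum_pow]

lemma prod_g {d q : ℕ} (i : Fin d) (t : Fin q) (N : ℕ) (β : Fin N → Wo d q) :
    ∏ x, g i t (β x) = (2 : ℝ) ^ (univ.filter fun x => β x i = t).card := by
  simp only [g]
  rw [Finset.prod_ite]
  simp

end COBM

open COBM

open Classical in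
theorem COB_thm : Stmt_COB := by
  intro d q N i t
  have hq0 : 0 < q := t.pos
  have hq : (0 : ℝ) < q := by exact_mod_cast hq0
  set S := (univ : Finset (Fin N → Wo d q)).filter fun β =>
    2 * N < (univ.filter fun x => β x i = t).card * q with hS
  have h1 : ∀ β ∈ S, Real.exp (4 / 3 * ((N : ℝ) / q)) ≤ ∏ x, g i t (β x) := by
    intro β hβ
    rw [hS, Finset.mem_filter] at hβ
    have h2 := hβ.2
    rw [prod_g]
    set c := (univ.filter fun x => β x i = t).card with hc
    have h3 : (2 : ℝ) * N < c * q := by exact_mod_cast h2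
    have h4 : 2 * ((N : ℝ) / q) ≤ c := by
      rw [← mul_div_assoc, div_le_iff₀ hq]
      exact h3.le
    have h5 : (2 : ℝ) ^ c = Real.exp (c * Real.log 2) := by
      rw [mul_comm, Real.exp_mul, Real.exp_log (by norm_num), Real.rpow_natCast]
    rw [h5]
    apply Real.exp_le_exp.mpr
    have h6 : (0 : ℝ) ≤ (N : ℝ) / q := by positivity
    have h7 : (2 : ℝ) / 3 ≤ Real.log 2 := by
      have := Real.log_two_gt_d9
      linarith
    calc 4 / 3 * ((N : ℝ) / q) = 2 * ((N : ℝ) / q) * (2 / 3) := by ring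
      _ ≤ c * (2 / 3) := mul_le_mul_of_nonneg_right h4 (by norm_num)
      _ ≤ c * Real.log 2 := mul_le_mul_of_nonneg_left h7 (by positivity)
  have h2 : (S.card : ℝ) * Real.exp (4 / 3 * ((N : ℝ) / q)) ≤
      ((q : ℝ) ^ d * (1 + 1 / q)) ^ N := by
    calc (S.card : ℝ) * Real.exp (4 / 3 * ((N : ℝ) / q)) =
        ∑ _β ∈ S, Real.exp (4 / 3 * ((N : ℝ) / q)) := by
          rw [Finset.sum_const, nsmul_eq_mul]
      _ ≤ ∑ β ∈ S, ∏ x, g i t (β x) := Finset.sum_le_sum h1
      _ ≤ ∑ β : Fin N → Wo d q, ∏ x, g i t (β x) := by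
          apply Finset.sum_le_sum_of_subset_of_nonneg (Finset.subset_univ _)
          intro β _ _
          rw [prod_g]
          positivity
      _ = _ := sum_pow_g i t N
  have h3 : ((q : ℝ) ^ d * (1 + 1 / q)) ^ N ≤ ((q : ℝ) ^ d) ^ N * Real.exp ((N : ℝ) / q) := by
    rw [mul_pow]
    apply mul_le_mul_of_nonneg_left _ (by positivity)
    have h4 : (1 + 1 / (q : ℝ)) ≤ Real.exp (1 / q) := by
      have := Real.add_one_le_exp (1 / (q : ℝ))
      linarith
    calc (1 + 1 / (q : ℝ)) ^ N ≤ (Real.exp (1 / q)) ^ N :=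
          pow_le_pow_left₀ (by positivity) h4 N
      _ = Real.exp ((N : ℝ) / q) := by
          rw [← Real.exp_nat_mul]
          congr 1
          ring
  have h4 : (S.card : ℝ) = (S.card : ℝ) * Real.exp (4 / 3 * ((N : ℝ) / q)) *
      Real.exp (-(4 / 3 * ((N : ℝ) / q))) := by
    rw [mul_assoc, ← Real.exp_add]
    simp
  rw [h4]
  calc (S.card : ℝ) * Real.exp (4 / 3 * ((N : ℝ) / q)) * Real.exp (-(4 / 3 * ((N : ℝ) / q))) ≤
      ((q : ℝ) ^ d) ^ N * Real.exp ((N : ℝ) / q) * Real.exp (-(4 / 3 * ((N : ℝ) / q))) :=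
        mul_le_mul_of_nonneg_right (h2.trans h3) (Real.exp_pos _).le
    _ = Real.exp (-((N : ℝ) / (3 * q))) * ((q : ℝ) ^ d) ^ N := by
        rw [mul_assoc, ← Real.exp_add, mul_comm]
        congr 2
        field_simp
        ring

end Pool.Agent.ANC
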