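import Pool.Agent.ANC.Stmts

set_option autoImplicit false

/-!
# Project ANC, module COD: the code exists
-/

namespace Pool.Agent.ANC

open Finset

namespace CODM

/-- numerical facts on `z` -/
theorem num {z : ℕ} (hz : (10 : ℝ) ^ 9 ≤ Real.log z) :
    1 ≤ z ∧ 5 * 10 ^ 8 * Real.log z ≤ z := by
  have hz1 : 1 ≤ z := by
    rcases Nat.eq_zero_or_pos z with h | h
    · subst h
      simp at hz
      norm_num at hz
    · exact h
  have h0 : (0 : ℝ) < z := by exact_mod_cast hz1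
  have h1 : 0 ≤ Real.log z := le_trans (by norm_num) hz
  have h2 := Real.quadratic_le_exp_of_nonneg h1
  rw [Real.exp_log h0] at h2
  refine ⟨hz1, ?_⟩
  nlinarith

/-- the sum over all families of subsets -/
theorem sum_fam (d q : ℕ) (y : ℝ) :
    ∑ T : Fin d → Finset (Fin q), y ^ (∑ i, (T i).card) = (1 + y) ^ (d * q) := by
  have h1 : ∀ T : Fin d → Finset (Fin q), y ^ (∑ i, (T i).card) = ∏ i, y ^ (T i).card :=
    fun T => (Finset.prod_pow_eq_pow_sum _ _ _).symm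
  have h2 : ∑ s : Finset (Fin q), y ^ s.card = (y + 1) ^ q := by
    have := Fintype.sum_pow_mul_eq_add_pow (Fin q) y 1
    simpa using this
  calc ∑ T : Fin d → Finset (Fin q), y ^ (∑ i, (T i).card)
      = ∑ T : Fin d → Finset (Fin q), ∏ i, y ^ (T i).card := Finset.sum_congr rfl fun T _ => h1 T
    _ = ∏ _i : Fin d, ∑ s : Finset (Fin q), y ^ s.card := by
        rw [Finset.prod_univ_sum, Fintype.piFinset_univ]
    _ = (1 + y) ^ (d * q) := by
        rw [Finset.prod_const, h2, Finset.card_univ, Fintype.card_fin, ← pow_mul, mul_comm q d,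
          add_comm]

/-- `z ^ 12` as an exponential -/
theorem pow_eq {z : ℕ} (hz : 1 ≤ z) (n : ℕ) : ((z : ℝ)) ^ n = Real.exp (n * Real.log z) := by
  have h0 : (0 : ℝ) < z := by exact_mod_cast hz
  rw [Real.exp_nat_mul, Real.exp_log h0]

/-- the term of `T` -/
theorem term {z : ℕ} (hz : (10 : ℝ) ^ 9 ≤ Real.log z) {S : ℕ} (hS : z * z ^ 10 ≤ S) :
    (((z ^ 16 : ℕ) : ℝ) * Real.exp (-((1 / 200 : ℝ) ^ 2 / 2) * (S : ℝ) / ((z ^ 10 : ℕ) : ℝ))) ^
      (z ^ 11 + 1) ≤
    Real.exp (-((z : ℝ) / 320000)) * Real.exp (-((z : ℝ) / 320000)) ^ S := by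
  obtain ⟨hz1, hz2⟩ := num hz
  have h0 : (0 : ℝ) < z := by exact_mod_cast hz1
  have hq0 : (0 : ℝ) < (z : ℝ) ^ 10 := by positivity
  have hS' : (z : ℝ) * (z : ℝ) ^ 10 ≤ S := by exact_mod_cast hS
  have hL : 0 ≤ Real.log z := le_trans (by norm_num) hz
  have hSq : (z : ℝ) ≤ S / (z : ℝ) ^ 10 := by
    rw [le_div_iff₀ hq0]
    exact hS'
  have hSz : (1 : ℝ) ≤ S := by
    have : 1 ≤ S := le_trans (Nat.one_le_iff_ne_zero.2 (by positivity)) hS
    exact_mod_cast this
  push_cast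
  rw [pow_eq hz1 16, ← Real.exp_add]
  -- the base
  have hb : Real.exp (((16 : ℕ) : ℝ) * Real.log z +
      -((1 / 200 : ℝ) ^ 2 / 2) * (S : ℝ) / (z : ℝ) ^ 10) ≤
      Real.exp (-((S : ℝ) / (z : ℝ) ^ 10 / 160000)) := by
    apply Real.exp_le_exp.2
    have h1 : -((1 / 200 : ℝ) ^ 2 / 2) * (S : ℝ) / (z : ℝ) ^ 10 =
        -((S : ℝ) / (z : ℝ) ^ 10 / 80000) := by
      ring
    rw [h1]
    push_cast
    linarith
  have hb1 : Real.exp (-((S : ℝ) / (z : ℝ) ^ 10 / 160000)) ≤ 1 := by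
    apply Real.exp_le_one_iff.2
    have : 0 ≤ (S : ℝ) / (z : ℝ) ^ 10 / 160000 := by positivity
    linarith
  calc _ ≤ Real.exp (-((S : ℝ) / (z : ℝ) ^ 10 / 160000)) ^ (z ^ 11 + 1) :=
        pow_le_pow_left₀ (Real.exp_pos _).le hb _
    _ ≤ Real.exp (-((S : ℝ) / (z : ℝ) ^ 10 / 160000)) ^ (z ^ 11) :=
        pow_le_pow_of_le_one (Real.exp_pos _).le hb1 (Nat.le_succ _)
    _ = Real.exp (-((S : ℝ) * z / 160000)) := by
        rw [← Real.exp_nat_mul]
        congr 1
        push_cast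
        field_simp
    _ ≤ Real.exp (-((z : ℝ) / 320000)) * Real.exp (-((z : ℝ) / 320000)) ^ S := by
        rw [← Real.exp_nat_mul, ← Real.exp_add]
        apply Real.exp_le_exp.2
        nlinarith

/-- the number of the letters -/
theorem dq {z d : ℕ} (hz : 1 ≤ z) (hd : d ≤ z ^ 2) :
    ((d * z ^ 10 : ℕ) : ℝ) ≤ Real.exp (12 * Real.log z) := by
  have h1 : d * z ^ 10 ≤ z ^ 12 := by
    calc d * z ^ 10 ≤ z ^ 2 * z ^ 10 := Nat.mul_le_mul_right _ hd
      _ = z ^ 12 := by ring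
  have h2 := pow_eq hz 12
  push_cast at h2
  rw [← h2]
  exact_mod_cast h1

theorem exp_two : Real.exp (-2) ≤ 1 / 4 := by
  have h := Real.quadratic_le_exp_of_nonneg (show (0 : ℝ) ≤ 2 by norm_num)
  rw [Real.exp_neg, inv_eq_one_div]
  exact one_div_le_one_div_of_le (by norm_num) (by linarith)

/-- the sum of the terms -/
theorem tsum {z d : ℕ} (hz : (10 : ℝ) ^ 9 ≤ Real.log z) (hd : d ≤ z ^ 2) :
    Real.exp (-((z : ℝ) / 320000)) * (1 + Real.exp (-((z : ℝ) / 320000))) ^ (d * z ^ 10) ≤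
      1 / 4 := by
  obtain ⟨hz1, hz2⟩ := num hz
  set y : ℝ := Real.exp (-((z : ℝ) / 320000)) with hy
  have hy0 : 0 < y := Real.exp_pos _
  have h1 : (1 + y) ^ (d * z ^ 10) ≤ Real.exp 1 := by
    calc (1 + y) ^ (d * z ^ 10) ≤ Real.exp y ^ (d * z ^ 10) := by
          refine pow_le_pow_left₀ (by linarith) ?_ _
          have := Real.add_one_le_exp y
          linarith
      _ = Real.exp (((d * z ^ 10 : ℕ) : ℝ) * y) := (Real.exp_nat_mul _ _).symm
      _ ≤ Real.exp 1 := by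
          apply Real.exp_le_exp.2
          calc ((d * z ^ 10 : ℕ) : ℝ) * y ≤ Real.exp (12 * Real.log z) * y :=
                mul_le_mul_of_nonneg_right (dq hz1 hd) hy0.le
            _ = Real.exp (12 * Real.log z + -((z : ℝ) / 320000)) := by
                rw [hy, ← Real.exp_add]
            _ ≤ 1 := by
                apply Real.exp_le_one_iff.2
                linarith
  calc y * (1 + y) ^ (d * z ^ 10) ≤ y * Real.exp 1 := mul_le_mul_of_nonneg_left h1 hy0.le
    _ = Real.exp (-((z : ℝ) / 320000) + 1) := by rw [hy, ← Real.exp_add]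
    _ ≤ Real.exp (-2) := by
        apply Real.exp_le_exp.2
        linarith
    _ ≤ 1 / 4 := exp_two

/-- the unbalanced codes -/
theorem bal_num {z d : ℕ} (hz : (10 : ℝ) ^ 9 ≤ Real.log z) (hd : d ≤ z ^ 2) :
    ((d * z ^ 10 : ℕ) : ℝ) *
      Real.exp (-(((z ^ 16 : ℕ) : ℝ) / (3 * ((z ^ 10 : ℕ) : ℝ)))) ≤ 1 / 4 := by
  obtain ⟨hz1, hz2⟩ := num hz
  have h0 : (0 : ℝ) < z := by exact_mod_cast hz1
  have h1 : (1 : ℝ) ≤ z := by exact_mod_cast hz1
  have h2 : ((z ^ 16 : ℕ) : ℝ) / (3 * ((z ^ 10 : ℕ) : ℝ)) = (z : ℝ) ^ 6 / 3 := by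
    push_cast
    field_simp
  have h3 : (z : ℝ) ≤ (z : ℝ) ^ 6 := le_self_pow₀ h1 (by norm_num)
  rw [h2]
  calc ((d * z ^ 10 : ℕ) : ℝ) * Real.exp (-((z : ℝ) ^ 6 / 3)) ≤
        Real.exp (12 * Real.log z) * Real.exp (-((z : ℝ) ^ 6 / 3)) :=
        mul_le_mul_of_nonneg_right (dq hz1 hd) (Real.exp_pos _).le
    _ = Real.exp (12 * Real.log z + -((z : ℝ) ^ 6 / 3)) := (Real.exp_add _ _).symm
    _ ≤ Real.exp (-2) := by
        apply Real.exp_le_exp.2
        linarith
    _ ≤ 1 / 4 := exp_two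

end CODM

open CODM in
theorem COD_thm (hCOE : Stmt_COE) (hCOB : Stmt_COB) : Stmt_COD := by
  classical
  intro z d hz hd
  obtain ⟨hz1, hz2⟩ := num hz
  by_contra hcon
  push Not at hcon
  have hq : 0 < z ^ 10 := by positivity
  set Tot : ℝ := (((z ^ 10 : ℕ) : ℝ) ^ d) ^ (z ^ 16) with hTot
  have hT0 : 0 < Tot := by positivity
  -- the two families of bad sets
  set A : Fin d × Fin (z ^ 10) → Finset (Fin (z ^ 16) → Wo d (z ^ 10)) := fun p =>
    (univ : Finset (Fin (z ^ 16) → Wo d (z ^ 10))).filter fun β =>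
      2 * z ^ 16 < (univ.filter fun x => β x p.1 = p.2).card * z ^ 10 with hA
  set B : (Fin d → Finset (Fin (z ^ 10))) → Finset (Fin (z ^ 16) → Wo d (z ^ 10)) := fun T =>
    (univ : Finset (Fin (z ^ 16) → Wo d (z ^ 10))).filter fun β =>
      z ^ 11 < (univ.filter fun x =>
        ((univ.filter fun i => β x i ∈ T i).card : ℝ) * ((z ^ 10 : ℕ) : ℝ) ≤
          (1 - 1 / 200) * (∑ i, (T i).card : ℕ)).card with hB
  set F : Finset (Fin d → Finset (Fin (z ^ 10))) :=
    univ.filter fun T => z * z ^ 10 ≤ ∑ i, (T i).card with hF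
  have hcov : (univ : Finset (Fin (z ^ 16) → Wo d (z ^ 10))) ⊆ univ.biUnion A ∪ F.biUnion B := by
    intro β _
    by_contra hβ
    rw [Finset.mem_union, not_or] at hβ
    obtain ⟨h1, h2⟩ := hβ
    apply hcon β
    constructor
    · intro i t
      by_contra h
      apply h1
      rw [Finset.mem_biUnion]
      refine ⟨(i, t), Finset.mem_univ _, ?_⟩
      rw [hA]
      simp only [Finset.mem_filter, Finset.mem_univ, true_and]
      push Not at h
      convert h using 2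
    · intro T hT
      by_contra h
      apply h2
      rw [Finset.mem_biUnion]
      refine ⟨T, ?_, ?_⟩
      · rw [hF]
        exact Finset.mem_filter.2 ⟨Finset.mem_univ _, hT⟩
      · rw [hB]
        simp only [Finset.mem_filter, Finset.mem_univ, true_and]
        push Not at h
        convert h using 2
  have hcard : ((univ : Finset (Fin (z ^ 16) → Wo d (z ^ 10))).card : ℝ) = Tot := by
    rw [hTot]
    simp [Finset.card_univ]
  have hAc : ((univ.biUnion A).card : ℝ) ≤ 1 / 4 * Tot := by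
    have h1 : ((univ.biUnion A).card : ℝ) ≤ ∑ p : Fin d × Fin (z ^ 10), ((A p).card : ℝ) := by
      exact_mod_cast Finset.card_biUnion_le
    have h2 : ∀ p : Fin d × Fin (z ^ 10), ((A p).card : ℝ) ≤
        Real.exp (-(((z ^ 16 : ℕ) : ℝ) / (3 * ((z ^ 10 : ℕ) : ℝ)))) * Tot := by
      intro p
      have := hCOB d (z ^ 10) (z ^ 16) p.1 p.2
      rw [hA, hTot]
      convert this using 3
    calc ((univ.biUnion A).card : ℝ) ≤ ∑ p : Fin d × Fin (z ^ 10), ((A p).card : ℝ) := h1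
      _ ≤ ∑ _p : Fin d × Fin (z ^ 10),
            Real.exp (-(((z ^ 16 : ℕ) : ℝ) / (3 * ((z ^ 10 : ℕ) : ℝ)))) * Tot :=
          Finset.sum_le_sum fun p _ => h2 p
      _ = ((d * z ^ 10 : ℕ) : ℝ) *
            Real.exp (-(((z ^ 16 : ℕ) : ℝ) / (3 * ((z ^ 10 : ℕ) : ℝ)))) * Tot := by
          rw [Finset.sum_const, Finset.card_univ, Fintype.card_prod, Fintype.card_fin,
            Fintype.card_fin, nsmul_eq_mul, mul_assoc]
      _ ≤ 1 / 4 * Tot := mul_le_mul_of_nonneg_right (bal_num hz hd) hT0.le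
  have hBc : ((F.biUnion B).card : ℝ) ≤ 1 / 4 * Tot := by
    have h1 : ((F.biUnion B).card : ℝ) ≤ ∑ T ∈ F, ((B T).card : ℝ) := by
      exact_mod_cast Finset.card_biUnion_le
    have h2 : ∀ T ∈ F, ((B T).card : ℝ) ≤
        (Real.exp (-((z : ℝ) / 320000)) *
          Real.exp (-((z : ℝ) / 320000)) ^ (∑ i, (T i).card)) * Tot := by
      intro T hT
      have hT' : z * z ^ 10 ≤ ∑ i, (T i).card := (Finset.mem_filter.1 hT).2
      have h3 := hCOE d (z ^ 10) (z ^ 16) (z ^ 11) T (1 / 200) hq (by norm_num) (by norm_num)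
      have h4 : ((B T).card : ℝ) ≤ (((z ^ 16 : ℕ) : ℝ) * Real.exp (-((1 / 200 : ℝ) ^ 2 / 2) *
          ((∑ i, (T i).card : ℕ) : ℝ) / ((z ^ 10 : ℕ) : ℝ))) ^ (z ^ 11 + 1) * Tot := by
        rw [hB, hTot]
        convert h3 using 3
      exact h4.trans (mul_le_mul_of_nonneg_right (term hz hT') hT0.le)
    calc ((F.biUnion B).card : ℝ) ≤ ∑ T ∈ F, ((B T).card : ℝ) := h1
      _ ≤ ∑ T ∈ F, (Real.exp (-((z : ℝ) / 320000)) *
          Real.exp (-((z : ℝ) / 320000)) ^ (∑ i, (T i).card)) * Tot := Finset.sum_le_sum h2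
      _ ≤ ∑ T : Fin d → Finset (Fin (z ^ 10)), (Real.exp (-((z : ℝ) / 320000)) *
          Real.exp (-((z : ℝ) / 320000)) ^ (∑ i, (T i).card)) * Tot :=
          Finset.sum_le_sum_of_subset_of_nonneg (Finset.subset_univ _)
            fun T _ _ => by positivity
      _ = (Real.exp (-((z : ℝ) / 320000)) *
          (1 + Real.exp (-((z : ℝ) / 320000))) ^ (d * z ^ 10)) * Tot := by
          rw [← Finset.sum_mul, ← Finset.mul_sum, sum_fam]
      _ ≤ 1 / 4 * Tot := mul_le_mul_of_nonneg_right (tsum hz hd) hT0.le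
  have h5 : ((univ : Finset (Fin (z ^ 16) → Wo d (z ^ 10))).card : ℝ) ≤
      ((univ.biUnion A).card : ℝ) + ((F.biUnion B).card : ℝ) := by
    have := (Finset.card_le_card hcov).trans (Finset.card_union_le _ _)
    exact_mod_cast this
  rw [hcard] at h5
  linarith

end Pool.Agent.ANC
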