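import Pool.Agent.ANC.Stmts

/-!
# Module COE: few codes have many exceptional names
-/

set_option autoImplicit false

namespace Pool.Agent.ANC

open Finset

theorem COE_thm (hCHT : Stmt_CHT) : Stmt_COE := by
  classical
  intro d q N M T η hq h0 h1
  have hp := hCHT d q T η hq h0 h1
  set E : ℝ := Real.exp (-(η ^ 2 / 2) * ((∑ i, (T i).card : ℕ) : ℝ) / q) with hE
  have hE0 : 0 ≤ E := (Real.exp_pos _).le
  set S : Finset (Wo d q) := (univ : Finset (Wo d q)).filter fun w =>
    ((univ.filter fun i => w i ∈ T i).card : ℝ) * q ≤ (1 - η) * (∑ i, (T i).card : ℕ) with hS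
  have hsub : ((univ : Finset (Fin N → Wo d q)).filter fun β => M < (univ.filter fun x =>
      ((univ.filter fun i => β x i ∈ T i).card : ℝ) * q ≤
        (1 - η) * (∑ i, (T i).card : ℕ)).card) ⊆
      (powersetCard (M + 1) (univ : Finset (Fin N))).biUnion fun X =>
        Fintype.piFinset fun x => if x ∈ X then S else univ := by
    intro β hβ
    rw [mem_filter] at hβ
    obtain ⟨X, hX, hc⟩ := Finset.exists_subset_card_eq (Nat.succ_le_of_lt hβ.2)
    rw [mem_biUnion]
    refine ⟨X, mem_powersetCard.2 ⟨subset_univ _, hc⟩, ?_⟩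
    rw [Fintype.mem_piFinset]
    intro x
    by_cases hx : x ∈ X
    · rw [if_pos hx, hS, mem_filter]
      exact ⟨mem_univ _, (mem_filter.1 (hX hx)).2⟩
    · rw [if_neg hx]
      exact mem_univ _
  have hcard : ∀ X ∈ powersetCard (M + 1) (univ : Finset (Fin N)),
      ((Fintype.piFinset fun x => if x ∈ X then S else univ).card : ℝ) ≤
        E ^ (M + 1) * ((q : ℝ) ^ d) ^ N := by
    intro X hX
    rw [mem_powersetCard] at hX
    rw [Fintype.card_piFinset, Nat.cast_prod]
    have h2 : ∀ x ∈ (univ : Finset (Fin N)), (((if x ∈ X then S else univ).card : ℕ) : ℝ) ≤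
        (if x ∈ X then E else 1) * (q : ℝ) ^ d := by
      intro x _
      by_cases hx : x ∈ X
      · rw [if_pos hx, if_pos hx]
        exact hp
      · rw [if_neg hx, if_neg hx, one_mul]
        simp
    refine (Finset.prod_le_prod (fun _ _ => Nat.cast_nonneg _) h2).trans (le_of_eq ?_)
    rw [Finset.prod_mul_distrib, Finset.prod_ite_mem, Finset.univ_inter, Finset.prod_const,
      Finset.prod_const, hX.2, Finset.card_univ, Fintype.card_fin]
  calc (((univ : Finset (Fin N → Wo d q)).filter fun β => M < (univ.filter fun x =>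
        ((univ.filter fun i => β x i ∈ T i).card : ℝ) * q ≤
          (1 - η) * (∑ i, (T i).card : ℕ)).card).card : ℝ)
      ≤ (((powersetCard (M + 1) (univ : Finset (Fin N))).biUnion fun X =>
        Fintype.piFinset fun x => if x ∈ X then S else univ).card : ℝ) := by
        exact_mod_cast card_le_card hsub
    _ ≤ ∑ X ∈ powersetCard (M + 1) (univ : Finset (Fin N)),
        ((Fintype.piFinset fun x => if x ∈ X then S else univ).card : ℝ) := by
        exact_mod_cast card_biUnion_le
    _ ≤ ∑ X ∈ powersetCard (M + 1) (univ : Finset (Fin N)),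
        E ^ (M + 1) * ((q : ℝ) ^ d) ^ N := Finset.sum_le_sum hcard
    _ = (N.choose (M + 1) : ℝ) * (E ^ (M + 1) * ((q : ℝ) ^ d) ^ N) := by
        rw [Finset.sum_const, card_powersetCard, Finset.card_univ, Fintype.card_fin,
          nsmul_eq_mul]
    _ ≤ (N : ℝ) ^ (M + 1) * (E ^ (M + 1) * ((q : ℝ) ^ d) ^ N) := by
        refine mul_le_mul_of_nonneg_right ?_ (by positivity)
        exact_mod_cast Nat.choose_le_pow N (M + 1)
    _ = (N * E) ^ (M + 1) * ((q : ℝ) ^ d) ^ N := by
        rw [mul_pow, mul_assoc]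

end Pool.Agent.ANC
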