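import Pool.Agent.ANC.Stmts

/-!
# Triangle detection with several announcements: module DC1
-/

set_option autoImplicit false

namespace Pool.Agent.ANC

open Finset MeasureTheory

namespace DC1M

open Classical in
/-- The number of the elements is the sum of the marginals. -/
theorem card_eq {k : ℕ} {Z : Type} [Fintype Z] [DecidableEq Z] (S : Finset (Fin k → Z))
    (u : Fin k) : (S.card : ℝ) = ∑ x, marg S u x := by
  unfold marg
  rw [← Nat.cast_sum]
  congr 1
  exact Finset.card_eq_sum_card_fiberwise fun v _ => by simp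

theorem sum_ite {α : Type} [Fintype α] (S : Finset α) (f : α → ℝ)
    [inst : ∀ x, Decidable (x ∈ S)] :
    ∑ x, (if x ∈ S then f x else 0) = ∑ x ∈ S, f x := by
  rw [← Finset.sum_filter]
  congr 1
  ext
  simp

theorem Wm_insert {k K d N q : ℕ} (R : Finset (Fin k)) (u₀ : Fin k) (x₀ : Nm K N) :
    Wm d q (insert u₀ R) u₀ x₀ = Wm d q R u₀ x₀ := by
  unfold Wm
  refine Finset.filter_congr fun w _ => ?_
  refine and_congr_right fun _ => forall_congr' fun u => ?_
  refine imp_congr_right fun hu => ?_
  rw [Finset.mem_insert]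
  simp [hu]

end DC1M

open Classical in
theorem DC1_thm (hLOC : Stmt_LOC) (hMRG : Stmt_MRG) (hID1 : Stmt_ID1) (hID2 : Stmt_ID2) :
    Stmt_DC1 := by
  intro z k K d N q β Y hpar C _ P D C' u₀ R hR
  have hzpos : 0 < z := by
    rcases Nat.eq_zero_or_pos z with h | h
    · exfalso
      have h1 := hpar.hz
      rw [h, Nat.cast_zero, Real.log_zero] at h1
      norm_num at h1
    · exact h
  have hNpos : 0 < N := by rw [hpar.hN]; positivity
  let x₀ : Nm K N := fun _ => ⟨0, hNpos⟩
  set E : Fin k → Finset (Nm K N × Wo d q) := fun u => Ed β K (Y u) with hE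
  -- the two functions
  let a : C → Pub k K d N q → Nm K N → ℝ := fun c w x =>
    ((P c ∩ As E (Function.update w u₀ (Sum.inl x))).card : ℝ)
  let b : C → Pub k K d N q → Wo d q → ℝ := fun c w y =>
    ((D c ∩ Bs E (Function.update w u₀ (Sum.inr y))).card : ℝ)
  have ha0 : ∀ c w x, 0 ≤ a c w x := fun c w x => Nat.cast_nonneg _
  have hb0 : ∀ c w x, 0 ≤ b c w x := fun c w x => Nat.cast_nonneg _
  have key := fun (c : C) (w : Pub k K d N q) =>
    hLOC hpar u₀ (a c w) (b c w) (ha0 c w) (hb0 c w)
  -- the first sum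
  have S1 : ∀ c, ∑ w ∈ Wm d q R u₀ x₀, ∑ p ∈ E u₀, a c w p.1 * b c w p.2 =
      (((Om E).filter fun z => nms z ∈ P c ∧ wds z ∈ D c).card : ℝ) := by
    intro c
    have h := hID1 E R u₀ x₀ (P c) (D c) (E u₀) (fun _ => 1)
    simp only [one_mul, Finset.sum_const, nsmul_eq_mul, mul_one] at h
    rw [h]
    congr 2
    unfold Oy Om
    rw [Function.update_eq_self]
  -- the fourth sum
  have S4 : ∀ c, ∑ w ∈ Wm d q R u₀ x₀, ∑ p ∈ Al K N (Y u₀), (agr β p.1 p.2 : ℝ) *
      (a c w p.1 * b c w p.2) =
      ∑ z ∈ (Oy E u₀ (Al K N (Y u₀))).filter (fun z => nms z ∈ P c ∧ wds z ∈ D c),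
        (agr β (z u₀).1 (z u₀).2 : ℝ) := fun c =>
    hID1 E R u₀ x₀ (P c) (D c) (Al K N (Y u₀)) (fun p => (agr β p.1 p.2 : ℝ))
  -- the marginals
  have hmA : ∀ c w y, marg (P c ∩ As E (Function.update w u₀ (Sum.inr y))) u₀ =
      fun x => if (x, y) ∈ E u₀ then a c w x else 0 := fun c w y =>
    funext fun x => (hMRG E w u₀ (P c) (D c)).1 y x
  have hmB : ∀ c w x, marg (D c ∩ Bs E (Function.update w u₀ (Sum.inl x))) u₀ =
      fun y => if (x, y) ∈ E u₀ then b c w y else 0 := fun c w x =>
    funext fun y => (hMRG E w u₀ (P c) (D c)).2 x y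
  -- the second sum
  have S2 : ∀ c, ∑ w ∈ Wm d q R u₀ x₀, ∑ p ∈ (E u₀).filter (fun p => ¬GoodA (1 / 200) z β
        (fun x => if (x, p.2) ∈ E u₀ then a c w x else 0)), a c w p.1 * b c w p.2 =
      ∑ w ∈ (Wt K d N q (insert u₀ R)).filter (fun w => ¬GoodA (1 / 200) z β
        (marg (P c ∩ As E w) u₀)),
        ((P c ∩ As E w).card : ℝ) * (D c ∩ Bs E w).card := by
    intro c
    have h := (hID2 (insert u₀ R) u₀ x₀ (fun w : Pub k K d N q =>
      if ¬GoodA (1 / 200) z β (marg (P c ∩ As E w) u₀) then
        ((P c ∩ As E w).card : ℝ) * (D c ∩ Bs E w).card else 0)).1 (Finset.mem_insert_self _ _)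
    rw [DC1M.Wm_insert, ← Finset.sum_filter] at h
    rw [← h]
    refine Finset.sum_congr rfl fun w _ => ?_
    rw [Finset.sum_filter]
    have e1 : ∀ y, (if ¬GoodA (1 / 200) z β
        (marg (P c ∩ As E (Function.update w u₀ (Sum.inr y))) u₀) then
        ((P c ∩ As E (Function.update w u₀ (Sum.inr y))).card : ℝ) *
          (D c ∩ Bs E (Function.update w u₀ (Sum.inr y))).card else 0) =
        ∑ x, if (x, y) ∈ E u₀ then (if ¬GoodA (1 / 200) z β
          (fun x => if (x, y) ∈ E u₀ then a c w x else 0) then a c w x * b c w y else 0)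
          else 0 := by
      intro y
      rw [DC1M.card_eq _ u₀, hmA]
      by_cases hg : GoodA (1 / 200) z β (fun x => if (x, y) ∈ E u₀ then a c w x else 0)
      · simp only [hg, not_true_eq_false, if_false, ite_self, Finset.sum_const_zero]
      · simp only [hg, not_false_eq_true, if_true]
        rw [Finset.sum_mul]
        refine Finset.sum_congr rfl fun x _ => ?_
        by_cases hx : (x, y) ∈ E u₀
        · simp only [hx, if_true]
          rfl
        · simp only [hx, if_false, zero_mul]
    simp only [e1]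
    rw [Finset.sum_comm, ← Finset.sum_product' (s := univ) (t := univ)
      (f := fun x y => if (x, y) ∈ E u₀ then (if ¬GoodA (1 / 200) z β
          (fun x => if (x, y) ∈ E u₀ then a c w x else 0) then a c w x * b c w y else 0)
          else 0)]
    rw [Finset.univ_product_univ]
    exact (DC1M.sum_ite (E u₀) fun p => if ¬GoodA (1 / 200) z β
      (fun x => if (x, p.2) ∈ E u₀ then a c w x else 0) then a c w p.1 * b c w p.2 else 0).symm
  -- the third sum
  have S3 : ∀ c, ∑ w ∈ Wm d q R u₀ x₀, ∑ p ∈ (E u₀).filter (fun p => ¬GoodB (1 / 200) z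
        (fun y => if (p.1, y) ∈ E u₀ then b c w y else 0)), a c w p.1 * b c w p.2 =
      ∑ w ∈ (Wt K d N q R).filter (fun w => ¬GoodB (1 / 200) z
        (marg (D c ∩ Bs E w) u₀)),
        ((P c ∩ As E w).card : ℝ) * (D c ∩ Bs E w).card := by
    intro c
    have h := (hID2 R u₀ x₀ (fun w : Pub k K d N q =>
      if ¬GoodB (1 / 200) z (marg (D c ∩ Bs E w) u₀) then
        ((P c ∩ As E w).card : ℝ) * (D c ∩ Bs E w).card else 0)).2 hR
    rw [← Finset.sum_filter] at h
    rw [← h]
    refine Finset.sum_congr rfl fun w _ => ?_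
    rw [Finset.sum_filter]
    have e1 : ∀ x, (if ¬GoodB (1 / 200) z
        (marg (D c ∩ Bs E (Function.update w u₀ (Sum.inl x))) u₀) then
        ((P c ∩ As E (Function.update w u₀ (Sum.inl x))).card : ℝ) *
          (D c ∩ Bs E (Function.update w u₀ (Sum.inl x))).card else 0) =
        ∑ y, if (x, y) ∈ E u₀ then (if ¬GoodB (1 / 200) z
          (fun y => if (x, y) ∈ E u₀ then b c w y else 0) then a c w x * b c w y else 0)
          else 0 := by
      intro x
      rw [DC1M.card_eq (D c ∩ _) u₀, hmB]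
      by_cases hg : GoodB (1 / 200) z (fun y => if (x, y) ∈ E u₀ then b c w y else 0)
      · simp only [hg, not_true_eq_false, if_false, ite_self, Finset.sum_const_zero]
      · simp only [hg, not_false_eq_true, if_true]
        rw [Finset.mul_sum]
        refine Finset.sum_congr rfl fun y _ => ?_
        by_cases hx : (x, y) ∈ E u₀
        · simp only [hx, if_true]
          rfl
        · simp only [hx, if_false, mul_zero]
    simp only [e1]
    rw [← Finset.sum_product' (s := univ) (t := univ)
      (f := fun x y => if (x, y) ∈ E u₀ then (if ¬GoodB (1 / 200) z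
          (fun y => if (x, y) ∈ E u₀ then b c w y else 0) then a c w x * b c w y else 0)
          else 0)]
    rw [Finset.univ_product_univ]
    exact (DC1M.sum_ite (E u₀) fun p => if ¬GoodB (1 / 200) z
      (fun y => if (p.1, y) ∈ E u₀ then b c w y else 0) then a c w p.1 * b c w p.2 else 0).symm
  -- the sum over `c` and `w`
  have hsum := Finset.sum_le_sum (s := C') fun c _ =>
    Finset.sum_le_sum (s := Wm d q R u₀ x₀) fun w _ => key c w
  simp only [← Finset.sum_mul, Finset.sum_sub_distrib, ← Finset.mul_sum,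
    Finset.sum_add_distrib] at hsum
  have T1 := Finset.sum_congr (rfl : C' = C') fun c _ => S1 c
  have T2 := Finset.sum_congr (rfl : C' = C') fun c _ => S2 c
  have T3 := Finset.sum_congr (rfl : C' = C') fun c _ => S3 c
  have T4 := Finset.sum_congr (rfl : C' = C') fun c _ => S4 c
  rw [← T1, ← T2, ← T3, ← T4]
  exact hsum

end Pool.Agent.ANC
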