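import Pool.Agent.ANC.Stmts

/-!
# ANC, module DCA: the bad vertices on the side of the names
-/

set_option autoImplicit false

namespace Pool.Agent.ANC.DCAM

open Finset

/-- Exchange of the sums. -/
lemma exch {ι C W : Type} (R : Finset ι) (C' : Finset C) (S : Finset W) (g : C → W → ℝ)
    (B : C → W → ι → Prop) [∀ c w u, Decidable (B c w u)] :
    ∑ u ∈ R, ∑ c ∈ C', ∑ w ∈ S.filter (fun w => B c w u), g c w =
      ∑ c ∈ C', ∑ w ∈ S, g c w * ((R.filter fun u => B c w u).card : ℝ) := by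
  rw [Finset.sum_comm]
  refine Finset.sum_congr rfl fun c _ => ?_
  simp_rw [Finset.sum_filter]
  rw [Finset.sum_comm]
  refine Finset.sum_congr rfl fun w _ => ?_
  rw [← Finset.sum_filter, Finset.sum_const, nsmul_eq_mul, mul_comm]

/-- The abstract estimate. -/
lemma bound {ι C W : Type} (R : Finset ι) (C' : Finset C) (S : Finset W) (g : C → W → ℝ)
    (B : C → W → ι → Prop) [∀ c w u, Decidable (B c w u)] (sm : C → W → Prop)
    [∀ c w, Decidable (sm c w)] (k : ℝ) (hk : 0 ≤ k) (hg : ∀ c w, 0 ≤ g c w)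
    (hR : (R.card : ℝ) ≤ k)
    (h : ∀ c, ∀ w ∈ S, g c w ≠ 0 → ¬ sm c w → ((R.filter fun u => B c w u).card : ℝ) ≤ k / 1000) :
    ∑ u ∈ R, ∑ c ∈ C', ∑ w ∈ S.filter (fun w => B c w u), g c w ≤
      k / 1000 * ∑ c ∈ C', ∑ w ∈ S, g c w +
        k * ∑ c ∈ C', ∑ w ∈ S.filter (fun w => sm c w), g c w := by
  rw [exch, Finset.mul_sum, Finset.mul_sum, ← Finset.sum_add_distrib]
  refine Finset.sum_le_sum fun c _ => ?_
  rw [Finset.mul_sum, Finset.mul_sum, Finset.sum_filter, ← Finset.sum_add_distrib]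
  refine Finset.sum_le_sum fun w hw => ?_
  have hg0 := hg c w
  by_cases h0 : g c w = 0
  · simp [h0]
  by_cases hs : sm c w
  · rw [if_pos hs]
    have h1 : ((R.filter fun u => B c w u).card : ℝ) ≤ k :=
      le_trans (by exact_mod_cast Finset.card_le_card (Finset.filter_subset _ _)) hR
    have h2 : g c w * ((R.filter fun u => B c w u).card : ℝ) ≤ g c w * k :=
      mul_le_mul_of_nonneg_left h1 hg0
    have h3 : 0 ≤ k / 1000 * g c w := by positivity
    nlinarith
  · rw [if_neg hs]
    have h2 := mul_le_mul_of_nonneg_left (h c w hw h0 hs) hg0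
    nlinarith

lemma exp_le : Real.exp (-10 : ℝ) ≤ 1 / 20000 := by
  have h1 : (2.7 : ℝ) ≤ Real.exp 1 := by
    have := Real.exp_one_gt_d9
    linarith
  have h2 : (20000 : ℝ) ≤ Real.exp 10 := by
    have h3 : Real.exp 10 = Real.exp 1 ^ 10 := by
      rw [← Real.exp_nat_mul]
      norm_num
    rw [h3]
    calc (20000 : ℝ) ≤ 2.7 ^ 10 := by norm_num
      _ ≤ Real.exp 1 ^ 10 := pow_le_pow_left₀ (by norm_num) h1 10
  rw [Real.exp_neg, ← one_div]
  exact one_div_le_one_div_of_le (by norm_num) h2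

open Classical in
/-- The rectangles are disjoint. -/
lemma disj {C Z : Type} (C' : Finset C) (O : Finset Z) (F : C → Z → Prop)
    [∀ c z, Decidable (F c z)]
    (h : ∀ c c' z, F c z → F c' z → c = c') :
    ∑ c ∈ C', ((O.filter fun z => F c z).card : ℝ) ≤ O.card := by
  have h1 : ∑ c ∈ C', (O.filter fun z => F c z).card =
      (C'.biUnion fun c => O.filter fun z => F c z).card := by
    rw [Finset.card_biUnion]
    intro c _ c' _ hcc
    rw [Function.onFun, Finset.disjoint_left]
    intro z hz hz'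
    exact hcc (h c c' z (Finset.mem_filter.1 hz).2 (Finset.mem_filter.1 hz').2)
  have h2 : (C'.biUnion fun c => O.filter fun z => F c z).card ≤ O.card := by
    refine Finset.card_le_card fun z hz => ?_
    obtain ⟨c, _, hc⟩ := Finset.mem_biUnion.1 hz
    exact (Finset.mem_filter.1 hc).1
  exact_mod_cast h1 ▸ h2

end Pool.Agent.ANC.DCAM

namespace Pool.Agent.ANC

open Finset MeasureTheory

theorem DCA_thm (hSAA : Stmt_SAA) (hSML : Stmt_SML) (hID0 : Stmt_ID0) : Stmt_DCA := by
  classical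
  intro z k K d N q β Y hpar C _ P D a₀ hdis hy ha C' R
  have hB := DCAM.bound R C' (Wt K d N q R)
    (fun c w => ((P c ∩ As (fun u => Ed β K (Y u)) w).card : ℝ) *
      (D c ∩ Bs (fun u => Ed β K (Y u)) w).card)
    (fun c w u₀ => ¬GoodA (1 / 200) z β (marg (P c ∩ As (fun u => Ed β K (Y u)) w) u₀))
    (fun c w => ((P c ∩ As (fun u => Ed β K (Y u)) w).card : ℝ) <
      Real.exp (-(a₀ + 10)) * (As (fun u => Ed β K (Y u)) w).card) (k : ℝ) (by positivity)
    (fun c w => by positivity)
    (by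
      have := Finset.card_le_univ R
      rw [Fintype.card_fin] at this
      exact_mod_cast this)
    (by
      intro c w hw h0 hs
      have hne : (P c ∩ As (fun u => Ed β K (Y u)) w).Nonempty := by
        rw [Finset.nonempty_iff_ne_empty]
        intro he
        apply h0
        simp [he]
      have h1 := hSAA hpar (P c) w (a₀ + 10) ha hne (not_lt.1 hs)
      refine le_trans ?_ h1
      have hsub : (R.filter fun u₀ =>
          ¬GoodA (1 / 200) z β (marg (P c ∩ As (fun u => Ed β K (Y u)) w) u₀)) ⊆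
          (univ.filter fun u => (w u).isRight = true ∧
            ¬GoodA (1 / 200) z β (marg (P c ∩ As (fun u => Ed β K (Y u)) w) u)) := by
        intro u hu
        rw [Finset.mem_filter] at hu ⊢
        have hT : Typ R w := (Finset.mem_filter.1 hw).2
        exact ⟨Finset.mem_univ _, (hT u).2 hu.1, hu.2⟩
      exact_mod_cast Finset.card_le_card hsub)
  have hS := (hSML (fun u => Ed β K (Y u)) R C P D a₀ (a₀ + 10)).1 hy
  have hI : ∑ c ∈ C', ∑ w ∈ Wt K d N q R, (((P c ∩ As (fun u => Ed β K (Y u)) w).card : ℝ) *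
      (D c ∩ Bs (fun u => Ed β K (Y u)) w).card) ≤ ((Om fun u => Ed β K (Y u)).card : ℝ) := by
    have h1 : ∀ c ∈ C', ∑ w ∈ Wt K d N q R,
        (((P c ∩ As (fun u => Ed β K (Y u)) w).card : ℝ) *
          (D c ∩ Bs (fun u => Ed β K (Y u)) w).card) =
        (((Om fun u => Ed β K (Y u)).filter fun z => nms z ∈ P c ∧ wds z ∈ D c).card : ℝ) := by
      intro c _
      have h2 := congrArg (fun n : ℕ => (n : ℝ)) (hID0 (fun u => Ed β K (Y u)) R (P c) (D c))
      simp only [Nat.cast_sum, Nat.cast_mul] at h2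
      exact h2
    rw [Finset.sum_congr rfl h1]
    exact DCAM.disj C' _ (fun c z => nms z ∈ P c ∧ wds z ∈ D c)
      (fun c c' z h h' => hdis c c' _ _ h.1 h.2 h'.1 h'.2)
  have hS2 : ∑ c ∈ C', ∑ w ∈ (Wt K d N q R).filter (fun w =>
      ((P c ∩ As (fun u => Ed β K (Y u)) w).card : ℝ) <
        Real.exp (-(a₀ + 10)) * (As (fun u => Ed β K (Y u)) w).card),
      (((P c ∩ As (fun u => Ed β K (Y u)) w).card : ℝ) *
        (D c ∩ Bs (fun u => Ed β K (Y u)) w).card) ≤
      1 / 20000 * ((Om fun u => Ed β K (Y u)).card : ℝ) := by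
    refine le_trans (Finset.sum_le_sum_of_subset_of_nonneg (Finset.subset_univ C')
      (fun c _ _ => Finset.sum_nonneg fun w _ => by positivity)) ?_
    refine le_trans hS ?_
    have : a₀ - (a₀ + 10) = -10 := by ring
    rw [this]
    exact mul_le_mul_of_nonneg_right DCAM.exp_le (by positivity)
  refine le_trans ?_ (le_trans hB ?_)
  · apply le_of_eq
    congr!
  · have hk0 : (0 : ℝ) ≤ k := by positivity
    have h1 := mul_le_mul_of_nonneg_left hI (div_nonneg hk0 (by norm_num : (0 : ℝ) ≤ 1000))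
    have h2 := mul_le_mul_of_nonneg_left hS2 hk0
    refine le_trans (add_le_add h1 h2) (le_of_eq ?_)
    ring

end Pool.Agent.ANC
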