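import Pool.Agent.ANC.Stmts

/-!
# Triangle detection with several announcements: the bad vertices on the side of the words (DCB)
-/

set_option autoImplicit false

namespace Pool.Agent.ANC

open Finset

namespace DCBM

theorem exp_ten : Real.exp (-10) ≤ 1 / 20000 := by
  have h1 : (20000 : ℝ) ≤ Real.exp 10 := by
    have h2 : Real.exp 10 = Real.exp 1 ^ 10 := by
      rw [← Real.exp_nat_mul]
      norm_num
    rw [h2]
    have h3 : (2.718 : ℝ) ≤ Real.exp 1 := by
      have := Real.exp_one_gt_d9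
      linarith
    calc (20000 : ℝ) ≤ 2.718 ^ 10 := by norm_num
      _ ≤ Real.exp 1 ^ 10 := pow_le_pow_left₀ (by norm_num) h3 10
  rw [Real.exp_neg, ← one_div]
  exact one_div_le_one_div_of_le (by norm_num) h1

open Classical in
/-- The total weight of disjoint rectangles. -/
theorem total (hID0 : Stmt_ID0) {k K d N q : ℕ} (E : Fin k → Finset (Nm K N × Wo d q))
    (R : Finset (Fin k)) (C : Type) (P : C → Finset (Fin k → Nm K N))
    (D : C → Finset (Fin k → Wo d q))
    (hdisj : ∀ c c' x y, x ∈ P c → y ∈ D c → x ∈ P c' → y ∈ D c' → c = c') (C' : Finset C) :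
    ∑ c ∈ C', ∑ w ∈ Wt K d N q R, ((P c ∩ As E w).card : ℝ) * (D c ∩ Bs E w).card ≤
      (Om E).card := by
  have h1 : ∀ c, ∑ w ∈ Wt K d N q R, ((P c ∩ As E w).card : ℝ) * (D c ∩ Bs E w).card =
      (((Om E).filter fun z => nms z ∈ P c ∧ wds z ∈ D c).card : ℝ) := by
    intro c
    rw [← hID0 E R (P c) (D c)]
    push_cast
    rfl
  rw [Finset.sum_congr rfl fun c _ => h1 c]
  rw [← Nat.cast_sum]
  have h2 : ∑ c ∈ C', ((Om E).filter fun z => nms z ∈ P c ∧ wds z ∈ D c).card ≤ (Om E).card := by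
    rw [← Finset.card_biUnion]
    · refine Finset.card_le_card ?_
      intro z hz
      obtain ⟨c, -, hc⟩ := Finset.mem_biUnion.1 hz
      exact (Finset.mem_filter.1 hc).1
    · intro c _ c' _ hne
      rw [Function.onFun, Finset.disjoint_left]
      intro z hz hz'
      obtain ⟨-, h3, h4⟩ := Finset.mem_filter.1 hz
      obtain ⟨-, h5, h6⟩ := Finset.mem_filter.1 hz'
      exact hne (hdisj c c' _ _ h3 h4 h5 h6)
  exact_mod_cast h2

end DCBM

open Classical in
/-- DCB: the bad vertices on the side of the words. -/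
theorem DCB_thm (hSBB : Stmt_SBB) (hSML : Stmt_SML) (hID0 : Stmt_ID0) : Stmt_DCB := by
  intro z k K d N q β Y hPar C _ P D a₀ hdisj hsm ha C' R
  obtain ⟨E, hE⟩ : ∃ E : Fin k → Finset (Nm K N × Wo d q), E = fun u => Ed β K (Y u) := ⟨_, rfl⟩
  have hsbb := hSBB hPar
  rw [← hE] at hsbb ⊢
  have hAB : ∀ c w, 0 ≤ ((P c ∩ As E w).card : ℝ) * (D c ∩ Bs E w).card := fun c w => by
    positivity
  have hk0 : (0 : ℝ) ≤ k := Nat.cast_nonneg k
  -- one rectangle and one public part
  have h1 : ∀ c, ∀ w ∈ Wt K d N q R, (∑ u₀ ∈ Rᶜ,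
      if ¬GoodB (1 / 200) z (marg (D c ∩ Bs E w) u₀) then
        ((P c ∩ As E w).card : ℝ) * (D c ∩ Bs E w).card else 0) ≤
      (k / 1000) * (((P c ∩ As E w).card : ℝ) * (D c ∩ Bs E w).card) +
        k * (if ((D c ∩ Bs E w).card : ℝ) < Real.exp (-(a₀ + 10)) * (Bs E w).card then
          ((P c ∩ As E w).card : ℝ) * (D c ∩ Bs E w).card else 0) := by
    intro c w hw
    have hTyp : Typ R w := (Finset.mem_filter.1 hw).2
    rw [← Finset.sum_filter, Finset.sum_const, nsmul_eq_mul]
    have hle : (((Rᶜ.filter fun u₀ => ¬GoodB (1 / 200) z (marg (D c ∩ Bs E w) u₀)).card : ℕ) : ℝ) ≤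
        ((univ.filter fun u => (w u).isLeft = true ∧
          ¬GoodB (1 / 200) z (marg (D c ∩ Bs E w) u)).card : ℝ) := by
      have : (Rᶜ.filter fun u₀ => ¬GoodB (1 / 200) z (marg (D c ∩ Bs E w) u₀)).card ≤
          (univ.filter fun u => (w u).isLeft = true ∧
          ¬GoodB (1 / 200) z (marg (D c ∩ Bs E w) u)).card := by
        refine Finset.card_le_card fun u hu => ?_
        obtain ⟨hu1, hu2⟩ := Finset.mem_filter.1 hu
        refine Finset.mem_filter.2 ⟨Finset.mem_univ _, ?_, hu2⟩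
        have h2 : ¬ (w u).isRight = true := fun h => (Finset.mem_compl.1 hu1) ((hTyp u).1 h)
        cases hwu : w u with
        | inl x => rfl
        | inr y =>
          rw [hwu] at h2
          exact absurd rfl h2
      exact_mod_cast this
    have hlek : ((univ.filter fun u => (w u).isLeft = true ∧
          ¬GoodB (1 / 200) z (marg (D c ∩ Bs E w) u)).card : ℝ) ≤ k := by
      have : (univ.filter fun u => (w u).isLeft = true ∧
          ¬GoodB (1 / 200) z (marg (D c ∩ Bs E w) u)).card ≤ k := by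
        refine (Finset.card_le_univ _).trans ?_
        rw [Fintype.card_fin]
      exact_mod_cast this
    by_cases hsmall : ((D c ∩ Bs E w).card : ℝ) < Real.exp (-(a₀ + 10)) * (Bs E w).card
    · rw [if_pos hsmall]
      have h2 := mul_le_mul_of_nonneg_right (hle.trans hlek) (hAB c w)
      have h3 : 0 ≤ (k / 1000 : ℝ) * (((P c ∩ As E w).card : ℝ) * (D c ∩ Bs E w).card) :=
        mul_nonneg (by positivity) (hAB c w)
      linarith
    · rw [if_neg hsmall, mul_zero, add_zero]
      rcases Finset.eq_empty_or_nonempty (D c ∩ Bs E w) with he | hne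
      · rw [he, Finset.card_empty, Nat.cast_zero, mul_zero, mul_zero, mul_zero]
      · have h2 := hsbb (D c) w (a₀ + 10) ha hne (not_lt.1 hsmall)
        exact mul_le_mul_of_nonneg_right (hle.trans h2) (hAB c w)
  have hsml := (hSML E R C P D a₀ (a₀ + 10)).2 hsm
  have he10 : a₀ - (a₀ + 10) = -10 := by ring
  rw [he10] at hsml
  have htot := DCBM.total hID0 E R C P D hdisj C'
  have hOm : (0 : ℝ) ≤ (Om E).card := Nat.cast_nonneg _
  calc ∑ u₀ ∈ Rᶜ, ∑ c ∈ C', ∑ w ∈ (Wt K d N q R).filter (fun w => ¬GoodB (1 / 200) z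
      (marg (D c ∩ Bs E w) u₀)), ((P c ∩ As E w).card : ℝ) * (D c ∩ Bs E w).card
      = ∑ c ∈ C', ∑ w ∈ Wt K d N q R, ∑ u₀ ∈ Rᶜ,
        (if ¬GoodB (1 / 200) z (marg (D c ∩ Bs E w) u₀) then
        ((P c ∩ As E w).card : ℝ) * (D c ∩ Bs E w).card else 0) := by
        rw [Finset.sum_comm]
        refine Finset.sum_congr rfl fun c _ => ?_
        rw [Finset.sum_comm]
        exact Finset.sum_congr rfl fun u₀ _ => Finset.sum_filter _ _
    _ ≤ ∑ c ∈ C', ∑ w ∈ Wt K d N q R,
        ((k / 1000) * (((P c ∩ As E w).card : ℝ) * (D c ∩ Bs E w).card) +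
        k * (if ((D c ∩ Bs E w).card : ℝ) < Real.exp (-(a₀ + 10)) * (Bs E w).card then
          ((P c ∩ As E w).card : ℝ) * (D c ∩ Bs E w).card else 0)) :=
        Finset.sum_le_sum fun c _ => Finset.sum_le_sum fun w hw => h1 c w hw
    _ = (k / 1000) * (∑ c ∈ C', ∑ w ∈ Wt K d N q R,
          ((P c ∩ As E w).card : ℝ) * (D c ∩ Bs E w).card) +
        k * (∑ c ∈ C', ∑ w ∈ (Wt K d N q R).filter (fun w =>
          ((D c ∩ Bs E w).card : ℝ) < Real.exp (-(a₀ + 10)) * (Bs E w).card),
          ((P c ∩ As E w).card : ℝ) * (D c ∩ Bs E w).card) := by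
        simp only [Finset.sum_add_distrib, ← Finset.mul_sum, Finset.sum_filter]
    _ ≤ (k / 1000) * (Om E).card + k * (1 / 20000 * (Om E).card) := by
        refine add_le_add (mul_le_mul_of_nonneg_left htot (by positivity))
          (mul_le_mul_of_nonneg_left ?_ hk0)
        refine (Finset.sum_le_sum_of_subset_of_nonneg (Finset.subset_univ C')
          fun c _ _ => Finset.sum_nonneg fun w _ => hAB c w).trans (hsml.trans ?_)
        exact mul_le_mul_of_nonneg_right DCBM.exp_ten hOm
    _ = k * (21 / 20000) * (Om E).card := by ring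

end Pool.Agent.ANC
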