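import Pool.Agent.ANC.Stmts

/-!
# Module DEC: decoupling
-/

set_option autoImplicit false

namespace Pool.Agent.ANC

open Finset MeasureTheory

namespace DECM

theorem ins_sum {k : ℕ} (u₀ : Fin k) (f : Finset (Fin k) → ℝ) :
    ∑ R ∈ univ.filter (fun R : Finset (Fin k) => u₀ ∈ R), f R =
      ∑ R ∈ univ.filter (fun R : Finset (Fin k) => u₀ ∉ R), f (insert u₀ R) := by
  refine Finset.sum_nbij' (fun R => R.erase u₀) (fun R => insert u₀ R) ?_ ?_ ?_ ?_ ?_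
  · intro R _
    simp
  · intro R _
    simp
  · intro R hR
    exact Finset.insert_erase (Finset.mem_filter.1 hR).2
  · intro R hR
    exact Finset.erase_insert (Finset.mem_filter.1 hR).2
  · intro R hR
    rw [Finset.insert_erase (Finset.mem_filter.1 hR).2]

theorem card_notin {k : ℕ} (u₀ : Fin k) :
    2 * ((univ.filter fun R : Finset (Fin k) => u₀ ∉ R).card : ℝ) = 2 ^ k := by
  have h1 := ins_sum u₀ (fun _ => (1 : ℝ))
  simp only [Finset.sum_const, nsmul_eq_mul, mul_one] at h1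
  have h2 := Finset.card_filter_add_card_filter_not (s := (univ : Finset (Finset (Fin k))))
    (fun R : Finset (Fin k) => u₀ ∈ R)
  rw [Finset.card_univ, Fintype.card_finset, Fintype.card_fin] at h2
  have h3 : ((univ.filter fun R : Finset (Fin k) => u₀ ∈ R).card : ℝ) +
      ((univ.filter fun R : Finset (Fin k) => u₀ ∉ R).card : ℝ) = 2 ^ k := by
    exact_mod_cast h2
  linarith

theorem swap {k : ℕ} (f : Finset (Fin k) → Fin k → ℝ) :
    ∑ u₀ : Fin k, ∑ R ∈ univ.filter (fun R : Finset (Fin k) => u₀ ∈ R), f R u₀ =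
      ∑ R : Finset (Fin k), ∑ u₀ ∈ R, f R u₀ := by
  refine Finset.sum_comm' ?_
  intro x y
  simp

theorem swap' {k : ℕ} (f : Finset (Fin k) → Fin k → ℝ) :
    ∑ u₀ : Fin k, ∑ R ∈ univ.filter (fun R : Finset (Fin k) => u₀ ∉ R), f R u₀ =
      ∑ R : Finset (Fin k), ∑ u₀ ∈ Rᶜ, f R u₀ := by
  refine Finset.sum_comm' ?_
  intro x y
  simp

theorem average {k : ℕ} (hk : 1 ≤ k) (α γ : Finset (Fin k) → Fin k → ℝ) (V : Fin k → ℝ)
    (S O : ℝ) (hO : 0 ≤ O)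
    (h1 : ∀ u₀ R, u₀ ∉ R → 47 / 50 * S - 4 * (α (insert u₀ R) u₀ + γ R u₀) ≤ V u₀)
    (h2 : ∀ R, ∑ u₀ ∈ R, α R u₀ ≤ k * (21 / 20000) * O)
    (h3 : ∀ R, ∑ u₀ ∈ Rᶜ, γ R u₀ ≤ k * (21 / 20000) * O) :
    47 / 50 * S - 1 / 50 * O ≤ (∑ u₀, V u₀) / k := by
  have hk0 : (0 : ℝ) < k := by exact_mod_cast hk
  have hp : (0 : ℝ) < 2 ^ k := by positivity
  have e1 : ∑ u₀ : Fin k, ∑ R ∈ univ.filter (fun R : Finset (Fin k) => u₀ ∉ R),
      (47 / 50 * S - 4 * (α (insert u₀ R) u₀ + γ R u₀)) ≤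
      ∑ u₀ : Fin k, ∑ R ∈ univ.filter (fun R : Finset (Fin k) => u₀ ∉ R), V u₀ :=
    Finset.sum_le_sum fun u₀ _ => Finset.sum_le_sum fun R hR =>
      h1 u₀ R (Finset.mem_filter.1 hR).2
  have e2 : ∑ u₀ : Fin k, ∑ R ∈ univ.filter (fun R : Finset (Fin k) => u₀ ∉ R), V u₀ =
      2 ^ k / 2 * ∑ u₀, V u₀ := by
    rw [Finset.mul_sum]
    refine Finset.sum_congr rfl fun u₀ _ => ?_
    rw [Finset.sum_const, nsmul_eq_mul]
    have := card_notin u₀
    congr 1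
    linarith
  have e3 : ∑ u₀ : Fin k, ∑ R ∈ univ.filter (fun R : Finset (Fin k) => u₀ ∉ R),
      (47 / 50 * S - 4 * (α (insert u₀ R) u₀ + γ R u₀)) =
      k * (2 ^ k / 2) * (47 / 50 * S) - 4 * (∑ R : Finset (Fin k), ∑ u₀ ∈ R, α R u₀ +
        ∑ R : Finset (Fin k), ∑ u₀ ∈ Rᶜ, γ R u₀) := by
    rw [← swap α, ← swap' γ, ← Finset.sum_add_distrib, Finset.mul_sum]
    have h4 : (k : ℝ) * (2 ^ k / 2) * (47 / 50 * S) =
        ∑ u₀ : Fin k, ∑ R ∈ univ.filter (fun R : Finset (Fin k) => u₀ ∉ R), 47 / 50 * S := by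
      have h5 : ∀ u₀ : Fin k, ∑ R ∈ univ.filter (fun R : Finset (Fin k) => u₀ ∉ R),
          47 / 50 * S = 2 ^ k / 2 * (47 / 50 * S) := by
        intro u₀
        rw [Finset.sum_const, nsmul_eq_mul]
        have := card_notin u₀
        congr 1
        linarith
      simp only [h5]
      rw [Finset.sum_const, nsmul_eq_mul, Finset.card_univ, Fintype.card_fin, mul_assoc]
    rw [h4, ← Finset.sum_sub_distrib]
    refine Finset.sum_congr rfl fun u₀ _ => ?_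
    rw [ins_sum u₀ (fun R => α R u₀), ← Finset.sum_add_distrib, Finset.mul_sum,
      ← Finset.sum_sub_distrib]
  have hc : ((univ : Finset (Finset (Fin k))).card : ℝ) = 2 ^ k := by
    rw [Finset.card_univ, Fintype.card_finset, Fintype.card_fin]
    push_cast
    rfl
  have e4 : ∑ R : Finset (Fin k), ∑ u₀ ∈ R, α R u₀ ≤ 2 ^ k * (k * (21 / 20000) * O) := by
    refine (Finset.sum_le_sum fun R _ => h2 R).trans ?_
    rw [Finset.sum_const, nsmul_eq_mul, hc]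
  have e5 : ∑ R : Finset (Fin k), ∑ u₀ ∈ Rᶜ, γ R u₀ ≤ 2 ^ k * (k * (21 / 20000) * O) := by
    refine (Finset.sum_le_sum fun R _ => h3 R).trans ?_
    rw [Finset.sum_const, nsmul_eq_mul, hc]
  rw [e2, e3] at e1
  rw [le_div_iff₀ hk0]
  have e6 : (2 ^ k / 2) * ((47 / 50 * S - 1 / 50 * O) * k) ≤ 2 ^ k / 2 * ∑ u₀, V u₀ := by
    refine le_trans ?_ e1
    have h6 : (0 : ℝ) ≤ 2 ^ k * (k * O) := by positivity
    nlinarith
  exact le_of_mul_le_mul_left e6 (by positivity)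

theorem aux {a b t x : ℝ} (ht : 0 < t) (h : a * t ≤ x * b) : a ≤ b / t * x := by
  rw [div_mul_eq_mul_div, le_div_iff₀ ht, mul_comm b x]
  exact h

end DECM

theorem DEC_thm (hSIZ : Stmt_SIZ) (hDCA : Stmt_DCA) (hDCB : Stmt_DCB) (hDC1 : Stmt_DC1) :
    Stmt_DEC := by
  intro z k K d N q β Y hPar C _ P D a₀ b₀ hdis hPa hDb ha hb C'
  classical
  have hsiz := (hSIZ hPar).1
  refine (DECM.average hPar.hk _ _
    (fun u₀ => ((Ed β K (Y u₀)).card : ℝ) / (tot β K (Y u₀) : ℝ) *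
      ∑ c ∈ C', ∑ z ∈ (Oy (fun u => Ed β K (Y u)) u₀ (Al K N (Y u₀))).filter
        (fun z => nms z ∈ P c ∧ wds z ∈ D c), (agr β (z u₀).1 (z u₀).2 : ℝ))
    _ _ (Nat.cast_nonneg _) ?_
    (fun R => hDCA hPar C P D a₀ hdis hPa ha C' R)
    (fun R => hDCB hPar C P D b₀ hdis hDb hb C' R)).trans (le_of_eq ?_)
  · intro u₀ R hu
    have h1 := hDC1 hPar C P D C' u₀ R hu
    have ht : (0 : ℝ) < (tot β K (Y u₀) : ℝ) := by exact_mod_cast (hsiz u₀).2.2.1
    exact DECM.aux ht h1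
  · unfold yes
    rw [← Finset.sum_div]
    congr 1
    rw [Finset.sum_comm]
    refine Finset.sum_congr rfl fun u₀ _ => ?_
    rw [Finset.mul_sum]
    refine Finset.sum_congr rfl fun c _ => ?_
    congr!

end Pool.Agent.ANC
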