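import Mathlib

/-!
# Triangle detection with several announcements: definitions

A machine reads the edges of a graph in phases and announces after each phase whether the edges
read so far contain a triangle. A phase is a finite computation (`Comp`) which accesses registers
(addresses `A`, contents `Γ`), one register per step, and ends with an answer and a state in `Q`.
-/

set_option autoImplicit false

namespace Pool.Agent.ANC

open Finset MeasureTheory

/-! ### The machine -/

/-- The computation of one phase: stop with an answer and a state, or access the register `a`: its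
content `x` is replaced by `w x` and the computation goes on with `next x`. -/
inductive Comp (A Γ Q : Type) : Type
  | stop (ans : Bool) (q : Q) : Comp A Γ Q
  | access (a : A) (w : Γ → Γ) (next : Γ → Comp A Γ Q) : Comp A Γ Q

namespace Comp

variable {A Γ Q : Type} [DecidableEq A]

/-- The answer and the new state, for the memory `M`. -/
def out : Comp A Γ Q → (A → Γ) → Bool × Q
  | stop ans q, _ => (ans, q)
  | access a w next, M => (next (M a)).out (Function.update M a (w (M a)))

/-- The memory at the end. -/
def mem : Comp A Γ Q → (A → Γ) → A → Γ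
  | stop _ _, M => M
  | access a w next, M => (next (M a)).mem (Function.update M a (w (M a)))

/-- The number of accesses. -/
def cost : Comp A Γ Q → (A → Γ) → ℕ
  | stop _ _, _ => 0
  | access a w next, M => (next (M a)).cost (Function.update M a (w (M a))) + 1

/-- The registers which are accessed. -/
def touched : Comp A Γ Q → (A → Γ) → Finset A
  | stop _ _, _ => ∅
  | access a w next, M => insert a ((next (M a)).touched (Function.update M a (w (M a))))

end Comp

/-- A deterministic machine: first state, first memory, and the computation of the phase number `j`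
in the state `q`, with the list of the edges read in this phase. -/
structure Machine (A Γ Q E : Type) where
  start : Q
  mem0 : A → Γ
  prog : ℕ → Q → List E → Comp A Γ Q

namespace Machine

variable {A Γ Q E : Type} [DecidableEq A]

/-- State and memory before the phase number `j`; `bl j` is the list of the edges read in the phase
number `j`. -/
def conf (P : Machine A Γ Q E) (bl : ℕ → List E) : ℕ → Q × (A → Γ)
  | 0 => (P.start, P.mem0)
  | j + 1 =>
    (((P.prog j (P.conf bl j).1 (bl j)).out (P.conf bl j).2).2,
      (P.prog j (P.conf bl j).1 (bl j)).mem (P.conf bl j).2)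

/-- The answer after the phase number `j`. -/
def ans (P : Machine A Γ Q E) (bl : ℕ → List E) (j : ℕ) : Bool :=
  ((P.prog j (P.conf bl j).1 (bl j)).out (P.conf bl j).2).1

/-- The number of accesses in the phase number `j`. -/
def cost (P : Machine A Γ Q E) (bl : ℕ → List E) (j : ℕ) : ℕ :=
  (P.prog j (P.conf bl j).1 (bl j)).cost (P.conf bl j).2

end Machine

/-! ### Graphs as sequences of edges -/

/-- The number of the edges read before the phase number `j`: in the last `L` phases `b` edges are
read in each phase, in the phase number `0` the other ones. -/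
def moment (m L b : ℕ) : ℕ → ℕ
  | 0 => 0
  | j + 1 => m - (L - j) * b

/-- The edges read in the phase number `j`, if `t j` edges are read before the phase `j`. -/
def block {n m : ℕ} (e : Fin m → Sym2 (Fin n)) (t : ℕ → ℕ) (j : ℕ) : List (Sym2 (Fin n)) :=
  ((List.finRange m).filter fun i => decide (t j ≤ i.val ∧ i.val < t (j + 1))).map e

/-- The graph of the first `t` edges. -/
def graph {n m : ℕ} (e : Fin m → Sym2 (Fin n)) (t : ℕ) : SimpleGraph (Fin n) :=
  SimpleGraph.fromEdgeSet {x | ∃ i : Fin m, i.val < t ∧ e i = x}

/-- `e` lists the edges of a simple graph, every edge once. -/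
def IsInput {n m : ℕ} (e : Fin m → Sym2 (Fin n)) : Prop :=
  Function.Injective e ∧ ∀ i, ¬(e i).IsDiag

/-! ### The instances

`u : Fin k` are the vertices of the data base, `Fin d × Fin q` the letters at the `d` positions, and
`x : Fin N` the names; the name `x` has the word `β x : Fin d → Fin q`, the vertex `u` has the word
`Y u : Fin d → Fin q`. There are `L` blocks with `K` slots each; in the slot `r` of the block `j`
the vertex `u` gets the name `X u j r`. A name and `u` agree at the position `i` if
`β (X u j r) i = Y u i`. -/

section Static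

variable {k K d N q : ℕ}

/-- The names of one vertex `u` in the slots of one block. -/
abbrev Nm (K N : ℕ) : Type := Fin K → Fin N

/-- The words. -/
abbrev Wo (d q : ℕ) : Type := Fin d → Fin q

/-- The code: every letter is used by at most twice the average number of names, and if the sets
`T i` of letters together have at least `z q` elements then all names but `z ^ 11` have at least
`1 - η` times the expected number of positions with a letter in `T i`. -/
structure Code (η : ℝ) (z : ℕ) (β : Fin N → Wo d q) : Prop where
  bal : ∀ (i : Fin d) (t : Fin q), (univ.filter fun x => β x i = t).card * q ≤ 2 * N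
  exc : ∀ T : Fin d → Finset (Fin q), z * q ≤ ∑ i, (T i).card →
    (univ.filter fun x => ((univ.filter fun i => β x i ∈ T i).card : ℝ) * q ≤
      (1 - η) * (∑ i, (T i).card : ℕ)).card ≤ z ^ 11

/-- The number of the agreements. -/
def agr (β : Fin N → Wo d q) (x : Nm K N) (y : Wo d q) : ℕ :=
  (univ.filter fun p : Fin K × Fin d => β (x p.1) p.2 = y p.2).card

/-- The pairs without agreement, with `y i ∈ Y i` for all `i`. -/
def Ed (β : Fin N → Wo d q) (K : ℕ) (Y : Fin d → Finset (Fin q)) : Finset (Nm K N × Wo d q) :=
  univ.filter fun p => (∀ i, p.2 i ∈ Y i) ∧ agr β p.1 p.2 = 0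

/-- The total number of the agreements, over all pairs with `y i ∈ Y i` for all `i`. -/
def tot (β : Fin N → Wo d q) (K : ℕ) (Y : Fin d → Finset (Fin q)) : ℕ :=
  ∑ p ∈ (univ : Finset (Nm K N × Wo d q)).filter (fun p => ∀ i, p.2 i ∈ Y i), agr β p.1 p.2

open Classical in
/-- The letters which have too little weight at the position `i` of the name in the slot `r`. -/
noncomputable def low (η : ℝ) (β : Fin N → Wo d q) (f : Nm K N → ℝ) (r : Fin K) (i : Fin d) :
    Finset (Fin q) :=
  univ.filter fun t => (∑ x ∈ univ.filter (fun x => β (x r) i = t), f x) * q <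
    (1 - 2 * η) * ∑ x, f x

open Classical in
/-- The weight `f` is well spread, on the side of the names. -/
def GoodA (η : ℝ) (z : ℕ) (β : Fin N → Wo d q) (f : Nm K N → ℝ) : Prop :=
  ((univ.filter fun r : Fin K => z * q ≤ ∑ i, (low η β f r i).card).card : ℝ) ≤ η * K

/-- The weight `g` is well spread, on the side of the words. -/
def GoodB (η : ℝ) (z : ℕ) (g : Wo d q → ℝ) : Prop :=
  ∀ T : Fin d → Finset (Fin q), ∑ i, (T i).card ≤ z * q →
    ∑ i, ∑ y ∈ univ.filter (fun y : Wo d q => y i ∈ T i), g y ≤ η * d * ∑ y, g y

/-- What is public: for every `u` the names or the word. -/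
abbrev Pub (k K d N q : ℕ) : Type := Fin k → Nm K N ⊕ Wo d q

open Classical in
/-- The names which are compatible with the public part. -/
noncomputable def As (E : Fin k → Finset (Nm K N × Wo d q)) (w : Pub k K d N q) :
    Finset (Fin k → Nm K N) :=
  Fintype.piFinset fun u => match w u with
    | Sum.inl x => {x}
    | Sum.inr y => univ.filter fun x => (x, y) ∈ E u

open Classical in
/-- The words which are compatible with the public part. -/
noncomputable def Bs (E : Fin k → Finset (Nm K N × Wo d q)) (w : Pub k K d N q) :
    Finset (Fin k → Wo d q) :=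
  Fintype.piFinset fun u => match w u with
    | Sum.inl x => univ.filter fun y => (x, y) ∈ E u
    | Sum.inr y => {y}

/-- The public parts in which the words of the `u ∈ R` and the names of the `u ∉ R` are public. -/
def Typ (R : Finset (Fin k)) (w : Pub k K d N q) : Prop := ∀ u, (w u).isRight = true ↔ u ∈ R

open Classical in
/-- All public parts of the type `R`. -/
noncomputable def Wt (K d N q : ℕ) (R : Finset (Fin k)) : Finset (Pub k K d N q) :=
  univ.filter fun w => Typ R w

open Classical in
/-- All public parts of the type `R` outside `u₀`, with the fixed value `x₀` at `u₀`. -/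
noncomputable def Wm (d q : ℕ) (R : Finset (Fin k)) (u₀ : Fin k) (x₀ : Nm K N) :
    Finset (Pub k K d N q) :=
  univ.filter fun w => w u₀ = Sum.inl x₀ ∧ ∀ u, u ≠ u₀ → ((w u).isRight = true ↔ u ∈ R)

/-- The number of the elements `v` of `S` with `v u = x`. -/
def marg {Z : Type} [DecidableEq Z] (S : Finset (Fin k → Z)) (u : Fin k) (x : Z) : ℝ :=
  ((S.filter fun v => v u = x).card : ℝ)

/-- The configurations: for every `u` the names in the block and the word. -/
abbrev Cf (k K d N q : ℕ) : Type := Fin k → Nm K N × Wo d q

/-- The configurations without agreement. -/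
def Om (E : Fin k → Finset (Nm K N × Wo d q)) : Finset (Cf k K d N q) := Fintype.piFinset E

/-- The configurations without agreement outside `u₀`, with `z u₀ ∈ G`. -/
def Oy (E : Fin k → Finset (Nm K N × Wo d q)) (u₀ : Fin k) (G : Finset (Nm K N × Wo d q)) :
    Finset (Cf k K d N q) :=
  Fintype.piFinset (Function.update E u₀ G)

/-- All pairs with `y i ∈ Y i`. -/
def Al (K N : ℕ) (Y : Fin d → Finset (Fin q)) : Finset (Nm K N × Wo d q) :=
  univ.filter fun p => ∀ i, p.2 i ∈ Y i

/-- The names and the words of a configuration. -/
def nms (z : Cf k K d N q) : Fin k → Nm K N := fun u => (z u).1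
def wds (z : Cf k K d N q) : Fin k → Wo d q := fun u => (z u).2

open Classical in
/-- The weight of the set `F` of configurations under the law with agreements at one vertex (the
total weight is the number of the configurations without agreement). -/
noncomputable def yes (β : Fin N → Wo d q) (Y : Fin k → Fin d → Finset (Fin q))
    (F : Cf k K d N q → Prop) : ℝ :=
  (∑ u₀ : Fin k, ((Ed β K (Y u₀)).card : ℝ) / (tot β K (Y u₀) : ℝ) *
    ∑ z ∈ (Oy (fun u => Ed β K (Y u)) u₀ (Al K N (Y u₀))).filter F,
      (agr β (z u₀).1 (z u₀).2 : ℝ)) / k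

/-- The names of all blocks. -/
abbrev Xs (k L K N : ℕ) : Type := Fin k → Fin L → Nm K N

/-- The words of all vertices `u`. -/
abbrev Ys (k d q : ℕ) : Type := Fin k → Wo d q

/-- The instances without agreement. -/
def Ome {L : ℕ} (β : Fin N → Wo d q) : Finset (Xs k L K N × Ys k d q) :=
  univ.filter fun p => ∀ u j, agr β (p.1 u j) (p.2 u) = 0

/-- Replace the block `j₀`. -/
def ins {L : ℕ} (o : Xs k L K N) (j₀ : Fin L) (x : Fin k → Nm K N) : Xs k L K N :=
  fun u => Function.update (o u) j₀ (x u)

/-- The letters which are allowed for `u` at the position `i` by all blocks but `j₀`. -/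
def Yo {L : ℕ} (β : Fin N → Wo d q) (o : Xs k L K N) (j₀ : Fin L) (u : Fin k) (i : Fin d) :
    Finset (Fin q) :=
  univ.filter fun t => ∀ j, j ≠ j₀ → ∀ r, β (o u j r) i ≠ t

/-- The lists of the edges of the phases, if the phase `0` depends only on the words and the phase
`j + 1` on the names of the block `j`. -/
def blk {L : ℕ} {E : Type} (b₀ : Ys k d q → List E) (b₁ : Fin L → (Fin k → Nm K N) → List E)
    (p : Xs k L K N × Ys k d q) : ℕ → List E
  | 0 => b₀ p.2
  | j + 1 => if h : j < L then b₁ ⟨j, h⟩ (fun u => p.1 u ⟨j, h⟩) else []

/-- The conditions on the parameters of one block; `Y u i` are the allowed letters. -/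
structure Par (z k K d N q : ℕ) (β : Fin N → Wo d q) (Y : Fin k → Fin d → Finset (Fin q)) :
    Prop where
  code : Code (1 / 200) z β
  hz : (10 : ℝ) ^ 9 ≤ Real.log z
  hN : N = z ^ 16
  hq : q = z ^ 10
  hd : d ≤ z ^ 2
  hd' : z ^ 2 ≤ 2 * d
  hK : 1 ≤ K
  hK' : K ≤ d
  hk : 1 ≤ k
  hY : ∀ u i, q ≤ (Y u i).card + d

end Static

open Classical in
/-- The registers whose content has changed. -/
noncomputable def chg {A Γ : Type} [Fintype A] (M M₀ : A → Γ) : Finset A :=
  univ.filter fun a => M a ≠ M₀ a

/-! ### The edges of an instance -/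

/-- The vertices: data base, names, letters. -/
abbrev Vt (k L K N d q : ℕ) : Type := Fin k ⊕ ((Fin L × Fin K) × Fin N) ⊕ (Fin d × Fin q)

/-- The numbers of the edges: words, code, names. -/
abbrev Ix (k L K N d : ℕ) : Type :=
  (Fin k × Fin d) ⊕ (((Fin L × Fin K) × Fin N) × Fin d) ⊕ (Fin L × (Fin k × Fin K))

/-- The edges of the instance `p`. -/
def edg {k L K N d q : ℕ} (β : Fin N → Wo d q) (p : Xs k L K N × Ys k d q) :
    Ix k L K N d → Sym2 (Vt k L K N d q)
  | Sum.inl t => s(Sum.inl t.1, Sum.inr (Sum.inr (t.2, p.2 t.1 t.2)))
  | Sum.inr (Sum.inl t) => s(Sum.inr (Sum.inl t.1), Sum.inr (Sum.inr (t.2, β t.1.2 t.2)))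
  | Sum.inr (Sum.inr t) =>
    s(Sum.inl t.2.1, Sum.inr (Sum.inl ((t.1, t.2.2), p.1 t.2.1 t.1 t.2.2)))

/-- `enc p` is a sequence of edges for the instance `p`. -/
structure Enc {k L K N d q n m : ℕ} (β : Fin N → Wo d q)
    (enc : Xs k L K N × Ys k d q → Fin m → Sym2 (Fin n)) (b₀ : Ys k d q → List (Sym2 (Fin n)))
    (b₁ : Fin L → (Fin k → Nm K N) → List (Sym2 (Fin n))) : Prop where
  inp : ∀ p, IsInput (enc p)
  blo : ∀ p, ∀ j ≤ L, block (enc p) (moment m L (k * K)) j = blk b₀ b₁ p j
  tri : ∀ p, ∀ j ≤ L, (graph (enc p) (moment m L (k * K) (j + 1))).CliqueFree 3 ↔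
    ∀ (u : Fin k) (i : Fin L), i.val < j → agr β (p.1 u i) (p.2 u) = 0

/-! ### Randomised machines -/

/-- The machine `P ω`, where `ω` has the law `μ`, reads the `m` edges of a graph on `Fin n` and
announces after each of the last `L` phases, of `b` edges each, whether the edges read so far
contain a triangle, each time right with probability at least `2/3`; on triangle-free graphs the
expected number of the accesses is at most `T`. -/
structure Works {Ω A Γ Q : Type} [MeasurableSpace Ω] [DecidableEq A] {n : ℕ} (μ : Measure Ω)
    (P : Ω → Machine A Γ Q (Sym2 (Fin n))) (m L b : ℕ) (T : ℝ) : Prop where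
  measAns : ∀ e : Fin m → Sym2 (Fin n), IsInput e → ∀ j,
    MeasurableSet {ω | (P ω).ans (block e (moment m L b)) j = true}
  measCost : ∀ e : Fin m → Sym2 (Fin n), IsInput e → ∀ j v,
    MeasurableSet {ω | (P ω).cost (block e (moment m L b)) j = v}
  right : ∀ e : Fin m → Sym2 (Fin n), IsInput e → ∀ j, 1 ≤ j → j ≤ L →
    2 / 3 ≤ μ.real {ω | (P ω).ans (block e (moment m L b)) j = true ↔
      ¬(graph e (moment m L b (j + 1))).CliqueFree 3}
  expCost : ∀ e : Fin m → Sym2 (Fin n), IsInput e → (graph e m).CliqueFree 3 →
    ∫⁻ ω, ∑ j ∈ range (L + 1), ((P ω).cost (block e (moment m L b)) j : ENNReal) ∂μ ≤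
      ENNReal.ofReal T

end Pool.Agent.ANC
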