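import Pool.Agent.ANC.Stmts

/-!
# Module EDG: the graph of an instance
-/

set_option autoImplicit false

namespace Pool.Agent.ANC

open Finset MeasureTheory

namespace EDGM

variable {k L K N d q : ℕ}

/-- The graph of the edges read so far. -/
def gr (β : Fin N → Wo d q) (p : Xs k L K N × Ys k d q) (j : ℕ) : SimpleGraph (Vt k L K N d q) :=
  SimpleGraph.fromEdgeSet {x | ∃ s : Ix k L K N d,
      (∀ t, s = Sum.inr (Sum.inr t) → t.1.val < j) ∧ edg β p s = x}

/-- The adjacency relation. -/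
def R (β : Fin N → Wo d q) (p : Xs k L K N × Ys k d q) (j : ℕ) :
    Vt k L K N d q → Vt k L K N d q → Prop
  | Sum.inl _, Sum.inl _ => False
  | Sum.inl u, Sum.inr (Sum.inl v) => p.1 u v.1.1 v.1.2 = v.2 ∧ v.1.1.val < j
  | Sum.inl u, Sum.inr (Sum.inr w) => p.2 u w.1 = w.2
  | Sum.inr (Sum.inl v), Sum.inl u => p.1 u v.1.1 v.1.2 = v.2 ∧ v.1.1.val < j
  | Sum.inr (Sum.inl _), Sum.inr (Sum.inl _) => False
  | Sum.inr (Sum.inl v), Sum.inr (Sum.inr w) => β v.2 w.1 = w.2
  | Sum.inr (Sum.inr w), Sum.inl u => p.2 u w.1 = w.2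
  | Sum.inr (Sum.inr w), Sum.inr (Sum.inl v) => β v.2 w.1 = w.2
  | Sum.inr (Sum.inr _), Sum.inr (Sum.inr _) => False

theorem R_symm (β : Fin N → Wo d q) (p : Xs k L K N × Ys k d q) (j : ℕ)
    (x y : Vt k L K N d q) (h : R β p j x y) : R β p j y x := by
  rcases x with u | v | w <;> rcases y with u' | v' | w' <;> exact h

theorem adj_R (β : Fin N → Wo d q) (p : Xs k L K N × Ys k d q) (j : ℕ)
    (x y : Vt k L K N d q) (h : (gr β p j).Adj x y) : R β p j x y := by
  unfold gr at h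
  rw [SimpleGraph.fromEdgeSet_adj] at h
  obtain ⟨⟨s, hs, he⟩, -⟩ := h
  rcases s with t | t | t
  · unfold edg at he
    rw [Sym2.eq_iff] at he
    rcases he with ⟨rfl, rfl⟩ | ⟨rfl, rfl⟩
    · rfl
    · rfl
  · unfold edg at he
    rw [Sym2.eq_iff] at he
    rcases he with ⟨rfl, rfl⟩ | ⟨rfl, rfl⟩
    · rfl
    · rfl
  · have hj := hs t rfl
    unfold edg at he
    rw [Sym2.eq_iff] at he
    rcases he with ⟨rfl, rfl⟩ | ⟨rfl, rfl⟩
    · exact ⟨rfl, hj⟩
    · exact ⟨rfl, hj⟩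

theorem agr_zero (β : Fin N → Wo d q) (x : Nm K N) (y : Wo d q) :
    agr β x y = 0 ↔ ∀ r i, β (x r) i ≠ y i := by
  unfold agr
  rw [Finset.card_eq_zero, Finset.filter_eq_empty_iff]
  constructor
  · intro h r i
    exact h (Finset.mem_univ (r, i))
  · rintro h ⟨r, i⟩ -
    exact h r i

end EDGM

open EDGM in
theorem EDG_thm : Stmt_EDG := by
  intro k L K N d q β p
  refine ⟨?_, ?_, ?_⟩
  · intro s s' h
    rcases s with ⟨a, b⟩ | ⟨⟨⟨a, b⟩, c⟩, e⟩ | ⟨a, b, c⟩ <;>
      rcases s' with ⟨a', b'⟩ | ⟨⟨⟨a', b'⟩, c'⟩, e'⟩ | ⟨a', b', c'⟩ <;>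
      simp only [edg, Sym2.eq_iff, Sum.inl.injEq, Sum.inr.injEq, reduceCtorEq, Prod.mk.injEq,
        false_and, and_false, or_false, false_or, or_self] at h ⊢ <;> tauto
  · intro s
    rcases s with ⟨a, b⟩ | ⟨⟨⟨a, b⟩, c⟩, e⟩ | ⟨a, b, c⟩ <;> simp [edg]
  · intro j
    constructor
    · intro h u i hi
      rw [agr_zero]
      intro r t heq
      refine h {Sum.inl u, Sum.inr (Sum.inl ((i, r), p.1 u i r)), Sum.inr (Sum.inr (t, p.2 u t))}
        (SimpleGraph.is3Clique_triple_iff.2 ⟨?_, ?_, ?_⟩)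
      · rw [SimpleGraph.fromEdgeSet_adj]
        refine ⟨⟨Sum.inr (Sum.inr (i, (u, r))), ?_, rfl⟩, by simp⟩
        rintro t' ht'
        simp only [Sum.inr.injEq] at ht'
        rw [← ht']
        exact hi
      · rw [SimpleGraph.fromEdgeSet_adj]
        refine ⟨⟨Sum.inl (u, t), ?_, rfl⟩, by simp⟩
        intro t' ht'
        simp at ht'
      · rw [SimpleGraph.fromEdgeSet_adj]
        refine ⟨⟨Sum.inr (Sum.inl (((i, r), p.1 u i r), t)), ?_, ?_⟩, by simp⟩
        · intro t' ht'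
          simp at ht'
        · simp only [edg, heq]
    · intro h s hs
      rw [SimpleGraph.is3Clique_iff] at hs
      obtain ⟨a, b, c, hab, hac, hbc, -⟩ := hs
      have key : ∀ (u : Fin k) (v : (Fin L × Fin K) × Fin N) (w : Fin d × Fin q),
          R β p j (Sum.inl u) (Sum.inr (Sum.inl v)) → R β p j (Sum.inl u) (Sum.inr (Sum.inr w)) →
          R β p j (Sum.inr (Sum.inl v)) (Sum.inr (Sum.inr w)) → False := by
        intro u v w h1 h2 h3
        obtain ⟨h1, h4⟩ := h1
        have h5 := (agr_zero β (p.1 u v.1.1) (p.2 u)).1 (h u v.1.1 h4) v.1.2 w.1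
        apply h5
        rw [h1]
        exact (show β v.2 w.1 = w.2 from h3).trans (show p.2 u w.1 = w.2 from h2).symm
      have h1 := adj_R β p j a b hab
      have h2 := adj_R β p j a c hac
      have h3 := adj_R β p j b c hbc
      rcases a with u | v | w <;> rcases b with u' | v' | w' <;> rcases c with u'' | v'' | w'' <;>
        first
        | exact h1
        | exact h2
        | exact h3
        | exact key _ _ _ h1 h2 h3
        | exact key _ _ _ h2 h1 h3
        | exact key _ _ _ h1 h3 h2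
        | exact key _ _ _ h3 h1 h2
        | exact key _ _ _ h2 h3 h1
        | exact key _ _ _ h3 h2 h1

end Pool.Agent.ANC
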