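import Pool.Agent.ANC.Stmts

/-!
# ANC, module ENC: instances as sequences of edges
-/

set_option autoImplicit false

namespace Pool.Agent.ANC

namespace ENCM

theorem filterMap_eq {α β : Type*} (l : List α) (f : α → β) (g : α → Option β)
    (h : ∀ x ∈ l, g x = some (f x)) : l.filterMap g = l.map f := by
  induction l with
  | nil => rfl
  | cons a l ih =>
    rw [List.filterMap_cons_some (h a (List.mem_cons_self ..)), List.map_cons,
      ih fun x hx => h x (List.mem_cons_of_mem _ hx)]

variable {k L K N d q n : ℕ}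

/-- The edge of the first two kinds, for the words `y`. -/
def g₀ (ι : Vt k L K N d q → Fin n) (β : Fin N → Wo d q) (y : Ys k d q) :
    Ix k L K N d → Option (Sym2 (Fin n))
  | Sum.inl t => some (Sym2.map ι s(Sum.inl t.1, Sum.inr (Sum.inr (t.2, y t.1 t.2))))
  | Sum.inr (Sum.inl t) =>
    some (Sym2.map ι s(Sum.inr (Sum.inl t.1), Sum.inr (Sum.inr (t.2, β t.1.2 t.2))))
  | Sum.inr (Sum.inr _) => none

/-- The edge of the last kind, for the names `x`. -/
def g₁ (ι : Vt k L K N d q → Fin n) (x : Fin k → Nm K N) :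
    Ix k L K N d → Option (Sym2 (Fin n))
  | Sum.inl _ => none
  | Sum.inr (Sum.inl _) => none
  | Sum.inr (Sum.inr t) =>
    some (Sym2.map ι s(Sum.inl t.2.1, Sum.inr (Sum.inl ((t.1, t.2.2), x t.2.1 t.2.2))))

theorem g₀_eq (ι : Vt k L K N d q → Fin n) (β : Fin N → Wo d q)
    (p : Xs k L K N × Ys k d q) (s : Ix k L K N d)
    (h : ∀ t, s = Sum.inr (Sum.inr t) → t.1.val < 0) :
    g₀ ι β p.2 s = some (Sym2.map ι (edg β p s)) := by
  rcases s with t | t | t
  · rfl
  · rfl
  · exact absurd (h t rfl) (Nat.not_lt_zero _)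

theorem g₁_eq (ι : Vt k L K N d q → Fin n) (β : Fin N → Wo d q)
    (p : Xs k L K N × Ys k d q) (s : Ix k L K N d) (j : Fin L)
    (h : ∃ t, s = Sum.inr (Sum.inr t) ∧ t.1 = j) :
    g₁ ι (fun u => p.1 u j) s = some (Sym2.map ι (edg β p s)) := by
  obtain ⟨t, rfl, rfl⟩ := h
  rfl

end ENCM

open ENCM in
theorem ENC_thm (hNUM : Stmt_NUM) (hEDG : Stmt_EDG) : Stmt_ENC := by
  intro k L K d N q n m β hm hn
  obtain ⟨φ, hφ⟩ := hNUM k L K N d m hm
  have hcard : Fintype.card (Vt k L K N d q) ≤ Fintype.card (Fin n) := by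
    simp only [Fintype.card_sum, Fintype.card_prod, Fintype.card_fin]
    omega
  obtain ⟨ι⟩ := Function.Embedding.nonempty_of_card_le hcard
  have hmom : ∀ j, j ≤ L → moment m L (k * K) (j + 1) = k * d + L * K * N * d + j * (k * K) := by
    intro j hj
    change m - (L - j) * (k * K) = _
    have h1 : (L - j) * (k * K) + j * (k * K) = L * (k * K) := by
      rw [← Nat.add_mul, Nat.sub_add_cancel hj]
    omega
  set enc : Xs k L K N × Ys k d q → Fin m → Sym2 (Fin n) :=
    fun p i => Sym2.map ι (edg β p (φ i)) with henc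
  set t₀ := moment m L (k * K) with ht₀
  refine ⟨enc,
    fun y => ((List.finRange m).filter fun i => decide (t₀ 0 ≤ i.val ∧ i.val < t₀ 1)).filterMap
      fun i => g₀ ι β y (φ i),
    fun j x => ((List.finRange m).filter fun i =>
      decide (t₀ (j.val + 1) ≤ i.val ∧ i.val < t₀ (j.val + 1 + 1))).filterMap
      fun i => g₁ ι x (φ i), ?_, ?_, ?_⟩
  · intro p
    constructor
    · intro i i' h
      exact φ.injective ((hEDG β p).1 (Sym2.map.injective ι.injective h))
    · intro i
      change ¬ (Sym2.map ι (edg β p (φ i))).IsDiag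
      rw [Sym2.isDiag_map ι.injective]
      exact (hEDG β p).2.1 _
  · intro p j hj
    rcases j with _ | j
    · change _ = ((List.finRange m).filter fun i =>
        decide (t₀ 0 ≤ i.val ∧ i.val < t₀ 1)).filterMap fun i => g₀ ι β p.2 (φ i)
      symm
      apply filterMap_eq
      intro i hi
      rw [List.mem_filter, decide_eq_true_eq] at hi
      apply g₀_eq
      have h1 := (hφ i 0 (Nat.zero_le _)).1
      rw [show t₀ 1 = t₀ (0 + 1) from rfl, hmom 0 (Nat.zero_le _)] at hi
      exact h1 hi.2.2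
    · have hj' : j < L := hj
      change _ = if h : j < L then _ else _
      rw [dif_pos hj']
      symm
      apply filterMap_eq
      intro i hi
      rw [List.mem_filter, decide_eq_true_eq] at hi
      apply g₁_eq
      change _ ∧ t₀ (j + 1) ≤ i.val ∧ i.val < t₀ (j + 1 + 1) at hi
      rw [hmom j hj'.le, hmom (j + 1) hj] at hi
      have h1 := (hφ i (j + 1) hj).1 hi.2.2
      have h2 : ¬ ∀ t, φ i = Sum.inr (Sum.inr t) → t.1.val < j :=
        fun h => absurd ((hφ i j hj'.le).2 h) (not_lt.2 hi.2.1)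
      push Not at h2
      obtain ⟨t, ht, htj⟩ := h2
      exact ⟨t, ht, Fin.ext (le_antisymm (Nat.lt_succ_iff.1 (h1 t ht)) htj)⟩
  · intro p j hj
    rw [← (hEDG β p).2.2 j]
    set G : SimpleGraph (Vt k L K N d q) :=
      SimpleGraph.fromEdgeSet {x | ∃ s : Ix k L K N d,
        (∀ t, s = Sum.inr (Sum.inr t) → t.1.val < j) ∧ edg β p s = x} with hG
    have h1 : graph (enc p) (t₀ (j + 1)) = SimpleGraph.map ι G := by
      ext a b
      rw [SimpleGraph.map_adj]
      unfold graph
      rw [SimpleGraph.fromEdgeSet_adj]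
      constructor
      · rintro ⟨⟨i, hi, he⟩, hab⟩
        rw [hmom j hj] at hi
        have h2 := (hφ i j hj).1 hi
        change Sym2.map ι (edg β p (φ i)) = s(a, b) at he
        obtain ⟨a', b', h3⟩ : ∃ a' b', edg β p (φ i) = s(a', b') := by
          induction edg β p (φ i) with
          | h x y => exact ⟨x, y, rfl⟩
        rw [h3, Sym2.map_mk, Sym2.eq_iff] at he
        rcases he with ⟨h4, h5⟩ | ⟨h4, h5⟩
        · refine ⟨a', b', ?_, h4, h5⟩
          rw [hG, SimpleGraph.fromEdgeSet_adj]
          refine ⟨⟨φ i, h2, h3⟩, ?_⟩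
          rintro rfl
          exact hab (h4.symm.trans h5)
        · refine ⟨b', a', ?_, h5, h4⟩
          rw [hG, SimpleGraph.fromEdgeSet_adj]
          refine ⟨⟨φ i, h2, h3.trans Sym2.eq_swap⟩, ?_⟩
          rintro rfl
          exact hab (h5.symm.trans h4)
      · rintro ⟨a', b', h2, rfl, rfl⟩
        rw [hG, SimpleGraph.fromEdgeSet_adj] at h2
        obtain ⟨⟨s, hs, h3⟩, hab⟩ := h2
        refine ⟨⟨φ.symm s, ?_, ?_⟩, fun h => hab (ι.injective h)⟩
        · rw [hmom j hj]
          refine (hφ _ j hj).2 ?_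
          rw [Equiv.apply_symm_apply]
          exact hs
        · change Sym2.map ι (edg β p (φ (φ.symm s))) = _
          rw [Equiv.apply_symm_apply, h3, Sym2.map_mk]
    rw [h1]
    rcases isEmpty_or_nonempty (Vt k L K N d q) with h2 | h2
    · constructor
      · intro _ s hs
        have h3 := hs.card_eq
        rw [Finset.eq_empty_of_isEmpty s] at h3
        simp at h3
      · intro _ s hs
        obtain ⟨v, hv⟩ : s.Nonempty := by
          rw [← Finset.card_pos, hs.card_eq]
          norm_num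
        have h3 := hs.isClique
        obtain ⟨v', hv', hne⟩ : ∃ v' ∈ s, v' ≠ v := by
          have h4 : 1 < s.card := by rw [hs.card_eq]; norm_num
          obtain ⟨x, hx, hxv⟩ := Finset.exists_mem_ne h4 v
          exact ⟨x, hx, hxv⟩
        have h5 := h3 hv' hv hne
        rw [SimpleGraph.map_adj] at h5
        obtain ⟨u', _⟩ := h5
        exact h2.elim u'
    · exact SimpleGraph.cliqueFree_map_iff

end Pool.Agent.ANC
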