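import Pool.Agent.ANC.Stmts

set_option autoImplicit false

namespace Pool.Agent.ANC

open Finset MeasureTheory

namespace FINM

theorem sizes (z K L s : ℕ) (hz : 2 ≤ z) (h1 : L * K ≤ z ^ 2) (h2 : z ^ 2 ≤ 2 * (L * K))
    (h3 : 8 * z ^ 20 ≤ s) (h4 : s ≤ 16 * z ^ 20) :
    (z ^ 18 * (L * K) + L * K * z ^ 16 * (L * K) + L * (z ^ 18 * K)) +
      (z ^ 18 + L * K * z ^ 16 + L * K * z ^ 10) ≤ s ∧ s ≤ 64 * L * (z ^ 18 * K) := by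
  have e1 : z ^ 18 * (L * K) ≤ z ^ 20 := by
    calc z ^ 18 * (L * K) ≤ z ^ 18 * z ^ 2 := Nat.mul_le_mul_left _ h1
      _ = z ^ 20 := by ring
  have e2 : L * K * z ^ 16 * (L * K) ≤ z ^ 20 := by
    calc L * K * z ^ 16 * (L * K) ≤ z ^ 2 * z ^ 16 * z ^ 2 :=
          Nat.mul_le_mul (Nat.mul_le_mul_right _ h1) h1
      _ = z ^ 20 := by ring
  have e3 : L * (z ^ 18 * K) = z ^ 18 * (L * K) := by ring
  have e4 : L * K * z ^ 16 ≤ z ^ 18 := by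
    calc L * K * z ^ 16 ≤ z ^ 2 * z ^ 16 := Nat.mul_le_mul_right _ h1
      _ = z ^ 18 := by ring
  have e5 : L * K * z ^ 10 ≤ z ^ 18 := by
    calc L * K * z ^ 10 ≤ z ^ 2 * z ^ 10 := Nat.mul_le_mul_right _ h1
      _ = z ^ 12 := by ring
      _ ≤ z ^ 18 := Nat.pow_le_pow_right (by omega) (by norm_num)
  have e6 : 4 * z ^ 18 ≤ z ^ 20 := by
    calc 4 * z ^ 18 ≤ z ^ 2 * z ^ 18 := Nat.mul_le_mul_right _ (by nlinarith)
      _ = z ^ 20 := by ring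
  have e7 : z ^ 20 ≤ 2 * (z ^ 18 * (L * K)) := by
    calc z ^ 20 = z ^ 18 * z ^ 2 := by ring
      _ ≤ z ^ 18 * (2 * (L * K)) := Nat.mul_le_mul_left _ h2
      _ = 2 * (z ^ 18 * (L * K)) := by ring
  have e8 : 64 * L * (z ^ 18 * K) = 64 * (z ^ 18 * (L * K)) := by ring
  constructor
  · rw [e3]; omega
  · rw [e8]; omega

end FINM

theorem FIN_thm (hCOD : Stmt_COD) (hENC : Stmt_ENC) (hPRO : Stmt_PRO) (hINB : Stmt_INB)
    (hPAA : Stmt_PAA) (hPAB : Stmt_PAB) : Stmt_FIN := by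
  intro κ
  obtain ⟨c, hc, Z, hZ⟩ := hPAB κ
  obtain ⟨s₀, hs₀⟩ := hPAA (max Z (max 2 ⌈Real.exp (10 ^ 9)⌉₊))
  refine ⟨c, hc, s₀, fun s L hs hL hLs => ?_⟩
  obtain ⟨z, K, hzZ, hK, h1, h2, h3, h4, h5, h6⟩ := hs₀ s L hs hL hLs
  have hz2 : 2 ≤ z := le_trans (le_trans (le_max_left _ _) (le_max_right _ _)) hzZ
  have hzl : (10 : ℝ) ^ 9 ≤ Real.log z := by
    have e1 : ⌈Real.exp (10 ^ 9)⌉₊ ≤ z :=
      le_trans (le_trans (le_max_right _ _) (le_max_right _ _)) hzZ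
    have e2 : Real.exp (10 ^ 9) ≤ (z : ℝ) := (Nat.le_ceil _).trans (by exact_mod_cast e1)
    rw [Real.le_log_iff_exp_le (by positivity)]
    exact e2
  obtain ⟨g1, g2⟩ := FINM.sizes z K L s hz2 h1 h2 h3 h4
  set m : ℕ := z ^ 18 * (L * K) + L * K * z ^ 16 * (L * K) + L * (z ^ 18 * K) with hm
  obtain ⟨β, hβ⟩ := hCOD z (L * K) hzl h1
  obtain ⟨enc, b₀, b₁, hE⟩ := hENC (z ^ 18) L K (L * K) (z ^ 16) (z ^ 10) (s - m) m β hm (by omega)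
  refine ⟨s - m, m, z ^ 18 * K, by omega, by omega, g2, ?_⟩
  intro Ω A Γ Q _ _ _ _ _ μ _ P T hA hΓ hQ hW
  by_contra hT
  rw [not_le] at hT
  have hLK : z ^ 2 ≤ 2 * (L * K) := h2
  obtain ⟨B, hB, hTB, t1, t2⟩ := hZ z K L s (le_trans (le_max_left _ _) hzZ) hL h2 h3 h4 h5 h6 hLs
    T (Fintype.card A) (Fintype.card Γ) (Fintype.card Q) hT hA hΓ hQ
  have hP := fun (o : Xs (z ^ 18) L K (z ^ 16)) (j₀ : Fin L) =>
    hPRO (z := z) (k := z ^ 18) (K := K) (d := L * K) (N := z ^ 16) (q := z ^ 10) (L := L) (β := β)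
      hβ hzl rfl rfl rfl h1 h2 hK hL (Nat.one_le_pow _ _ (by omega)) o j₀
  exact hINB (pow_pos (by omega) 16) hP hE Ω A Γ Q μ P T B hW hB hL t1 t2 hTB

end Pool.Agent.ANC
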