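import Pool.Agent.ANC.Stmts

/-!
# FUL: all blocks
-/

set_option autoImplicit false

namespace Pool.Agent.ANC

open Finset MeasureTheory

namespace FULM

variable {k K d N q L : ℕ}

lemma agr_eq_zero (β : Fin N → Wo d q) (x : Nm K N) (y : Wo d q) :
    agr β x y = 0 ↔ ∀ r i, β (x r) i ≠ y i := by
  unfold agr
  rw [card_eq_zero, filter_eq_empty_iff]
  constructor
  · intro h r i
    exact h (mem_univ (r, i))
  · rintro h ⟨r, i⟩ _
    exact h r i

lemma mem_Om (β : Fin N → Wo d q) (j₀ : Fin L) (o : Xs k L K N) (z : Cf k K d N q) :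
    z ∈ Om (fun u => Ed β K (Yo β o j₀ u)) ↔
      ∀ u, (∀ i j, j ≠ j₀ → ∀ r, β (o u j r) i ≠ (z u).2 i) ∧
        ∀ r i, β ((z u).1 r) i ≠ (z u).2 i := by
  unfold Om
  rw [Fintype.mem_piFinset]
  refine forall_congr' fun u => ?_
  unfold Ed Yo
  simp only [mem_filter, mem_univ, true_and, agr_eq_zero]

lemma mem_Ome (β : Fin N → Wo d q) (p : Xs k L K N × Ys k d q) :
    p ∈ Ome β ↔ ∀ u j r i, β (p.1 u j r) i ≠ p.2 u i := by
  unfold Ome
  simp only [mem_filter, mem_univ, true_and, agr_eq_zero]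

lemma ins_same (o : Xs k L K N) (j₀ : Fin L) (x : Fin k → Nm K N) (u : Fin k) :
    ins o j₀ x u j₀ = x u := by
  unfold ins; exact Function.update_self _ _ _

lemma ins_ne (o : Xs k L K N) (j₀ : Fin L) (x : Fin k → Nm K N) (u : Fin k) {j : Fin L}
    (h : j ≠ j₀) : ins o j₀ x u j = o u j := by
  unfold ins; exact Function.update_of_ne h _ _

lemma ins_ins (o : Xs k L K N) (j₀ : Fin L) (x : Fin k → Nm K N) :
    ins (ins o j₀ x) j₀ (fun u => o u j₀) = o := by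
  funext u j
  by_cases h : j = j₀
  · subst h; rw [ins_same]
  · rw [ins_ne _ _ _ _ h, ins_ne _ _ _ _ h]

end FULM

open FULM in
/-- FUL -/
theorem FUL_thm : Stmt_FUL := by
  intro k K d N q L β j₀ g
  have hR : (Fintype.card (Fin k → Nm K N) : ℝ) * ∑ p ∈ Ome β, g p =
      ∑ _x : Fin k → Nm K N, ∑ p ∈ (Ome β : Finset (Xs k L K N × Ys k d q)), g p := by
    rw [sum_const, card_univ, nsmul_eq_mul]
  rw [hR, Finset.sum_sigma', Finset.sum_sigma']
  refine Finset.sum_nbij'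
    (fun a => (⟨fun u => a.1 u j₀, (ins a.1 j₀ (nms a.2), wds a.2)⟩ :
      Σ _ : Fin k → Nm K N, Xs k L K N × Ys k d q))
    (fun b => (⟨ins b.2.1 j₀ b.1, fun u => (b.2.1 u j₀, b.2.2 u)⟩ :
      Σ _ : Xs k L K N, Cf k K d N q)) ?_ ?_ ?_ ?_ ?_
  · rintro ⟨o, z⟩ ha
    rw [mem_sigma, mem_Om] at ha
    rw [mem_sigma, mem_Ome]
    refine ⟨mem_univ _, fun u j r i => ?_⟩
    obtain ⟨h1, h2⟩ := ha.2 u
    by_cases h : j = j₀
    · subst h
      show β (ins o j (nms z) u j r) i ≠ (z u).2 i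
      rw [ins_same]
      exact h2 r i
    · show β (ins o j₀ (nms z) u j r) i ≠ (z u).2 i
      rw [ins_ne _ _ _ _ h]
      exact h1 i j h r
  · rintro ⟨x, p⟩ hb
    rw [mem_sigma, mem_Ome] at hb
    rw [mem_sigma, mem_Om]
    refine ⟨mem_univ _, fun u => ⟨fun i j h r => ?_, fun r i => hb.2 u j₀ r i⟩⟩
    show β (ins p.1 j₀ x u j r) i ≠ p.2 u i
    rw [ins_ne _ _ _ _ h]
    exact hb.2 u j r i
  · rintro ⟨o, z⟩ ha
    have e1 : ins (ins o j₀ (nms z)) j₀ (fun u => o u j₀) = o := ins_ins o j₀ _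
    have e2 : (fun u => (ins o j₀ (nms z) u j₀, wds z u)) = z := by
      funext u
      rw [ins_same]
      rfl
    show (⟨ins (ins o j₀ (nms z)) j₀ (fun u => o u j₀),
      fun u => (ins o j₀ (nms z) u j₀, wds z u)⟩ : Σ _ : Xs k L K N, Cf k K d N q) = ⟨o, z⟩
    rw [e1, e2]
  · rintro ⟨x, p⟩ hb
    have e1 : (fun u => ins p.1 j₀ x u j₀) = x := by
      funext u; rw [ins_same]
    have e2 : ins (ins p.1 j₀ x) j₀ (nms fun u => (p.1 u j₀, p.2 u)) = p.1 :=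
      ins_ins p.1 j₀ x
    show (⟨fun u => ins p.1 j₀ x u j₀, (ins (ins p.1 j₀ x) j₀ (nms fun u => (p.1 u j₀, p.2 u)),
      wds fun u => (p.1 u j₀, p.2 u))⟩ : Σ _ : Fin k → Nm K N, Xs k L K N × Ys k d q) = ⟨x, p⟩
    rw [e1, e2]
    rfl
  · rintro ⟨o, z⟩ _
    rfl

end Pool.Agent.ANC
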