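import Pool.Agent.ANC.Stmts

/-!
# A good hash function
-/

set_option autoImplicit false

namespace Pool.Agent.ANC

open Finset

namespace HSHM

/-- The functions which agree at two different points. -/
theorem card_eq {A : Type} [Fintype A] [DecidableEq A] (H : ℕ) (a b : A) (hab : a ≠ b) :
    H * (univ.filter fun h : A → Fin H => h a = h b).card ≤ Fintype.card (A → Fin H) := by
  have h1 : ((univ.filter fun h : A → Fin H => h a = h b) ×ˢ (univ : Finset (Fin H))).card ≤
      (univ : Finset (A → Fin H)).card := by
    refine Finset.card_le_card_of_injOn (fun p => Function.update p.1 a p.2)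
      (fun _ _ => Finset.mem_coe.2 (Finset.mem_univ _)) ?_
    rintro ⟨h, c⟩ hp ⟨h', c'⟩ hp' he
    have hh : h a = h b := (Finset.mem_filter.1 (Finset.mem_product.1 (Finset.mem_coe.1 hp)).1).2
    have hh' : h' a = h' b :=
      (Finset.mem_filter.1 (Finset.mem_product.1 (Finset.mem_coe.1 hp')).1).2
    have he' : Function.update h a c = Function.update h' a c' := he
    have hx : ∀ x, x ≠ a → h x = h' x := by
      intro x hx
      have := congrFun he' x
      rwa [Function.update_of_ne hx, Function.update_of_ne hx] at this
    have hc : c = c' := by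
      have := congrFun he' a
      rwa [Function.update_self, Function.update_self] at this
    have hf : h = h' := by
      funext x
      by_cases hxa : x = a
      · rw [hxa, hh, hh', hx b hab.symm]
      · exact hx x hxa
    rw [hc, hf]
  rw [Finset.card_product, Finset.card_univ, Finset.card_univ, Fintype.card_fin] at h1
  rw [Nat.mul_comm]
  exact h1

/-- The functions which send `a` to the image of a small set. -/
theorem card_image {A : Type} [Fintype A] [DecidableEq A] (H B : ℕ) (a : A) (T : Finset A)
    (hT : T.card ≤ B) (ha : a ∉ T) :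
    H * (univ.filter fun h : A → Fin H => h a ∈ T.image h).card ≤
      B * Fintype.card (A → Fin H) := by
  have h1 : (univ.filter fun h : A → Fin H => h a ∈ T.image h) ⊆
      T.biUnion fun b => univ.filter fun h : A → Fin H => h a = h b := by
    intro h hh
    obtain ⟨b, hb, hb'⟩ := Finset.mem_image.1 (Finset.mem_filter.1 hh).2
    exact Finset.mem_biUnion.2 ⟨b, hb, Finset.mem_filter.2 ⟨Finset.mem_univ _, hb'.symm⟩⟩
  calc H * (univ.filter fun h : A → Fin H => h a ∈ T.image h).card
      ≤ H * ∑ b ∈ T, (univ.filter fun h : A → Fin H => h a = h b).card :=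
        Nat.mul_le_mul_left _ ((Finset.card_le_card h1).trans Finset.card_biUnion_le)
    _ = ∑ b ∈ T, H * (univ.filter fun h : A → Fin H => h a = h b).card := by
        rw [Finset.mul_sum]
    _ ≤ ∑ _b ∈ T, Fintype.card (A → Fin H) :=
        Finset.sum_le_sum fun b hb => card_eq H a b fun h => ha (h ▸ hb)
    _ = T.card * Fintype.card (A → Fin H) := by
        rw [Finset.sum_const, smul_eq_mul]
    _ ≤ B * Fintype.card (A → Fin H) := Nat.mul_le_mul_right _ hT

/-- The sum over one set. -/
theorem sum_le {A : Type} [Fintype A] [DecidableEq A] (H B : ℕ) (W T : Finset A)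
    (hW : W.card ≤ H) (hT : T.card ≤ B) :
    ∑ a ∈ W, H * (univ.filter fun h : A → Fin H => h a ∈ T.image h).card ≤
      2 * B * (H * Fintype.card (A → Fin H)) := by
  have h1 : ∀ a ∈ W, H * (univ.filter fun h : A → Fin H => h a ∈ T.image h).card ≤
      (if a ∈ T then H * Fintype.card (A → Fin H) else 0) + B * Fintype.card (A → Fin H) := by
    intro a _
    by_cases ha : a ∈ T
    · rw [if_pos ha]
      exact (Nat.mul_le_mul_left _ (Finset.card_le_univ _)).trans (Nat.le_add_right _ _)
    · rw [if_neg ha, Nat.zero_add]
      exact card_image H B a T hT ha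
  refine (Finset.sum_le_sum h1).trans ?_
  rw [Finset.sum_add_distrib, ← Finset.sum_filter, Finset.sum_const, Finset.sum_const,
    smul_eq_mul, smul_eq_mul]
  have h2 : (W.filter fun a => a ∈ T).card ≤ B :=
    (Finset.card_le_card fun a ha => (Finset.mem_filter.1 ha).2).trans hT
  calc (W.filter fun a => a ∈ T).card * (H * Fintype.card (A → Fin H)) +
        W.card * (B * Fintype.card (A → Fin H))
      ≤ B * (H * Fintype.card (A → Fin H)) + H * (B * Fintype.card (A → Fin H)) :=
        Nat.add_le_add (Nat.mul_le_mul_right _ h2) (Nat.mul_le_mul_right _ hW)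
    _ = 2 * B * (H * Fintype.card (A → Fin H)) := by ring

end HSHM

theorem HSH_thm : Stmt_HSH := by
  intro A ι _ _ H B S W T hH hW hT
  by_contra hcon
  push Not at hcon
  have hne : Nonempty (A → Fin H) := ⟨fun _ => ⟨0, hH⟩⟩
  have h1 : ∑ _h : A → Fin H, 2 * B * S.card <
      ∑ h : A → Fin H, ∑ i ∈ S, ((W i).filter fun a => h a ∈ (T i).image h).card :=
    Finset.sum_lt_sum_of_nonempty Finset.univ_nonempty fun h _ => hcon h
  have h2 : H * ∑ h : A → Fin H, ∑ i ∈ S, ((W i).filter fun a => h a ∈ (T i).image h).card ≤
      S.card * (2 * B * (H * Fintype.card (A → Fin H))) := by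
    rw [Finset.sum_comm, Finset.mul_sum]
    calc ∑ i ∈ S, H * ∑ h : A → Fin H, ((W i).filter fun a => h a ∈ (T i).image h).card
        = ∑ i ∈ S, ∑ a ∈ W i,
            H * (univ.filter fun h : A → Fin H => h a ∈ (T i).image h).card := by
          refine Finset.sum_congr rfl fun i _ => ?_
          rw [← Finset.mul_sum]
          congr 1
          simp_rw [Finset.card_filter]
          rw [Finset.sum_comm]
      _ ≤ ∑ _i ∈ S, 2 * B * (H * Fintype.card (A → Fin H)) :=
          Finset.sum_le_sum fun i hi => HSHM.sum_le H B (W i) (T i) (hW i hi) (hT i hi)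
      _ = S.card * (2 * B * (H * Fintype.card (A → Fin H))) := by
          rw [Finset.sum_const, smul_eq_mul]
  rw [Finset.sum_const, smul_eq_mul, Finset.card_univ] at h1
  have h3 := Nat.mul_lt_mul_of_pos_left h1 hH
  refine absurd (h3.trans_le h2) (not_lt.2 (le_of_eq ?_))
  ring

end Pool.Agent.ANC
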