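import Pool.Agent.ANC.Stmts

/-!
The configurations as triples: public part, names, words.
-/

set_option autoImplicit false

namespace Pool.Agent.ANC

open Finset MeasureTheory

namespace ID0M

variable {k K d N q : ℕ}

theorem mem_As (E : Fin k → Finset (Nm K N × Wo d q)) (w : Pub k K d N q) (v : Fin k → Nm K N) :
    v ∈ As E w ↔ ∀ u, (∀ x, w u = Sum.inl x → v u = x) ∧
      (∀ y, w u = Sum.inr y → (v u, y) ∈ E u) := by
  unfold As
  rw [Fintype.mem_piFinset]
  refine forall_congr' fun u => ?_
  rcases h : w u with x | y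
  · simp
  · simp

theorem mem_Bs (E : Fin k → Finset (Nm K N × Wo d q)) (w : Pub k K d N q) (v : Fin k → Wo d q) :
    v ∈ Bs E w ↔ ∀ u, (∀ x, w u = Sum.inl x → (x, v u) ∈ E u) ∧
      (∀ y, w u = Sum.inr y → v u = y) := by
  unfold Bs
  rw [Fintype.mem_piFinset]
  refine forall_congr' fun u => ?_
  rcases h : w u with x | y
  · simp
  · simp

theorem mem_Wt (R : Finset (Fin k)) (w : Pub k K d N q) :
    w ∈ Wt K d N q R ↔ ∀ u, (w u).isRight = true ↔ u ∈ R := by
  unfold Wt Typ
  simp

end ID0M

open ID0M in
open Classical in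
theorem ID0_thm : Stmt_ID0 := by
  intro k K d N q E R P D
  simp only [← Finset.card_product]
  rw [← Finset.card_sigma]
  refine Finset.card_nbij' (fun p u => (p.2.1 u, p.2.2 u))
    (fun z => ⟨fun u => if u ∈ R then Sum.inr (z u).2 else Sum.inl (z u).1, nms z, wds z⟩)
    ?_ ?_ ?_ ?_
  · rintro ⟨w, v, v'⟩ hp
    rw [Finset.mem_coe, Finset.mem_sigma, Finset.mem_product, Finset.mem_inter,
      Finset.mem_inter] at hp
    obtain ⟨-, ⟨hP, hA⟩, hD, hB⟩ := hp
    rw [Finset.mem_coe, Finset.mem_filter]
    refine ⟨?_, hP, hD⟩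
    unfold Om
    rw [Fintype.mem_piFinset]
    intro u
    have h1 := (mem_As E w v).mp hA u
    have h2 := (mem_Bs E w v').mp hB u
    rcases h : w u with x | y
    · have h3 := h1.1 x h
      have h4 := h2.1 x h
      show (v u, v' u) ∈ E u
      rw [h3]
      exact h4
    · have h3 := h1.2 y h
      have h4 := h2.2 y h
      show (v u, v' u) ∈ E u
      rw [h4]
      exact h3
  · intro z hz
    rw [Finset.mem_coe, Finset.mem_filter] at hz
    obtain ⟨hO, hP, hD⟩ := hz
    unfold Om at hO
    rw [Fintype.mem_piFinset] at hO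
    rw [Finset.mem_coe, Finset.mem_sigma, Finset.mem_product, Finset.mem_inter,
      Finset.mem_inter]
    refine ⟨?_, ⟨hP, ?_⟩, hD, ?_⟩
    · rw [mem_Wt]
      intro u
      by_cases hu : u ∈ R <;> simp [hu]
    · rw [mem_As]
      intro u
      by_cases hu : u ∈ R
      · refine ⟨fun x hx => ?_, fun y hy => ?_⟩
        · simp [hu] at hx
        · simp only [hu, if_true, Sum.inr.injEq] at hy
          rw [← hy]
          exact hO u
      · refine ⟨fun x hx => ?_, fun y hy => ?_⟩
        · simp only [hu, if_false, Sum.inl.injEq] at hx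
          exact hx
        · simp [hu] at hy
    · rw [mem_Bs]
      intro u
      by_cases hu : u ∈ R
      · refine ⟨fun x hx => ?_, fun y hy => ?_⟩
        · simp [hu] at hx
        · simp only [hu, if_true, Sum.inr.injEq] at hy
          exact hy
      · refine ⟨fun x hx => ?_, fun y hy => ?_⟩
        · simp only [hu, if_false, Sum.inl.injEq] at hx
          rw [← hx]
          exact hO u
        · simp [hu] at hy
  · rintro ⟨w, v, v'⟩ hp
    rw [Finset.mem_coe, Finset.mem_sigma, Finset.mem_product, Finset.mem_inter,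
      Finset.mem_inter] at hp
    obtain ⟨hW, ⟨hP, hA⟩, hD, hB⟩ := hp
    have hw : (fun u => if u ∈ R then Sum.inr (v' u) else Sum.inl (v u)) = w := by
      funext u
      have h0 := (mem_Wt R w).mp hW u
      have h1 := (mem_As E w v).mp hA u
      have h2 := (mem_Bs E w v').mp hB u
      rcases h : w u with x | y
      · rw [h] at h0
        have hu : u ∉ R := by
          intro hu
          have := h0.mpr hu
          simp at this
        rw [if_neg hu, h1.1 x h]
      · rw [h] at h0
        have hu : u ∈ R := h0.mp (by simp)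
        rw [if_pos hu, h2.2 y h]
    show (⟨fun u => if u ∈ R then Sum.inr (v' u) else Sum.inl (v u), (v, v')⟩ :
      (_ : Pub k K d N q) × ((Fin k → Nm K N) × (Fin k → Wo d q))) = ⟨w, (v, v')⟩
    rw [hw]
  · intro z _
    rfl

end Pool.Agent.ANC
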