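import Pool.Agent.ANC.Stmts

/-!
# Module ID1 (helper26): public parts with a marked vertex
-/

set_option autoImplicit false

namespace Pool.Agent.ANC

open Finset

namespace ID1M

variable {k K d N q : ℕ}

lemma mem_As {E : Fin k → Finset (Nm K N × Wo d q)} {w : Pub k K d N q} {v : Fin k → Nm K N} :
    v ∈ As E w ↔ ∀ u, (∀ x, w u = Sum.inl x → v u = x) ∧
      (∀ y, w u = Sum.inr y → (v u, y) ∈ E u) := by
  classical
  unfold As
  rw [Fintype.mem_piFinset]
  refine forall_congr' fun u => ?_
  cases h : w u with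
  | inl x => simp
  | inr y => simp

lemma mem_Bs {E : Fin k → Finset (Nm K N × Wo d q)} {w : Pub k K d N q} {v : Fin k → Wo d q} :
    v ∈ Bs E w ↔ ∀ u, (∀ x, w u = Sum.inl x → (x, v u) ∈ E u) ∧
      (∀ y, w u = Sum.inr y → v u = y) := by
  classical
  unfold Bs
  rw [Fintype.mem_piFinset]
  refine forall_congr' fun u => ?_
  cases h : w u with
  | inl x => simp
  | inr y => simp

open Classical in
/-- the public part of a configuration -/
noncomputable def pub (R : Finset (Fin k)) (u₀ : Fin k) (x₀ : Nm K N) (z : Cf k K d N q) :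
    Pub k K d N q :=
  fun u => if u = u₀ then Sum.inl x₀ else if u ∈ R then Sum.inr (z u).2 else Sum.inl (z u).1

lemma key (E : Fin k → Finset (Nm K N × Wo d q)) {R : Finset (Fin k)} {u₀ : Fin k} {x₀ : Nm K N}
    {w : Pub k K d N q} (hw : w ∈ Wm d q R u₀ x₀) (p : Nm K N × Wo d q) (z : Cf k K d N q) :
    (nms z ∈ As E (Function.update w u₀ (Sum.inl p.1)) ∧
      wds z ∈ Bs E (Function.update w u₀ (Sum.inr p.2))) ↔
    (z u₀ = p ∧ (∀ u, u ≠ u₀ → z u ∈ E u) ∧ pub R u₀ x₀ z = w) := by
  classical
  unfold Wm at hw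
  obtain ⟨-, hw0, hwR⟩ := Finset.mem_filter.1 hw
  rw [mem_As, mem_Bs]
  constructor
  · rintro ⟨hA, hB⟩
    refine ⟨?_, ?_, ?_⟩
    · have h1 := (hA u₀).1 p.1 (Function.update_self ..)
      have h2 := (hB u₀).2 p.2 (Function.update_self ..)
      exact Prod.ext h1 h2
    · intro u hu
      have hAu := hA u
      have hBu := hB u
      rw [Function.update_of_ne hu] at hAu hBu
      cases h : w u with
      | inl x =>
        have h1 := hAu.1 x h
        have h2 := hBu.1 x h
        rw [← h1] at h2
        exact h2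
      | inr y =>
        have h1 := hBu.2 y h
        have h2 := hAu.2 y h
        rw [← h1] at h2
        exact h2
    · funext u
      unfold pub
      split_ifs with hu hR
      · rw [hu, hw0]
      · have hAu := hA u
        have hBu := hB u
        rw [Function.update_of_ne hu] at hAu hBu
        have h1 := (hwR u hu).2 hR
        cases h : w u with
        | inl x => rw [h] at h1; exact absurd h1 (by simp)
        | inr y =>
          have := hBu.2 y h
          rw [← this]
          rfl
      · have hAu := hA u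
        have hBu := hB u
        rw [Function.update_of_ne hu] at hAu hBu
        cases h : w u with
        | inl x =>
          have := hAu.1 x h
          rw [← this]
          rfl
        | inr y => exact absurd ((hwR u hu).1 (by rw [h]; rfl)) hR
  · rintro ⟨hz, hE, hpub⟩
    have hp : ∀ u, u ≠ u₀ → w u = if u ∈ R then Sum.inr (z u).2 else Sum.inl (z u).1 := by
      intro u hu
      rw [← hpub]
      unfold pub
      rw [if_neg hu]
    constructor
    · intro u
      by_cases hu : u = u₀
      · subst hu
        rw [Function.update_self]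
        refine ⟨fun x hx => ?_, fun y hy => ?_⟩
        · rw [← Sum.inl_injective hx, ← hz]
          rfl
        · exact absurd hy (by simp)
      · rw [Function.update_of_ne hu, hp u hu]
        refine ⟨fun x hx => ?_, fun y hy => ?_⟩
        · split_ifs at hx
          exact Sum.inl_injective hx
        · split_ifs at hy
          rw [← Sum.inr_injective hy]
          exact hE u hu
    · intro u
      by_cases hu : u = u₀
      · subst hu
        rw [Function.update_self]
        refine ⟨fun x hx => ?_, fun y hy => ?_⟩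
        · exact absurd hx (by simp)
        · rw [← Sum.inr_injective hy, ← hz]
          rfl
      · rw [Function.update_of_ne hu, hp u hu]
        refine ⟨fun x hx => ?_, fun y hy => ?_⟩
        · split_ifs at hx
          rw [← Sum.inl_injective hx]
          exact hE u hu
        · split_ifs at hy
          exact Sum.inr_injective hy

lemma pub_mem {R : Finset (Fin k)} {u₀ : Fin k} {x₀ : Nm K N} (z : Cf k K d N q) :
    pub R u₀ x₀ z ∈ Wm d q R u₀ x₀ := by
  classical
  unfold Wm
  rw [Finset.mem_filter]
  refine ⟨Finset.mem_univ _, ?_, ?_⟩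
  · unfold pub
    rw [if_pos rfl]
  · intro u hu
    unfold pub
    rw [if_neg hu]
    split_ifs with h
    · simp [h]
    · simp [h]

open Classical in
lemma fixed (E : Fin k → Finset (Nm K N × Wo d q)) (R : Finset (Fin k)) (u₀ : Fin k)
    (x₀ : Nm K N) (P : Finset (Fin k → Nm K N)) (D : Finset (Fin k → Wo d q))
    (G : Finset (Nm K N × Wo d q)) {p : Nm K N × Wo d q} (hp : p ∈ G) :
    ∑ w ∈ Wm d q R u₀ x₀, (P ∩ As E (Function.update w u₀ (Sum.inl p.1))).card *
        (D ∩ Bs E (Function.update w u₀ (Sum.inr p.2))).card =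
    (((Oy E u₀ G).filter (fun z => nms z ∈ P ∧ wds z ∈ D)).filter (fun z => z u₀ = p)).card := by
  rw [Finset.card_eq_sum_card_fiberwise (f := pub R u₀ x₀) (t := Wm d q R u₀ x₀)
    (fun z _ => pub_mem z)]
  apply Finset.sum_congr rfl
  intro w hw
  rw [← Finset.card_product]
  symm
  apply Finset.card_nbij' (fun z => (nms z, wds z)) (fun v u => (v.1 u, v.2 u))
  · intro z hz
    simp only [Finset.coe_filter, Finset.mem_filter, Set.mem_ofPred_eq] at hz
    obtain ⟨⟨⟨h1, h2, h3⟩, h4⟩, h5⟩ := hz
    unfold Oy at h1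
    rw [Fintype.mem_piFinset] at h1
    have h6 := (key E hw p z).2 ⟨h4, fun u hu => by
      have := h1 u
      rwa [Function.update_of_ne hu] at this, h5⟩
    simp only [Finset.coe_product, Set.mem_prod, Finset.mem_coe, Finset.mem_inter]
    exact ⟨⟨h2, h6.1⟩, h3, h6.2⟩
  · intro v hv
    simp only [Finset.coe_product, Set.mem_prod, Finset.mem_coe, Finset.mem_inter] at hv
    obtain ⟨⟨h1, h2⟩, h3, h4⟩ := hv
    have h5 := (key E hw p (fun u => (v.1 u, v.2 u))).1 ⟨h2, h4⟩
    obtain ⟨a1, a2, a3⟩ := h5
    simp only [Finset.coe_filter, Finset.mem_filter, Set.mem_ofPred_eq]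
    refine ⟨⟨⟨?_, h1, h3⟩, a1⟩, a3⟩
    unfold Oy
    rw [Fintype.mem_piFinset]
    intro u
    by_cases hu : u = u₀
    · subst hu
      rw [Function.update_self]
      have : (v.1 u, v.2 u) = p := a1
      rw [this]
      exact hp
    · rw [Function.update_of_ne hu]
      exact a2 u hu
  · intro z _
    rfl
  · intro v _
    rfl

end ID1M

open ID1M in
theorem ID1_thm : Stmt_ID1 := by
  classical
  intro k K d N q E R u₀ x₀ P D G ψ
  rw [Finset.sum_comm]
  have h1 : ∀ z ∈ (Oy E u₀ G).filter (fun z => nms z ∈ P ∧ wds z ∈ D), z u₀ ∈ G := by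
    intro z hz
    have h2 := (Finset.mem_filter.1 hz).1
    unfold Oy at h2
    rw [Fintype.mem_piFinset] at h2
    have h3 := h2 u₀
    rwa [Function.update_self] at h3
  rw [← Finset.sum_fiberwise_of_maps_to h1]
  apply Finset.sum_congr rfl
  intro p hp
  have h4 : ∑ z ∈ ((Oy E u₀ G).filter (fun z => nms z ∈ P ∧ wds z ∈ D)).filter
      (fun z => z u₀ = p), ψ (z u₀) = ∑ z ∈ ((Oy E u₀ G).filter
      (fun z => nms z ∈ P ∧ wds z ∈ D)).filter (fun z => z u₀ = p), ψ p := by
    apply Finset.sum_congr rfl
    intro z hz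
    rw [(Finset.mem_filter.1 hz).2]
  rw [h4, Finset.sum_const, ← fixed E R u₀ x₀ P D G hp, nsmul_eq_mul, ← Finset.mul_sum, mul_comm]
  push_cast
  rfl

end Pool.Agent.ANC
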