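import Pool.Agent.ANC.Stmts

/-!
# ID2: the public part at one vertex
-/

set_option autoImplicit false

namespace Pool.Agent.ANC

open Finset

namespace ID2M

/-- the common form of the two identities -/
lemma key {k K d N q : ℕ} {T : Type} [Fintype T] (R : Finset (Fin k)) (u₀ : Fin k) (x₀ : Nm K N)
    (Ψ : Pub k K d N q → ℝ) (g : T → Nm K N ⊕ Wo d q) (hg : Function.Injective g)
    (hr : ∀ t, (g t).isRight = true ↔ u₀ ∈ R)
    (hs : ∀ v : Nm K N ⊕ Wo d q, (v.isRight = true ↔ u₀ ∈ R) → ∃ t, g t = v) :
    ∑ w ∈ Wm d q R u₀ x₀, ∑ t, Ψ (Function.update w u₀ (g t)) = ∑ w ∈ Wt K d N q R, Ψ w := by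
  classical
  rw [← Finset.sum_product']
  refine Finset.sum_bij (fun p _ => Function.update p.1 u₀ (g p.2)) ?_ ?_ ?_ ?_
  · rintro ⟨w, t⟩ hp
    have hw := (Finset.mem_product.1 hp).1
    unfold Wm at hw
    rw [Finset.mem_filter] at hw
    unfold Wt
    rw [Finset.mem_filter]
    refine ⟨Finset.mem_univ _, fun u => ?_⟩
    by_cases hu : u = u₀
    · subst hu
      simp only [Function.update_self]
      exact hr t
    · simp only [Function.update_of_ne hu]
      exact hw.2.2 u hu
  · rintro ⟨w, t⟩ hp ⟨w', t'⟩ hp' h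
    have hw := (Finset.mem_product.1 hp).1
    have hw' := (Finset.mem_product.1 hp').1
    unfold Wm at hw hw'
    rw [Finset.mem_filter] at hw hw'
    have h1 : Function.update w u₀ (g t) = Function.update w' u₀ (g t') := h
    have h2 := congrFun h1 u₀
    rw [Function.update_self, Function.update_self] at h2
    have h3 : w = w' := by
      funext u
      by_cases hu : u = u₀
      · rw [hu]
        exact hw.2.1.trans hw'.2.1.symm
      · have h4 := congrFun h1 u
        rw [Function.update_of_ne hu, Function.update_of_ne hu] at h4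
        exact h4
    exact Prod.ext h3 (hg h2)
  · intro w hw
    unfold Wt at hw
    rw [Finset.mem_filter] at hw
    obtain ⟨t, ht⟩ := hs (w u₀) (hw.2 u₀)
    refine ⟨(Function.update w u₀ (Sum.inl x₀), t), ?_, ?_⟩
    · rw [Finset.mem_product]
      refine ⟨?_, Finset.mem_univ _⟩
      unfold Wm
      rw [Finset.mem_filter]
      refine ⟨Finset.mem_univ _, Function.update_self _ _ _, fun u hu => ?_⟩
      change (Function.update w u₀ (Sum.inl x₀) u).isRight = true ↔ u ∈ R
      rw [Function.update_of_ne hu]
      exact hw.2 u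
    · change Function.update (Function.update w u₀ (Sum.inl x₀)) u₀ (g t) = w
      rw [Function.update_idem, ht, Function.update_eq_self]
  · intro p _
    rfl

end ID2M

theorem ID2_thm : Stmt_ID2 := by
  intro k K d N q R u₀ x₀ Ψ
  refine ⟨fun hu => ?_, fun hu => ?_⟩
  · refine ID2M.key R u₀ x₀ Ψ (fun y => Sum.inr y) Sum.inr_injective ?_ ?_
    · intro t
      exact ⟨fun _ => hu, fun _ => rfl⟩
    · intro v hv
      have h := hv.2 hu
      cases v with
      | inl x => exact absurd h (by simp)
      | inr y => exact ⟨y, rfl⟩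
  · refine ID2M.key R u₀ x₀ Ψ (fun x => Sum.inl x) Sum.inl_injective ?_ ?_
    · intro t
      exact ⟨fun h => absurd h (by simp), fun h => absurd h hu⟩
    · intro v hv
      cases v with
      | inl x => exact ⟨x, rfl⟩
      | inr y => exact absurd (hv.1 rfl) hu

end Pool.Agent.ANC
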