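import Pool.Agent.ANC.Stmts

/-!
# Triangle detection with several announcements: one block of a random machine (INA)
-/

set_option autoImplicit false

namespace Pool.Agent.ANC

open Finset MeasureTheory

namespace INAM

section Expectation

variable {Ω : Type} [MeasurableSpace Ω] {μ : Measure Ω} {f g : Ω → ℝ} {v w : ℝ}

/-- `f` is integrable with integral `v` -/
def Ev (μ : Measure Ω) (f : Ω → ℝ) (v : ℝ) : Prop := Integrable f μ ∧ ∫ ω, f ω ∂μ = v

lemma Ev.sum {ι : Type} (s : Finset ι) {f : ι → Ω → ℝ} {v : ι → ℝ}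
    (h : ∀ i ∈ s, Ev μ (f i) (v i)) : Ev μ (fun ω => ∑ i ∈ s, f i ω) (∑ i ∈ s, v i) := by
  refine ⟨integrable_finsetSum s fun i hi => (h i hi).1, ?_⟩
  rw [integral_finsetSum s fun i hi => (h i hi).1]
  exact sum_congr rfl fun i hi => (h i hi).2

lemma Ev.mul (c : ℝ) (h : Ev μ f v) : Ev μ (fun ω => c * f ω) (c * v) :=
  ⟨h.1.const_mul c, by rw [integral_const_mul, h.2]⟩

lemma Ev.dv (h : Ev μ f v) (c : ℝ) : Ev μ (fun ω => f ω / c) (v / c) :=
  ⟨h.1.div_const c, by rw [integral_div, h.2]⟩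

lemma Ev.sub [IsProbabilityMeasure μ] (h : Ev μ f v) (c : ℝ) :
    Ev μ (fun ω => f ω - c) (v - c) := by
  refine ⟨h.1.sub (integrable_const c), ?_⟩
  rw [integral_sub h.1 (integrable_const c), h.2]
  simp

open Classical in
lemma Ev.ind [IsFiniteMeasure μ] {S : Set Ω} (hS : MeasurableSet S) :
    Ev μ (fun ω => if ω ∈ S then (1 : ℝ) else 0) (μ.real S) := by
  have h : (fun ω => if ω ∈ S then (1 : ℝ) else 0) = S.indicator 1 := by
    funext ω
    by_cases hω : ω ∈ S
    · simp [hω]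
    · simp [hω]
  rw [h]
  exact ⟨(integrable_const (1 : ℝ)).indicator hS, integral_indicator_one hS⟩

lemma Ev.mono (hf : Ev μ f v) (hg : Ev μ g w) (h : ∀ ω, f ω ≤ g ω) : v ≤ w := by
  rw [← hf.2, ← hg.2]
  exact integral_mono hf.1 hg.1 h

end Expectation

/-- the answers and the costs depend only on the lists of the phases -/
lemma same (hMCH : Stmt_MCH) {A Γ Q E : Type} [Fintype A] [DecidableEq A] (P : Machine A Γ Q E)
    {bl bl' : ℕ → List E} {L : ℕ} (h : ∀ j ≤ L, bl j = bl' j) (j : ℕ) (hj : j ≤ L) :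
    P.ans bl j = P.ans bl' j ∧ P.cost bl j = P.cost bl' j := by
  have h1 := (hMCH A Γ Q E P bl bl' j).1 (fun i hi => h i (by omega))
  unfold Machine.ans Machine.cost
  rw [h1, h j hj]
  exact ⟨rfl, rfl⟩

end INAM

open INAM in
theorem INA_thm (hAVG : Stmt_AVG) (hYTO : Stmt_YTO) (hSIZ : Stmt_SIZ) (hFUL : Stmt_FUL)
    (hMCH : Stmt_MCH) : Stmt_INA := by
  classical
  intro z k K d N q L n m β enc b₀ b₁ hPar hEnc Ω A Γ Q _ _ _ _ _ μ _ P T B j₀ hW hB hc1 hc2
  by_cases hX : Nonempty (Xs k L K N)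
  swap
  · have hE : (Ome β : Finset (Xs k L K N × Ys k d q)) = ∅ := by
      rw [Finset.eq_empty_iff_forall_notMem]
      intro p _
      exact hX ⟨p.1⟩
    rw [hE]
    simp
  obtain ⟨o₀⟩ := hX
  have hj : (j₀ : ℕ) + 1 ≤ L := j₀.2
  -- the lists of the phases
  obtain ⟨bm, hbm⟩ : ∃ bm : Xs k L K N × Ys k d q → ℕ → List (Sym2 (Fin n)),
      bm = fun p => block (enc p) (moment m L (k * K)) := ⟨_, rfl⟩
  have hbm' : ∀ p, block (enc p) (moment m L (k * K)) = bm p := fun p => by rw [hbm]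
  have hsame : ∀ ω p j, j ≤ L → (P ω).ans (blk b₀ b₁ p) j = (P ω).ans (bm p) j ∧
      (P ω).cost (blk b₀ b₁ p) j = (P ω).cost (bm p) j := by
    intro ω p j hjL
    refine same hMCH (P ω) (L := L) (fun i hi => ?_) j hjL
    rw [hbm]
    exact (hEnc.blo p i hi).symm
  have hmA : ∀ p j, MeasurableSet {ω | (P ω).ans (bm p) j = true} := by
    intro p j
    rw [hbm]
    exact hW.measAns (enc p) (hEnc.inp p) j
  have hmF : ∀ p j, MeasurableSet {ω | (P ω).ans (bm p) j = false} := by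
    intro p j
    have h : {ω | (P ω).ans (bm p) j = false} = {ω | (P ω).ans (bm p) j = true}ᶜ := by
      ext ω
      simp
    rw [h]
    exact (hmA p j).compl
  have hmC : ∀ p j, Measurable fun ω => (P ω).cost (bm p) j := by
    intro p j
    refine measurable_to_countable' fun v => ?_
    rw [hbm]
    exact hW.measCost (enc p) (hEnc.inp p) j v
  have hmS : ∀ p, Measurable fun ω => ∑ i ∈ range ((j₀ : ℕ) + 1), (P ω).cost (bm p) i :=
    fun p => Finset.measurable_sum _ fun i _ => hmC p i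
  -- the events
  obtain ⟨G, hG⟩ : ∃ G : Xs k L K N × Ys k d q → Set Ω, G = fun p =>
      {ω | (P ω).ans (bm p) (j₀ + 1) = false ∧ (P ω).cost (bm p) (j₀ + 1) ≤ B ∧
        ∑ i ∈ range ((j₀ : ℕ) + 1), (P ω).cost (bm p) i ≤ B * L} := ⟨_, rfl⟩
  obtain ⟨H, hH⟩ : ∃ H : Xs k L K N → Cf k K d N q → Set Ω, H = fun o z =>
      {ω | (P ω).ans (bm (ins o j₀ (nms z), wds z)) (j₀ + 1) = false} := ⟨_, rfl⟩
  have hmG : ∀ p, MeasurableSet (G p) := by
    intro p
    rw [hG]
    have h1 : MeasurableSet ((fun ω => (P ω).cost (bm p) (j₀ + 1)) ⁻¹' {v | v ≤ B}) :=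
      hmC p _ (MeasurableSet.of_discrete)
    have h2 : MeasurableSet ((fun ω => ∑ i ∈ range ((j₀ : ℕ) + 1), (P ω).cost (bm p) i) ⁻¹'
        {v | v ≤ B * L}) := hmS p (MeasurableSet.of_discrete)
    exact (hmF p _).inter (h1.inter h2)
  have hmH : ∀ o z, MeasurableSet (H o z) := by
    intro o z
    rw [hH]
    exact hmF _ _
  obtain ⟨V, hV⟩ : ∃ V : ℝ, V = (Fintype.card (Fin k → Nm K N) : ℝ) := ⟨_, rfl⟩
  obtain ⟨M, hM⟩ : ∃ M : ℝ, M = ((Ome β : Finset (Xs k L K N × Ys k d q)).card : ℝ) := ⟨_, rfl⟩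
  have hV0 : 0 < V := by
    have hp := hPar o₀ j₀
    have hz0 : 0 < z := by
      rcases Nat.eq_zero_or_pos z with h0 | h0
      · have := hp.hz
        rw [h0] at this
        norm_num at this
      · exact h0
    have hN0 : 0 < N := by
      rw [hp.hN]
      exact pow_pos hz0 _
    have : Nonempty (Fin N) := ⟨⟨0, hN0⟩⟩
    rw [hV]
    exact_mod_cast Fintype.card_pos
  -- the inequality for one machine
  have hpt : ∀ ω, V * (47 / 50 * ∑ p ∈ (Ome β : Finset (Xs k L K N × Ys k d q)),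
        (if ω ∈ G p then (1 : ℝ) else 0) - 3 / 100 * M) ≤
      ∑ o : Xs k L K N, (∑ u₀ : Fin k,
        ((Ed β K (Yo β o j₀ u₀)).card : ℝ) / (tot β K (Yo β o j₀ u₀) : ℝ) *
        ∑ z ∈ Oy (fun u => Ed β K (Yo β o j₀ u)) u₀ (Al K N (Yo β o j₀ u₀)),
          (agr β (z u₀).1 (z u₀).2 : ℝ) * (if ω ∈ H o z then (1 : ℝ) else 0)) / k := by
    intro ω
    have h1 := hAVG hPar A Γ Q (Sym2 (Fin n)) (P ω) b₀ b₁ B j₀ hB hc1 hc2
    rw [← hV, ← hM] at h1
    refine le_trans (le_of_eq ?_) (h1.trans (le_of_eq ?_))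
    · congr 3
      rw [← Finset.sum_boole]
      refine Finset.sum_congr rfl fun p _ => ?_
      have h2 : ω ∈ G p ↔ ((P ω).ans (blk b₀ b₁ p) (j₀ + 1) = false ∧
          (P ω).cost (blk b₀ b₁ p) (j₀ + 1) ≤ B ∧
          ∑ i ∈ range ((j₀ : ℕ) + 1), (P ω).cost (blk b₀ b₁ p) i ≤ B * L) := by
        rw [(hsame ω p _ hj).1, (hsame ω p _ hj).2, hG]
        have h3 : ∑ i ∈ range ((j₀ : ℕ) + 1), (P ω).cost (blk b₀ b₁ p) i =
            ∑ i ∈ range ((j₀ : ℕ) + 1), (P ω).cost (bm p) i := by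
          refine Finset.sum_congr rfl fun i hi => ?_
          rw [mem_range] at hi
          exact (hsame ω p i (by omega)).2
        rw [h3]
        exact Iff.rfl
      by_cases h4 : ω ∈ G p
      · rw [if_pos h4, if_pos (h2.1 h4)]
      · rw [if_neg h4, if_neg fun h5 => h4 (h2.2 h5)]
    · refine Finset.sum_congr rfl fun o _ => ?_
      unfold yes
      congr 1
      refine Finset.sum_congr rfl fun u₀ _ => ?_
      congr 1
      rw [Finset.sum_filter]
      refine Finset.sum_congr rfl fun z _ => ?_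
      have h2 : ω ∈ H o z ↔ (P ω).ans (blk b₀ b₁ (ins o j₀ (nms z), wds z)) (j₀ + 1) = false := by
        rw [(hsame ω _ _ hj).1, hH]
        exact Iff.rfl
      by_cases h4 : ω ∈ H o z
      · rw [if_pos (h2.1 h4), if_pos h4, mul_one]
      · rw [if_neg fun h5 => h4 (h2.2 h5), if_neg h4, mul_zero]
  -- integrate
  have hint := Ev.mono (μ := μ)
    ((((Ev.sum (Ome β : Finset (Xs k L K N × Ys k d q)) fun p _ => Ev.ind (hmG p)).mul
      (47 / 50)).sub (3 / 100 * M)).mul V)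
    (Ev.sum (univ : Finset (Xs k L K N)) fun o _ => (Ev.sum (univ : Finset (Fin k)) fun u₀ _ =>
      (Ev.sum (Oy (fun u => Ed β K (Yo β o j₀ u)) u₀ (Al K N (Yo β o j₀ u₀))) fun z _ =>
        (Ev.ind (hmH o z)).mul (agr β (z u₀).1 (z u₀).2 : ℝ)).mul
          (((Ed β K (Yo β o j₀ u₀)).card : ℝ) / (tot β K (Yo β o j₀ u₀) : ℝ))).dv (k : ℝ)) hpt
  -- the right-hand side
  have hright : ∑ o : Xs k L K N, (∑ u₀ : Fin k,
        ((Ed β K (Yo β o j₀ u₀)).card : ℝ) / (tot β K (Yo β o j₀ u₀) : ℝ) *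
        ∑ z ∈ Oy (fun u => Ed β K (Yo β o j₀ u)) u₀ (Al K N (Yo β o j₀ u₀)),
          (agr β (z u₀).1 (z u₀).2 : ℝ) * μ.real (H o z)) / k ≤
      1 / 3 * ∑ o : Xs k L K N, yes β (Yo β o j₀) (fun _ : Cf k K d N q => True) := by
    rw [Finset.mul_sum]
    refine Finset.sum_le_sum fun o _ => ?_
    unfold yes
    rw [← mul_div_assoc]
    refine div_le_div_of_nonneg_right ?_ (Nat.cast_nonneg k)
    rw [Finset.mul_sum]
    refine Finset.sum_le_sum fun u₀ _ => ?_
    rw [mul_left_comm]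
    refine mul_le_mul_of_nonneg_left ?_ (by positivity)
    rw [Finset.filter_true, Finset.mul_sum]
    refine Finset.sum_le_sum fun z _ => ?_
    rw [mul_comm (1 / 3 : ℝ)]
    rcases Nat.eq_zero_or_pos (agr β (z u₀).1 (z u₀).2) with h0 | h0
    · rw [h0]
      simp
    · refine mul_le_mul_of_nonneg_left ?_ (Nat.cast_nonneg _)
      -- the graph has a triangle
      have h1 := hW.right (enc (ins o j₀ (nms z), wds z)) (hEnc.inp _) (j₀ + 1) (by omega) hj
      have h2 : ¬(graph (enc (ins o j₀ (nms z), wds z))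
          (moment m L (k * K) ((j₀ : ℕ) + 1 + 1))).CliqueFree 3 := by
        rw [hEnc.tri _ _ hj]
        intro h3
        have h4 := h3 u₀ j₀ (Nat.lt_succ_self _)
        have h5 : ins o j₀ (nms z) u₀ j₀ = (z u₀).1 := by
          unfold ins nms
          rw [Function.update_self]
        change agr β (ins o j₀ (nms z) u₀ j₀) (z u₀).2 = 0 at h4
        rw [h5] at h4
        exact h0.ne' h4
      have h3 : {ω | (P ω).ans (block (enc (ins o j₀ (nms z), wds z)) (moment m L (k * K)))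
          (j₀ + 1) = true ↔ ¬(graph (enc (ins o j₀ (nms z), wds z))
          (moment m L (k * K) ((j₀ : ℕ) + 1 + 1))).CliqueFree 3} = (H o z)ᶜ := by
        ext ω
        rw [hbm', hH]
        simp [h2]
      rw [h3, probReal_compl_eq_one_sub (hmH o z)] at h1
      linarith
  -- the total weight
  have hk0 : 0 < k := (hPar o₀ j₀).hk
  have htot : ∑ o : Xs k L K N, yes β (Yo β o j₀) (fun _ : Cf k K d N q => True) = V * M := by
    have h1 : ∀ o : Xs k L K N, yes β (Yo β o j₀) (fun _ : Cf k K d N q => True) =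
        ∑ z ∈ Om (fun u => Ed β K (Yo β o j₀ u)), (fun _ => (1 : ℝ)) (ins o j₀ (nms z), wds z) := by
      intro o
      rw [hYTO β (Yo β o j₀) hk0 fun u => (((hSIZ (hPar o j₀)).1 u).2.2.1)]
      simp
    rw [Finset.sum_congr rfl fun o _ => h1 o, hFUL β j₀ (fun _ => (1 : ℝ)), ← hV, hM]
    simp
  -- the left-hand side
  have hleft : ∑ p ∈ (Ome β : Finset (Xs k L K N × Ys k d q)), (2 / 3 -
      μ.real {ω | B < (P ω).cost (bm p) (j₀ + 1)} -
      μ.real {ω | B * L < ∑ i ∈ range ((j₀ : ℕ) + 1), (P ω).cost (bm p) i}) ≤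
      ∑ p ∈ (Ome β : Finset (Xs k L K N × Ys k d q)), μ.real (G p) := by
    refine Finset.sum_le_sum fun p hp => ?_
    have h1 := hW.right (enc p) (hEnc.inp _) (j₀ + 1) (by omega) hj
    have h2 : (graph (enc p) (moment m L (k * K) ((j₀ : ℕ) + 1 + 1))).CliqueFree 3 := by
      rw [hEnc.tri _ _ hj]
      intro u i _
      unfold Ome at hp
      exact (Finset.mem_filter.1 hp).2 u i
    have h3 : {ω | (P ω).ans (block (enc p) (moment m L (k * K))) (j₀ + 1) = true ↔
        ¬(graph (enc p) (moment m L (k * K) ((j₀ : ℕ) + 1 + 1))).CliqueFree 3} =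
        {ω | (P ω).ans (bm p) (j₀ + 1) = false} := by
      ext ω
      rw [hbm']
      simp [h2]
    rw [h3] at h1
    have h4 : {ω | (P ω).ans (bm p) (j₀ + 1) = false} ⊆ G p ∪
        ({ω | B < (P ω).cost (bm p) (j₀ + 1)} ∪
          {ω | B * L < ∑ i ∈ range ((j₀ : ℕ) + 1), (P ω).cost (bm p) i}) := by
      intro ω hω
      by_cases h5 : (P ω).cost (bm p) (j₀ + 1) ≤ B
      · by_cases h6 : ∑ i ∈ range ((j₀ : ℕ) + 1), (P ω).cost (bm p) i ≤ B * L
        · left
          rw [hG]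
          exact ⟨hω, h5, h6⟩
        · right
          right
          exact not_le.1 h6
      · right
        left
        exact not_le.1 h5
    have h5 := measureReal_mono (μ := μ) h4
    have h6 := measureReal_union_le (μ := μ) (G p) ({ω | B < (P ω).cost (bm p) (j₀ + 1)} ∪
          {ω | B * L < ∑ i ∈ range ((j₀ : ℕ) + 1), (P ω).cost (bm p) i})
    have h7 := measureReal_union_le (μ := μ) {ω | B < (P ω).cost (bm p) (j₀ + 1)}
          {ω | B * L < ∑ i ∈ range ((j₀ : ℕ) + 1), (P ω).cost (bm p) i}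
    linarith
  rw [htot] at hright
  have hfin := hint.trans hright
  have hfin2 : V * (47 / 50 * ∑ p ∈ (Ome β : Finset (Xs k L K N × Ys k d q)), μ.real (G p) -
      3 / 100 * M) ≤ V * (1 / 3 * M) := by
    refine hfin.trans (le_of_eq ?_)
    ring
  have hfin3 := le_of_mul_le_mul_left hfin2 hV0
  simp only [hbm'] at *
  rw [← hM]
  linarith

end Pool.Agent.ANC
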