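import Pool.Agent.ANC.Stmts

/-!
# Triangle detection with several announcements: the contradiction (module INB, helper63)
-/

set_option autoImplicit false
set_option maxHeartbeats 4000000

namespace Pool.Agent.ANC

open Finset MeasureTheory

namespace INBM

/-- Markov's inequality. -/
theorem markov {Ω : Type} [MeasurableSpace Ω] (μ : Measure Ω) (f : Ω → ℕ) (hf : Measurable f)
    (B : ℕ) : (B : ENNReal) * μ {ω | B < f ω} ≤ ∫⁻ ω, (f ω : ENNReal) ∂μ := by
  have hf' : AEMeasurable (fun ω => (f ω : ENNReal)) μ :=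
    ((measurable_from_top (f := fun n : ℕ => (n : ENNReal))).comp hf).aemeasurable
  refine le_trans ?_ (mul_meas_ge_le_lintegral₀ hf' (B : ENNReal))
  refine mul_le_mul_right (measure_mono ?_) _
  intro ω hω
  have h1 : B < f ω := hω
  show (B : ENNReal) ≤ (f ω : ENNReal)
  exact_mod_cast h1.le

/-- The two bounds for one sequence of costs. -/
theorem bounds {Ω : Type} [MeasurableSpace Ω] (μ : Measure Ω) [IsProbabilityMeasure μ]
    (L : ℕ) (c : ℕ → Ω → ℕ) (hc : ∀ j, Measurable (c j)) (T : ℝ) (B : ℕ) (hB : 1 ≤ B)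
    (hL : 1 ≤ L) (hT : 100 * T ≤ B * L)
    (hint : ∫⁻ ω, ∑ j ∈ range (L + 1), (c j ω : ENNReal) ∂μ ≤ ENNReal.ofReal T) :
    ∑ j₀ : Fin L, μ.real {ω | B < c (j₀ + 1) ω} ≤ L / 100 ∧
    ∀ j₀ : Fin L, μ.real {ω | B * L < ∑ i ∈ range (j₀ + 1), c i ω} ≤ 1 / 100 := by
  have hB0 : (0 : ℝ) < B := by exact_mod_cast hB
  have hL0 : (0 : ℝ) < L := by exact_mod_cast hL
  have hTle : ENNReal.ofReal T ≤ ENNReal.ofReal (B * L / 100) :=
    ENNReal.ofReal_le_ofReal (by linarith)
  have hint2 := hint.trans hTle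
  have hmeas : ∀ j, Measurable (fun ω => (c j ω : ENNReal)) := fun j =>
    (measurable_from_top (f := fun n : ℕ => (n : ENNReal))).comp (hc j)
  constructor
  · have h1 : ∑ j₀ : Fin L, (B : ENNReal) * μ {ω | B < c (j₀ + 1) ω} ≤
        ENNReal.ofReal (B * L / 100) := by
      refine le_trans ?_ hint2
      rw [lintegral_finsetSum _ (fun j _ => hmeas j)]
      calc ∑ j₀ : Fin L, (B : ENNReal) * μ {ω | B < c (j₀ + 1) ω} ≤
          ∑ j₀ : Fin L, ∫⁻ ω, (c (j₀ + 1) ω : ENNReal) ∂μ :=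
            Finset.sum_le_sum fun j₀ _ => markov μ _ (hc _) B
        _ = ∑ j ∈ range L, ∫⁻ ω, (c (j + 1) ω : ENNReal) ∂μ :=
            Fin.sum_univ_eq_sum_range (fun j => ∫⁻ ω, (c (j + 1) ω : ENNReal) ∂μ) L
        _ ≤ ∑ j ∈ range (L + 1), ∫⁻ ω, (c j ω : ENNReal) ∂μ := by
            rw [Finset.sum_range_succ' (fun j => ∫⁻ ω, (c j ω : ENNReal) ∂μ) L]
            exact le_self_add
    have h2 := ENNReal.toReal_mono ENNReal.ofReal_ne_top h1
    rw [ENNReal.toReal_ofReal (by positivity), ENNReal.toReal_sum] at h2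
    · simp only [ENNReal.toReal_mul, ENNReal.toReal_natCast] at h2
      rw [← Finset.mul_sum] at h2
      have h3 : (B : ℝ) * ∑ j₀ : Fin L, μ.real {ω | B < c (j₀ + 1) ω} ≤ B * (L / 100) := by
        calc _ ≤ (B : ℝ) * L / 100 := h2
          _ = _ := by ring
      exact le_of_mul_le_mul_left h3 hB0
    · intro j₀ _
      exact ENNReal.mul_ne_top (ENNReal.natCast_ne_top B) (measure_ne_top μ _)
  · intro j₀
    have hsumeas : Measurable (fun ω => ∑ i ∈ range (j₀ + 1), c i ω) :=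
      Finset.measurable_sum _ (fun i _ => hc i)
    have h1 : ((B * L : ℕ) : ENNReal) * μ {ω | B * L < ∑ i ∈ range (j₀ + 1), c i ω} ≤
        ENNReal.ofReal (B * L / 100) := by
      refine (markov μ _ hsumeas (B * L)).trans (le_trans ?_ hint2)
      refine lintegral_mono fun ω => ?_
      push_cast
      refine Finset.sum_le_sum_of_subset ?_
      intro i hi
      rw [mem_range] at hi ⊢
      have := j₀.2
      omega
    have h2 := ENNReal.toReal_mono ENNReal.ofReal_ne_top h1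
    rw [ENNReal.toReal_ofReal (by positivity), ENNReal.toReal_mul, ENNReal.toReal_natCast] at h2
    have hBL : (0 : ℝ) < ((B * L : ℕ) : ℝ) := by
      push_cast
      positivity
    have h3 : ((B * L : ℕ) : ℝ) * μ.real {ω | B * L < ∑ i ∈ range (j₀ + 1), c i ω} ≤
        ((B * L : ℕ) : ℝ) * (1 / 100) := by
      calc _ ≤ (B : ℝ) * L / 100 := h2
        _ = _ := by push_cast; ring
    exact le_of_mul_le_mul_left h3 hBL

/-- There are instances without agreement. -/
theorem ome_pos (hSIZ : Stmt_SIZ) (hFUL : Stmt_FUL) {z k K d N q L : ℕ} {β : Fin N → Wo d q}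
    (hN : 0 < N) (hL : 1 ≤ L)
    (hPar : ∀ (o : Xs k L K N) (j₀ : Fin L), Par z k K d N q β (Yo β o j₀)) :
    0 < (Ome β : Finset (Xs k L K N × Ys k d q)).card := by
  classical
  let j₀ : Fin L := ⟨0, hL⟩
  have hful := hFUL (k := k) (K := K) (d := d) (q := q) β j₀ (fun _ => (1 : ℝ))
  rw [Finset.card_pos]
  by_contra hne
  rw [Finset.not_nonempty_iff_eq_empty] at hne
  rw [hne, Finset.sum_empty, mul_zero] at hful
  have hz : ∀ o : Xs k L K N,
      (∑ _z ∈ Om (fun u => Ed β K (Yo β o j₀ u)), (1 : ℝ)) = 0 := by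
    have h1 := (Finset.sum_eq_zero_iff_of_nonneg (s := (univ : Finset (Xs k L K N)))
      (f := fun o => ∑ _z ∈ Om (fun u => Ed β K (Yo β o j₀ u)), (1 : ℝ))
      (fun o _ => Finset.sum_nonneg fun _ _ => zero_le_one)).1 hful
    exact fun o => h1 o (mem_univ o)
  let o : Xs k L K N := fun _ _ _ => ⟨0, hN⟩
  have h2 := hz o
  rw [Finset.sum_const, nsmul_eq_mul, mul_one] at h2
  have h3 : 0 < (Om (fun u => Ed β K (Yo β o j₀ u))).card := by
    unfold Om
    rw [Fintype.card_piFinset]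
    refine Finset.prod_pos fun u _ => ?_
    obtain ⟨h4, h5, -⟩ := (hSIZ (hPar o j₀)).1 u
    have h6 : (0 : ℝ) < ((Al K N (Yo β o j₀ u)).card : ℝ) := by exact_mod_cast h4
    have h7 : (0 : ℝ) < ((Ed β K (Yo β o j₀ u)).card : ℝ) := by
      have : (0 : ℝ) < (999 / 1000 : ℝ) * ((Al K N (Yo β o j₀ u)).card : ℝ) := by positivity
      linarith
    exact_mod_cast h7
  have h4 : (0 : ℝ) < ((Om (fun u => Ed β K (Yo β o j₀ u))).card : ℝ) := by exact_mod_cast h3
  linarith

/-- The contradiction. -/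
theorem core (hINA : Stmt_INA) (hSIZ : Stmt_SIZ) (hFUL : Stmt_FUL)
    {z k K d N q L n m : ℕ} {β : Fin N → Wo d q}
    {enc : Xs k L K N × Ys k d q → Fin m → Sym2 (Fin n)} {b₀ : Ys k d q → List (Sym2 (Fin n))}
    {b₁ : Fin L → (Fin k → Nm K N) → List (Sym2 (Fin n))} (hN : 0 < N)
    (hPar : ∀ (o : Xs k L K N) (j₀ : Fin L), Par z k K d N q β (Yo β o j₀))
    (hEnc : Enc β enc b₀ b₁)
    (Ω A Γ Q : Type) [MeasurableSpace Ω] [Fintype A] [DecidableEq A] [Fintype Γ] [Fintype Q]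
    (μ : Measure Ω) [IsProbabilityMeasure μ] (P : Ω → Machine A Γ Q (Sym2 (Fin n))) (T : ℝ)
    (B : ℕ) (hW : Works μ P m L (k * K) T) (hB : 1 ≤ B) (hL : 1 ≤ L)
    (h1 : 20 + B * (1 + Real.log L) ≤ k * K * Real.log z / 10 ^ 7)
    (h2 : 20 + Real.log (Fintype.card Q) +
      200 * B * Real.log (Fintype.card A * Fintype.card Γ + 1) ≤ k * d * Real.log z / 10 ^ 7) :
    ¬100 * T ≤ B * L := by
  classical
  intro hT
  have hpos := ome_pos hSIZ hFUL (β := β) hN hL hPar
  set O : Finset (Xs k L K N × Ys k d q) := Ome β with hO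
  have hbd : ∀ p ∈ O, ∑ j₀ : Fin L, μ.real {ω | B < (P ω).cost (block (enc p)
      (moment m L (k * K))) (j₀ + 1)} ≤ L / 100 ∧
      ∀ j₀ : Fin L, μ.real {ω | B * L < ∑ i ∈ range (j₀ + 1),
        (P ω).cost (block (enc p) (moment m L (k * K))) i} ≤ 1 / 100 := by
    intro p hp
    have hin := hEnc.inp p
    have htri : (graph (enc p) m).CliqueFree 3 := by
      have h3 := (hEnc.tri p L le_rfl).2 (by
        intro u i _
        have h4 : ∀ u j, agr β (p.1 u j) (p.2 u) = 0 := (Finset.mem_filter.1 hp).2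
        exact h4 u i)
      have h5 : moment m L (k * K) (L + 1) = m := by
        simp [moment]
      rw [h5] at h3
      exact h3
    exact bounds μ L (fun j ω => (P ω).cost (block (enc p) (moment m L (k * K))) j)
      (fun j => measurable_to_countable' fun v => hW.measCost (enc p) hin j v) T B hB hL hT
      (hW.expCost (enc p) hin htri)
  have hina : ∀ j₀ : Fin L, 47 / 50 * ∑ p ∈ O, (2 / 3 -
        μ.real {ω | B < (P ω).cost (block (enc p) (moment m L (k * K))) (j₀ + 1)} -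
        μ.real {ω | B * L < ∑ i ∈ range (j₀ + 1),
          (P ω).cost (block (enc p) (moment m L (k * K))) i}) -
      3 / 100 * O.card ≤ 1 / 3 * O.card := fun j₀ =>
    hINA hPar hEnc Ω A Γ Q μ P T B j₀ hW hB h1 h2
  have hsum := Finset.sum_le_sum (s := (univ : Finset (Fin L))) fun j₀ _ => hina j₀
  rw [Finset.sum_sub_distrib, ← Finset.mul_sum, Finset.sum_comm] at hsum
  simp only [Finset.sum_const, Finset.card_univ, Fintype.card_fin, nsmul_eq_mul] at hsum
  have hlow : ∀ p ∈ O, (L : ℝ) * (2 / 3 - 1 / 50) ≤ ∑ j₀ : Fin L, (2 / 3 -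
        μ.real {ω | B < (P ω).cost (block (enc p) (moment m L (k * K))) (j₀ + 1)} -
        μ.real {ω | B * L < ∑ i ∈ range (j₀ + 1),
          (P ω).cost (block (enc p) (moment m L (k * K))) i}) := by
    intro p hp
    obtain ⟨h3, h4⟩ := hbd p hp
    rw [Finset.sum_sub_distrib, Finset.sum_sub_distrib]
    have h5 : ∑ j₀ : Fin L, μ.real {ω | B * L < ∑ i ∈ range (j₀ + 1),
        (P ω).cost (block (enc p) (moment m L (k * K))) i} ≤ L * (1 / 100) := by
      calc _ ≤ ∑ _j₀ : Fin L, (1 / 100 : ℝ) := Finset.sum_le_sum fun j₀ _ => h4 j₀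
        _ = L * (1 / 100) := by
          rw [Finset.sum_const, Finset.card_univ, Fintype.card_fin, nsmul_eq_mul]
    rw [Finset.sum_const, Finset.card_univ, Fintype.card_fin, nsmul_eq_mul]
    linarith
  have hlow2 := Finset.sum_le_sum hlow
  rw [Finset.sum_const, nsmul_eq_mul] at hlow2
  have hO0 : (0 : ℝ) < (O.card : ℝ) := by exact_mod_cast hpos
  have hL0 : (0 : ℝ) < L := by exact_mod_cast hL
  have hOL : (0 : ℝ) < (O.card : ℝ) * L := by positivity
  have h6 : 47 / 50 * ((O.card : ℝ) * ((L : ℝ) * (2 / 3 - 1 / 50))) - L * (3 / 100 * O.card) ≤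
      L * (1 / 3 * O.card) := by
    refine le_trans ?_ hsum
    have := mul_le_mul_of_nonneg_left hlow2 (by norm_num : (0 : ℝ) ≤ 47 / 50)
    linarith
  nlinarith

end INBM

theorem INB_thm (hINA : Stmt_INA) (hSIZ : Stmt_SIZ) (hFUL : Stmt_FUL) : Stmt_INB := by
  intro z k K d N q L n m β enc b₀ b₁ hN hPar hEnc Ω A Γ Q _ _ _ _ _ μ _ P T B hW hB hL h1 h2
  exact INBM.core hINA hSIZ hFUL hN hPar hEnc Ω A Γ Q μ P T B hW hB hL h1 h2

end Pool.Agent.ANC
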