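import Pool.Agent.ANC.Stmts

/-!
# Module JEN

Jensen's inequality on a large subset of a product.
-/

set_option autoImplicit false

namespace Pool.Agent.ANC

open Finset MeasureTheory

namespace JENM

/-- Jensen's inequality for the exponential function and the uniform law on a finite set. -/
theorem sum_le_log {ι : Type} (S : Finset ι) (hS : S.Nonempty) (t : ι → ℝ) :
    ∑ v ∈ S, t v ≤ S.card * Real.log ((∑ v ∈ S, Real.exp (t v)) / S.card) := by
  have hc : (0 : ℝ) < S.card := by exact_mod_cast hS.card_pos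
  have hE : 0 < ∑ v ∈ S, Real.exp (t v) := Finset.sum_pos (fun _ _ => Real.exp_pos _) hS
  have h1 : ∀ v ∈ S, t v - Real.log ((∑ v ∈ S, Real.exp (t v)) / S.card) + 1 ≤
      Real.exp (t v) * (S.card / ∑ v ∈ S, Real.exp (t v)) := by
    intro v _
    have h2 := Real.add_one_le_exp (t v - Real.log ((∑ v ∈ S, Real.exp (t v)) / S.card))
    rw [Real.exp_sub, Real.exp_log (div_pos hE hc)] at h2
    refine le_trans h2 (le_of_eq ?_)
    rw [div_div_eq_mul_div, mul_div_assoc]
  have h3 := Finset.sum_le_sum h1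
  rw [← Finset.sum_mul, Finset.sum_add_distrib, Finset.sum_sub_distrib, Finset.sum_const,
    Finset.sum_const, nsmul_eq_mul, nsmul_eq_mul, mul_one, mul_div_cancel₀ _ hE.ne'] at h3
  linarith

end JENM

theorem JEN_thm : Stmt_JEN := by
  intro k Z _ _ W S φ hSW hS
  obtain ⟨v₀, hv₀⟩ := hS
  have hW : ∀ u, (W u).Nonempty := fun u => ⟨v₀ u, Fintype.mem_piFinset.1 (hSW hv₀) u⟩
  have hc : (0 : ℝ) < S.card := by exact_mod_cast Finset.card_pos.2 ⟨v₀, hv₀⟩
  have hWc : ∀ u, (0 : ℝ) < (W u).card := fun u => by exact_mod_cast (hW u).card_pos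
  have hWe : ∀ u, 0 < ∑ x ∈ W u, Real.exp (φ u x) :=
    fun u => Finset.sum_pos (fun _ _ => Real.exp_pos _) (hW u)
  refine le_trans (JENM.sum_le_log S ⟨v₀, hv₀⟩ fun v => ∑ u, φ u (v u)) ?_
  refine mul_le_mul_of_nonneg_left ?_ hc.le
  have hle : ∑ v ∈ S, Real.exp (∑ u, φ u (v u)) ≤ ∏ u, ∑ x ∈ W u, Real.exp (φ u x) := by
    rw [Finset.prod_univ_sum]
    refine le_trans (Finset.sum_le_sum_of_subset_of_nonneg hSW fun _ _ _ => (Real.exp_pos _).le)
      (le_of_eq (Finset.sum_congr rfl fun v _ => ?_))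
    rw [Real.exp_sum]
  have hE : 0 < ∑ v ∈ S, Real.exp (∑ u, φ u (v u)) :=
    Finset.sum_pos (fun _ _ => Real.exp_pos _) ⟨v₀, hv₀⟩
  have hcard : ((Fintype.piFinset W).card : ℝ) = ∏ u, ((W u).card : ℝ) := by
    rw [Fintype.card_piFinset]
    push_cast
    rfl
  have hprod : 0 < ∏ u, ((W u).card : ℝ) := Finset.prod_pos fun u _ => hWc u
  have heq : Real.log ((Fintype.piFinset W).card / S.card) +
      ∑ u, Real.log ((∑ x ∈ W u, Real.exp (φ u x)) / (W u).card) =
      Real.log ((∏ u, ∑ x ∈ W u, Real.exp (φ u x)) / S.card) := by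
    rw [← Real.log_prod (fun u _ => (div_pos (hWe u) (hWc u)).ne'), hcard,
      ← Real.log_mul (div_pos hprod hc).ne'
        (Finset.prod_pos fun u _ => div_pos (hWe u) (hWc u)).ne', Finset.prod_div_distrib]
    congr 1
    field_simp
  rw [heq]
  exact Real.log_le_log (div_pos hE hc) (div_le_div_of_nonneg_right hle hc.le)

end Pool.Agent.ANC
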