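import Pool.Agent.ANC.Stmts

/-!
# The labels (MP_ad5e8e_lc, ANC): module LAB

Proof of `Stmt_LAB` from `Stmt_RUN`.
-/

set_option autoImplicit false

namespace Pool.Agent.ANC

open Finset MeasureTheory

noncomputable section

namespace LABM

open Classical in
/-- The number of the small subsets. -/
theorem card_small (α : Type) [Fintype α] (m : ℕ) :
    ((univ : Finset (Finset α)).filter fun s => s.card ≤ m).card ≤ (Fintype.card α + 1) ^ m := by
  have h1 : ((univ : Finset (Finset α)).filter fun s => s.card ≤ m).card ≤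
      (univ : Finset (Fin m → Option α)).card := by
    refine Finset.card_le_card_of_surjOn
      (fun f : Fin m → Option α => univ.filter fun a => ∃ i, f i = some a) ?_
    intro s hs
    have hs' : s.card ≤ m := by
      have := (Finset.mem_filter.1 (Finset.mem_coe.1 hs)).2
      exact this
    refine ⟨fun i => s.toList[i.val]?, Finset.mem_coe.2 (Finset.mem_univ _), ?_⟩
    ext a
    simp only [Finset.mem_filter, Finset.mem_univ, true_and]
    constructor
    · rintro ⟨i, hi⟩
      exact Finset.mem_toList.1 (List.mem_iff_getElem?.2 ⟨i.val, hi⟩)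
    · intro ha
      obtain ⟨i, hi⟩ := List.mem_iff_getElem?.1 (Finset.mem_toList.2 ha)
      have h2 : i < s.toList.length := by
        by_contra h3
        rw [List.getElem?_eq_none (Nat.le_of_not_lt h3)] at hi
        exact absurd hi (by simp)
      rw [Finset.length_toList] at h2
      exact ⟨⟨i, lt_of_lt_of_le h2 hs'⟩, hi⟩
  refine h1.trans ?_
  rw [Finset.card_univ, Fintype.card_fun, Fintype.card_option, Fintype.card_fin]

variable {A Γ Q : Type} [Fintype A] [DecidableEq A]

open Classical in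
/-- The memory given by the entries. -/
def Me (M₀ : A → Γ) (ent : Finset (A × Γ)) (a : A) : Γ :=
  if h : ∃ g, (a, g) ∈ ent then h.choose else M₀ a

open Classical in
/-- The entries of a memory. -/
def En {H : ℕ} (M₀ : A → Γ) (h : A → Fin H) (M : A → Γ) (J : Finset (Fin H)) : Finset (A × Γ) :=
  ((chg M M₀).filter fun a => h a ∈ J).image fun a => (a, M a)

open Classical in
theorem Me_En {H : ℕ} (M₀ : A → Γ) (h : A → Fin H) (M : A → Γ) (J : Finset (Fin H)) (a : A)
    (ha : h a ∈ J) : Me M₀ (En M₀ h M J) a = M a := by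
  unfold Me
  have key : ∀ g, (a, g) ∈ En M₀ h M J → g = M a := by
    intro g hg
    obtain ⟨a', -, ha'⟩ := Finset.mem_image.1 hg
    rw [Prod.mk.injEq] at ha'
    rw [← ha'.2, ha'.1]
  split_ifs with hx
  · exact key _ hx.choose_spec
  · by_contra hne
    apply hx
    refine ⟨M a, Finset.mem_image.2 ⟨a, ?_, rfl⟩⟩
    rw [Finset.mem_filter]
    refine ⟨?_, ha⟩
    unfold chg
    rw [Finset.mem_filter]
    exact ⟨Finset.mem_univ _, fun h' => hne h'.symm⟩

end LABM

open LABM in
theorem LAB_thm (hRUN : Stmt_RUN) : Stmt_LAB := by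
  classical
  intro A Γ Q XX YY _ _ _ _ _ _ t cf M₀ B H mE h
  let P : Q × Finset (Fin H) × Finset (A × Γ) × Bool → Finset XX := fun c =>
    univ.filter fun x => c.2.2.1.card ≤ mE ∧ (t x c.1).cost (Me M₀ c.2.2.1) ≤ B ∧
      ((t x c.1).touched (Me M₀ c.2.2.1)).image h = c.2.1 ∧
      ((t x c.1).out (Me M₀ c.2.2.1)).1 = c.2.2.2
  let D : Q × Finset (Fin H) × Finset (A × Γ) × Bool → Finset YY := fun c =>
    univ.filter fun y => (cf y).1 = c.1 ∧ c.2.2.1 = En M₀ h (cf y).2 c.2.1
  have hP : ∀ c x, x ∈ P c ↔ c.2.2.1.card ≤ mE ∧ (t x c.1).cost (Me M₀ c.2.2.1) ≤ B ∧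
      ((t x c.1).touched (Me M₀ c.2.2.1)).image h = c.2.1 ∧
      ((t x c.1).out (Me M₀ c.2.2.1)).1 = c.2.2.2 := fun c x => by
    simp only [P, Finset.mem_filter, Finset.mem_univ, true_and]
  have hD : ∀ c y, y ∈ D c ↔ (cf y).1 = c.1 ∧ c.2.2.1 = En M₀ h (cf y).2 c.2.1 := fun c y => by
    simp only [D, Finset.mem_filter, Finset.mem_univ, true_and]
  have key : ∀ c x y, x ∈ P c → y ∈ D c → c = ((cf y).1,
      ((t x (cf y).1).touched (cf y).2).image h,
      En M₀ h (cf y).2 (((t x (cf y).1).touched (cf y).2).image h),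
      ((t x (cf y).1).out (cf y).2).1) := by
    rintro ⟨q, J, ent, a⟩ x y hx hy
    obtain ⟨-, h2, h3, h4⟩ := (hP _ x).1 hx
    obtain ⟨h5, h6⟩ := (hD _ y).1 hy
    simp only at h2 h3 h4 h5 h6
    obtain ⟨r1, -, -⟩ := hRUN A Γ Q (t x q) (Me M₀ ent) (cf y).2
    obtain ⟨e1, e2, -⟩ := r1 (fun a' ha' => by
      rw [h6]
      apply Me_En
      rw [← h3]
      exact Finset.mem_image_of_mem h ha')
    rw [h5, ← e2, h3, ← h6, ← e1, h4]
  refine ⟨Q × Finset (Fin H) × Finset (A × Γ) × Bool, inferInstance, P, D, fun c => c.2.2.2,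
    ?_, ?_, ?_, ?_, ?_⟩
  · intro c c' x y hx hy hx' hy'
    rw [key c x y hx hy, key c' x y hx' hy']
  · intro c x y hx hy
    have := key c x y hx hy
    conv_rhs => rw [this]
  · intro x y hB hm
    refine ⟨((cf y).1, ((t x (cf y).1).touched (cf y).2).image h,
      En M₀ h (cf y).2 (((t x (cf y).1).touched (cf y).2).image h),
      ((t x (cf y).1).out (cf y).2).1), ?_, ?_⟩
    · rw [hP]
      simp only
      obtain ⟨r1, -, -⟩ := hRUN A Γ Q (t x (cf y).1) (cf y).2
        (Me M₀ (En M₀ h (cf y).2 (((t x (cf y).1).touched (cf y).2).image h)))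
      obtain ⟨e1, e2, e3⟩ := r1 (fun a' ha' => by
        rw [Me_En]
        exact Finset.mem_image_of_mem h ha')
      refine ⟨?_, ?_, ?_, ?_⟩
      · refine le_trans (Finset.card_image_le.trans (le_of_eq ?_)) hm
        congr 1
      · rw [← e3]
        exact hB
      · rw [← e2]
      · rw [← e1]
    · rw [hD]
      exact ⟨rfl, rfl⟩
  · intro y
    have h1 : (univ.filter fun c => y ∈ D c ∧ (P c).Nonempty).card ≤
        (((univ : Finset (Finset (Fin H))).filter fun J => J.card ≤ B) ×ˢ
          (univ : Finset Bool)).card := by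
      refine Finset.card_le_card_of_injOn (fun c => (c.2.1, c.2.2.2)) ?_ ?_
      · intro c hc
        obtain ⟨-, h2, x, hx⟩ := Finset.mem_filter.1 (Finset.mem_coe.1 hc)
        obtain ⟨-, h3, h4, -⟩ := (hP c x).1 hx
        rw [Finset.mem_coe, Finset.mem_product, Finset.mem_filter]
        refine ⟨⟨Finset.mem_univ _, ?_⟩, Finset.mem_univ _⟩
        change c.2.1.card ≤ B
        rw [← h4]
        exact Finset.card_image_le.trans ((hRUN A Γ Q _ _ (Me M₀ c.2.2.1)).2.1.trans h3)
      · intro c hc c' hc' hcc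
        obtain ⟨-, h2, -⟩ := Finset.mem_filter.1 (Finset.mem_coe.1 hc)
        obtain ⟨-, h2', -⟩ := Finset.mem_filter.1 (Finset.mem_coe.1 hc')
        obtain ⟨e1, e2⟩ := (hD c y).1 h2
        obtain ⟨e1', e2'⟩ := (hD c' y).1 h2'
        obtain ⟨q, J, ent, a⟩ := c
        obtain ⟨q', J', ent', a'⟩ := c'
        simp only [Prod.mk.injEq] at hcc e1 e2 e1' e2' ⊢
        refine ⟨e1.symm.trans e1', hcc.1, ?_, hcc.2⟩
        rw [e2, e2', hcc.1]
    refine h1.trans (le_of_eq ?_)
    rw [Finset.card_product, mul_comm]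
    rfl
  · intro x
    have h1 : (univ.filter fun c => x ∈ P c ∧ (D c).Nonempty).card ≤
        ((univ : Finset Q) ×ˢ
          ((univ : Finset (Finset (A × Γ))).filter fun s => s.card ≤ mE)).card := by
      refine Finset.card_le_card_of_injOn (fun c => (c.1, c.2.2.1)) ?_ ?_
      · intro c hc
        obtain ⟨-, h2, -⟩ := Finset.mem_filter.1 (Finset.mem_coe.1 hc)
        rw [Finset.mem_coe, Finset.mem_product, Finset.mem_filter]
        exact ⟨Finset.mem_univ _, Finset.mem_univ _, ((hP c x).1 h2).1⟩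
      · intro c hc c' hc' hcc
        obtain ⟨-, h2, -⟩ := Finset.mem_filter.1 (Finset.mem_coe.1 hc)
        obtain ⟨-, h2', -⟩ := Finset.mem_filter.1 (Finset.mem_coe.1 hc')
        obtain ⟨-, -, e1, e2⟩ := (hP c x).1 h2
        obtain ⟨-, -, e1', e2'⟩ := (hP c' x).1 h2'
        obtain ⟨q, J, ent, a⟩ := c
        obtain ⟨q', J', ent', a'⟩ := c'
        simp only [Prod.mk.injEq] at hcc e1 e2 e1' e2' ⊢
        obtain ⟨rfl, rfl⟩ := hcc
        exact ⟨rfl, e1.symm.trans e1', rfl, e2.symm.trans e2'⟩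
    refine h1.trans ?_
    rw [Finset.card_product, Finset.card_univ]
    refine Nat.mul_le_mul_left _ ?_
    have h2 := card_small (A × Γ) mE
    rw [Fintype.card_prod] at h2
    refine le_trans (le_of_eq ?_) h2
    congr!

end

end Pool.Agent.ANC
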