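import Pool.Agent.ANC.Stmts

/-!
# Well spread weights have the right number of agreements
-/

set_option autoImplicit false

namespace Pool.Agent.ANC.LC1M

open Finset

variable {z K d N q : ℕ}

/-- weight of the names with the letter `t` at the position `i` in the slot `r` -/
noncomputable def Fw (β : Fin N → Wo d q) (f : Nm K N → ℝ) (r : Fin K) (i : Fin d) (t : Fin q) : ℝ :=
  ∑ x : Nm K N, if β (x r) i = t then f x else 0

/-- weight of the words with the letter `t` at the position `i` -/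
noncomputable def Gw (g : Wo d q → ℝ) (i : Fin d) (t : Fin q) : ℝ :=
  ∑ y : Wo d q, if y i = t then g y else 0

lemma pair_sum (β : Fin N → Wo d q) (f : Nm K N → ℝ) (g : Wo d q → ℝ) (r : Fin K) (i : Fin d) :
    ∑ t, Fw β f r i t * Gw g i t =
      ∑ x : Nm K N, ∑ y : Wo d q, (if β (x r) i = y i then (1 : ℝ) else 0) * (f x * g y) := by
  unfold Fw Gw
  have h1 : ∀ t : Fin q, (∑ x : Nm K N, if β (x r) i = t then f x else 0) *
      (∑ y : Wo d q, if y i = t then g y else 0) =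
      ∑ x : Nm K N, ∑ y : Wo d q,
        (if β (x r) i = t then f x else 0) * (if y i = t then g y else 0) := by
    intro t
    rw [sum_mul_sum]
  rw [sum_congr rfl fun t _ => h1 t, sum_comm]
  apply sum_congr rfl
  intro x _
  rw [sum_comm]
  apply sum_congr rfl
  intro y _
  rw [sum_eq_single (y i)]
  · simp only [if_true]
    split_ifs <;> ring
  · intro t _ ht
    have : ¬ y i = t := fun h => ht h.symm
    rw [if_neg this, mul_zero]
  · intro h
    exact absurd (mem_univ _) h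

lemma agr_sum (β : Fin N → Wo d q) (f : Nm K N → ℝ) (g : Wo d q → ℝ) :
    ∑ x, ∑ y, (agr β x y : ℝ) * (f x * g y) =
      ∑ r : Fin K, ∑ i : Fin d, ∑ t, Fw β f r i t * Gw g i t := by
  have h1 : ∀ (x : Nm K N) (y : Wo d q), (agr β x y : ℝ) * (f x * g y) =
      ∑ r : Fin K, ∑ i : Fin d, (if β (x r) i = y i then (1 : ℝ) else 0) * (f x * g y) := by
    intro x y
    unfold agr
    rw [card_filter, Fintype.sum_prod_type]
    push_cast
    rw [sum_mul]
    apply sum_congr rfl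
    intro r _
    rw [sum_mul]
  simp_rw [pair_sum]
  calc ∑ x, ∑ y, (agr β x y : ℝ) * (f x * g y)
      = ∑ x : Nm K N, ∑ y : Wo d q, ∑ r : Fin K, ∑ i : Fin d,
          (if β (x r) i = y i then (1 : ℝ) else 0) * (f x * g y) :=
        sum_congr rfl fun x _ => sum_congr rfl fun y _ => h1 x y
    _ = ∑ x : Nm K N, ∑ r : Fin K, ∑ y : Wo d q, ∑ i : Fin d,
          (if β (x r) i = y i then (1 : ℝ) else 0) * (f x * g y) :=
        sum_congr rfl fun x _ => sum_comm
    _ = ∑ r : Fin K, ∑ x : Nm K N, ∑ y : Wo d q, ∑ i : Fin d,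
          (if β (x r) i = y i then (1 : ℝ) else 0) * (f x * g y) := sum_comm
    _ = ∑ r : Fin K, ∑ x : Nm K N, ∑ i : Fin d, ∑ y : Wo d q,
          (if β (x r) i = y i then (1 : ℝ) else 0) * (f x * g y) :=
        sum_congr rfl fun r _ => sum_congr rfl fun x _ => sum_comm
    _ = ∑ r : Fin K, ∑ i : Fin d, ∑ x : Nm K N, ∑ y : Wo d q,
          (if β (x r) i = y i then (1 : ℝ) else 0) * (f x * g y) :=
        sum_congr rfl fun r _ => sum_comm

lemma Fw_nonneg (β : Fin N → Wo d q) (f : Nm K N → ℝ) (hf : ∀ x, 0 ≤ f x) (r : Fin K) (i : Fin d)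
    (t : Fin q) : 0 ≤ Fw β f r i t :=
  sum_nonneg fun x _ => by split_ifs; exacts [hf x, le_rfl]

lemma Gw_nonneg (g : Wo d q → ℝ) (hg : ∀ y, 0 ≤ g y) (i : Fin d)
    (t : Fin q) : 0 ≤ Gw g i t :=
  sum_nonneg fun y _ => by split_ifs; exacts [hg y, le_rfl]

lemma Gw_total (g : Wo d q → ℝ) (i : Fin d) : ∑ t, Gw g i t = ∑ y, g y := by
  unfold Gw
  rw [sum_comm]
  apply sum_congr rfl
  intro y _
  rw [sum_ite_eq]
  simp

lemma Gw_low (g : Wo d q → ℝ) (i : Fin d) (T : Finset (Fin q)) :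
    ∑ t ∈ T, Gw g i t = ∑ y ∈ univ.filter (fun y : Wo d q => y i ∈ T), g y := by
  unfold Gw
  rw [sum_comm, sum_filter]
  apply sum_congr rfl
  intro y _
  rw [sum_ite_eq]

lemma low_spec (η : ℝ) (β : Fin N → Wo d q) (f : Nm K N → ℝ) (r : Fin K) (i : Fin d) (t : Fin q)
    (ht : t ∉ low η β f r i) : (1 - 2 * η) * ∑ x, f x ≤ Fw β f r i t * q := by
  classical
  unfold low at ht
  rw [mem_filter] at ht
  have h1 : ¬ ((∑ x ∈ univ.filter (fun x : Nm K N => β (x r) i = t), f x) * q <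
      (1 - 2 * η) * ∑ x, f x) := by
    intro h
    apply ht
    refine ⟨mem_univ _, ?_⟩
    convert h using 3
  rw [not_lt, sum_filter] at h1
  exact h1

/-- a good slot -/
lemma slot (β : Fin N → Wo d q) (f : Nm K N → ℝ) (g : Wo d q → ℝ)
    (hf : ∀ x, 0 ≤ f x) (hg : ∀ y, 0 ≤ g y) (hB : GoodB (1 / 200) z g) (r : Fin K)
    (hr : ¬ z * q ≤ ∑ i, (low (1 / 200) β f r i).card) :
    (99 / 100 : ℝ) * (199 / 200) * d * ((∑ x, f x) * ∑ y, g y) ≤
      q * ∑ i : Fin d, ∑ t, Fw β f r i t * Gw g i t := by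
  have hF : 0 ≤ ∑ x, f x := sum_nonneg fun x _ => hf x
  have h1 := hB (fun i => low (1 / 200) β f r i) (by omega)
  have h2 : ∑ i, ∑ y ∈ univ.filter (fun y : Wo d q => y i ∈ low (1 / 200) β f r i), g y =
      ∑ i, ∑ t ∈ low (1 / 200) β f r i, Gw g i t :=
    sum_congr rfl fun i _ => (Gw_low g i _).symm
  rw [h2] at h1
  have h3 : ∀ i : Fin d, (99 / 100 : ℝ) * (∑ x, f x) * ((∑ y, g y) -
      ∑ t ∈ low (1 / 200) β f r i, Gw g i t) ≤ q * ∑ t, Fw β f r i t * Gw g i t := by
    intro i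
    have e1 : (∑ y, g y) - ∑ t ∈ low (1 / 200) β f r i, Gw g i t =
        ∑ t ∈ (low (1 / 200) β f r i)ᶜ, Gw g i t := by
      rw [← Gw_total g i, ← sum_add_sum_compl (low (1 / 200) β f r i)]
      ring
    rw [e1]
    calc (99 / 100 : ℝ) * (∑ x, f x) * ∑ t ∈ (low (1 / 200) β f r i)ᶜ, Gw g i t
        = ∑ t ∈ (low (1 / 200) β f r i)ᶜ, (99 / 100 : ℝ) * (∑ x, f x) * Gw g i t := mul_sum _ _ _
      _ ≤ ∑ t ∈ (low (1 / 200) β f r i)ᶜ, (q : ℝ) * (Fw β f r i t * Gw g i t) := by
          apply sum_le_sum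
          intro t ht
          rw [mem_compl] at ht
          have h4 := low_spec (1 / 200) β f r i t ht
          have h5 := Gw_nonneg g hg i t
          have h6 : (99 / 100 : ℝ) * (∑ x, f x) ≤ Fw β f r i t * q := by
            have : (1 - 2 * (1 / 200) : ℝ) = 99 / 100 := by norm_num
            rw [this] at h4
            exact h4
          calc (99 / 100 : ℝ) * (∑ x, f x) * Gw g i t ≤ Fw β f r i t * q * Gw g i t :=
                mul_le_mul_of_nonneg_right h6 h5
            _ = (q : ℝ) * (Fw β f r i t * Gw g i t) := by ring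
      _ ≤ ∑ t, (q : ℝ) * (Fw β f r i t * Gw g i t) := by
          apply sum_le_sum_of_subset_of_nonneg (subset_univ _)
          intro t _ _
          exact mul_nonneg (Nat.cast_nonneg _)
            (mul_nonneg (Fw_nonneg β f hf r i t) (Gw_nonneg g hg i t))
      _ = (q : ℝ) * ∑ t, Fw β f r i t * Gw g i t := (mul_sum _ _ _).symm
  have h4 := sum_le_sum fun i (_ : i ∈ (univ : Finset (Fin d))) => h3 i
  rw [← mul_sum, ← mul_sum, sum_sub_distrib, sum_const, card_univ, Fintype.card_fin,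
    nsmul_eq_mul] at h4
  refine le_trans ?_ h4
  have h5 : (199 / 200 : ℝ) * d * (∑ y, g y) ≤
      (d : ℝ) * (∑ y, g y) - ∑ i, ∑ t ∈ low (1 / 200) β f r i, Gw g i t := by
    linarith
  calc (99 / 100 : ℝ) * (199 / 200) * d * ((∑ x, f x) * ∑ y, g y)
      = (99 / 100 : ℝ) * (∑ x, f x) * ((199 / 200 : ℝ) * d * (∑ y, g y)) := by ring
    _ ≤ _ := mul_le_mul_of_nonneg_left h5 (by positivity)

end Pool.Agent.ANC.LC1M

namespace Pool.Agent.ANC

open Finset LC1M

theorem LC1_thm : Stmt_LC1 := by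
  classical
  intro z K d N q β f g hq hf hg hA hB
  rw [agr_sum]
  have hF : 0 ≤ ∑ x, f x := sum_nonneg fun x _ => hf x
  have hG : 0 ≤ ∑ y, g y := sum_nonneg fun x _ => hg x
  set V : ℝ := (99 / 100 : ℝ) * (199 / 200) * d * ((∑ x, f x) * ∑ y, g y) with hV
  have hV0 : 0 ≤ V := by positivity
  set bad := (univ : Finset (Fin K)).filter
    (fun r => z * q ≤ ∑ i, (low (1 / 200) β f r i).card) with hbad
  have hbc : (bad.card : ℝ) ≤ 1 / 200 * K := by
    unfold GoodA at hA
    convert hA using 3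
  have h1 : ∑ r ∈ badᶜ, V ≤ ∑ r : Fin K, (q : ℝ) * ∑ i : Fin d, ∑ t, Fw β f r i t * Gw g i t := by
    calc ∑ r ∈ badᶜ, V ≤ ∑ r ∈ badᶜ, (q : ℝ) * ∑ i : Fin d, ∑ t, Fw β f r i t * Gw g i t := by
          apply sum_le_sum
          intro r hr
          rw [mem_compl, hbad, mem_filter] at hr
          exact slot β f g hf hg hB r (fun h => hr ⟨mem_univ _, h⟩)
      _ ≤ _ := by
          apply sum_le_sum_of_subset_of_nonneg (subset_univ _)
          intro r _ _
          exact mul_nonneg (Nat.cast_nonneg _) (sum_nonneg fun i _ => sum_nonneg fun t _ =>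
            mul_nonneg (Fw_nonneg β f hf r i t) (Gw_nonneg g hg i t))
  rw [mul_sum (s := (univ : Finset (Fin K)))]
  refine le_trans ?_ h1
  rw [sum_const, nsmul_eq_mul]
  have h2 : (199 / 200 : ℝ) * K ≤ (badᶜ.card : ℝ) := by
    have : (bad.card : ℝ) + (badᶜ.card : ℝ) = K := by
      have := card_add_card_compl bad
      rw [Fintype.card_fin] at this
      exact_mod_cast this
    linarith
  calc 49 / 50 * (K * d : ℝ) * ((∑ x, f x) * ∑ y, g y)
      ≤ (199 / 200 : ℝ) * K * V := by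
        rw [hV]
        have h3 : 0 ≤ (K * d : ℝ) * ((∑ x, f x) * ∑ y, g y) := by positivity
        nlinarith
    _ ≤ (badᶜ.card : ℝ) * V := mul_le_mul_of_nonneg_right h2 hV0

end Pool.Agent.ANC
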