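import Pool.Agent.ANC.Stmts

set_option autoImplicit false

/-!
# ANC, module LOC: the inequality for one vertex
-/

namespace Pool.Agent.ANC

open Finset MeasureTheory

namespace LOCM

open Classical in
theorem sum_E {X Z : Type} [Fintype X] [Fintype Z] (E : Finset (X × Z)) (F : X → Z → ℝ) :
    ∑ p ∈ E, F p.1 p.2 = ∑ x, ∑ y, if (x, y) ∈ E then F x y else 0 := by
  rw [← Fintype.sum_prod_type' (f := fun x y => if (x, y) ∈ E then F x y else 0)]
  rw [← Finset.sum_filter]
  congr 1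
  ext p
  simp

/-- There is a `z` with the property `P` for which almost all the weight `a` is compatible. -/
theorem pick {X Z : Type} [Fintype X] [Fintype Z] (e : X → Z → Prop) (a : X → ℝ) (b : Z → ℝ)
    (ha : ∀ x, 0 ≤ a x) (hb : ∀ z, 0 ≤ b z) (P : Z → Prop) [∀ x z, Decidable (e x z)]
    [∀ z, Decidable (P z)]
    (h1 : ∑ x, ∑ z, (if e x z ∧ ¬P z then a x * b z else 0) ≤
      (∑ x, ∑ z, if e x z then a x * b z else 0) / 4)
    (h2 : 199 / 200 * ((∑ x, a x) * ∑ z, b z) ≤ ∑ x, ∑ z, if e x z then a x * b z else 0)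
    (hpos : 0 < (∑ x, a x) * ∑ z, b z) :
    ∃ z, P z ∧ 99 / 100 * ∑ x, a x ≤ ∑ x, if e x z then a x else 0 := by
  by_contra hcon
  push Not at hcon
  set A : Z → ℝ := fun z => ∑ x, if e x z then a x else 0 with hA
  have hAle : ∀ z, A z ≤ ∑ x, a x := fun z =>
    Finset.sum_le_sum fun x _ => by split_ifs <;> [exact le_rfl; exact ha x]
  have hS : ∑ x, ∑ z, (if e x z then a x * b z else 0) = ∑ z, b z * A z := by
    rw [Finset.sum_comm]
    refine Finset.sum_congr rfl fun z _ => ?_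
    rw [hA, Finset.mul_sum]
    refine Finset.sum_congr rfl fun x _ => ?_
    split_ifs
    · ring
    · ring
  have hN : ∑ x, ∑ z, (if e x z ∧ ¬P z then a x * b z else 0) =
      ∑ z, if P z then 0 else b z * A z := by
    rw [Finset.sum_comm]
    refine Finset.sum_congr rfl fun z _ => ?_
    by_cases hP : P z
    · rw [if_pos hP]
      exact Finset.sum_eq_zero fun x _ => if_neg fun h => h.2 hP
    · rw [if_neg hP, hA, Finset.mul_sum]
      refine Finset.sum_congr rfl fun x _ => ?_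
      by_cases he : e x z
      · rw [if_pos ⟨he, hP⟩, if_pos he]; ring
      · rw [if_neg fun h => he h.1, if_neg he]; ring
  rw [hS] at h1 h2
  rw [hN] at h1
  set T : ℝ := ∑ z, if P z then b z else 0 with hT
  have hsplit : ∑ z, b z * A z =
      (∑ z, if P z then b z * A z else 0) + ∑ z, if P z then 0 else b z * A z := by
    rw [← Finset.sum_add_distrib]
    refine Finset.sum_congr rfl fun z _ => ?_
    split_ifs <;> ring
  have hgood : (∑ z, if P z then b z * A z else 0) ≤ 99 / 100 * (∑ x, a x) * T := by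
    rw [hT, Finset.mul_sum]
    refine Finset.sum_le_sum fun z _ => ?_
    by_cases hP : P z
    · rw [if_pos hP, if_pos hP]
      have := mul_le_mul_of_nonneg_left (hcon z hP).le (hb z)
      linarith
    · rw [if_neg hP, if_neg hP, mul_zero]
  have hbad : (∑ z, if P z then 0 else b z * A z) ≤ (∑ x, a x) * ((∑ z, b z) - T) := by
    rw [hT, ← Finset.sum_sub_distrib, Finset.mul_sum]
    refine Finset.sum_le_sum fun z _ => ?_
    by_cases hP : P z
    · rw [if_pos hP, if_pos hP]; simp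
    · rw [if_neg hP, if_neg hP, sub_zero, mul_comm]
      exact mul_le_mul_of_nonneg_right (hAle z) (hb z)
  have e1 : (∑ x, a x) * ((∑ z, b z) - T) = (∑ x, a x) * (∑ z, b z) - (∑ x, a x) * T := by ring
  have e2 : 99 / 100 * (∑ x, a x) * T = 99 / 100 * ((∑ x, a x) * T) := by ring
  rw [e1] at hbad
  rw [e2] at hgood
  generalize (∑ x, a x) * T = U at *
  generalize (∑ x, a x) * ∑ z, b z = W at *
  generalize (∑ z, if P z then b z * A z else 0) = G at *
  generalize (∑ z, if P z then 0 else b z * A z) = H at *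
  generalize (∑ z, b z * A z) = S at *
  linarith

theorem final1 (S t e s : ℝ) (hS : 0 ≤ S) (he : 0 ≤ e) (h3 : S / 200 * e ≤ s * e)
    (h4 : S * (t * 999) ≤ S * e) : 47 / 50 * S * t ≤ s * e := by
  have := mul_nonneg hS he
  linarith

end LOCM

open LOCM

open Classical in
theorem LOC_thm (hSIZ : Stmt_SIZ) (hLC1 : Stmt_LC1) : Stmt_LOC := by
  intro z k K d N q β Y hPar u a b ha hb
  obtain ⟨hs, -⟩ := hSIZ hPar
  obtain ⟨hAl, hEd, htot, htot1, htot2⟩ := hs u
  have hzpos : 0 < z := by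
    rcases Nat.eq_zero_or_pos z with h | h
    · have := hPar.hz
      rw [h] at this
      norm_num at this
    · exact h
  have hqpos : 0 < q := by rw [hPar.hq]; exact pow_pos hzpos 10
  set E := Ed β K (Y u) with hE
  set AL := Al K N (Y u) with hAL
  have hEsub : E ⊆ AL := by
    intro p hp
    rw [hE] at hp
    unfold Ed at hp
    rw [hAL]
    unfold Al
    rw [Finset.mem_filter] at hp ⊢
    exact ⟨hp.1, hp.2.1⟩
  -- restricted weight
  set b' : Wo d q → ℝ := fun y => if ∀ i, y i ∈ Y u i then b y else 0 with hb'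
  have hb'0 : ∀ y, 0 ≤ b' y := fun y => by
    simp only [hb']; split_ifs <;> [exact hb y; exact le_rfl]
  have hmemAL : ∀ x y, (x, y) ∈ AL ↔ ∀ i, y i ∈ Y u i := by
    intro x y
    rw [hAL]; unfold Al
    simp
  have hbE : ∀ x y, (x, y) ∈ E → b' y = b y := by
    intro x y h
    simp only [hb']
    exact if_pos ((hmemAL x y).1 (hEsub h))
  set S0 := ∑ p ∈ E, a p.1 * b p.2 with hS0
  set S1 := ∑ p ∈ AL, (agr β p.1 p.2 : ℝ) * (a p.1 * b p.2) with hS1
  set PA : Wo d q → Prop := fun y => GoodA (1 / 200) z β (fun x => if (x, y) ∈ E then a x else 0)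
    with hPA
  set PB : Nm K N → Prop := fun x => GoodB (1 / 200) z (fun y => if (x, y) ∈ E then b y else 0)
    with hPB
  set B1 := ∑ p ∈ E.filter (fun p => ¬PA p.2), a p.1 * b p.2 with hB1
  set B2 := ∑ p ∈ E.filter (fun p => ¬PB p.1), a p.1 * b p.2 with hB2
  show (47 / 50 * S0 - 4 * (B1 + B2)) * (tot β K (Y u) : ℝ) ≤ S1 * (E.card : ℝ)
  have hab : ∀ p : Nm K N × Wo d q, 0 ≤ a p.1 * b p.2 := fun p => mul_nonneg (ha _) (hb _)
  have hS0n : 0 ≤ S0 := Finset.sum_nonneg fun p _ => hab p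
  have hS1n : 0 ≤ S1 := Finset.sum_nonneg fun p _ => mul_nonneg (Nat.cast_nonneg _) (hab p)
  have hB1n : 0 ≤ B1 := Finset.sum_nonneg fun p _ => hab p
  have hB2n : 0 ≤ B2 := Finset.sum_nonneg fun p _ => hab p
  have htotn : (0 : ℝ) ≤ tot β K (Y u) := Nat.cast_nonneg _
  have hEn : (0 : ℝ) ≤ E.card := Nat.cast_nonneg _
  by_cases hbig : S0 ≤ 4 * (B1 + B2)
  · have h1 : 47 / 50 * S0 - 4 * (B1 + B2) ≤ 0 := by linarith
    exact (mul_nonpos_of_nonpos_of_nonneg h1 htotn).trans (mul_nonneg hS1n hEn)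
  push Not at hbig
  have hLe : (47 / 50 * S0 - 4 * (B1 + B2)) * (tot β K (Y u) : ℝ) ≤
      47 / 50 * S0 * (tot β K (Y u) : ℝ) :=
    mul_le_mul_of_nonneg_right (by linarith) htotn
  refine hLe.trans ?_
  -- total weight
  have hALsum : ∑ p ∈ AL, a p.1 * b p.2 = (∑ x, a x) * ∑ y, b' y := by
    rw [sum_E AL (fun x y => a x * b y), Finset.sum_mul]
    refine Finset.sum_congr rfl fun x _ => ?_
    rw [Finset.mul_sum]
    refine Finset.sum_congr rfl fun y _ => ?_
    simp only [hb']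
    by_cases h : ∀ i, y i ∈ Y u i
    · rw [if_pos h, if_pos ((hmemAL x y).2 h)]
    · rw [if_neg h, if_neg fun h' => h ((hmemAL x y).1 h'), mul_zero]
  obtain ⟨D, hD⟩ : ∃ D : Finset (Nm K N × Wo d q), D = AL \ E := ⟨_, rfl⟩
  have hsd : ∑ p ∈ D, a p.1 * b p.2 + S0 = (∑ x, a x) * ∑ y, b' y := by
    rw [← hALsum, hS0, hD]
    exact Finset.sum_sdiff hEsub
  have hDsub : D ⊆ AL := by rw [hD]; exact Finset.sdiff_subset
  set W := (∑ x, a x) * ∑ y, b' y with hW
  have hDn : 0 ≤ ∑ p ∈ D, a p.1 * b p.2 := Finset.sum_nonneg fun p _ => hab p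
  have hDS1 : ∑ p ∈ D, a p.1 * b p.2 ≤ S1 := by
    have hstep : ∑ p ∈ D, (agr β p.1 p.2 : ℝ) * (a p.1 * b p.2) ≤ S1 :=
      Finset.sum_le_sum_of_subset_of_nonneg hDsub fun p _ _ =>
        mul_nonneg (Nat.cast_nonneg _) (hab p)
    refine (Finset.sum_le_sum fun p hp => ?_).trans hstep
    rw [hD, Finset.mem_sdiff] at hp
    have h1 : 1 ≤ agr β p.1 p.2 := by
      by_contra h
      have h0 : agr β p.1 p.2 = 0 := by omega
      apply hp.2
      rw [hE]; unfold Ed
      rw [Finset.mem_filter]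
      exact ⟨Finset.mem_univ _, (hmemAL p.1 p.2).1 hp.1, h0⟩
    have h2 : (1 : ℝ) ≤ agr β p.1 p.2 := by exact_mod_cast h1
    exact le_mul_of_one_le_left (hab p) h2
  have hALpos : (0 : ℝ) < AL.card := by exact_mod_cast hAl
  by_cases hcase : W / 200 ≤ ∑ p ∈ D, a p.1 * b p.2
  · -- case 1
    have h1 : S0 / 200 ≤ S1 := by linarith
    have h2 : (tot β K (Y u) : ℝ) * 999 ≤ E.card := by linarith
    have h3 : S0 / 200 * (E.card : ℝ) ≤ S1 * E.card := mul_le_mul_of_nonneg_right h1 hEn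
    have h4 : S0 * ((tot β K (Y u) : ℝ) * 999) ≤ S0 * E.card := mul_le_mul_of_nonneg_left h2 hS0n
    exact final1 S0 (tot β K (Y u)) E.card S1 hS0n hEn h3 h4
  push Not at hcase
  have hWn : 0 ≤ W := by linarith
  rcases hWn.lt_or_eq with hWpos | hW0
  swap
  · have h0 : S0 = 0 := by linarith
    rw [h0]
    simp only [mul_zero, zero_mul]
    exact mul_nonneg hS1n hEn
  have h199 : 199 / 200 * W ≤ S0 := by linarith
  have hS0eq : ∑ x, ∑ y, (if (x, y) ∈ E then a x * b' y else 0) = S0 := by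
    rw [hS0, sum_E E (fun x y => a x * b y)]
    refine Finset.sum_congr rfl fun x _ => Finset.sum_congr rfl fun y _ => ?_
    by_cases h : (x, y) ∈ E
    · rw [if_pos h, if_pos h, hbE x y h]
    · rw [if_neg h, if_neg h]
  have hB1eq : ∑ x, ∑ y, (if (x, y) ∈ E ∧ ¬PA y then a x * b' y else 0) = B1 := by
    rw [hB1, sum_E _ (fun x y => a x * b y)]
    refine Finset.sum_congr rfl fun x _ => Finset.sum_congr rfl fun y _ => ?_
    by_cases h : (x, y) ∈ E ∧ ¬PA y
    · rw [if_pos h, if_pos (Finset.mem_filter.2 h), hbE x y h.1]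
    · rw [if_neg h, if_neg fun h' => h (Finset.mem_filter.1 h')]
  have hB2eq : ∑ y, ∑ x, (if (x, y) ∈ E ∧ ¬PB x then b' y * a x else 0) = B2 := by
    rw [Finset.sum_comm, hB2, sum_E _ (fun x y => a x * b y)]
    refine Finset.sum_congr rfl fun x _ => Finset.sum_congr rfl fun y _ => ?_
    by_cases h : (x, y) ∈ E ∧ ¬PB x
    · rw [if_pos h, if_pos (Finset.mem_filter.2 h), hbE x y h.1, mul_comm]
    · rw [if_neg h, if_neg fun h' => h (Finset.mem_filter.1 h')]
  have hS0eq2 : ∑ y, ∑ x, (if (x, y) ∈ E then b' y * a x else 0) = S0 := by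
    rw [Finset.sum_comm, ← hS0eq]
    refine Finset.sum_congr rfl fun x _ => Finset.sum_congr rfl fun y _ => ?_
    rw [mul_comm]
  obtain ⟨y₀, hy₀, hy₁⟩ := pick (fun x y => (x, y) ∈ E) a b' ha hb'0 PA
    (by rw [hB1eq, hS0eq]; linarith) (by rw [hS0eq]; exact h199) hWpos
  obtain ⟨x₀, hx₀, hx₁⟩ := pick (fun y x => (x, y) ∈ E) b' a hb'0 ha PB
    (by rw [hB2eq, hS0eq2]; linarith) (by rw [hS0eq2, mul_comm (∑ y, b' y)]; exact h199)
    (by rw [mul_comm]; exact hWpos)
  have hg : ∑ y, (if (x₀, y) ∈ E then b' y else 0) = ∑ y, if (x₀, y) ∈ E then b y else 0 := by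
    refine Finset.sum_congr rfl fun y _ => ?_
    by_cases h : (x₀, y) ∈ E
    · rw [if_pos h, if_pos h, hbE _ _ h]
    · rw [if_neg h, if_neg h]
  replace hx₁ : 99 / 100 * ∑ y, b' y ≤ ∑ y, if (x₀, y) ∈ E then b y else 0 :=
    le_trans (le_of_le_of_eq hx₁ (Finset.sum_congr rfl fun y _ => by congr)) hg.le
  have hL := hLC1 β (fun x => if (x, y₀) ∈ E then a x else 0)
    (fun y => if (x₀, y) ∈ E then b y else 0) hqpos
    (fun x => by split_ifs <;> [exact ha x; exact le_rfl])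
    (fun y => by split_ifs <;> [exact hb y; exact le_rfl]) hy₀ hx₀
  have hS1le : (∑ x, ∑ y, (agr β x y : ℝ) *
      ((if (x, y₀) ∈ E then a x else 0) * (if (x₀, y) ∈ E then b y else 0))) ≤ S1 := by
    rw [hS1, sum_E AL (fun x y => (agr β x y : ℝ) * (a x * b y))]
    refine Finset.sum_le_sum fun x _ => Finset.sum_le_sum fun y _ => ?_
    have hn : 0 ≤ (agr β x y : ℝ) * (a x * b y) :=
      mul_nonneg (Nat.cast_nonneg _) (mul_nonneg (ha x) (hb y))
    by_cases h2 : (x₀, y) ∈ E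
    · rw [if_pos h2, if_pos ((hmemAL x y).2 ((hmemAL x₀ y).1 (hEsub h2)))]
      by_cases h1 : (x, y₀) ∈ E
      · rw [if_pos h1]
      · rw [if_neg h1, zero_mul, mul_zero]; exact hn
    · rw [if_neg h2, mul_zero, mul_zero]
      split_ifs <;> [exact hn; exact le_rfl]
  -- conclusion
  have han : 0 ≤ ∑ x, a x := Finset.sum_nonneg fun x _ => ha x
  have hbn : 0 ≤ ∑ y, b' y := Finset.sum_nonneg fun y _ => hb'0 y
  have hprod : (99 / 100) * (99 / 100) * W ≤
      (∑ x, if (x, y₀) ∈ E then a x else 0) * ∑ y, (if (x₀, y) ∈ E then b y else 0) := by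
    have := mul_le_mul hy₁ hx₁ (by positivity) (le_trans (by positivity) hy₁)
    have e : (99 / 100) * (99 / 100) * W = (99 / 100 * ∑ x, a x) * (99 / 100 * ∑ y, b' y) := by
      rw [hW]; ring
    rw [e]
    exact this
  have hKd : (0 : ℝ) ≤ K * d := by positivity
  have hq0 : (0 : ℝ) < q := by exact_mod_cast hqpos
  have h1 : 49 / 50 * (K * d : ℝ) * ((99 / 100) * (99 / 100) * W) ≤ q * S1 := by
    refine le_trans (mul_le_mul_of_nonneg_left hprod (by positivity)) (hL.trans ?_)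
    exact mul_le_mul_of_nonneg_left hS1le hq0.le
  have h2 : (tot β K (Y u) : ℝ) * q ≤ 1001 / 999 * (K * d) * E.card := by
    refine htot1.trans ?_
    have := mul_le_mul_of_nonneg_left hEd hKd
    linarith
  have hS0W : S0 ≤ W := by linarith
  have h3 : 47 / 50 * S0 * (tot β K (Y u) : ℝ) * q ≤ S1 * E.card * q := by
    have e1 : 47 / 50 * S0 * (tot β K (Y u) : ℝ) * q = 47 / 50 * (S0 * ((tot β K (Y u) : ℝ) * q)) := by
      ring
    have e2 : S0 * ((tot β K (Y u) : ℝ) * q) ≤ W * (1001 / 999 * (K * d) * E.card) :=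
      mul_le_mul hS0W h2 (mul_nonneg htotn hq0.le) hWn
    have e3 : 49 / 50 * (K * d : ℝ) * ((99 / 100) * (99 / 100) * W) * E.card ≤ q * S1 * E.card :=
      mul_le_mul_of_nonneg_right h1 hEn
    have e4 : 0 ≤ W * ((K * d : ℝ) * E.card) := by positivity
    rw [e1]
    linarith
  exact le_of_mul_le_mul_right h3 hq0

end Pool.Agent.ANC
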