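import Pool.Agent.ANC.Stmts

/-!
# MCH: configurations of a machine and changed registers
-/

set_option autoImplicit false

namespace Pool.Agent.ANC

open Finset

namespace MCHM

/-- the configuration depends only on the blocks which are read before -/
theorem conf_congr {A Γ Q E : Type} [DecidableEq A] (P : Machine A Γ Q E)
    (bl bl' : ℕ → List E) (j : ℕ) (h : ∀ i < j, bl i = bl' i) :
    P.conf bl j = P.conf bl' j := by
  induction j with
  | zero => rfl
  | succ j ih =>
    have h1 := ih fun i hi => h i (by omega)
    have h2 := h j (by omega)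
    change (((P.prog j (P.conf bl j).1 (bl j)).out (P.conf bl j).2).2,
      (P.prog j (P.conf bl j).1 (bl j)).mem (P.conf bl j).2) =
      (((P.prog j (P.conf bl' j).1 (bl' j)).out (P.conf bl' j).2).2,
      (P.prog j (P.conf bl' j).1 (bl' j)).mem (P.conf bl' j).2)
    rw [h1, h2]

end MCHM

theorem MCH_thm (hRUN : Stmt_RUN) : Stmt_MCH := by
  intro A Γ Q E _ _ P bl bl' j
  refine ⟨MCHM.conf_congr P bl bl' j, ?_⟩
  induction j with
  | zero =>
    have : chg (P.conf bl 0).2 P.mem0 = ∅ := by
      ext a
      simp [chg, Machine.conf]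
    rw [this]
    simp
  | succ j ih =>
    obtain ⟨-, h1, h2⟩ := hRUN A Γ Q (P.prog j (P.conf bl j).1 (bl j)) (P.conf bl j).2
      (P.conf bl j).2
    have hsub : chg (P.conf bl (j + 1)).2 P.mem0 ⊆ chg (P.conf bl j).2 P.mem0 ∪
        (P.prog j (P.conf bl j).1 (bl j)).touched (P.conf bl j).2 := by
      intro a ha
      rw [mem_union]
      by_cases hT : a ∈ (P.prog j (P.conf bl j).1 (bl j)).touched (P.conf bl j).2
      · exact Or.inr hT
      · left
        have h3 := h2 a hT
        have h4 : (P.conf bl (j + 1)).2 a = (P.conf bl j).2 a := h3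
        simp only [chg, mem_filter, mem_univ, true_and] at ha ⊢
        rwa [h4] at ha
    rw [sum_range_succ]
    calc (chg (P.conf bl (j + 1)).2 P.mem0).card
        ≤ (chg (P.conf bl j).2 P.mem0).card +
          ((P.prog j (P.conf bl j).1 (bl j)).touched (P.conf bl j).2).card :=
          (card_le_card hsub).trans (card_union_le _ _)
      _ ≤ ∑ i ∈ range j, P.cost bl i + P.cost bl j := Nat.add_le_add ih h1

end Pool.Agent.ANC
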