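import Pool.Agent.ANC.Stmts

/-!
# Module ANC_MRG: the marginals
-/

set_option autoImplicit false

namespace Pool.Agent.ANC

open Finset

namespace MRGM

variable {k K d N q : ℕ}

theorem mem_As (E : Fin k → Finset (Nm K N × Wo d q)) (w : Pub k K d N q)
    (v : Fin k → Nm K N) : v ∈ As E w ↔ ∀ u, (∀ x, w u = Sum.inl x → v u = x) ∧
      ∀ y, w u = Sum.inr y → (v u, y) ∈ E u := by
  classical
  unfold As
  rw [Fintype.mem_piFinset]
  refine forall_congr' fun u => ?_
  rcases hw : w u with x | y
  · simp
  · simp

theorem mem_Bs (E : Fin k → Finset (Nm K N × Wo d q)) (w : Pub k K d N q)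
    (v : Fin k → Wo d q) : v ∈ Bs E w ↔ ∀ u, (∀ x, w u = Sum.inl x → (x, v u) ∈ E u) ∧
      ∀ y, w u = Sum.inr y → v u = y := by
  classical
  unfold Bs
  rw [Fintype.mem_piFinset]
  refine forall_congr' fun u => ?_
  rcases hw : w u with x | y
  · simp
  · simp

theorem keyA (E : Fin k → Finset (Nm K N × Wo d q)) (w : Pub k K d N q) (u₀ : Fin k)
    (v : Fin k → Nm K N) (x : Nm K N) (y : Wo d q) :
    (v ∈ As E (Function.update w u₀ (Sum.inr y)) ∧ v u₀ = x) ↔
      ((x, y) ∈ E u₀ ∧ v ∈ As E (Function.update w u₀ (Sum.inl x))) := by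
  rw [mem_As, mem_As]
  constructor
  · rintro ⟨h, hx⟩
    refine ⟨?_, fun u => ?_⟩
    · have := (h u₀).2 y (by rw [Function.update_self])
      rwa [hx] at this
    · by_cases hu : u = u₀
      · subst hu
        refine ⟨fun x' hx' => ?_, fun y' hy' => ?_⟩
        · rw [Function.update_self] at hx'
          rw [hx]
          exact Sum.inl.inj hx'
        · rw [Function.update_self] at hy'
          exact absurd hy' (by simp)
      · have := h u
        rw [Function.update_of_ne hu] at this ⊢
        exact this
  · rintro ⟨hE, h⟩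
    have hx : v u₀ = x := (h u₀).1 x (by rw [Function.update_self])
    refine ⟨fun u => ?_, hx⟩
    by_cases hu : u = u₀
    · subst hu
      refine ⟨fun x' hx' => ?_, fun y' hy' => ?_⟩
      · rw [Function.update_self] at hx'
        exact absurd hx' (by simp)
      · rw [Function.update_self] at hy'
        rw [hx, ← Sum.inr.inj hy']
        exact hE
    · have := h u
      rw [Function.update_of_ne hu] at this ⊢
      exact this

theorem keyB (E : Fin k → Finset (Nm K N × Wo d q)) (w : Pub k K d N q) (u₀ : Fin k)
    (v : Fin k → Wo d q) (x : Nm K N) (y : Wo d q) :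
    (v ∈ Bs E (Function.update w u₀ (Sum.inl x)) ∧ v u₀ = y) ↔
      ((x, y) ∈ E u₀ ∧ v ∈ Bs E (Function.update w u₀ (Sum.inr y))) := by
  rw [mem_Bs, mem_Bs]
  constructor
  · rintro ⟨h, hx⟩
    refine ⟨?_, fun u => ?_⟩
    · have := (h u₀).1 x (by rw [Function.update_self])
      rwa [hx] at this
    · by_cases hu : u = u₀
      · subst hu
        refine ⟨fun x' hx' => ?_, fun y' hy' => ?_⟩
        · rw [Function.update_self] at hx'
          exact absurd hx' (by simp)
        · rw [Function.update_self] at hy'
          rw [hx]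
          exact Sum.inr.inj hy'
      · have := h u
        rw [Function.update_of_ne hu] at this ⊢
        exact this
  · rintro ⟨hE, h⟩
    have hx : v u₀ = y := (h u₀).2 y (by rw [Function.update_self])
    refine ⟨fun u => ?_, hx⟩
    by_cases hu : u = u₀
    · subst hu
      refine ⟨fun x' hx' => ?_, fun y' hy' => ?_⟩
      · rw [Function.update_self] at hx'
        rw [hx, ← Sum.inl.inj hx']
        exact hE
      · rw [Function.update_self] at hy'
        exact absurd hy' (by simp)
    · have := h u
      rw [Function.update_of_ne hu] at this ⊢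
      exact this

end MRGM

open MRGM in
theorem MRG_thm : Stmt_MRG := by
  classical
  intro k K d N q E w u₀ P D
  constructor
  · intro y x
    unfold marg
    split_ifs with h
    · congr 2
      ext v
      simp only [mem_filter, mem_inter]
      have := keyA E w u₀ v x y
      tauto
    · rw [Nat.cast_eq_zero, card_eq_zero, filter_eq_empty_iff]
      intro v hv hx
      exact h ((keyA E w u₀ v x y).1 ⟨(mem_inter.1 hv).2, hx⟩).1
  · intro x y
    unfold marg
    split_ifs with h
    · congr 2
      ext v
      simp only [mem_filter, mem_inter]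
      have := keyB E w u₀ v x y
      tauto
    · rw [Nat.cast_eq_zero, card_eq_zero, filter_eq_empty_iff]
      intro v hv hx
      exact h ((keyB E w u₀ v x y).1 ⟨(mem_inter.1 hv).2, hx⟩).1

end Pool.Agent.ANC
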