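import Pool.Agent.ANC.Stmts

/-!
# Project ANC, module NUM: the numbers of the edges
-/

set_option autoImplicit false

namespace Pool.Agent.ANC

namespace NUMM

/-- numbers of the code edges -/
def e2 (L K N d : ℕ) : Fin (L * K * N * d) ≃ ((Fin L × Fin K) × Fin N) × Fin d :=
  finProdFinEquiv.symm.trans (Equiv.prodCongr (finProdFinEquiv.symm.trans
    (Equiv.prodCongr finProdFinEquiv.symm (Equiv.refl _))) (Equiv.refl _))

/-- numbers of the name edges -/
def e3 (k L K : ℕ) : Fin (L * (k * K)) ≃ Fin L × (Fin k × Fin K) :=
  finProdFinEquiv.symm.trans (Equiv.prodCongr (Equiv.refl _) finProdFinEquiv.symm)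

lemma e3_symm (k L K : ℕ) (t : Fin L × (Fin k × Fin K)) :
    ((e3 k L K).symm t).val = (finProdFinEquiv t.2).val + k * K * t.1.val := rfl

/-- numbers of all edges -/
def ph (k L K N d : ℕ) : Fin (k * d + (L * K * N * d + L * (k * K))) ≃ Ix k L K N d :=
  finSumFinEquiv.symm.trans (Equiv.sumCongr finProdFinEquiv.symm
    (finSumFinEquiv.symm.trans (Equiv.sumCongr (e2 L K N d) (e3 k L K))))

lemma ph_inl (k L K N d : ℕ) (s : Fin k × Fin d) :
    ((ph k L K N d).symm (Sum.inl s)).val = (finProdFinEquiv s).val := rfl

lemma ph_mid (k L K N d : ℕ) (s : ((Fin L × Fin K) × Fin N) × Fin d) :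
    ((ph k L K N d).symm (Sum.inr (Sum.inl s))).val = k * d + ((e2 L K N d).symm s).val := rfl

lemma ph_inr (k L K N d : ℕ) (t : Fin L × (Fin k × Fin K)) :
    ((ph k L K N d).symm (Sum.inr (Sum.inr t))).val =
      k * d + (L * K * N * d + ((finProdFinEquiv t.2).val + k * K * t.1.val)) := rfl

end NUMM

open NUMM in
theorem NUM_thm : Stmt_NUM := by
  intro k L K N d m hm
  have hm' : m = k * d + (L * K * N * d + L * (k * K)) := by rw [hm, add_assoc]
  subst hm'
  refine ⟨ph k L K N d, fun i j _ => ?_⟩
  obtain ⟨s, rfl⟩ := (ph k L K N d).symm.surjective i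
  rw [Equiv.apply_symm_apply]
  rcases s with s | s | t
  · rw [ph_inl]
    have h := (finProdFinEquiv s).isLt
    constructor
    · intro _ t ht
      cases ht
    · intro _
      omega
  · rw [ph_mid]
    have h := ((e2 L K N d).symm s).isLt
    constructor
    · intro _ t ht
      cases ht
    · intro _
      omega
  · rw [ph_inr]
    have h := (finProdFinEquiv t.2).isLt
    have h2 : k * d + (L * K * N * d + ((finProdFinEquiv t.2).val + k * K * t.1.val)) <
        k * d + L * K * N * d + j * (k * K) ↔ t.1.val < j := by
      constructor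
      · intro h3
        by_contra hcon
        have h4 : j * (k * K) ≤ k * K * t.1.val := by
          rw [mul_comm j]
          exact Nat.mul_le_mul_left _ (not_lt.1 hcon)
        omega
      · intro h3
        have h4 : k * K * (t.1.val + 1) ≤ j * (k * K) := by
          rw [mul_comm j]
          exact Nat.mul_le_mul_left _ h3
        rw [mul_add, mul_one] at h4
        omega
    rw [h2]
    constructor
    · intro h3 t' ht'
      cases ht'
      exact h3
    · intro h3
      exact h3 t rfl

end Pool.Agent.ANC
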