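import Pool.Agent.ANC.Stmts

/-!
# The choice of the parameters `z` and `K`
-/

set_option autoImplicit false

namespace Pool.Agent.ANC

namespace PAAM

theorem pow_succ_le (z : ℕ) (hz : 40 ≤ z) : (z + 1) ^ 20 ≤ 2 * z ^ 20 := by
  have h1 : (40 * (z + 1)) ^ 20 ≤ (41 * z) ^ 20 := Nat.pow_le_pow_left (by omega) 20
  rw [mul_pow, mul_pow] at h1
  have h2 : (41 : ℕ) ^ 20 ≤ 2 * 40 ^ 20 := by norm_num
  have h3 : 40 ^ 20 * (z + 1) ^ 20 ≤ 40 ^ 20 * (2 * z ^ 20) :=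
    calc 40 ^ 20 * (z + 1) ^ 20 ≤ 41 ^ 20 * z ^ 20 := h1
      _ ≤ (2 * 40 ^ 20) * z ^ 20 := Nat.mul_le_mul_right _ h2
      _ = 40 ^ 20 * (2 * z ^ 20) := by ring
  exact Nat.le_of_mul_le_mul_left h3 (by norm_num)

theorem log_le (z : ℕ) (hz : 1764 ≤ z) : 21 * Real.log z ≤ z := by
  have hz' : (1764 : ℝ) ≤ z := by exact_mod_cast hz
  have h0 : (0 : ℝ) < z := by linarith
  have hs : (42 : ℝ) ≤ Real.sqrt z := by
    rw [show (42 : ℝ) = Real.sqrt (42 ^ 2) by rw [Real.sqrt_sq (by norm_num)]]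
    refine Real.sqrt_le_sqrt ?_
    have h5 : (42 : ℝ) ^ 2 = 1764 := by norm_num
    rw [h5]
    exact hz'
  have h1 : Real.log (Real.sqrt z) ≤ Real.sqrt z - 1 :=
    Real.log_le_sub_one_of_pos (Real.sqrt_pos.2 h0)
  rw [Real.log_sqrt h0.le] at h1
  have h2 : Real.sqrt z * Real.sqrt z = z := Real.mul_self_sqrt h0.le
  nlinarith

theorem exists_z (W s : ℕ) (h : 8 * W ^ 20 ≤ s) :
    ∃ z : ℕ, W ≤ z ∧ 8 * z ^ 20 ≤ s ∧ s < 8 * (z + 1) ^ 20 := by
  have hb : W ≤ s := by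
    have : W ≤ W ^ 20 := Nat.le_self_pow (by norm_num) _
    omega
  refine ⟨Nat.findGreatest (fun z => 8 * z ^ 20 ≤ s) s,
    Nat.le_findGreatest (P := fun z => 8 * z ^ 20 ≤ s) hb h,
    Nat.findGreatest_spec (P := fun z => 8 * z ^ 20 ≤ s) hb h, ?_⟩
  by_contra hcon
  have h8 : 8 * (Nat.findGreatest (fun z => 8 * z ^ 20 ≤ s) s) ^ 20 ≤ s :=
    Nat.findGreatest_spec (P := fun z => 8 * z ^ 20 ≤ s) hb h
  generalize hz : Nat.findGreatest (fun z => 8 * z ^ 20 ≤ s) s = z at hcon h8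
  have h1 : z + 1 ≤ (z + 1) ^ 20 := Nat.le_self_pow (by norm_num) _
  exact Nat.findGreatest_is_greatest (P := fun z => 8 * z ^ 20 ≤ s) (k := z + 1) (n := s)
    (by rw [hz]; exact Nat.lt_succ_self z) (by omega) (not_lt.1 hcon)

end PAAM

open PAAM in
theorem PAA_thm : Stmt_PAA := by
  intro Z
  refine ⟨max (8 * (Z + 1764) ^ 20) ⌈Real.exp (Real.exp 1)⌉₊, fun s L hs hL hLs => ?_⟩
  have hs1 : 8 * (Z + 1764) ^ 20 ≤ s := le_trans (le_max_left _ _) hs
  have hs2 : Real.exp (Real.exp 1) ≤ s :=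
    le_trans (Nat.le_ceil _) (by exact_mod_cast le_trans (le_max_right _ _) hs)
  clear hs
  have hll : 1 ≤ Real.log (Real.log s) := by
    have h1 : Real.exp 1 ≤ Real.log s := by
      rw [Real.le_log_iff_exp_le (lt_of_lt_of_le (Real.exp_pos _) hs2)]
      exact hs2
    rw [Real.le_log_iff_exp_le (lt_of_lt_of_le (Real.exp_pos _) h1)]
    exact h1
  obtain ⟨z, hZz, hz8, hlt⟩ := exists_z (Z + 1764) s hs1
  clear hs1
  have h16 : s ≤ 16 * z ^ 20 := by
    have := pow_succ_le z (by omega)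
    omega
  clear hlt
  have hz1 : 1764 ≤ z := by omega
  have hZ : Z ≤ z := by omega
  clear hZz
  have hz' : (1764 : ℝ) ≤ z := by exact_mod_cast hz1
  have h0 : (0 : ℝ) < z := lt_of_lt_of_le (by norm_num) hz'
  have hspos : (0 : ℝ) < s := lt_of_lt_of_le (Real.exp_pos _) hs2
  have hlog : Real.log s ≤ 21 * Real.log z := by
    have h1 : Real.log s ≤ Real.log (16 * (z : ℝ) ^ 20) :=
      Real.log_le_log hspos (by exact_mod_cast h16)
    rw [Real.log_mul (by norm_num) (by positivity), Real.log_pow] at h1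
    have h2 : Real.log 16 ≤ Real.log z :=
      Real.log_le_log (by norm_num) (le_trans (by norm_num) hz')
    push_cast at h1
    clear h16 hz8
    linarith
  have hLz : L ≤ z := by
    have h2 : (L : ℝ) ≤ L * Real.log (Real.log s) :=
      le_mul_of_one_le_right (Nat.cast_nonneg L) hll
    have h3 := log_le z hz1
    have h1 : (L : ℝ) ≤ z := le_trans h2 (le_trans hLs (le_trans hlog h3))
    exact_mod_cast h1
  have hzsq : 1764 * z ≤ z ^ 2 := by
    rw [pow_two]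
    exact Nat.mul_le_mul_right _ hz1
  refine ⟨z, z ^ 2 / L, hZ, ?_, ?_, ?_, hz8, h16, hlog, hll⟩
  · exact Nat.div_pos (by omega) hL
  · exact Nat.mul_div_le _ _
  · clear h16 hz8
    have hdm := Nat.div_add_mod (z ^ 2) L
    have hml := Nat.mod_lt (z ^ 2) hL
    omega

end Pool.Agent.ANC
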