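import Pool.Agent.ANC.Stmts

/-!
# Module PRO: the parameters of one block
-/

set_option autoImplicit false

namespace Pool.Agent.ANC

open Finset MeasureTheory

theorem PRO_thm : Stmt_PRO := by
  intro z k K d N q L β hC hz hN hq hd hd1 hd2 hK hL hk o j₀
  refine ⟨hC, hz, hN, hq, hd1, hd2, hK, ?_, hk, ?_⟩
  · rw [hd]
    exact Nat.le_mul_of_pos_left K hL
  · intro u i
    have h1 : (Yo β o j₀ u i)ᶜ ⊆
        (univ : Finset (Fin L × Fin K)).image (fun p => β (o u p.1 p.2) i) := by
      intro t ht
      rw [mem_compl, Yo, mem_filter] at ht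
      push Not at ht
      obtain ⟨j, _, r, hr⟩ := ht (mem_univ t)
      rw [mem_image]
      exact ⟨(j, r), mem_univ _, hr⟩
    have h2 := card_le_card h1
    have h3 : ((univ : Finset (Fin L × Fin K)).image (fun p => β (o u p.1 p.2) i)).card ≤
        L * K := by
      refine card_image_le.trans ?_
      rw [card_univ, Fintype.card_prod, Fintype.card_fin, Fintype.card_fin]
    rw [card_compl, Fintype.card_fin] at h2
    have h4 := h2.trans h3
    rw [← hd] at h4
    omega

end Pool.Agent.ANC
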