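import Pool.Agent.ANC.Stmts

/-!
# A computation depends only on the registers which it touches
-/

set_option autoImplicit false

namespace Pool.Agent.ANC

open Finset

theorem RUN_thm : Stmt_RUN := by
  intro A Γ Q _ c
  induction c with
  | stop ans q =>
    intro M M'
    exact ⟨fun _ => ⟨rfl, rfl, rfl⟩, le_of_eq rfl, fun a _ => rfl⟩
  | access a w next ih =>
    intro M M'
    refine ⟨fun h => ?_, ?_, fun b hb => ?_⟩
    · have ha : M a = M' a := h a (by rw [Comp.touched]; exact mem_insert_self _ _)
      have hstep : ∀ b ∈ (next (M a)).touched (Function.update M a (w (M a))),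
          Function.update M a (w (M a)) b = Function.update M' a (w (M' a)) b := by
        intro b hb
        by_cases hba : b = a
        · subst hba
          rw [Function.update_self, Function.update_self, ha]
        · rw [Function.update_of_ne hba, Function.update_of_ne hba]
          exact h b (by rw [Comp.touched]; exact mem_insert_of_mem hb)
      obtain ⟨h1, h2, h3⟩ := (ih (M a) (Function.update M a (w (M a)))
        (Function.update M' a (w (M' a)))).1 hstep
      refine ⟨?_, ?_, ?_⟩
      · rw [Comp.out, Comp.out, h1, ha]
      · rw [Comp.touched, Comp.touched, h2, ha]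
      · rw [Comp.cost, Comp.cost, h3, ha]
    · rw [Comp.touched, Comp.cost]
      exact (card_insert_le _ _).trans (Nat.succ_le_succ
        (ih (M a) (Function.update M a (w (M a))) (Function.update M a (w (M a)))).2.1)
    · rw [Comp.touched, mem_insert, not_or] at hb
      rw [Comp.mem, (ih (M a) (Function.update M a (w (M a)))
        (Function.update M a (w (M a)))).2.2 b hb.2, Function.update_of_ne hb.1]

end Pool.Agent.ANC
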