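import Pool.Agent.ANC.Stmts

/-!
# Module SAA: in a large set of names most marginals are well spread
-/

set_option autoImplicit false

namespace Pool.Agent.ANC

open Finset MeasureTheory

namespace SAAM

variable {z k K d N q : ℕ}

/-- the exceptional names -/
noncomputable def ex (β : Fin N → Wo d q) (T : Fin d → Finset (Fin q)) : Finset (Fin N) :=
  univ.filter fun x => ((univ.filter fun i => β x i ∈ T i).card : ℝ) * q ≤
      (1 - 1 / 200) * (∑ i, (T i).card : ℕ)

theorem sum_marg (S : Finset (Fin k → Nm K N)) (u : Fin k) :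
    ∑ x, marg S u x = (S.card : ℝ) := by
  unfold marg
  rw [← Nat.cast_sum]
  congr 1
  exact (card_eq_sum_card_fiberwise (f := fun v : Fin k → Nm K N => v u)
    (fun v _ => mem_coe.2 (mem_univ _))).symm

theorem sum_marg' (S : Finset (Fin k → Nm K N)) (u : Fin k) (p : Nm K N → Prop)
    [DecidablePred p] :
    ∑ x ∈ univ.filter p, marg S u x = ((S.filter fun v => p (v u)).card : ℝ) := by
  unfold marg
  rw [← Nat.cast_sum]
  congr 1
  rw [card_eq_sum_card_fiberwise (s := S.filter fun v => p (v u)) (t := univ.filter p)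
    (f := fun v : Fin k → Nm K N => v u)
    (fun v hv => mem_coe.2 (mem_filter.2 ⟨mem_univ _, (mem_filter.1 hv).2⟩))]
  refine sum_congr rfl fun x hx => ?_
  congr 1
  ext v
  simp only [mem_filter]
  constructor
  · rintro ⟨h1, h2⟩
    exact ⟨⟨h1, h2 ▸ (mem_filter.1 hx).2⟩, h2⟩
  · rintro ⟨⟨h1, -⟩, h2⟩
    exact ⟨h1, h2⟩

open Classical in
theorem many_exc (β : Fin N → Wo d q) (S : Finset (Fin k → Nm K N)) (u : Fin k) (r : Fin K)
    (hz : 0 < z * q) (hb : z * q ≤ ∑ i, (low (1 / 200) β (marg S u) r i).card) :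
    (1 / 200 : ℝ) * S.card ≤
      ((S.filter fun v => v u r ∈ ex β (low (1 / 200) β (marg S u) r)).card : ℝ) := by
  obtain ⟨T, hT⟩ : ∃ T, T = low (1 / 200) β (marg S u) r := ⟨_, rfl⟩
  rw [← hT] at hb ⊢
  obtain ⟨M, hM⟩ : ∃ M : ℕ, M = ∑ i, (T i).card := ⟨_, rfl⟩
  have hMpos : (0 : ℝ) < M := by
    rw [← hM] at hb
    exact_mod_cast lt_of_lt_of_le hz hb
  have h1 : ∀ i, ∀ t ∈ T i,
      ((S.filter fun v => β (v u r) i = t).card : ℝ) * q ≤ (1 - 2 * (1 / 200)) * S.card := by
    intro i t ht
    rw [hT] at ht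
    unfold low at ht
    have h2 := (mem_filter.1 ht).2
    rw [sum_marg S u, sum_marg' S u] at h2
    convert h2.le
  have h2 : ∑ v ∈ S, ((univ.filter fun i => β (v u r) i ∈ T i).card : ℝ) * q ≤
      (1 - 2 * (1 / 200)) * S.card * M := by
    have h3 : ∑ v ∈ S, (univ.filter fun i => β (v u r) i ∈ T i).card =
        ∑ i, ∑ t ∈ T i, (S.filter fun v => β (v u r) i = t).card := by
      simp only [card_filter]
      rw [sum_comm]
      refine sum_congr rfl fun i _ => ?_
      rw [sum_comm]
      refine sum_congr rfl fun v _ => ?_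
      rw [sum_ite_eq]
    rw [← sum_mul, ← Nat.cast_sum, h3, Nat.cast_sum, sum_mul, hM, Nat.cast_sum, mul_sum]
    refine sum_le_sum fun i _ => ?_
    rw [Nat.cast_sum, sum_mul]
    calc ∑ t ∈ T i, ((S.filter fun v => β (v u r) i = t).card : ℝ) * q
        ≤ ∑ t ∈ T i, (1 - 2 * (1 / 200)) * (S.card : ℝ) := sum_le_sum (h1 i)
      _ = _ := by rw [sum_const, nsmul_eq_mul]; ring
  have h4 : ∑ v ∈ S.filter (fun v => ¬ v u r ∈ ex β T), (1 - 1 / 200) * (M : ℝ) ≤
      ∑ v ∈ S, ((univ.filter fun i => β (v u r) i ∈ T i).card : ℝ) * q := by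
    refine le_trans (sum_le_sum fun v hv => ?_)
      (sum_le_sum_of_subset_of_nonneg (filter_subset _ _) fun v _ _ => by positivity)
    have h5 := (mem_filter.1 hv).2
    unfold ex at h5
    rw [mem_filter, not_and] at h5
    have h6 := not_le.1 (h5 (mem_univ _))
    rw [← hM] at h6
    exact h6.le
  rw [sum_const, nsmul_eq_mul] at h4
  have h7 : ((S.filter fun v => v u r ∈ ex β T).card : ℝ) +
      ((S.filter fun v => ¬ v u r ∈ ex β T).card : ℝ) = S.card := by
    exact_mod_cast card_filter_add_card_filter_not (s := S) (fun v => v u r ∈ ex β T)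
  have h8 := le_trans h4 h2
  have h9 : ((S.filter fun v => ¬ v u r ∈ ex β T).card : ℝ) * (1 - 1 / 200) ≤
      (1 - 2 * (1 / 200)) * S.card := by
    have h10 : ((S.filter fun v => ¬ v u r ∈ ex β T).card : ℝ) * (1 - 1 / 200) * M ≤
        (1 - 2 * (1 / 200)) * S.card * M := by linarith
    exact le_of_mul_le_mul_right h10 hMpos
  have h11 : (0 : ℝ) ≤ ((S.filter fun v => v u r ∈ ex β T).card : ℝ) := by positivity
  linarith

open Classical in
theorem mean_le (G : Finset (Fin N)) (X : Fin K → Finset (Fin N)) (hN : N = z ^ 16)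
    (hz : 0 < z) (hG : N ≤ 2 * G.card) (hX : ∀ r, (X r).card ≤ z ^ 11) :
    ∑ x ∈ Fintype.piFinset (fun _ : Fin K => G),
      Real.exp (∑ r, if x r ∈ X r then 5 * Real.log z else 0) ≤
      3 ^ K * ((Fintype.piFinset (fun _ : Fin K => G)).card : ℝ) := by
  have hz' : (0 : ℝ) < z := by exact_mod_cast hz
  have h1 : ∀ x : Fin K → Fin N, Real.exp (∑ r, if x r ∈ X r then 5 * Real.log z else 0) =
      ∏ r, Real.exp (if x r ∈ X r then 5 * Real.log z else 0) := fun x => Real.exp_sum _ _
  rw [sum_congr rfl fun x _ => h1 x,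
    ← prod_univ_sum (fun _ : Fin K => G)
      (fun r x₀ => Real.exp (if x₀ ∈ X r then 5 * Real.log z else 0))]
  have h2 : ((Fintype.piFinset (fun _ : Fin K => G)).card : ℝ) = ∏ _r : Fin K, (G.card : ℝ) := by
    rw [Fintype.card_piFinset]
    push_cast
    rfl
  have h3 : (3 : ℝ) ^ K = ∏ _r : Fin K, (3 : ℝ) := by
    rw [prod_const, card_univ, Fintype.card_fin]
  rw [h2, h3, ← prod_mul_distrib]
  refine prod_le_prod (fun r _ => sum_nonneg fun x _ => (Real.exp_pos _).le) fun r _ => ?_
  have h4 : Real.exp (5 * Real.log z) = (z : ℝ) ^ 5 := by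
    rw [show (5 : ℝ) * Real.log z = ((5 : ℕ) : ℝ) * Real.log z by norm_num, Real.exp_nat_mul,
      Real.exp_log hz']
  calc ∑ x₀ ∈ G, Real.exp (if x₀ ∈ X r then 5 * Real.log z else 0)
      ≤ ∑ x₀ ∈ G, (1 + if x₀ ∈ X r then (z : ℝ) ^ 5 else 0) := by
        refine sum_le_sum fun x₀ _ => ?_
        split_ifs
        · rw [h4]; linarith
        · rw [Real.exp_zero]; linarith
    _ = G.card + ((G.filter fun x₀ => x₀ ∈ X r).card : ℝ) * (z : ℝ) ^ 5 := by
        rw [sum_add_distrib, sum_const, nsmul_eq_mul, mul_one, ← sum_filter, sum_const,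
          nsmul_eq_mul]
    _ ≤ G.card + (z : ℝ) ^ 11 * (z : ℝ) ^ 5 := by
        have h5 : (G.filter fun x₀ => x₀ ∈ X r).card ≤ z ^ 11 := by
          refine le_trans (card_le_card fun x₀ hx => ?_) (hX r)
          exact (mem_filter.1 hx).2
        have h6 : ((G.filter fun x₀ => x₀ ∈ X r).card : ℝ) ≤ (z : ℝ) ^ 11 := by
          exact_mod_cast h5
        have := mul_le_mul_of_nonneg_right h6 (pow_nonneg hz'.le 5)
        linarith
    _ ≤ 3 * G.card := by
        have h7 : (z : ℝ) ^ 11 * (z : ℝ) ^ 5 = (N : ℝ) := by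
          rw [hN]; push_cast; ring
        have h8 : (N : ℝ) ≤ 2 * G.card := by exact_mod_cast hG
        rw [h7]
        linarith

end SAAM

open Classical in
open SAAM in
theorem SAA_thm (hJEN : Stmt_JEN) (hSIZ : Stmt_SIZ) : Stmt_SAA := by
  intro z k K d N q β Y hP P w a ha hne hlarge
  obtain ⟨S, hS⟩ : ∃ S, S = P ∩ As (fun u => Ed β K (Y u)) w := ⟨_, rfl⟩
  rw [← hS] at hne hlarge ⊢
  have hlog : (10 : ℝ) ^ 9 ≤ Real.log z := hP.hz
  have hlog0 : (0 : ℝ) < Real.log z := lt_of_lt_of_le (by positivity) hlog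
  have hz : 0 < z := by
    rcases Nat.eq_zero_or_pos z with h | h
    · rw [h, Nat.cast_zero, Real.log_zero] at hlog0
      exact absurd hlog0 (lt_irrefl _)
    · exact h
  have hq : 0 < q := by rw [hP.hq]; positivity
  have hK : (1 : ℝ) ≤ K := by exact_mod_cast hP.hK
  have hF : (0 : ℝ) < S.card := by exact_mod_cast card_pos.2 hne
  -- the factors
  obtain ⟨W, hW, hmem⟩ : ∃ W : Fin k → Finset (Nm K N),
      As (fun u => Ed β K (Y u)) w = Fintype.piFinset W ∧
      ∀ u y, w u = Sum.inr y → ∀ x, (x ∈ W u ↔ (x, y) ∈ Ed β K (Y u)) := by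
    refine ⟨fun u => match w u with
      | Sum.inl x => {x}
      | Sum.inr y => univ.filter fun x => (x, y) ∈ Ed β K (Y u), rfl, ?_⟩
    intro u y hu x
    simp only [hu, mem_filter, mem_univ, true_and]
  have hSW : S ⊆ Fintype.piFinset W := by
    rw [← hW, hS]
    exact inter_subset_right
  have hWne : ∀ u, (W u).Nonempty := by
    intro u
    obtain ⟨v, hv⟩ := hne
    exact ⟨v u, Fintype.mem_piFinset.1 (hSW hv) u⟩
  -- the exceptional names at the bad pairs
  obtain ⟨bad, hbad⟩ : ∃ bad : Fin k → Finset (Fin K), ∀ u r, (r ∈ bad u ↔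
      z * q ≤ ∑ i, (low (1 / 200) β (marg S u) r i).card) :=
    ⟨fun u => univ.filter fun r => z * q ≤ ∑ i, (low (1 / 200) β (marg S u) r i).card,
      fun u r => by simp⟩
  obtain ⟨X, hX⟩ : ∃ X : Fin k → Fin K → Finset (Fin N), ∀ u r,
      X u r = if r ∈ bad u then ex β (low (1 / 200) β (marg S u) r) else ∅ := ⟨_, fun _ _ => rfl⟩
  have hXc : ∀ u r, (X u r).card ≤ z ^ 11 := by
    intro u r
    rw [hX]
    split_ifs with h
    · exact hP.code.exc _ ((hbad u r).1 h)
    · simp
  obtain ⟨φ, hφ⟩ : ∃ φ : Fin k → Nm K N → ℝ, ∀ u x, φ u x =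
      if (w u).isRight = true then ∑ r, (if x r ∈ X u r then 5 * Real.log z else 0) else 0 :=
    ⟨_, fun _ _ => rfl⟩
  have hφ0 : ∀ u x, 0 ≤ φ u x := by
    intro u x
    rw [hφ]
    split_ifs
    · refine sum_nonneg fun r _ => ?_
      split_ifs
      · positivity
      · exact le_rfl
    · exact le_rfl
  have hJ := hJEN k (Nm K N) W S φ hSW hne
  -- upper bound
  have hup1 : Real.log (((Fintype.piFinset W).card : ℝ) / S.card) ≤ a := by
    rw [hW] at hlarge
    have h1 : (0 : ℝ) < ((Fintype.piFinset W).card : ℝ) := by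
      exact_mod_cast lt_of_lt_of_le (card_pos.2 hne) (card_le_card hSW)
    rw [Real.log_le_iff_le_exp (div_pos h1 hF), div_le_iff₀ hF]
    have h2 : Real.exp a * (Real.exp (-a) * ((Fintype.piFinset W).card : ℝ)) ≤
        Real.exp a * S.card := mul_le_mul_of_nonneg_left hlarge (Real.exp_pos _).le
    rwa [← mul_assoc, ← Real.exp_add, add_neg_cancel, Real.exp_zero, one_mul] at h2
  have hup2 : ∀ u, Real.log ((∑ x ∈ W u, Real.exp (φ u x)) / (W u).card) ≤ 2 * K := by
    intro u
    have hc : (0 : ℝ) < (W u).card := by exact_mod_cast card_pos.2 (hWne u)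
    rcases hu : w u with x' | y
    · have h1 : ∑ x ∈ W u, Real.exp (φ u x) = (W u).card := by
        rw [sum_congr rfl fun x _ => show Real.exp (φ u x) = 1 by
          rw [hφ, hu]; simp]
        simp
      rw [h1, div_self hc.ne', Real.log_one]
      positivity
    · obtain ⟨G, hG⟩ : ∃ G : Finset (Fin N), G = univ.filter fun x : Fin N => ∀ i, β x i ≠ y i :=
        ⟨_, rfl⟩
      have hY : ∀ i, y i ∈ Y u i := by
        obtain ⟨x, hx⟩ := hWne u
        have h1 := (hmem u y hu x).1 hx
        unfold Ed at h1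
        exact (mem_filter.1 h1).2.1
      have hWG : W u = Fintype.piFinset fun _ : Fin K => G := by
        ext x
        rw [hmem u y hu x, Fintype.mem_piFinset]
        unfold Ed
        rw [mem_filter]
        simp only [mem_univ, true_and, hY, implies_true, hG, mem_filter]
        unfold agr
        rw [card_eq_zero, filter_eq_empty_iff]
        constructor
        · intro h r i
          exact h (mem_univ (r, i))
        · rintro h ⟨r, i⟩ _
          exact h r i
      have hGN : N ≤ 2 * G.card := by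
        rw [hG]
        exact (hSIZ hP).2 y
      have h1 := mean_le (K := K) G (X u) hP.hN hz hGN (hXc u)
      rw [← hWG] at h1
      have h2 : ∑ x ∈ W u, Real.exp (φ u x) ≤ 3 ^ K * ((W u).card : ℝ) := by
        refine le_trans (le_of_eq (sum_congr rfl fun x _ => ?_)) h1
        rw [hφ, hu]
        simp
      have h3 : (∑ x ∈ W u, Real.exp (φ u x)) / (W u).card ≤ 3 ^ K := by
        rw [div_le_iff₀ hc]
        exact h2
      have h4 : 0 < (∑ x ∈ W u, Real.exp (φ u x)) / (W u).card := by
        refine div_pos (sum_pos (fun x _ => Real.exp_pos _) (hWne u)) hc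
      have h5 : Real.log (3 : ℝ) ≤ 2 := by
        rw [Real.log_le_iff_le_exp (by norm_num)]
        have := Real.add_one_le_exp (2 : ℝ)
        linarith
      calc Real.log ((∑ x ∈ W u, Real.exp (φ u x)) / (W u).card) ≤ Real.log (3 ^ K) :=
            Real.log_le_log h4 h3
        _ = K * Real.log 3 := by rw [Real.log_pow]
        _ ≤ K * 2 := mul_le_mul_of_nonneg_left h5 (by positivity)
        _ = 2 * K := by ring
  have hup : ∑ v ∈ S, ∑ u, φ u (v u) ≤ S.card * (a + 2 * k * K) := by
    refine le_trans hJ (mul_le_mul_of_nonneg_left (add_le_add hup1 ?_) hF.le)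
    calc ∑ u, Real.log ((∑ x ∈ W u, Real.exp (φ u x)) / (W u).card)
        ≤ ∑ _u : Fin k, (2 * (K : ℝ)) := sum_le_sum fun u _ => hup2 u
      _ = 2 * k * K := by rw [sum_const, card_univ, Fintype.card_fin, nsmul_eq_mul]; ring
  -- lower bound
  obtain ⟨U, hU⟩ : ∃ U : Finset (Fin k), U = univ.filter fun u => (w u).isRight = true ∧
      ¬GoodA (1 / 200) z β (marg S u) := ⟨_, rfl⟩
  have hlow : (U.card : ℝ) * (K / 200 * (5 * Real.log z * (1 / 200 * S.card))) ≤
      ∑ v ∈ S, ∑ u, φ u (v u) := by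
    rw [sum_comm]
    have h1 : ∀ u ∈ U, K / 200 * (5 * Real.log z * (1 / 200 * S.card)) ≤
        ∑ v ∈ S, φ u (v u) := by
      intro u hu
      rw [hU, mem_filter] at hu
      obtain ⟨-, hr, hg⟩ := hu
      unfold GoodA at hg
      have hg2 := not_le.1 hg
      have hbc : ((bad u).card : ℝ) = ((univ.filter fun r : Fin K =>
          z * q ≤ ∑ i, (low (1 / 200) β (marg S u) r i).card).card : ℝ) := by
        congr 2
        ext r
        rw [hbad, mem_filter]
        simp
      have h2 : (K : ℝ) / 200 ≤ (bad u).card := by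
        rw [hbc]
        have : (1 / 200 : ℝ) * K = K / 200 := by ring
        rw [← this]
        exact hg2.le
      have h3 : ∑ v ∈ S, φ u (v u) =
          ∑ r, ∑ v ∈ S, (if v u r ∈ X u r then 5 * Real.log z else 0) := by
        rw [sum_comm]
        refine sum_congr rfl fun v _ => ?_
        rw [hφ, if_pos hr]
      have h4 : ∑ r ∈ bad u, 5 * Real.log z * (1 / 200 * (S.card : ℝ)) ≤
          ∑ r, ∑ v ∈ S, (if v u r ∈ X u r then 5 * Real.log z else 0) := by
        refine le_trans (sum_le_sum fun r hrb => ?_)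
          (sum_le_sum_of_subset_of_nonneg (subset_univ _) fun r _ _ => sum_nonneg fun v _ => by
            split_ifs
            · positivity
            · exact le_rfl)
        rw [← sum_filter, sum_const, nsmul_eq_mul, mul_comm (((S.filter _).card : ℕ) : ℝ)]
        apply mul_le_mul_of_nonneg_left _ (by positivity)
        have h5 := many_exc (z := z) β S u r (by positivity) ((hbad u r).1 hrb)
        rw [hX, if_pos hrb]
        exact h5
      rw [h3]
      refine le_trans ?_ h4
      rw [sum_const, nsmul_eq_mul]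
      exact mul_le_mul_of_nonneg_right h2 (by positivity)
    calc (U.card : ℝ) * (K / 200 * (5 * Real.log z * (1 / 200 * S.card)))
        = ∑ _u ∈ U, K / 200 * (5 * Real.log z * (1 / 200 * S.card)) := by
          rw [sum_const, nsmul_eq_mul]
      _ ≤ ∑ u ∈ U, ∑ v ∈ S, φ u (v u) := sum_le_sum h1
      _ ≤ ∑ u, ∑ v ∈ S, φ u (v u) :=
          sum_le_sum_of_subset_of_nonneg (subset_univ _) fun u _ _ =>
            sum_nonneg fun v _ => hφ0 u _
  rw [← hU]
  have hfin := le_trans hlow hup
  have h1 : (U.card : ℝ) * (K / 200 * (5 * Real.log z * (1 / 200))) ≤ a + 2 * k * K := by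
    have h2 : S.card * ((U.card : ℝ) * (K / 200 * (5 * Real.log z * (1 / 200)))) ≤
        S.card * (a + 2 * k * K) := by
      refine le_trans (le_of_eq ?_) hfin
      ring
    exact le_of_mul_le_mul_left h2 hF
  have hk0 : (0 : ℝ) ≤ k := by positivity
  have h3 : (U.card : ℝ) * (K * Real.log z) ≤ 40000 / 5 * (k * K * Real.log z / 10 ^ 7 +
      2 * k * K) := by
    have h4 : (U.card : ℝ) * (K / 200 * (5 * Real.log z * (1 / 200))) =
        (U.card : ℝ) * (K * Real.log z) * (5 / 40000) := by ring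
    rw [h4] at h1
    linarith
  have h5 : 2 * (k : ℝ) * K ≤ k * K * Real.log z * (2 / 10 ^ 9) := by
    have h6 : (0 : ℝ) ≤ k * K := by positivity
    have h7 := mul_le_mul_of_nonneg_left hlog h6
    linarith
  have h8 : (U.card : ℝ) * (K * Real.log z) ≤ (k / 1000) * (K * Real.log z) := by
    have h9 : (0 : ℝ) ≤ k * K * Real.log z := by positivity
    linarith
  have h10 : (0 : ℝ) < K * Real.log z := by positivity
  exact le_of_mul_le_mul_right h8 h10

end Pool.Agent.ANC
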