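import Pool.Agent.ANC.Stmts

/-!
# Large sets of words: most marginals are well spread
-/

set_option autoImplicit false

namespace Pool.Agent.ANC

open Finset MeasureTheory

namespace SBBM

/-- The logarithm of the mean of the exponential weight over a product of large sets. -/
theorem mean_le {d q : ℕ} (V T : Fin d → Finset (Fin q)) (z : ℕ) (hz : 1 ≤ z) (hq : 0 < q)
    (hV : ∀ i, q ≤ 2 * (V i).card) (hT : ∑ i, (T i).card ≤ z * q) :
    Real.log ((∑ y ∈ Fintype.piFinset V,
      Real.exp (Real.log z * ((univ.filter fun i => y i ∈ T i).card : ℝ))) /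
        (Fintype.piFinset V).card) ≤ 2 * (z : ℝ) ^ 2 := by
  have hz0 : (0 : ℝ) < z := by exact_mod_cast hz
  have hq0 : (0 : ℝ) < q := by exact_mod_cast hq
  have hV0 : ∀ i, (0 : ℝ) < (V i).card := by
    intro i
    have := hV i
    have : 0 < (V i).card := by omega
    exact_mod_cast this
  have he : ∀ y : Fin d → Fin q,
      Real.exp (Real.log z * ((univ.filter fun i => y i ∈ T i).card : ℝ)) =
        ∏ i, (if y i ∈ T i then (z : ℝ) else 1) := by
    intro y
    rw [Finset.prod_ite, Finset.prod_const_one, mul_one, Finset.prod_const, mul_comm,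
      Real.exp_nat_mul, Real.exp_log hz0]
  have hs : ∑ y ∈ Fintype.piFinset V,
      Real.exp (Real.log z * ((univ.filter fun i => y i ∈ T i).card : ℝ)) =
        ∏ i, ∑ t ∈ V i, (if t ∈ T i then (z : ℝ) else 1) := by
    rw [Finset.prod_univ_sum]
    exact Finset.sum_congr rfl fun y _ => he y
  have h0 : ∀ i, 0 < ∑ t ∈ V i, (if t ∈ T i then (z : ℝ) else 1) := by
    intro i
    apply Finset.sum_pos
    · intro t _
      split_ifs
      · exact hz0
      · exact one_pos
    · rw [← Finset.card_pos]
      exact_mod_cast hV0 i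
  have h1 : ∀ i, (∑ t ∈ V i, (if t ∈ T i then (z : ℝ) else 1)) / (V i).card ≤
      Real.exp (2 * z * (T i).card / q) := by
    intro i
    have h2 : ∑ t ∈ V i, (if t ∈ T i then (z : ℝ) else 1) ≤ (V i).card + z * (T i).card := by
      have h3 : ∑ t ∈ V i, (if t ∈ T i then (z : ℝ) else 1) ≤
          ∑ t ∈ V i, (1 + if t ∈ T i then (z : ℝ) else 0) := by
        apply Finset.sum_le_sum
        intro t _
        split_ifs <;> linarith
      have h4 : ∑ t ∈ V i, (1 + if t ∈ T i then (z : ℝ) else 0) =
          (V i).card + z * ((V i).filter fun t => t ∈ T i).card := by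
        rw [Finset.sum_add_distrib, ← Finset.sum_filter, Finset.sum_const, Finset.sum_const,
          nsmul_eq_mul, nsmul_eq_mul, mul_one, mul_comm (z : ℝ)]
      have h5 : ((V i).filter fun t => t ∈ T i).card ≤ (T i).card := by
        apply Finset.card_le_card
        intro t ht
        exact (Finset.mem_filter.mp ht).2
      have h6 : (((V i).filter fun t => t ∈ T i).card : ℝ) ≤ (T i).card := by exact_mod_cast h5
      calc _ ≤ _ := h3
        _ = _ := h4
        _ ≤ _ := by
          have := mul_le_mul_of_nonneg_left h6 hz0.le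
          linarith
    have h7 : (z : ℝ) * (T i).card / (V i).card ≤ 2 * z * (T i).card / q := by
      rw [div_le_div_iff₀ (hV0 i) hq0]
      have h8 : (q : ℝ) ≤ 2 * (V i).card := by exact_mod_cast hV i
      have h9 : (0 : ℝ) ≤ z * (T i).card := by positivity
      nlinarith [mul_le_mul_of_nonneg_left h8 h9]
    calc _ ≤ ((V i).card + z * (T i).card) / ((V i).card : ℝ) :=
          div_le_div_of_nonneg_right h2 (hV0 i).le
      _ = 1 + z * (T i).card / (V i).card := by rw [add_div, div_self (hV0 i).ne']
      _ ≤ 2 * z * (T i).card / q + 1 := by linarith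
      _ ≤ _ := Real.add_one_le_exp _
  have hm : (∑ y ∈ Fintype.piFinset V,
      Real.exp (Real.log z * ((univ.filter fun i => y i ∈ T i).card : ℝ))) /
        (Fintype.piFinset V).card =
      ∏ i, ((∑ t ∈ V i, (if t ∈ T i then (z : ℝ) else 1)) / (V i).card) := by
    rw [hs, Fintype.card_piFinset, Finset.prod_div_distrib]
    push_cast
    rfl
  rw [hm]
  have hpos : 0 < ∏ i, ((∑ t ∈ V i, (if t ∈ T i then (z : ℝ) else 1)) / ((V i).card : ℝ)) :=
    Finset.prod_pos fun i _ => div_pos (h0 i) (hV0 i)
  rw [Real.log_le_iff_le_exp hpos]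
  calc _ ≤ ∏ i, Real.exp (2 * z * (T i).card / q) :=
        Finset.prod_le_prod (fun i _ => (div_pos (h0 i) (hV0 i)).le) fun i _ => h1 i
    _ = Real.exp (∑ i, 2 * z * (T i).card / q) := (Real.exp_sum _ _).symm
    _ ≤ _ := by
      rw [Real.exp_le_exp]
      have h10 : ∑ i, 2 * (z : ℝ) * (T i).card / q = 2 * z * (∑ i, (T i).card : ℕ) / q := by
        push_cast
        rw [← Finset.sum_div, ← Finset.mul_sum]
      rw [h10, div_le_iff₀ hq0]
      have h11 : ((∑ i, (T i).card : ℕ) : ℝ) ≤ z * q := by exact_mod_cast hT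
      nlinarith [mul_le_mul_of_nonneg_left h11 hz0.le]

/-- The words without agreement with given names form a product. -/
theorem factor_eq {K d N q : ℕ} (β : Fin N → Wo d q) (Y : Fin d → Finset (Fin q)) (x : Nm K N)
    (F : Finset (Wo d q)) (hF : ∀ y, y ∈ F ↔ (x, y) ∈ Ed β K Y) :
    F = Fintype.piFinset fun i => Y i \ (univ.image fun r => β (x r) i) := by
  ext y
  rw [hF, Fintype.mem_piFinset]
  simp only [Ed, agr, mem_filter, mem_univ, true_and, mem_sdiff, mem_image, not_exists,
    Finset.card_eq_zero, Finset.filter_eq_empty_iff, Prod.forall, forall_true_left]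
  constructor
  · rintro ⟨h1, h2⟩ i
    exact ⟨h1 i, fun r => h2 r i⟩
  · intro h
    exact ⟨fun i => (h i).1, fun r i => (h i).2 r⟩

/-- The sum of a marginal. -/
theorem sum_marg {k : ℕ} {Z : Type} [Fintype Z] [DecidableEq Z] (S : Finset (Fin k → Z))
    (u : Fin k) (P : Z → Prop) [DecidablePred P] :
    ∑ y ∈ univ.filter (fun y : Z => P y), marg S u y = ((S.filter fun v => P (v u)).card : ℝ) := by
  have h : (S.filter fun v => P (v u)).card =
      ∑ y ∈ univ.filter (fun y : Z => P y), (S.filter fun v => v u = y).card := by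
    rw [Finset.card_eq_sum_card_fiberwise (f := fun v => v u)
      (t := univ.filter (fun y : Z => P y))]
    · apply Finset.sum_congr rfl
      intro y hy
      have hy' := (Finset.mem_filter.mp hy).2
      congr 1
      ext v
      simp only [mem_filter]
      constructor
      · rintro ⟨⟨h1, _⟩, h2⟩
        exact ⟨h1, h2⟩
      · rintro ⟨h1, h2⟩
        exact ⟨⟨h1, h2 ▸ hy'⟩, h2⟩
    · intro v hv
      have h1 := (Finset.mem_filter.mp (Finset.mem_coe.mp hv)).2
      exact Finset.mem_coe.mpr (Finset.mem_filter.mpr ⟨mem_univ _, h1⟩)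
  rw [h]
  push_cast
  rfl

end SBBM

open SBBM

open Classical in
theorem SBB_thm (hJEN : Stmt_JEN) : Stmt_SBB := by
  intro z k K d N q β Y hP D w a ha hne hcard
  set E : Fin k → Finset (Nm K N × Wo d q) := fun u => Ed β K (Y u) with hE
  set S : Finset (Fin k → Wo d q) := D ∩ Bs E w with hS
  have hz1 : 1 ≤ z := by
    rcases Nat.eq_zero_or_pos z with h | h
    · exfalso
      have := hP.hz
      rw [h] at this
      norm_num at this
    · exact h
  have hz2 : 2 ≤ z := by
    by_contra hcon
    have h1 : z = 1 := by omega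
    have := hP.hz
    rw [h1] at this
    norm_num at this
  have hd1 : 1 ≤ d := hP.hK.trans hP.hK'
  have hq : 0 < q := by
    rw [hP.hq]
    positivity
  have hsize : 2 * (d + K) ≤ q := by
    have h1 := hP.hd
    have h2 := hP.hK'
    have h3 : 4 * z ^ 2 ≤ z ^ 10 := by
      have h4 : z ^ 10 = z ^ 8 * z ^ 2 := by ring
      have h5 : 2 ^ 8 ≤ z ^ 8 := Nat.pow_le_pow_left hz2 8
      rw [h4]
      exact Nat.mul_le_mul_right _ (by omega)
    rw [hP.hq]
    omega
  have hSpos : (0 : ℝ) < S.card := by
    exact_mod_cast Finset.card_pos.mpr hne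
  set Bd : Finset (Fin k) := univ.filter fun u => (w u).isLeft = true ∧
    ¬GoodB (1 / 200) z (marg S u) with hBd
  -- the sets of letters
  have hex : ∀ u : Fin k, ∃ T : Fin d → Finset (Fin q), ∑ i, (T i).card ≤ z * q ∧
      (u ∈ Bd → 1 / 200 * (d : ℝ) * S.card ≤
        ∑ v ∈ S, ((univ.filter fun i => v u i ∈ T i).card : ℝ)) ∧
      (u ∉ Bd → T = fun _ => ∅) := by
    intro u
    by_cases hu : u ∈ Bd
    · have hu' := (Finset.mem_filter.mp hu).2.2
      rw [GoodB] at hu'
      push Not at hu'
      obtain ⟨T, hT1, hT2⟩ := hu'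
      refine ⟨T, hT1, fun _ => ?_, fun h => absurd hu h⟩
      have h1 : ∑ y, marg S u y = S.card := by
        have := sum_marg S u (fun _ => True)
        simpa using this
      have h2 : ∑ i, ∑ y ∈ univ.filter (fun y : Wo d q => y i ∈ T i), marg S u y =
          ∑ v ∈ S, ((univ.filter fun i => v u i ∈ T i).card : ℝ) := by
        have h3 : ∀ i, ∑ y ∈ univ.filter (fun y : Wo d q => y i ∈ T i), marg S u y =
            ∑ v ∈ S, if v u i ∈ T i then (1 : ℝ) else 0 := by
          intro i
          rw [Finset.sum_boole]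
          convert sum_marg S u (fun y => y i ∈ T i)
        simp_rw [h3]
        rw [Finset.sum_comm]
        apply Finset.sum_congr rfl
        intro v _
        rw [Finset.sum_boole]
      rw [h1] at hT2
      have h4 := hT2.le
      rw [← h2]
      exact h4
    · refine ⟨fun _ => ∅, by simp, fun h => absurd h hu, fun _ => rfl⟩
  choose T hT1 hT2 hT3 using hex
  set F : Fin k → Finset (Wo d q) := fun u => match w u with
    | Sum.inl x => univ.filter fun y => (x, y) ∈ E u
    | Sum.inr y => {y} with hF
  have hBs : Bs E w = Fintype.piFinset F := rfl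
  have hsub : S ⊆ Fintype.piFinset F := by
    rw [← hBs]
    exact Finset.inter_subset_right
  have hJ := hJEN k (Wo d q) F S
    (fun u y => Real.log z * ((univ.filter fun i => y i ∈ T u i).card : ℝ)) hsub hne
  have hlz : 0 < Real.log z := lt_of_lt_of_le (by norm_num) hP.hz
  -- left-hand side
  have hL : (Bd.card : ℝ) * (Real.log z * (1 / 200 * (d : ℝ) * S.card)) ≤
      ∑ v ∈ S, ∑ u, Real.log z * ((univ.filter fun i => v u i ∈ T u i).card : ℝ) := by
    rw [Finset.sum_comm]
    calc (Bd.card : ℝ) * (Real.log z * (1 / 200 * (d : ℝ) * S.card))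
        = ∑ u ∈ Bd, Real.log z * (1 / 200 * (d : ℝ) * S.card) := by
          rw [Finset.sum_const, nsmul_eq_mul]
      _ ≤ ∑ u ∈ Bd, ∑ v ∈ S, Real.log z * ((univ.filter fun i => v u i ∈ T u i).card : ℝ) := by
          apply Finset.sum_le_sum
          intro u hu
          rw [← Finset.mul_sum]
          exact mul_le_mul_of_nonneg_left (hT2 u hu) hlz.le
      _ ≤ _ := by
          apply Finset.sum_le_sum_of_subset_of_nonneg (Finset.subset_univ _)
          intro u _ _
          apply Finset.sum_nonneg
          intro v _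
          positivity
  -- the density
  have hA : Real.log ((Fintype.piFinset F).card / S.card) ≤ a := by
    rw [← hBs]
    have hBpos : (0 : ℝ) < (Bs E w).card := by
      have h1 : S.card ≤ (Bs E w).card := Finset.card_le_card Finset.inter_subset_right
      have h2 : 0 < S.card := Finset.card_pos.mpr hne
      exact_mod_cast lt_of_lt_of_le h2 h1
    rw [Real.log_le_iff_le_exp (div_pos hBpos hSpos), div_le_iff₀ hSpos]
    have h3 := mul_le_mul_of_nonneg_left hcard (Real.exp_pos a).le
    rw [← mul_assoc, ← Real.exp_add, add_neg_cancel, Real.exp_zero, one_mul] at h3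
    exact h3
  -- the means
  have hM : ∀ u, Real.log ((∑ y ∈ F u,
      Real.exp (Real.log z * ((univ.filter fun i => y i ∈ T u i).card : ℝ))) / (F u).card) ≤
        4 * d := by
    intro u
    by_cases hu : u ∈ Bd
    · have hleft := (Finset.mem_filter.mp hu).2.1
      obtain ⟨x, hx⟩ := Sum.isLeft_iff.mp hleft
      have hFu : F u = Fintype.piFinset fun i => Y u i \ (univ.image fun r => β (x r) i) := by
        apply factor_eq β (Y u) x (F u)
        intro y
        simp only [hF, hx, mem_filter, mem_univ, true_and, hE]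
      rw [hFu]
      refine (mean_le _ (T u) z hz1 hq ?_ (hT1 u)).trans ?_
      · intro i
        have h1 := hP.hY u i
        have h2 : (univ.image fun r : Fin K => β (x r) i).card ≤ K := by
          refine Finset.card_image_le.trans ?_
          rw [Finset.card_univ, Fintype.card_fin]
        have h3 := Finset.le_card_sdiff (univ.image fun r : Fin K => β (x r) i) (Y u i)
        omega
      · have h1 : ((z ^ 2 : ℕ) : ℝ) ≤ ((2 * d : ℕ) : ℝ) := by exact_mod_cast hP.hd'
        push_cast at h1
        linarith
    · have hT0 := hT3 u hu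
      have h1 : ∑ y ∈ F u,
          Real.exp (Real.log z * ((univ.filter fun i => y i ∈ T u i).card : ℝ)) =
            (F u).card := by
        rw [hT0]
        simp
      rw [h1]
      have h2 : Real.log (((F u).card : ℝ) / (F u).card) = 0 := by
        rcases eq_or_ne ((F u).card : ℝ) 0 with h | h
        · rw [h, div_zero, Real.log_zero]
        · rw [div_self h, Real.log_one]
      rw [h2]
      positivity
  have hsum : ∑ u, Real.log ((∑ y ∈ F u,
      Real.exp (Real.log z * ((univ.filter fun i => y i ∈ T u i).card : ℝ))) / (F u).card) ≤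
        k * (4 * d) := by
    calc _ ≤ ∑ _u : Fin k, (4 * (d : ℝ)) := Finset.sum_le_sum fun u _ => hM u
      _ = _ := by
        rw [Finset.sum_const, Finset.card_univ, Fintype.card_fin, nsmul_eq_mul]
  -- conclusion
  have hfin : (Bd.card : ℝ) * (Real.log z * (1 / 200 * (d : ℝ) * S.card)) ≤
      S.card * (a + k * (4 * d)) := by
    refine (hL.trans hJ).trans ?_
    apply mul_le_mul_of_nonneg_left _ hSpos.le
    exact add_le_add hA hsum
  have hd0 : (0 : ℝ) < d := by exact_mod_cast hd1
  have hk0 : (0 : ℝ) < k := by exact_mod_cast hP.hk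
  have h1 : (Bd.card : ℝ) * (Real.log z * (1 / 200 * d)) ≤ a + k * (4 * d) := by
    have h2 : (S.card : ℝ) * ((Bd.card : ℝ) * (Real.log z * (1 / 200 * d))) ≤
        S.card * (a + k * (4 * d)) := by
      calc _ = (Bd.card : ℝ) * (Real.log z * (1 / 200 * (d : ℝ) * S.card)) := by ring
        _ ≤ _ := hfin
    exact le_of_mul_le_mul_left h2 hSpos
  have h3 : (4 : ℝ) * d * k ≤ k * d * Real.log z * (4 / 10 ^ 9) := by
    have h4 : (0 : ℝ) < k * d := by positivity
    have h5 := mul_le_mul_of_nonneg_left hP.hz h4.le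
    have h6 := mul_le_mul_of_nonneg_right h5 (show (0 : ℝ) ≤ 4 / 10 ^ 9 by norm_num)
    calc (4 : ℝ) * d * k = k * d * 10 ^ 9 * (4 / 10 ^ 9) := by ring
      _ ≤ _ := h6
  have h7 : (Bd.card : ℝ) * (Real.log z * d) ≤ (k / 1000) * (Real.log z * d) := by
    have h8 : (0 : ℝ) ≤ k * d * Real.log z := by positivity
    nlinarith
  have h9 : (0 : ℝ) < Real.log z * d := by positivity
  exact le_of_mul_le_mul_right h7 h9

end Pool.Agent.ANC
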