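import Pool.Agent.ANC.Stmts

/-!
# SIZ: the sizes of the sets of pairs
-/

set_option autoImplicit false

namespace Pool.Agent.ANC

open Finset

namespace SIZM

/-- The words with letters in `Z`. -/
def box {d q : ℕ} (Z : Fin d → Finset (Fin q)) : Finset (Wo d q) :=
  univ.filter fun y => ∀ i, y i ∈ Z i

lemma mem_box {d q : ℕ} {Z : Fin d → Finset (Fin q)} {y : Wo d q} :
    y ∈ box Z ↔ ∀ i, y i ∈ Z i := by
  simp [box]

lemma box_fix {d q : ℕ} (Z : Fin d → Finset (Fin q)) (i : Fin d) (t : Fin q) :
    ((box Z).filter fun y => t = y i).card * (Z i).card ≤ (box Z).card := by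
  rw [← card_product]
  refine card_le_card_of_injOn (fun p => Function.update p.1 i p.2) ?_ ?_
  · intro p hp
    have hp' := mem_product.1 (mem_coe.1 hp)
    have h1 := mem_box.1 (mem_filter.1 hp'.1).1
    refine mem_coe.2 (mem_box.2 fun j => ?_)
    by_cases hj : j = i
    · subst hj
      simpa using hp'.2
    · simpa [Function.update_of_ne hj] using h1 j
  · intro p hp p' hp' h
    have hp1 := mem_product.1 (mem_coe.1 hp)
    have hp2 := mem_product.1 (mem_coe.1 hp')
    have ht1 := (mem_filter.1 hp1.1).2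
    have ht2 := (mem_filter.1 hp2.1).2
    simp only at h
    have hs : p.2 = p'.2 := by
      have := congrFun h i
      simpa using this
    have hy : p.1 = p'.1 := by
      funext j
      by_cases hj : j = i
      · subst hj
        rw [← ht1, ← ht2]
      · have := congrFun h j
        simpa [Function.update_of_ne hj] using this
    exact Prod.ext hy hs

lemma Al_eq {K N d q : ℕ} (Z : Fin d → Finset (Fin q)) :
    Al K N Z = (univ : Finset (Nm K N)) ×ˢ box Z := by
  ext p
  simp [Al, mem_box]

lemma tot_eq {K N d q : ℕ} (β : Fin N → Wo d q) (Z : Fin d → Finset (Fin q)) :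
    tot β K Z = ∑ x : Nm K N, ∑ p : Fin K × Fin d,
      ((box Z).filter fun y => β (x p.1) p.2 = y p.2).card := by
  have h1 : tot β K Z = ∑ p ∈ Al K N Z, agr β p.1 p.2 := rfl
  rw [h1, Al_eq, sum_product]
  refine sum_congr rfl fun x _ => ?_
  simp only [agr, card_filter]
  rw [sum_comm]

lemma tot_le {K N d q : ℕ} (β : Fin N → Wo d q) (Z : Fin d → Finset (Fin q)) (c : ℕ)
    (hc : ∀ i, c ≤ (Z i).card) :
    tot β K Z * c ≤ K * d * (Al K N Z).card := by
  rw [tot_eq, Al_eq, card_product, sum_mul]
  calc ∑ x : Nm K N, (∑ p : Fin K × Fin d,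
        ((box Z).filter fun y => β (x p.1) p.2 = y p.2).card) * c
      ≤ ∑ _x : Nm K N, (K * d) * (box Z).card := by
        refine sum_le_sum fun x _ => ?_
        rw [sum_mul]
        calc ∑ p : Fin K × Fin d,
              ((box Z).filter fun y => β (x p.1) p.2 = y p.2).card * c
            ≤ ∑ _p : Fin K × Fin d, (box Z).card := by
              refine sum_le_sum fun p _ => ?_
              exact (Nat.mul_le_mul_left _ (hc p.2)).trans (box_fix Z p.2 _)
          _ = (K * d) * (box Z).card := by simp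
    _ = K * d * ((univ : Finset (Nm K N)).card * (box Z).card) := by
        rw [sum_const, smul_eq_mul]
        ring

lemma Al_le {K N d q : ℕ} (β : Fin N → Wo d q) (Z : Fin d → Finset (Fin q)) :
    (Al K N Z).card ≤ (Ed β K Z).card + tot β K Z := by
  have h1 : tot β K Z = ∑ p ∈ Al K N Z, agr β p.1 p.2 := rfl
  have h2 : (Al K N Z).card =
      ((Al K N Z).filter fun p => agr β p.1 p.2 = 0).card +
        ((Al K N Z).filter fun p => ¬ agr β p.1 p.2 = 0).card :=
    (card_filter_add_card_filter_not _).symm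
  have h3 : ((Al K N Z).filter fun p => agr β p.1 p.2 = 0) = Ed β K Z := by
    ext p
    simp [Al, Ed]
  have h4 : ((Al K N Z).filter fun p => ¬ agr β p.1 p.2 = 0).card ≤
      ∑ p ∈ Al K N Z, agr β p.1 p.2 := by
    rw [card_filter]
    refine sum_le_sum fun p _ => ?_
    split_ifs with h
    · omega
    · omega
  rw [h2, h3, h1]
  omega

lemma big {z : ℕ} (hz : (10 : ℝ) ^ 9 ≤ Real.log z) : 10 ^ 9 ≤ z := by
  have h0 : (0 : ℝ) < z := by
    rcases Nat.eq_zero_or_pos z with h | h
    · subst h
      norm_num at hz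
    · exact_mod_cast h
  have h1 : Real.log z ≤ z := (Real.log_le_sub_one_of_pos h0).trans (by linarith)
  have h2 : (10 : ℝ) ^ 9 ≤ z := hz.trans h1
  exact_mod_cast h2

lemma nums {z K d q : ℕ} (hz : 10 ^ 9 ≤ z) (hq : q = z ^ 10) (hd : d ≤ z ^ 2) (hK' : K ≤ d) :
    1001 * (K * d) ≤ q ∧ 1001 * d ≤ q := by
  have hz1 : 1 ≤ z := le_trans (by norm_num) hz
  have h1 : K * d ≤ z ^ 4 := by
    calc K * d ≤ z ^ 2 * z ^ 2 := Nat.mul_le_mul (hK'.trans hd) hd
      _ = z ^ 4 := by ring
  have h2 : 1001 ≤ z ^ 6 := by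
    calc 1001 ≤ z := le_trans (by norm_num) hz
      _ ≤ z ^ 6 := Nat.le_self_pow (by norm_num) z
  constructor
  · rw [hq]
    calc 1001 * (K * d) ≤ z ^ 6 * z ^ 4 := Nat.mul_le_mul h2 h1
      _ = z ^ 10 := by ring
  · rw [hq]
    calc 1001 * d ≤ z ^ 6 * z ^ 4 :=
          Nat.mul_le_mul h2 (hd.trans (Nat.pow_le_pow_right hz1 (by norm_num)))
      _ = z ^ 10 := by ring

/-- Some name has an allowed letter at the position `i`. -/
lemma ex_name {N d q : ℕ} {β : Fin N → Wo d q} {Z : Fin d → Finset (Fin q)}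
    (bal : ∀ (i : Fin d) (t : Fin q), (univ.filter fun x => β x i = t).card * q ≤ 2 * N)
    (hN : 0 < N) (hdq : 2 * d < q) (i : Fin d) (hZ : q ≤ (Z i).card + d) :
    ∃ x, β x i ∈ Z i := by
  by_contra hcon
  push Not at hcon
  have h1 : (univ : Finset (Fin N)).card ≤ ∑ t ∈ univ \ Z i,
      (univ.filter fun x : Fin N => β x i = t).card := by
    rw [← card_eq_sum_card_fiberwise (f := fun x : Fin N => β x i)]
    intro x _
    simpa using hcon x
  have h2 : (univ \ Z i).card ≤ d := by
    rw [card_sdiff_of_subset (subset_univ _)]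
    simp only [card_univ, Fintype.card_fin]
    omega
  have h3 : N * q ≤ d * (2 * N) := by
    calc N * q = (univ : Finset (Fin N)).card * q := by simp
      _ ≤ (∑ t ∈ univ \ Z i, (univ.filter fun x : Fin N => β x i = t).card) * q :=
          Nat.mul_le_mul_right _ h1
      _ = ∑ t ∈ univ \ Z i, (univ.filter fun x : Fin N => β x i = t).card * q := sum_mul ..
      _ ≤ ∑ _t ∈ univ \ Z i, 2 * N := sum_le_sum fun t _ => bal i t
      _ = (univ \ Z i).card * (2 * N) := by rw [sum_const, smul_eq_mul]
      _ ≤ d * (2 * N) := Nat.mul_le_mul_right _ h2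
  have h4 : N * (2 * d) < N * q := Nat.mul_lt_mul_of_pos_left hdq hN
  have h5 : N * (2 * d) = d * (2 * N) := by ring
  omega

end SIZM

open SIZM in
theorem SIZ_thm : Stmt_SIZ := by
  intro z k K d N q β Y hP
  have hz := big hP.hz
  have hz1 : 1 ≤ z := le_trans (by norm_num) hz
  obtain ⟨hKd, hdq⟩ := nums hz hP.hq hP.hd hP.hK'
  have hN0 : 0 < N := by
    rw [hP.hN]
    positivity
  have hq0 : 0 < q := by
    rw [hP.hq]
    positivity
  have hd0 : 0 < d := by
    have := hP.hd'
    have h2 : 0 < z ^ 2 := by positivity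
    omega
  have hK0 : 0 < K := hP.hK
  constructor
  · intro u
    have hc : ∀ i, q - d ≤ (Y u i).card := fun i => by
      have := hP.hY u i
      omega
    have hne : ∀ i, (Y u i).Nonempty := fun i => by
      rw [← card_pos]
      have := hP.hY u i
      omega
    choose y₀ hy₀ using hne
    have hAl0 : 0 < (Al K N (Y u)).card := by
      rw [card_pos]
      refine ⟨(fun _ => ⟨0, hN0⟩, y₀), ?_⟩
      simp only [Al, mem_filter, mem_univ, true_and]
      exact hy₀
    have htot := tot_le β (Y u) (K := K) (q - d) hc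
    have hEd := Al_le β (Y u) (K := K)
    -- the real forms
    have hAR : (0 : ℝ) < (Al K N (Y u)).card := by exact_mod_cast hAl0
    have htR : (tot β K (Y u) : ℝ) * ((q : ℝ) - d) ≤ K * d * (Al K N (Y u)).card := by
      have h1 : d ≤ q := by omega
      have := (Nat.cast_le (α := ℝ)).2 htot
      push_cast [Nat.cast_sub h1] at this
      exact this
    have hqdR : (1001 : ℝ) * d ≤ q := by exact_mod_cast hdq
    have hKdR : (1001 : ℝ) * (K * d) ≤ q := by exact_mod_cast hKd
    have hqR : (0 : ℝ) < q := by exact_mod_cast hq0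
    have hT0 : (0 : ℝ) ≤ tot β K (Y u) := Nat.cast_nonneg _
    have h3 : (tot β K (Y u) : ℝ) * q ≤ 1001 / 1000 * (K * d) * (Al K N (Y u)).card := by
      have h4 : (tot β K (Y u) : ℝ) * q ≤ (tot β K (Y u) : ℝ) * (1001 / 1000 * ((q : ℝ) - d)) := by
        refine mul_le_mul_of_nonneg_left ?_ hT0
        linarith
      calc (tot β K (Y u) : ℝ) * q ≤ (tot β K (Y u) : ℝ) * (1001 / 1000 * ((q : ℝ) - d)) := h4
        _ = 1001 / 1000 * ((tot β K (Y u) : ℝ) * ((q : ℝ) - d)) := by ring
        _ ≤ 1001 / 1000 * (K * d * (Al K N (Y u)).card) := by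
            refine mul_le_mul_of_nonneg_left htR (by norm_num)
        _ = 1001 / 1000 * (K * d) * (Al K N (Y u)).card := by ring
    have h5 : (tot β K (Y u) : ℝ) ≤ 1 / 1000 * (Al K N (Y u)).card := by
      have h6 : (tot β K (Y u) : ℝ) * q ≤ (1 / 1000 * (Al K N (Y u)).card) * q := by
        calc (tot β K (Y u) : ℝ) * q ≤ 1001 / 1000 * (K * d) * (Al K N (Y u)).card := h3
          _ = (1001 * (K * d)) * ((Al K N (Y u)).card / 1000) := by ring
          _ ≤ q * ((Al K N (Y u)).card / 1000) := by
              refine mul_le_mul_of_nonneg_right hKdR (by positivity)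
          _ = (1 / 1000 * (Al K N (Y u)).card) * q := by ring
      exact le_of_mul_le_mul_right h6 hqR
    refine ⟨hAl0, ?_, ?_, h3, h5⟩
    · have h7 : ((Al K N (Y u)).card : ℝ) ≤ (Ed β K (Y u)).card + tot β K (Y u) := by
        exact_mod_cast hEd
      linarith
    · obtain ⟨x, hx⟩ := ex_name (Z := Y u) hP.code.bal hN0 (by omega) ⟨0, hd0⟩ (hP.hY u _)
      have hmem : ((fun _ => x, Function.update y₀ ⟨0, hd0⟩ (β x ⟨0, hd0⟩)) :
          Nm K N × Wo d q) ∈ Al K N (Y u) := by
        simp only [Al, mem_filter, mem_univ, true_and]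
        intro i
        by_cases hi : i = ⟨0, hd0⟩
        · subst hi
          simpa using hx
        · simpa [Function.update_of_ne hi] using hy₀ i
      have hpos : 0 < agr β (fun _ => x : Nm K N)
          (Function.update y₀ ⟨0, hd0⟩ (β x ⟨0, hd0⟩)) := by
        rw [agr, card_pos]
        refine ⟨(⟨0, hK0⟩, ⟨0, hd0⟩), ?_⟩
        simp
      have h8 : agr β (fun _ => x : Nm K N) (Function.update y₀ ⟨0, hd0⟩ (β x ⟨0, hd0⟩)) ≤
          tot β K (Y u) := by
        have h9 : tot β K (Y u) = ∑ p ∈ Al K N (Y u), agr β p.1 p.2 := rfl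
        rw [h9]
        exact single_le_sum (f := fun p : Nm K N × Wo d q => agr β p.1 p.2)
          (fun _ _ => Nat.zero_le _) hmem
      omega
  · intro y
    have h1 : (univ.filter fun x : Fin N => ¬ ∀ i, β x i ≠ y i).card * q ≤ d * (2 * N) := by
      have h2 : (univ.filter fun x : Fin N => ¬ ∀ i, β x i ≠ y i) ⊆
          (univ : Finset (Fin d)).biUnion fun i => univ.filter fun x : Fin N => β x i = y i := by
        intro x hx
        simp only [mem_filter, mem_univ, true_and] at hx
        push Not at hx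
        obtain ⟨i, hi⟩ := hx
        simp only [mem_biUnion, mem_univ, true_and, mem_filter]
        exact ⟨i, hi⟩
      calc (univ.filter fun x : Fin N => ¬ ∀ i, β x i ≠ y i).card * q
          ≤ (∑ i : Fin d, (univ.filter fun x : Fin N => β x i = y i).card) * q :=
            Nat.mul_le_mul_right _ ((card_le_card h2).trans card_biUnion_le)
        _ = ∑ i : Fin d, (univ.filter fun x : Fin N => β x i = y i).card * q := sum_mul ..
        _ ≤ ∑ _i : Fin d, 2 * N := sum_le_sum fun i _ => hP.code.bal i (y i)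
        _ = d * (2 * N) := by simp
    have h3 : (univ.filter fun x : Fin N => ∀ i, β x i ≠ y i).card +
        (univ.filter fun x : Fin N => ¬ ∀ i, β x i ≠ y i).card = N := by
      rw [card_filter_add_card_filter_not]
      simp
    have h4 : 2 * (univ.filter fun x : Fin N => ¬ ∀ i, β x i ≠ y i).card ≤ N := by
      by_contra hcon'
      have hcon := not_le.1 hcon'
      have h5 : N * q < 2 * (univ.filter fun x : Fin N => ¬ ∀ i, β x i ≠ y i).card * q :=
        Nat.mul_lt_mul_of_pos_right hcon hq0
      have h6 : 4 * d * N ≤ q * N := Nat.mul_le_mul_right _ (by omega)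
      have h7 : 2 * (univ.filter fun x : Fin N => ¬ ∀ i, β x i ≠ y i).card * q ≤
          2 * (d * (2 * N)) := by
        rw [mul_assoc]
        exact Nat.mul_le_mul_left _ h1
      have h8 : 2 * (d * (2 * N)) = 4 * d * N := by ring
      have h9 : N * q = q * N := by ring
      omega
    omega

end Pool.Agent.ANC
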