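import Pool.Agent.ANC.Stmts

/-!
# Module ANC_SML (MP_ad5e8e_lc): rectangles with a small side
-/

set_option autoImplicit false

namespace Pool.Agent.ANC

open Finset MeasureTheory

namespace SMLM

theorem count {C α β : Type} [Fintype C] [DecidableEq β] (P : C → Finset α) (D : C → Finset β)
    (B : Finset β) [∀ y : β, DecidablePred fun c => y ∈ D c ∧ (P c).Nonempty]
    [DecidablePred fun c => (P c).Nonempty] {x : ℝ}
    (h : ∀ y, ((univ.filter fun c => y ∈ D c ∧ (P c).Nonempty).card : ℝ) ≤ x) :
    ∑ c ∈ univ.filter (fun c => (P c).Nonempty), ((D c ∩ B).card : ℝ) ≤ x * B.card := by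
  have h1 : ∀ c, ((D c ∩ B).card : ℝ) = ∑ y ∈ B, if y ∈ D c then (1 : ℝ) else 0 := by
    intro c
    rw [sum_ite_mem, inter_comm B, sum_const, nsmul_eq_mul, mul_one]
  simp only [h1]
  rw [sum_comm]
  have h2 : ∀ y ∈ B, (∑ c ∈ univ.filter (fun c => (P c).Nonempty), if y ∈ D c then (1 : ℝ) else 0) ≤
      x := by
    intro y _
    refine le_trans (le_of_eq ?_) (h y)
    rw [← sum_filter, filter_filter, sum_const, nsmul_eq_mul, mul_one]
    congr 2
    ext c
    simp only [mem_filter, mem_univ, true_and]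
    exact and_comm
  refine (sum_le_sum h2).trans (le_of_eq ?_)
  rw [sum_const, nsmul_eq_mul, mul_comm]

theorem gen {C α β W : Type} [Fintype C] [DecidableEq α] [DecidableEq β] (P : C → Finset α)
    (D : C → Finset β) (S : Finset W) (A : W → Finset α) (B : W → Finset β) (a₀ a : ℝ)
    [∀ y : β, DecidablePred fun c => y ∈ D c ∧ (P c).Nonempty]
    [∀ c, DecidablePred fun w => ((P c ∩ A w).card : ℝ) < Real.exp (-a) * (A w).card]
    (h : ∀ y, ((univ.filter fun c => y ∈ D c ∧ (P c).Nonempty).card : ℝ) ≤ Real.exp a₀) :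
    ∑ c, ∑ w ∈ S.filter (fun w => ((P c ∩ A w).card : ℝ) < Real.exp (-a) * (A w).card),
      ((P c ∩ A w).card : ℝ) * (D c ∩ B w).card ≤
    Real.exp (a₀ - a) * ∑ w ∈ S, ((A w).card : ℝ) * (B w).card := by
  classical
  have h1 : ∀ c, ∑ w ∈ S.filter (fun w => ((P c ∩ A w).card : ℝ) < Real.exp (-a) * (A w).card),
      ((P c ∩ A w).card : ℝ) * (D c ∩ B w).card ≤
      if (P c).Nonempty then ∑ w ∈ S, Real.exp (-a) * (A w).card * (D c ∩ B w).card else 0 := by
    intro c
    by_cases hc : (P c).Nonempty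
    · rw [if_pos hc]
      refine (sum_le_sum fun w hw => ?_).trans (sum_le_sum_of_subset_of_nonneg (filter_subset _ _)
        fun w _ _ => by positivity)
      exact mul_le_mul_of_nonneg_right (mem_filter.1 hw).2.le (by positivity)
    · rw [if_neg hc]
      refine (sum_eq_zero fun w _ => ?_).le
      rw [not_nonempty_iff_eq_empty.1 hc, empty_inter, card_empty]
      simp
  refine (sum_le_sum fun c _ => h1 c).trans ?_
  rw [← sum_filter, sum_comm, mul_sum]
  refine sum_le_sum fun w _ => ?_
  rw [← mul_sum]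
  have h2 := count P D (B w) h
  have h3 : Real.exp (a₀ - a) = Real.exp (-a) * Real.exp a₀ := by
    rw [← Real.exp_add]
    congr 1
    ring
  rw [h3]
  calc Real.exp (-a) * (A w).card * ∑ c ∈ univ.filter (fun c => (P c).Nonempty),
        ((D c ∩ B w).card : ℝ) ≤ Real.exp (-a) * (A w).card * (Real.exp a₀ * (B w).card) :=
        mul_le_mul_of_nonneg_left h2 (by positivity)
    _ = _ := by ring

end SMLM

/-- **ANC_SML.** -/
theorem SML_thm (hID0 : Stmt_ID0) : Stmt_SML := by
  classical
  intro k K d N q E R C _ P D a₀ a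
  have hOm : ∑ w ∈ Wt K d N q R, ((As E w).card : ℝ) * (Bs E w).card = ((Om E).card : ℝ) := by
    have h1 := hID0 E R univ univ
    simp only [univ_inter, mem_univ, and_self, filter_true] at h1
    exact_mod_cast h1
  constructor
  · intro h
    rw [← hOm]
    exact SMLM.gen P D (Wt K d N q R) (fun w => As E w) (fun w => Bs E w) a₀ a h
  · intro h
    rw [← hOm]
    have h1 := SMLM.gen D P (Wt K d N q R) (fun w => Bs E w) (fun w => As E w) a₀ a h
    refine le_trans (le_of_eq ?_) (h1.trans (le_of_eq ?_))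
    · exact sum_congr rfl fun c _ => sum_congr rfl fun w _ => mul_comm _ _
    · congr 1
      exact sum_congr rfl fun w _ => mul_comm _ _

end Pool.Agent.ANC
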