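import Pool.Agent.ANC.Stmts

/-!
Module ANC_STA (MP_ad5e8e_lc): one block.
-/

set_option autoImplicit false

namespace Pool.Agent.ANC

open Finset MeasureTheory

namespace STAM

/-- Few points have many entries, the others are covered. -/
theorem count_le {Z C : Type} (S O : Finset Z) (C' : Finset C) (F : C → Z → Prop)
    [∀ c, DecidablePred (F c)] (ent : Z → ℕ) (B : ℕ) (hB : 1 ≤ B) (hsub : S ⊆ O)
    (hsum : ∑ z ∈ S, ent z ≤ 2 * B * S.card)
    (hcov : ∀ z ∈ S, ent z ≤ 200 * B → ∃ c ∈ C', F c z) :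
    (S.card : ℝ) ≤ ∑ c ∈ C', ((O.filter fun z => F c z).card : ℝ) + (S.card : ℝ) / 100 := by
  classical
  have h1 : (S.filter fun z => ¬ent z ≤ 200 * B).card * (200 * B) ≤ 2 * B * S.card := by
    refine le_trans ?_ hsum
    rw [← smul_eq_mul, ← Finset.sum_const]
    refine le_trans (Finset.sum_le_sum fun z hz => ?_)
      (Finset.sum_le_sum_of_subset (Finset.filter_subset (fun z => ¬ent z ≤ 200 * B) S))
    exact le_of_lt (not_le.1 (Finset.mem_filter.1 hz).2)
  have h2 : (S.filter fun z => ¬ent z ≤ 200 * B).card * 100 ≤ S.card := by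
    have h3 : (2 * B) * ((S.filter fun z => ¬ent z ≤ 200 * B).card * 100) ≤
        (2 * B) * S.card := by
      calc (2 * B) * ((S.filter fun z => ¬ent z ≤ 200 * B).card * 100)
          = (S.filter fun z => ¬ent z ≤ 200 * B).card * (200 * B) := by ring
        _ ≤ (2 * B) * S.card := h1
    exact Nat.le_of_mul_le_mul_left h3 (by omega)
  have h4 : (S.filter fun z => ent z ≤ 200 * B).card ≤
      ∑ c ∈ C', (O.filter fun z => F c z).card := by
    have h5 : (S.filter fun z => ent z ≤ 200 * B) ⊆ C'.biUnion fun c => O.filter fun z => F c z := by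
      intro z hz
      obtain ⟨hzS, hze⟩ := Finset.mem_filter.1 hz
      obtain ⟨c, hc, hF⟩ := hcov z hzS hze
      exact Finset.mem_biUnion.2 ⟨c, hc, Finset.mem_filter.2 ⟨hsub hzS, hF⟩⟩
    exact le_trans (Finset.card_le_card h5) Finset.card_biUnion_le
  have h6 : (S.filter fun z => ent z ≤ 200 * B).card +
      (S.filter fun z => ¬ent z ≤ 200 * B).card = S.card :=
    Finset.card_filter_add_card_filter_not _
  have h7 : ((S.filter fun z => ent z ≤ 200 * B).card : ℝ) ≤
      ∑ c ∈ C', ((O.filter fun z => F c z).card : ℝ) := by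
    exact_mod_cast h4
  have h8 : ((S.filter fun z => ¬ent z ≤ 200 * B).card : ℝ) * 100 ≤ S.card := by
    exact_mod_cast h2
  have h9 : ((S.filter fun z => ent z ≤ 200 * B).card : ℝ) +
      ((S.filter fun z => ¬ent z ≤ 200 * B).card : ℝ) = S.card := by
    exact_mod_cast h6
  linarith

/-- `yes` is monotone and additive. -/
theorem yes_le {k K d N q : ℕ} (β : Fin N → Wo d q) (Y : Fin k → Fin d → Finset (Fin q))
    {C : Type} (C' : Finset C) (F : C → Cf k K d N q → Prop) (G : Cf k K d N q → Prop)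
    (hdis : ∀ c ∈ C', ∀ c' ∈ C', ∀ z, F c z → F c' z → c = c')
    (hsub : ∀ c ∈ C', ∀ z, F c z → G z) :
    ∑ c ∈ C', yes β Y (F c) ≤ yes β Y G := by
  classical
  unfold yes
  rw [← Finset.sum_div]
  refine div_le_div_of_nonneg_right ?_ (Nat.cast_nonneg k)
  rw [Finset.sum_comm]
  refine Finset.sum_le_sum fun u₀ _ => ?_
  rw [← Finset.mul_sum]
  refine mul_le_mul_of_nonneg_left ?_ (div_nonneg (Nat.cast_nonneg _) (Nat.cast_nonneg _))
  rw [← Finset.sum_biUnion]
  · refine Finset.sum_le_sum_of_subset_of_nonneg ?_ fun z _ _ => Nat.cast_nonneg _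
    intro z hz
    obtain ⟨c, hc, hz'⟩ := Finset.mem_biUnion.1 hz
    obtain ⟨h1, h2⟩ := Finset.mem_filter.1 hz'
    exact Finset.mem_filter.2 ⟨h1, hsub c hc z h2⟩
  · intro c hc c' hc' hne
    refine Finset.disjoint_left.2 fun z hz hz' => hne ?_
    exact hdis c hc c' hc' z (Finset.mem_filter.1 hz).2 (Finset.mem_filter.1 hz').2

end STAM

open STAM in
open Classical in
/-- **STA.** -/
theorem STA_thm (hLAB : Stmt_LAB) (hHSH : Stmt_HSH) (hBIN : Stmt_BIN) (hRUN : Stmt_RUN)
    (hDEC : Stmt_DEC) : Stmt_STA := by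
  intro z k K d N q β Y hPar A Γ Q _ _ _ _ t cf M₀ B L hB hL ha hb
  -- the sets
  obtain ⟨S, hS⟩ : ∃ S : Finset (Cf k K d N q), S = ((Om fun u => Ed β K (Y u)).filter fun z =>
      ((t (nms z) (cf (wds z)).1).out (cf (wds z)).2).1 = false ∧
      (t (nms z) (cf (wds z)).1).cost (cf (wds z)).2 ≤ B ∧
      (chg (cf (wds z)).2 M₀).card ≤ B * L) := ⟨_, rfl⟩
  have hSm : ∀ z ∈ S, z ∈ (Om fun u => Ed β K (Y u)) ∧
      ((t (nms z) (cf (wds z)).1).out (cf (wds z)).2).1 = false ∧
      (t (nms z) (cf (wds z)).1).cost (cf (wds z)).2 ≤ B ∧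
      (chg (cf (wds z)).2 M₀).card ≤ B * L := by
    intro z hz
    rw [hS] at hz
    exact Finset.mem_filter.1 hz
  rw [← hS]
  have hBL : 0 < B * L := Nat.mul_pos (by omega) (by omega)
  obtain ⟨h, hh⟩ := hHSH A (Cf k K d N q) (B * L) B S
    (fun z => chg (cf (wds z)).2 M₀)
    (fun z => (t (nms z) (cf (wds z)).1).touched (cf (wds z)).2) hBL
    (fun z hz => (hSm z hz).2.2.2)
    (fun z hz => le_trans (hRUN A Γ Q (t (nms z) (cf (wds z)).1) (cf (wds z)).2
      (cf (wds z)).2).2.1 (hSm z hz).2.2.1)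
  obtain ⟨C, iC, P, D, an, l1, l2, l3, l4, l5⟩ := hLAB A Γ Q (Fin k → Nm K N) (Fin k → Wo d q)
    t cf M₀ B (B * L) (200 * B) h
  -- the two exponents
  have hA0 : ∀ y, ((univ.filter fun c => y ∈ D c ∧ (P c).Nonempty).card : ℝ) ≤
      Real.exp (Real.log 2 + B * (1 + Real.log L)) := by
    intro y
    rw [Real.exp_add, Real.exp_log (by norm_num)]
    calc ((univ.filter fun c => y ∈ D c ∧ (P c).Nonempty).card : ℝ)
        ≤ ((2 * ((univ : Finset (Finset (Fin (B * L)))).filter fun J => J.card ≤ B).card : ℕ) :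
            ℝ) := by
          refine Nat.cast_le.2 (le_trans (Finset.card_le_card ?_) (l4 y))
          intro c hc
          simp only [Finset.mem_filter] at hc ⊢
          exact hc
      _ = 2 * (((univ : Finset (Finset (Fin (B * L)))).filter fun J => J.card ≤ B).card : ℝ) := by
          push_cast
          ring
      _ ≤ 2 * Real.exp (B * (1 + Real.log L)) :=
          mul_le_mul_of_nonneg_left (hBIN B L hL) (by norm_num)
  have hB0 : ∀ x, ((univ.filter fun c => x ∈ P c ∧ (D c).Nonempty).card : ℝ) ≤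
      Real.exp (Real.log (Fintype.card Q) +
        200 * B * Real.log (Fintype.card A * Fintype.card Γ + 1)) := by
    intro x
    have h1 : Real.exp (200 * B * Real.log (Fintype.card A * Fintype.card Γ + 1)) =
        ((Fintype.card A : ℝ) * Fintype.card Γ + 1) ^ (200 * B) := by
      have h2 : (0 : ℝ) < (Fintype.card A : ℝ) * Fintype.card Γ + 1 := by positivity
      rw [show (200 * B * Real.log ((Fintype.card A : ℝ) * Fintype.card Γ + 1) : ℝ) =
        ((200 * B : ℕ) : ℝ) * Real.log ((Fintype.card A : ℝ) * Fintype.card Γ + 1) by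
          push_cast; ring, Real.exp_nat_mul, Real.exp_log h2]
    rw [Real.exp_add, h1]
    calc ((univ.filter fun c => x ∈ P c ∧ (D c).Nonempty).card : ℝ)
        ≤ ((Fintype.card Q * (Fintype.card A * Fintype.card Γ + 1) ^ (200 * B) : ℕ) : ℝ) := by
          refine Nat.cast_le.2 (le_trans (Finset.card_le_card ?_) (l5 x))
          intro c hc
          simp only [Finset.mem_filter] at hc ⊢
          exact hc
      _ = (Fintype.card Q : ℝ) * ((Fintype.card A : ℝ) * Fintype.card Γ + 1) ^ (200 * B) := by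
          push_cast
          ring
      _ ≤ Real.exp (Real.log (Fintype.card Q)) *
            ((Fintype.card A : ℝ) * Fintype.card Γ + 1) ^ (200 * B) :=
          mul_le_mul_of_nonneg_right (Real.le_exp_log _) (by positivity)
  have hlog2 : Real.log 2 ≤ 1 := by
    have h1 := Real.log_le_sub_one_of_pos (show (0 : ℝ) < 2 by norm_num)
    linarith
  have hD := hDEC hPar C P D (Real.log 2 + B * (1 + Real.log L))
    (Real.log (Fintype.card Q) + 200 * B * Real.log (Fintype.card A * Fintype.card Γ + 1))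
    l1 hA0 hB0 (by linarith) (by linarith) (univ.filter fun c => an c = false)
  have hY := yes_le β Y (univ.filter fun c => an c = false)
    (fun c z => nms z ∈ P c ∧ wds z ∈ D c)
    (fun z => ((t (nms z) (cf (wds z)).1).out (cf (wds z)).2).1 = false)
    (fun c _ c' _ z hz hz' => l1 c c' (nms z) (wds z) hz.1 hz.2 hz'.1 hz'.2)
    (fun c hc z hz => by
      rw [l2 c (nms z) (wds z) hz.1 hz.2]
      exact (Finset.mem_filter.1 hc).2)
  have hC := count_le S (Om fun u => Ed β K (Y u)) (univ.filter fun c => an c = false)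
    (fun c z => nms z ∈ P c ∧ wds z ∈ D c)
    (fun z => ((chg (cf (wds z)).2 M₀).filter fun a =>
        h a ∈ ((t (nms z) (cf (wds z)).1).touched (cf (wds z)).2).image h).card) B hB
    (fun z hz => (hSm z hz).1) hh
    (fun z hz he => by
      obtain ⟨c, hc1, hc2⟩ := l3 (nms z) (wds z) (hSm z hz).2.2.1 he
      refine ⟨c, Finset.mem_filter.2 ⟨Finset.mem_univ _, ?_⟩, hc1, hc2⟩
      rw [← l2 c (nms z) (wds z) hc1 hc2]
      exact (hSm z hz).2.1)
  have hSO : (S.card : ℝ) ≤ ((Om fun u => Ed β K (Y u)).card : ℝ) := by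
    exact_mod_cast Finset.card_le_card fun z hz => (hSm z hz).1
  have hS0 : (0 : ℝ) ≤ S.card := Nat.cast_nonneg _
  refine le_trans ?_ (le_trans hD hY)
  linarith

end Pool.Agent.ANC
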