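import Pool.Agent.ANC.Stmts

/-!
# Project ANC, module YTO: the total weight
-/

set_option autoImplicit false

namespace Pool.Agent.ANC

open Finset

namespace YTOM

variable {k K d N q : ℕ}

/-- a sum over the configurations which depends on one vertex only -/
theorem sum_Oy (E : Fin k → Finset (Nm K N × Wo d q)) (u₀ : Fin k)
    (G : Finset (Nm K N × Wo d q)) (f : Nm K N × Wo d q → ℝ) :
    ∑ z ∈ Oy E u₀ G, f (z u₀) = (∑ p ∈ G, f p) * ∏ u ∈ univ.erase u₀, ((E u).card : ℝ) := by
  classical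
  have h1 := Finset.prod_univ_sum (Function.update E u₀ G)
    (fun u p => if u = u₀ then f p else (1 : ℝ))
  have h2 : ∀ z : Cf k K d N q, (∏ u, if u = u₀ then f (z u) else (1 : ℝ)) = f (z u₀) := by
    intro z
    rw [Finset.prod_eq_single u₀]
    · rw [if_pos rfl]
    · intro u _ hu
      rw [if_neg hu]
    · intro h
      exact absurd (mem_univ u₀) h
  rw [Finset.sum_congr rfl (fun z _ => h2 z)] at h1
  unfold Oy
  rw [← h1, ← Finset.mul_prod_erase univ _ (mem_univ u₀)]
  congr 1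
  · rw [Function.update_self]
    exact Finset.sum_congr rfl fun p _ => if_pos rfl
  · refine Finset.prod_congr rfl fun u hu => ?_
    have hu' : u ≠ u₀ := (mem_erase.1 hu).1
    rw [Function.update_of_ne hu', Finset.sum_congr rfl (fun p _ => if_neg hu'),
      Finset.sum_const, nsmul_eq_mul, mul_one]

end YTOM

theorem YTO_thm : Stmt_YTO := by
  classical
  intro k K d N q β Y hk hY
  unfold yes
  simp only [Finset.filter_true]
  have hk' : (k : ℝ) ≠ 0 := by exact_mod_cast hk.ne'
  have h1 : ∀ u₀ : Fin k, ((Ed β K (Y u₀)).card : ℝ) / (tot β K (Y u₀) : ℝ) *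
      ∑ z ∈ Oy (fun u => Ed β K (Y u)) u₀ (Al K N (Y u₀)),
        (agr β (z u₀).1 (z u₀).2 : ℝ) = ((Om fun u => Ed β K (Y u)).card : ℝ) := by
    intro u₀
    rw [YTOM.sum_Oy (fun u => Ed β K (Y u)) u₀ (Al K N (Y u₀))
      (fun p => (agr β p.1 p.2 : ℝ))]
    have h2 : (∑ p ∈ Al K N (Y u₀), (agr β p.1 p.2 : ℝ)) = (tot β K (Y u₀) : ℝ) := by
      unfold tot Al
      push_cast
      rfl
    have h3 : (tot β K (Y u₀) : ℝ) ≠ 0 := by exact_mod_cast (hY u₀).ne'
    rw [h2]
    unfold Om
    rw [Fintype.card_piFinset, ← Finset.mul_prod_erase univ _ (mem_univ u₀)]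
    push_cast
    field_simp
  rw [Finset.sum_congr rfl (fun u₀ _ => h1 u₀), Finset.sum_const, card_univ, Fintype.card_fin,
    nsmul_eq_mul]
  field_simp

end Pool.Agent.ANC
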