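import Pool.Agent.ANC.JEN
import Pool.Agent.ANC.HSH
import Pool.Agent.ANC.BIN
import Pool.Agent.ANC.RUN
import Pool.Agent.ANC.LAB
import Pool.Agent.ANC.CHT
import Pool.Agent.ANC.COE
import Pool.Agent.ANC.COB
import Pool.Agent.ANC.COD
import Pool.Agent.ANC.SIZ
import Pool.Agent.ANC.LC1
import Pool.Agent.ANC.LOC
import Pool.Agent.ANC.SAA
import Pool.Agent.ANC.SBB
import Pool.Agent.ANC.MRG
import Pool.Agent.ANC.ID0
import Pool.Agent.ANC.ID1
import Pool.Agent.ANC.ID2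
import Pool.Agent.ANC.SML
import Pool.Agent.ANC.DCA
import Pool.Agent.ANC.DCB
import Pool.Agent.ANC.DC1
import Pool.Agent.ANC.DEC
import Pool.Agent.ANC.STA
import Pool.Agent.ANC.FUL
import Pool.Agent.ANC.YTO
import Pool.Agent.ANC.MCH
import Pool.Agent.ANC.AVG
import Pool.Agent.ANC.NUM
import Pool.Agent.ANC.EDG
import Pool.Agent.ANC.ENC
import Pool.Agent.ANC.PRO
import Pool.Agent.ANC.INA
import Pool.Agent.ANC.INB
import Pool.Agent.ANC.PAA
import Pool.Agent.ANC.PAB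
import Pool.Agent.ANC.FIN

set_option autoImplicit false

namespace Pool.Agent.ANC

theorem main_bound : Stmt_FIN := by
  have cCOD : Stmt_COD := COD_thm (COE_thm CHT_thm) COB_thm
  have cLOC : Stmt_LOC := LOC_thm SIZ_thm LC1_thm
  have cSAA : Stmt_SAA := SAA_thm JEN_thm SIZ_thm
  have cSBB : Stmt_SBB := SBB_thm JEN_thm
  have cSML : Stmt_SML := SML_thm ID0_thm
  have cDCA : Stmt_DCA := DCA_thm cSAA cSML ID0_thm
  have cDCB : Stmt_DCB := DCB_thm cSBB cSML ID0_thm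
  have cDC1 : Stmt_DC1 := DC1_thm cLOC MRG_thm ID1_thm ID2_thm
  have cDEC : Stmt_DEC := DEC_thm SIZ_thm cDCA cDCB cDC1
  have cSTA : Stmt_STA := STA_thm (LAB_thm RUN_thm) HSH_thm BIN_thm RUN_thm cDEC
  have cMCH : Stmt_MCH := MCH_thm RUN_thm
  have cAVG : Stmt_AVG := AVG_thm cSTA FUL_thm cMCH
  have cENC : Stmt_ENC := ENC_thm NUM_thm EDG_thm
  have cINA : Stmt_INA := INA_thm cAVG YTO_thm SIZ_thm FUL_thm cMCH
  have cINB : Stmt_INB := INB_thm cINA SIZ_thm FUL_thm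
  exact FIN_thm cCOD cENC PRO_thm cINB PAA_thm PAB_thm

end Pool.Agent.ANC
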