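import Pool.Agent.ANC.Stmts

/-!
# Module PAB: the conditions on the number `B`
-/

set_option autoImplicit false

namespace Pool.Agent.ANC

open Finset MeasureTheory

namespace PABM

lemma log_bound {κ s a g : ℕ} (hs : 2 ≤ s) (ha : a ≤ s ^ κ) (hg : g ≤ s ^ κ) :
    Real.log ((a : ℝ) * g + 1) ≤ ((2 * κ + 1 : ℕ) : ℝ) * Real.log s := by
  have h1 : a * g + 1 ≤ s ^ (2 * κ + 1) := by
    have h2 : a * g ≤ s ^ (2 * κ) := by
      calc a * g ≤ s ^ κ * s ^ κ := Nat.mul_le_mul ha hg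
        _ = s ^ (2 * κ) := by rw [← pow_add]; congr 1; ring
    have h3 : 1 ≤ s ^ (2 * κ) := Nat.one_le_pow _ _ (by omega)
    calc a * g + 1 ≤ s ^ (2 * κ) * 2 := by omega
      _ ≤ s ^ (2 * κ) * s := Nat.mul_le_mul_left _ hs
      _ = s ^ (2 * κ + 1) := (pow_succ _ _).symm
  have h2 : ((a : ℝ) * g + 1) ≤ (s : ℝ) ^ (2 * κ + 1) := by exact_mod_cast h1
  calc Real.log ((a : ℝ) * g + 1) ≤ Real.log ((s : ℝ) ^ (2 * κ + 1)) :=
        Real.log_le_log (by positivity) h2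
    _ = ((2 * κ + 1 : ℕ) : ℝ) * Real.log s := Real.log_pow _ _

lemma ceil_bound {x y : ℝ} (hy : 0 ≤ y) (h : x ≤ y) : ((⌈x⌉₊ + 1 : ℕ) : ℝ) ≤ y + 2 := by
  have h1 : ⌈x⌉₊ ≤ ⌈y⌉₊ := Nat.ceil_mono h
  have h2 := Nat.ceil_lt_add_one hy
  have h3 : (⌈x⌉₊ : ℝ) ≤ (⌈y⌉₊ : ℝ) := by exact_mod_cast h1
  push_cast
  linarith

end PABM

theorem PAB_thm : Stmt_PAB := by
  intro κ
  obtain ⟨k, hk⟩ : ∃ k : ℝ, k = ((2 * κ + 1 : ℕ) : ℝ) := ⟨_, rfl⟩
  have hk1 : 1 ≤ k := by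
    rw [hk]
    exact_mod_cast Nat.le_add_left 1 (2 * κ)
  have hk0 : 0 < k := by linarith
  obtain ⟨c, hc⟩ : ∃ c : ℝ, c = 1 / (10 ^ 15 * k) := ⟨_, rfl⟩
  have hc0 : 0 < c := by rw [hc]; positivity
  have hck : c * k = 1 / 10 ^ 15 := by rw [hc]; field_simp
  have hc1 : c ≤ 1 / 10 ^ 15 := by
    rw [← hck]
    exact le_mul_of_one_le_right hc0.le hk1
  refine ⟨c, hc0, 100 + (2 * κ + 1), ?_⟩
  intro z K L s hz hL hzK hs1 hs2 hls hll hLl T a g r hT ha hg hr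
  -- the size of `z`
  have hz0 : (100 : ℝ) + k ≤ z := by rw [hk]; exact_mod_cast hz
  have hz1 : (100 : ℝ) ≤ z := by linarith
  obtain ⟨P, hP⟩ : ∃ P : ℝ, P = (z : ℝ) ^ 20 := ⟨_, rfl⟩
  have hPk : k * 10 ^ 38 ≤ P := by
    have h1 : (100 : ℝ) ^ 19 ≤ (z : ℝ) ^ 19 := pow_le_pow_left₀ (by norm_num) hz1 19
    have h2 : (10 : ℝ) ^ 38 = 100 ^ 19 := by norm_num
    have h3 : P = (z : ℝ) * (z : ℝ) ^ 19 := by rw [hP]; ring
    rw [h3, h2]
    exact mul_le_mul (by linarith) h1 (by positivity) (by linarith)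
  have hP0 : 0 < P := lt_of_lt_of_le (by positivity) hPk
  obtain ⟨x, hx⟩ : ∃ x : ℝ, x = Real.log z := ⟨_, rfl⟩
  have hx1 : 1 ≤ x := by
    rw [hx, Real.le_log_iff_exp_le (by linarith)]
    have := Real.exp_one_lt_d9
    linarith
  have hx0 : 0 < x := by linarith
  have hsR1 : 8 * P ≤ s := by rw [hP]; exact_mod_cast hs1
  have hsR2 : (s : ℝ) ≤ 16 * P := by rw [hP]; exact_mod_cast hs2
  have hs0 : (0 : ℝ) < s := by linarith
  have hs2' : 2 ≤ s := by
    have h1 : 1 ≤ z ^ 20 := Nat.one_le_pow _ _ (by omega)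
    omega
  rw [← hx] at hls
  have hls0 : 0 ≤ Real.log s := Real.log_nonneg (by exact_mod_cast (by omega : 1 ≤ s))
  have hLR : (1 : ℝ) ≤ L := by exact_mod_cast hL
  have hL0 : (0 : ℝ) < L := by linarith
  have hLs : (L : ℝ) ≤ Real.log s := by
    calc (L : ℝ) = L * 1 := (mul_one _).symm
      _ ≤ L * Real.log (Real.log s) := mul_le_mul_of_nonneg_left hll hL0.le
      _ ≤ Real.log s := hLl
  have hlL : Real.log L ≤ Real.log (Real.log s) := Real.log_le_log hL0 hLs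
  have hlL0 : 0 ≤ Real.log L := Real.log_nonneg hLR
  -- the number `B`
  obtain ⟨B, hB⟩ : ∃ B : ℕ, B = ⌈100 * T / L⌉₊ + 1 := ⟨_, rfl⟩
  have hBup : (B : ℝ) ≤ 1600 * c * P + 2 := by
    have h1 : 100 * T / L ≤ 100 * c * s := by
      rw [div_le_iff₀ hL0]
      calc 100 * T ≤ 100 * (c * L * s) := by linarith
        _ = 100 * c * s * L := by ring
    have h2 := PABM.ceil_bound (x := 100 * T / L) (y := 100 * c * s) (by positivity) h1
    rw [← hB] at h2
    have h3 : 100 * c * s ≤ 100 * c * (16 * P) := mul_le_mul_of_nonneg_left hsR2 (by positivity)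
    linarith
  have hB0 : (0 : ℝ) ≤ B := Nat.cast_nonneg _
  have hrhs : P / 2 * x / 10 ^ 7 ≤ ((z ^ 18 : ℕ) : ℝ) * ((L * K : ℕ) : ℝ) * x / 10 ^ 7 := by
    have h1 : (z : ℝ) ^ 2 ≤ 2 * ((L * K : ℕ) : ℝ) := by exact_mod_cast hzK
    have h2 : P / 2 ≤ ((z ^ 18 : ℕ) : ℝ) * ((L * K : ℕ) : ℝ) := by
      have h3 : P = (z : ℝ) ^ 18 * (z : ℝ) ^ 2 := by rw [hP, ← pow_add]
      have h4 : (z : ℝ) ^ 18 * (z : ℝ) ^ 2 ≤ (z : ℝ) ^ 18 * (2 * ((L * K : ℕ) : ℝ)) :=
        mul_le_mul_of_nonneg_left h1 (by positivity)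
      rw [h3]
      push_cast at h4 ⊢
      linarith
    have h5 : P / 2 * x ≤ ((z ^ 18 : ℕ) : ℝ) * ((L * K : ℕ) : ℝ) * x :=
      mul_le_mul_of_nonneg_right h2 hx0.le
    exact div_le_div_of_nonneg_right h5 (by positivity)
  refine ⟨B, by omega, ?_, ?_, ?_⟩
  · have h1 : 100 * T / L ≤ (⌈100 * T / L⌉₊ : ℝ) := Nat.le_ceil _
    rw [div_le_iff₀ hL0] at h1
    have h2 : (B : ℝ) = (⌈100 * T / L⌉₊ : ℝ) + 1 := by rw [hB]; push_cast; ring
    rw [h2]
    nlinarith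
  · rw [← hx]
    have h1 : (L : ℝ) * (20 + B * (1 + Real.log L)) ≤
        L * (((z ^ 18 : ℕ) : ℝ) * K * x / 10 ^ 7) := by
      have h2 : (L : ℝ) * (((z ^ 18 : ℕ) : ℝ) * K * x / 10 ^ 7) =
          ((z ^ 18 : ℕ) : ℝ) * ((L * K : ℕ) : ℝ) * x / 10 ^ 7 := by
        push_cast
        ring
      rw [h2]
      refine le_trans ?_ hrhs
      have h3 : (L : ℝ) * (1 + Real.log L) ≤ 42 * x := by
        have h4 : (L : ℝ) * Real.log L ≤ L * Real.log (Real.log s) :=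
          mul_le_mul_of_nonneg_left hlL hL0.le
        linarith
      have h5 : (L : ℝ) * (20 + B * (1 + Real.log L)) ≤ 420 * x + (1600 * c * P + 2) * (42 * x) := by
        calc (L : ℝ) * (20 + B * (1 + Real.log L)) =
              20 * L + B * (L * (1 + Real.log L)) := by ring
          _ ≤ 20 * (21 * x) + (1600 * c * P + 2) * (42 * x) := by
            refine add_le_add (by linarith) ?_
            exact mul_le_mul hBup h3 (by positivity) (by positivity)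
          _ = _ := by ring
      refine h5.trans ?_
      have h6 : c * P ≤ 1 / 10 ^ 15 * P := mul_le_mul_of_nonneg_right hc1 hP0.le
      have h7 : (10 : ℝ) ^ 38 ≤ P := by
        refine le_trans ?_ hPk
        exact le_mul_of_one_le_left (by positivity) hk1
      have h8 : 420 + (1600 * c * P + 2) * 42 ≤ P / 2 / 10 ^ 7 := by
        norm_num at h6 h7 ⊢
        linarith
      calc 420 * x + (1600 * c * P + 2) * (42 * x) = (420 + (1600 * c * P + 2) * 42) * x := by ring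
        _ ≤ (P / 2 / 10 ^ 7) * x := mul_le_mul_of_nonneg_right h8 hx0.le
        _ = P / 2 * x / 10 ^ 7 := by ring
    exact le_of_mul_le_mul_left h1 hL0
  · rw [← hx]
    refine le_trans ?_ hrhs
    have h1 := PABM.log_bound hs2' ha hg
    rw [← hk] at h1
    have h2 : Real.log ((a : ℝ) * g + 1) ≤ k * (21 * x) :=
      h1.trans (mul_le_mul_of_nonneg_left hls hk0.le)
    have h2' : 0 ≤ Real.log ((a : ℝ) * g + 1) := Real.log_nonneg (by
      have : (0 : ℝ) ≤ (a : ℝ) * g := by positivity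
      linarith)
    have h3 : Real.log r ≤ 336 * c * P * x := by
      calc Real.log r ≤ c * s * Real.log s := hr
        _ ≤ c * (16 * P) * (21 * x) :=
          mul_le_mul (mul_le_mul_of_nonneg_left hsR2 hc0.le) hls hls0 (by positivity)
        _ = _ := by ring
    have h4 : 200 * (B : ℝ) * Real.log ((a : ℝ) * g + 1) ≤
        200 * (1600 * c * P + 2) * (k * (21 * x)) :=
      mul_le_mul (mul_le_mul_of_nonneg_left hBup (by norm_num)) h2 h2' (by positivity)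
    have h5 : 200 * (1600 * c * P + 2) * (k * (21 * x)) =
        (6720000 * (c * k) * P + 8400 * k) * x := by ring
    rw [h5, hck] at h4
    have h6 : c * P ≤ 1 / 10 ^ 15 * P := mul_le_mul_of_nonneg_right hc1 hP0.le
    have h7 : (20 : ℝ) + 336 * c * P + (6720000 * (1 / 10 ^ 15) * P + 8400 * k) ≤
        P / 2 / 10 ^ 7 := by
      norm_num at h6 hPk ⊢
      linarith
    calc 20 + Real.log r + 200 * (B : ℝ) * Real.log ((a : ℝ) * g + 1)
        ≤ 20 * x + 336 * c * P * x + (6720000 * (1 / 10 ^ 15) * P + 8400 * k) * x := by linarith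
      _ = (20 + 336 * c * P + (6720000 * (1 / 10 ^ 15) * P + 8400 * k)) * x := by ring
      _ ≤ (P / 2 / 10 ^ 7) * x := mul_le_mul_of_nonneg_right h7 hx0.le
      _ = P / 2 * x / 10 ^ 7 := by ring

end Pool.Agent.ANC
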