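import Pool.Agent.ANC.Defs

/-!
# The bound is sharp: a machine which reads everything again in each phase
-/

set_option autoImplicit false

namespace Pool.Agent.ANC

open Finset MeasureTheory

namespace SHPM

variable {A Γ : Type} [DecidableEq A]

/-- Write the contents of a list. -/
def wr : List (A × Γ) → Comp A Γ Unit → Comp A Γ Unit
  | [], c => c
  | p :: l, c => Comp.access p.1 (fun _ => p.2) fun _ => wr l c

/-- The memory after these writings. -/
def wm : List (A × Γ) → (A → Γ) → A → Γ
  | [], M => M
  | p :: l, M => wm l (Function.update M p.1 p.2)

/-- Read a list of registers and answer. -/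
def rd (F : (A → Γ) → Bool) : List A → (A → Γ) → Comp A Γ Unit
  | [], f => Comp.stop (F f) ()
  | a :: l, f => Comp.access a (fun x => x) fun x => rd F l (Function.update f a x)

theorem wr_out (l : List (A × Γ)) (c : Comp A Γ Unit) (M : A → Γ) :
    (wr l c).out M = c.out (wm l M) := by
  induction l generalizing M with
  | nil => rfl
  | cons p l ih => simpa [wr, wm, Comp.out] using ih _

theorem wr_mem (l : List (A × Γ)) (c : Comp A Γ Unit) (M : A → Γ) :
    (wr l c).mem M = c.mem (wm l M) := by
  induction l generalizing M with
  | nil => rfl
  | cons p l ih => simpa [wr, wm, Comp.mem] using ih _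

theorem wr_cost (l : List (A × Γ)) (c : Comp A Γ Unit) (M : A → Γ) :
    (wr l c).cost M = c.cost (wm l M) + l.length := by
  induction l generalizing M with
  | nil => rfl
  | cons p l ih =>
    have h := ih (Function.update M p.1 p.2)
    simp only [wr, wm, Comp.cost, List.length_cons]
    rw [h]
    omega

theorem upd_self (M : A → Γ) (a : A) : Function.update M a (M a) = M :=
  Function.update_eq_self a M

theorem rd_mem (F : (A → Γ) → Bool) (l : List A) (f M : A → Γ) : (rd F l f).mem M = M := by
  induction l generalizing f with
  | nil => rfl
  | cons a l ih =>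
    simp only [rd, Comp.mem]
    rw [upd_self]
    exact ih _

theorem rd_cost (F : (A → Γ) → Bool) (l : List A) (f M : A → Γ) :
    (rd F l f).cost M = l.length := by
  induction l generalizing f with
  | nil => rfl
  | cons a l ih =>
    simp only [rd, Comp.cost, List.length_cons]
    rw [upd_self, ih]

theorem rd_out (F : (A → Γ) → Bool) (l : List A) (f M : A → Γ) :
    (rd F l f).out M = (F (fun a => if a ∈ l then M a else f a), ()) := by
  induction l generalizing f with
  | nil => simp [rd, Comp.out]
  | cons a l ih =>
    simp only [rd, Comp.out]
    rw [upd_self, ih]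
    congr 2
    funext b
    by_cases h : b ∈ l
    · simp [h]
    · by_cases h' : b = a
      · subst h'
        simp [h]
      · simp [h, h']

theorem wm_map (e : A → Γ) (l : List A) (M : A → Γ) :
    wm (l.map fun i => (i, e i)) M = fun a => if a ∈ l then e a else M a := by
  induction l generalizing M with
  | nil => simp [wm]
  | cons i l ih =>
    simp only [List.map_cons, wm]
    rw [ih]
    funext a
    by_cases h : a ∈ l
    · simp [h]
    · by_cases h' : a = i
      · subst h'
        simp [h]
      · simp [h, h']

end SHPM

open Classical SHPM in
/-- Write the new edges into their registers, read all registers, answer. -/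
noncomputable def rereader (n m L b : ℕ) :
    Machine (Fin m) (Option (Sym2 (Fin n))) Unit (Sym2 (Fin n)) where
  start := ()
  mem0 := fun _ => none
  prog := fun j _ bl =>
    wr ((((List.finRange m).filter fun i =>
        decide (moment m L b j ≤ i.val ∧ i.val < moment m L b (j + 1))).zip bl).map
          fun p => (p.1, some p.2))
      (rd (fun f => decide (¬(SimpleGraph.fromEdgeSet {x | ∃ i, f i = some x}).CliqueFree 3))
        (List.finRange m) fun _ => none)

namespace SHPM

theorem moment_mono (m L b j : ℕ) : moment m L b j ≤ moment m L b (j + 1) := by
  cases j with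
  | zero => simp [moment]
  | succ j =>
    simp only [moment]
    have : (L - (j + 1)) * b ≤ (L - j) * b := Nat.mul_le_mul_right _ (by omega)
    omega

variable {n m L b : ℕ}

theorem zip_eq (e : Fin m → Sym2 (Fin n)) (j : ℕ) :
    ((((List.finRange m).filter fun i =>
        decide (moment m L b j ≤ i.val ∧ i.val < moment m L b (j + 1))).zip
          (block e (moment m L b) j)).map fun p => (p.1, some p.2)) =
    ((List.finRange m).filter fun i =>
        decide (moment m L b j ≤ i.val ∧ i.val < moment m L b (j + 1))).map
          fun i => (i, some (e i)) := by
  unfold block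
  generalize ((List.finRange m).filter fun i =>
        decide (moment m L b j ≤ i.val ∧ i.val < moment m L b (j + 1))) = l
  induction l with
  | nil => rfl
  | cons a l ih => simpa using ih

theorem conf_eq (e : Fin m → Sym2 (Fin n)) (j : ℕ) :
    (rereader n m L b).conf (block e (moment m L b)) j =
      ((), fun i => if i.val < moment m L b j then some (e i) else none) := by
  induction j with
  | zero => simp [Machine.conf, rereader, moment]
  | succ j ih =>
    have h1 : ((rereader n m L b).conf (block e (moment m L b)) (j + 1)).2 =
        fun i => if i.val < moment m L b (j + 1) then some (e i) else none := by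
      simp only [Machine.conf]
      rw [ih]
      simp only [rereader]
      rw [zip_eq, wr_mem, rd_mem, wm_map]
      funext i
      simp only [List.mem_filter, List.mem_finRange, true_and, decide_eq_true_eq]
      have hm := moment_mono m L b j
      by_cases h : i.val < moment m L b (j + 1)
      · by_cases h' : moment m L b j ≤ i.val
        · simp [h, h']
        · have h'' : i.val < moment m L b j := by omega
          simp [h, h', h'']
      · have h'' : ¬ i.val < moment m L b j := by omega
        simp [h, h'']
    exact Prod.ext rfl h1

theorem ans_eq (e : Fin m → Sym2 (Fin n)) (j : ℕ) :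
    (rereader n m L b).ans (block e (moment m L b)) j = true ↔
      ¬(graph e (moment m L b (j + 1))).CliqueFree 3 := by
  have h0 := conf_eq (L := L) (b := b) e j
  unfold Machine.ans
  rw [h0]
  simp only [rereader]
  rw [zip_eq, wr_out, wm_map, rd_out]
  simp only [List.mem_finRange, if_true, decide_eq_true_eq]
  have h2 : (SimpleGraph.fromEdgeSet {x : Sym2 (Fin n) | ∃ i : Fin m,
      (if i ∈ (List.finRange m).filter fun i =>
          decide (moment m L b j ≤ i.val ∧ i.val < moment m L b (j + 1)) then some (e i)
        else if i.val < moment m L b j then some (e i) else none) = some x}) =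
      graph e (moment m L b (j + 1)) := by
    unfold graph
    congr 1
    ext x
    simp only [Set.mem_ofPred_eq, List.mem_filter, List.mem_finRange, true_and,
      decide_eq_true_eq]
    have hm := moment_mono m L b j
    constructor
    · rintro ⟨i, hi⟩
      refine ⟨i, ?_⟩
      by_cases h : moment m L b j ≤ i.val ∧ i.val < moment m L b (j + 1)
      · rw [if_pos h] at hi
        exact ⟨h.2, by simpa using hi⟩
      · rw [if_neg h] at hi
        by_cases h' : i.val < moment m L b j
        · rw [if_pos h'] at hi
          exact ⟨by omega, by simpa using hi⟩
        · rw [if_neg h'] at hi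
          simp at hi
    · rintro ⟨i, hi, hx⟩
      refine ⟨i, ?_⟩
      by_cases h : moment m L b j ≤ i.val ∧ i.val < moment m L b (j + 1)
      · rw [if_pos h, hx]
      · rw [if_neg h, if_pos (by omega), hx]
  rw [h2]

theorem cost_le (e : Fin m → Sym2 (Fin n)) (j : ℕ) :
    (rereader n m L b).cost (block e (moment m L b)) j ≤ 2 * m := by
  have h0 := conf_eq (L := L) (b := b) e j
  unfold Machine.cost
  rw [h0]
  simp only [rereader]
  rw [zip_eq, wr_cost, rd_cost, List.length_map, List.length_finRange]
  have h1 : ((List.finRange m).filter fun i =>
      decide (moment m L b j ≤ i.val ∧ i.val < moment m L b (j + 1))).length ≤ m := by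
    refine (List.length_filter_le _ _).trans ?_
    rw [List.length_finRange]
  omega

end SHPM

open SHPM in
theorem rereader_works (n m L b s : ℕ) (hL : 1 ≤ L) (hm : m ≤ s) :
    Works (Measure.dirac ()) (fun _ : Unit => rereader n m L b) m L b (4 * L * s) where
  measAns := fun _ _ _ => MeasurableSet.of_discrete
  measCost := fun _ _ _ _ => MeasurableSet.of_discrete
  right := by
    intro e _ j _ _
    have h1 : {ω : Unit | (rereader n m L b).ans (block e (moment m L b)) j = true ↔
        ¬(graph e (moment m L b (j + 1))).CliqueFree 3} = Set.univ := by
      ext ω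
      simp only [Set.mem_ofPred_eq, Set.mem_univ, iff_true]
      exact ans_eq e j
    have h2 : (Measure.dirac (() : Unit)).real Set.univ = 1 := by
      simp [Measure.real]
    rw [h1, h2]
    norm_num
  expCost := by
    intro e _ _
    have h1 : ∀ ω : Unit, ∑ j ∈ range (L + 1),
        ((rereader n m L b).cost (block e (moment m L b)) j : ENNReal) ≤
          ENNReal.ofReal (4 * L * s) := by
      intro _
      have h2 : ∑ j ∈ range (L + 1), (rereader n m L b).cost (block e (moment m L b)) j ≤
          4 * L * s := by
        calc ∑ j ∈ range (L + 1), (rereader n m L b).cost (block e (moment m L b)) j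
            ≤ ∑ _j ∈ range (L + 1), 2 * m := Finset.sum_le_sum fun j _ => cost_le e j
          _ = (L + 1) * (2 * m) := by simp
          _ ≤ (2 * L) * (2 * s) := Nat.mul_le_mul (by omega) (by omega)
          _ = 4 * L * s := by ring
      have h3 : (∑ j ∈ range (L + 1),
          ((rereader n m L b).cost (block e (moment m L b)) j : ENNReal)) =
          ((∑ j ∈ range (L + 1), (rereader n m L b).cost (block e (moment m L b)) j : ℕ) :
            ENNReal) := by push_cast; rfl
      rw [h3, show (4 * L * s : ℝ) = ((4 * L * s : ℕ) : ℝ) by push_cast; ring,
        ENNReal.ofReal_natCast]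
      exact_mod_cast h2
    calc ∫⁻ ω : Unit, ∑ j ∈ range (L + 1),
          ((rereader n m L b).cost (block e (moment m L b)) j : ENNReal) ∂(Measure.dirac ())
        ≤ ∫⁻ _ω : Unit, ENNReal.ofReal (4 * L * s) ∂(Measure.dirac ()) :=
          lintegral_mono h1
      _ = ENNReal.ofReal (4 * L * s) := by simp

end Pool.Agent.ANC
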