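import Pool.Agent.ANC.Defs

/-!
# Triangle detection with several announcements: statements and proofs

THEOREM. For every `κ` there are `c > 0`, `s₀` such that for all `s ≥ s₀` and all `L ≥ 1` with
`L log log s ≤ log s`: a randomised machine with arbitrary operations, `s ^ κ` registers with
`s ^ κ` contents, unit price for every access and `s ^ (c s)` states (a free cache of `c s` words),
which reads the edges of a graph of size `s` in phases and announces `L` times whether the edges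
read so far contain a triangle, each time right with probability `2/3`, has expected cost at least
`c L s` on some triangle-free graph.

INSTANCES. `u : Fin k`, positions `i : Fin d`, letters `Fin q`, names `x : Fin N` with a code word
`β x : Fin d → Fin q`; `d = L K`, `d ≤ z ^ 2`, `q = z ^ 10`, `N = z ^ 16`, `k = z ^ 18`,
`z ≈ s^(1/20)`. Edges: `u - (i, Y u i)` (the data base), `(j, r, x) - (i, β x i)` (a copy of the
names for each slot `r` of each block `j`), and in the block `j` the edges `u - (j, r, X u j r)`.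
Triangles = agreements `β (X u j r) i = Y u i`. Law: uniform on the instances without agreement; for
the block `j₀` all the other blocks, also the later ones, are public, so the rest is a product over
`u` of the uniform laws on `Ed β K (Yo β o j₀ u)`.

STATIC PART. `z u = (x, y)`, `x : Nm K N`, `y : Wo d q`. The state and the memory before the block
depend on the words `wds z` only, the program of the block on the names `nms z` only. The label of
a run (state, set of the touched buckets of a hash function, changed registers in these buckets,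
answer) has rectangles as level sets, few labels for fixed names and few for fixed words. For a
large rectangle and a random public half (`Pub`: for every `u` the names or the word) the marginals
at most `u` are well spread (`GoodA`, `GoodB`), so the expected number of the agreements at a
private `u₀` is almost the expected one (`LC1`, `LOC`): the answer `no` has almost the same weight
under the law `yes` (agreements at one `u₀`, weight = their number) as without agreements.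

CONVENTIONS. One module per statement: `theorem XXX_thm (hypotheses named in the doc string) :
Stmt_XXX`. `exp`, `log` are real. Two filters can differ by the proofs of decidability only: use
`convert`, `congr!` or `Finset.filter_congr_decidable`.
-/

set_option autoImplicit false

namespace Pool.Agent.ANC

open Finset MeasureTheory

/-! ### A. General lemmas -/

/-- JEN. Jensen on a large subset of a product. PROOF. Let `A = (∑_v ∑_u φ u (v u)) / |S|`. By
convexity of `exp`, `exp A ≤ (1/|S|) ∑_(v ∈ S) ∏_u exp (φ u (v u)) ≤ (1/|S|) ∑_(v ∈ ∏ W) ∏_u .. =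
(1/|S|) ∏_u ∑_(x ∈ W u) exp (φ u x) = (|∏ W|/|S|) ∏_u (mean over W u)`. Take logarithms. -/
def Stmt_JEN : Prop := ∀ (k : ℕ) (Z : Type) [Fintype Z] [DecidableEq Z] (W : Fin k → Finset Z)
  (S : Finset (Fin k → Z)) (φ : Fin k → Z → ℝ), S ⊆ Fintype.piFinset W → S.Nonempty →
  ∑ v ∈ S, ∑ u, φ u (v u) ≤ S.card * (Real.log ((Fintype.piFinset W).card / S.card) +
    ∑ u, Real.log ((∑ x ∈ W u, Real.exp (φ u x)) / (W u).card))

/-- HSH. A good hash function. PROOF. Average over all `h`: `a ∈ W i ∩ T i` is counted always, there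
are at most `B` of them; for `a ∈ W i \ T i` the number of the `h` with `h a ∈ h (T i)` is at most
`∑_(b ∈ T i) #{h : h a = h b} = |T i| H^(|A| - 1)` (the number of the `h` with `h a = h b`, `a ≠ b`,
times `H` is the number of all `h`). So the sum over all `h` is at most `(B + H B / H)` times the
number of the `h`, for every `i`. -/
def Stmt_HSH : Prop := ∀ (A ι : Type) [Fintype A] [DecidableEq A] (H B : ℕ) (S : Finset ι)
  (W T : ι → Finset A), 0 < H → (∀ i ∈ S, (W i).card ≤ H) → (∀ i ∈ S, (T i).card ≤ B) →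
  ∃ h : A → Fin H, ∑ i ∈ S, ((W i).filter fun a => h a ∈ (T i).image h).card ≤ 2 * B * S.card

/-- BIN. The number of the small subsets. PROOF. `∑_J L^(-|J|) = (1 + 1/L)^(B L) ≤ exp B`
(`Finset.prod_one_add` or `Finset.sum_pow_mul_eq_add_pow`), and `L^(-|J|) ≥ L^(-B)` for
`|J| ≤ B`. -/
def Stmt_BIN : Prop := ∀ B L : ℕ, 1 ≤ L →
  (((univ : Finset (Finset (Fin (B * L)))).filter fun J => J.card ≤ B).card : ℝ) ≤
    Real.exp (B * (1 + Real.log L))

/-- RUN. A computation depends only on the contents of the registers which it touches. PROOF.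
Induction on `c`; in the step `M a = M' a`, and the memories updated at `a` agree on the registers
touched later. -/
def Stmt_RUN : Prop := ∀ (A Γ Q : Type) [DecidableEq A] (c : Comp A Γ Q) (M M' : A → Γ),
  ((∀ a ∈ c.touched M, M a = M' a) →
    c.out M = c.out M' ∧ c.touched M = c.touched M' ∧ c.cost M = c.cost M') ∧
  (c.touched M).card ≤ c.cost M ∧ ∀ a, a ∉ c.touched M → c.mem M a = M a

open Classical in
/-- LAB, the labels (from RUN). PROOF. Labels `(q, J, ent, a) : Q × Finset (Fin H) ×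
Finset (A × Γ) × Bool`. For `ent` let `M_ent a` be some `g` with `(a, g) ∈ ent`, if there is one,
and `M₀ a` otherwise. `D c` = the `y` with `(cf y).1 = q` and `ent = {(a, (cf y).2 a) : a changed,
h a ∈ J}`; for these `M_ent = (cf y).2` on `h⁻¹ J`. `P c` = the `x` such that the run of `t x q` on
`M_ent` has cost `≤ B`, image of the touched set `= J` and answer `a`; `P c = ∅` if `ent` has more
than `mE` elements. If `x ∈ P c`, `y ∈ D c` then the runs on `M_ent` and on `(cf y).2` are the same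
(RUN), so `c` is determined by `(x, y)`, and the answer is `a`. Conversely the label made from the
true run of `(x, y)` works (RUN in the other direction: the run on `(cf y).2` touches only `h⁻¹ J`).
For fixed `y` the label is determined by `J`, `|J| ≤ |touched| ≤ cost ≤ B`, and `a`. For fixed `x`
it is determined by `q`, `ent`, and there are at most `(|A| |Γ| + 1)^mE` sets `ent` with at most
`mE` elements. -/
def Stmt_LAB : Prop := ∀ (A Γ Q XX YY : Type) [Fintype A] [DecidableEq A] [Fintype Γ] [Fintype Q]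
  [Fintype XX] [Fintype YY] (t : XX → Q → Comp A Γ Q) (cf : YY → Q × (A → Γ)) (M₀ : A → Γ)
  (B H mE : ℕ) (h : A → Fin H),
  ∃ (C : Type) (_ : Fintype C) (P : C → Finset XX) (D : C → Finset YY) (an : C → Bool),
    (∀ c c' x y, x ∈ P c → y ∈ D c → x ∈ P c' → y ∈ D c' → c = c') ∧
    (∀ c x y, x ∈ P c → y ∈ D c → ((t x (cf y).1).out (cf y).2).1 = an c) ∧
    (∀ x y, (t x (cf y).1).cost (cf y).2 ≤ B →
      ((chg (cf y).2 M₀).filter fun a =>
        h a ∈ ((t x (cf y).1).touched (cf y).2).image h).card ≤ mE → ∃ c, x ∈ P c ∧ y ∈ D c) ∧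
    (∀ y, (univ.filter fun c => y ∈ D c ∧ (P c).Nonempty).card ≤
      2 * ((univ : Finset (Finset (Fin H))).filter fun J => J.card ≤ B).card) ∧
    (∀ x, (univ.filter fun c => x ∈ P c ∧ (D c).Nonempty).card ≤
      Fintype.card Q * (Fintype.card A * Fintype.card Γ + 1) ^ mE)

/-! ### B. The code -/

open Classical in
/-- CHT. Chernoff. PROOF. `Σ = ∑ |T i|`. `∑_w exp (- η #{i : w i ∈ T i}) = ∏_i (q - |T i|
(1 - exp (-η))) ≤ q^d exp (- (1 - exp (-η)) Σ/q)`; for the counted `w` the summand is at least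
`exp (- η (1 - η) Σ/q)`; `1 - exp (-η) ≥ η - η²/2`. -/
def Stmt_CHT : Prop := ∀ (d q : ℕ) (T : Fin d → Finset (Fin q)) (η : ℝ), 0 < q → 0 ≤ η → η ≤ 1 →
  (((univ : Finset (Wo d q)).filter fun w =>
    ((univ.filter fun i => w i ∈ T i).card : ℝ) * q ≤ (1 - η) * (∑ i, (T i).card : ℕ)).card : ℝ) ≤
    Real.exp (-(η ^ 2 / 2) * ((∑ i, (T i).card : ℕ) : ℝ) / q) * (q : ℝ) ^ d

open Classical in
/-- COE. Few codes have more than `M` exceptional names (from CHT). PROOF. Choose `M + 1` of the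
exceptional names: at most `N^(M+1)` choices of a set; for a given set `X` with `M + 1` elements the
number of the codes with `β x` exceptional for `x ∈ X` is `p^(M+1) (q^d)^(N-M-1)`, `p` the number
in CHT (`Fintype.piFinset`). -/
def Stmt_COE : Prop := ∀ (d q N M : ℕ) (T : Fin d → Finset (Fin q)) (η : ℝ), 0 < q → 0 ≤ η →
  η ≤ 1 →
  (((univ : Finset (Fin N → Wo d q)).filter fun β => M < (univ.filter fun x =>
    ((univ.filter fun i => β x i ∈ T i).card : ℝ) * q ≤
      (1 - η) * (∑ i, (T i).card : ℕ)).card).card : ℝ) ≤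
    (N * Real.exp (-(η ^ 2 / 2) * ((∑ i, (T i).card : ℕ) : ℝ) / q)) ^ (M + 1) *
      ((q : ℝ) ^ d) ^ N

open Classical in
/-- COB. Few codes are unbalanced at `(i, t)`. PROOF. `∑_β 2^(#{x : β x i = t}) =
((q + 1) q^(d-1))^N = (1 + 1/q)^N (q^d)^N ≤ exp (N/q) (q^d)^N`, and the summand is more than
`2^(2N/q) = 4^(N/q)` for the counted `β`; `exp 1/4 ≤ exp (-1/3)` (`exp 1 < 2.7182818286`,
`exp (1/3) ≤ 1.4`). -/
def Stmt_COB : Prop := ∀ (d q N : ℕ) (i : Fin d) (t : Fin q),
  (((univ : Finset (Fin N → Wo d q)).filter fun β =>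
    2 * N < (univ.filter fun x => β x i = t).card * q).card : ℝ) ≤
    Real.exp (-((N : ℝ) / (3 * q))) * ((q : ℝ) ^ d) ^ N

/-- COD. The code exists (from COE, COB). PROOF. `η = 1/200`, `q = z^10`, `N = z^16`,
`M = z^11`, `S_T = ∑ |T i| ≥ z q`, `η²/2 = 1/80000`. `N exp (-S_T/(80000 q)) ≤ exp (-S_T/(160000
q))` because `16 log z ≤ z/160000`; so by COE the proportion of the codes which are bad for `T` is at
most `exp (-S_T z^11/(160000 q)) = exp (-S_T z/160000)`. The sum over all `T` with `S_T ≥ z q` is at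
most `(1 + x)^(d q) - 1`, `x = exp (-z/160000)` (sum over all families `T`, that is over all subsets
of `Fin d × Fin q`, without the empty one), and `d q x ≤ z^12 x ≤ 1/8`. By COB the unbalanced codes
are at most `d q exp (-z^6/3) ≤ 1/4` of all. So some code is good. -/
def Stmt_COD : Prop := ∀ z d : ℕ, (10 : ℝ) ^ 9 ≤ Real.log z → d ≤ z ^ 2 →
  ∃ β : Fin (z ^ 16) → Wo d (z ^ 10), Code (1 / 200) z β

/-! ### C. One vertex -/

section

variable {z k K d N q : ℕ} {β : Fin N → Wo d q} {Y : Fin k → Fin d → Finset (Fin q)}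

/-- SIZ. Sizes. PROOF. (a) All `Y u i` have at least `q - d > 0` elements and `N > 0`. (d) By `bal` and
`4 d ≤ q`: `#{x : ∃ i, β x i = y i} ≤ d 2 N/q ≤ N/2`. (c) `tot = ∑_(r, i) #{(x, y) : y in the
product, β (x r) i = y i}`, and for fixed `x` and `t = β (x r) i` the number of the `y` is `0` or
`|product|/|Y u i| ≤ |product|/(q - d)`; so `tot (q - d) ≤ K d |Al|`, and `q ≤ (1001/1000) (q - d)`,
`1001 K d ≤ q`, because `d ≤ z^2`, `K d ≤ z^4`, `q = z^10`. Positive: by `bal` some `x` has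
`β x i ∈ Y u i` (at most `d 2 N/q < N` names have not). (b) A pair in `Al` without the property of
`Ed` has at least one agreement, so `|Al| - |Ed| ≤ tot ≤ |Al|/1000`. -/
def Stmt_SIZ : Prop := ∀ {z k K d N q : ℕ} {β : Fin N → Wo d q}
  {Y : Fin k → Fin d → Finset (Fin q)}, Par z k K d N q β Y →
  (∀ u, 0 < (Al K N (Y u)).card ∧
    (999 / 1000 : ℝ) * (Al K N (Y u)).card ≤ (Ed β K (Y u)).card ∧
    0 < tot β K (Y u) ∧ (tot β K (Y u) : ℝ) * q ≤ 1001 / 1000 * (K * d) * (Al K N (Y u)).card ∧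
    (tot β K (Y u) : ℝ) ≤ 1 / 1000 * (Al K N (Y u)).card) ∧
  ∀ y : Wo d q, N ≤ 2 * (univ.filter fun x : Fin N => ∀ i, β x i ≠ y i).card

/-- LC1. Well spread weights have the right number of agreements. PROOF. `F = ∑ f`, `G = ∑ g`,
`F_(r,i)(t) = ∑_(β (x r) i = t) f x`, `G_i(t) = ∑_(y i = t) g y`. `∑_(x,y) agr f g =
∑_(r,i) ∑_t F_(r,i)(t) G_i(t)`. For `r` with `∑_i |low f r i| < z q` (all but `K/200`) the sum over
`i` is at least `∑_i ∑_(t ∉ low) (99/100) (F/q) G_i(t) ≥ (99/100) (F/q) (d G - d G/200)` by `GoodB`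
for `T i = low f r i`. `(199/200) (99/100) (199/200) ≥ 49/50`. -/
def Stmt_LC1 : Prop := ∀ {z K d N q : ℕ} (β : Fin N → Wo d q) (f : Nm K N → ℝ) (g : Wo d q → ℝ),
  0 < q → (∀ x, 0 ≤ f x) → (∀ y, 0 ≤ g y) → GoodA (1 / 200) z β f → GoodB (1 / 200) z g →
  49 / 50 * (K * d) * ((∑ x, f x) * ∑ y, g y) ≤ q * ∑ x, ∑ y, (agr β x y : ℝ) * (f x * g y)

open Classical in
/-- LOC. The inequality for one vertex (from SIZ, LC1). PROOF. Write `E = Ed β K (Y u)`,
`S₀ = ∑_E a b`, `S₁ = ∑_(Al) agr a b`, `a⁺ = ∑ a`, `b⁺ = ∑_(y in the product) b`, `A_y =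
∑_((x, y) ∈ E) a x`, `B_x = ∑_((x, y) ∈ E) b y`. If one of the two sums of bad pairs is more than
`S₀/4` the left-hand side is `≤ 0`. Case 1: `∑_(Al \ E) a b ≥ a⁺ b⁺/200`. Then `S₁ ≥ a⁺ b⁺/200 ≥ S₀/200`
and `tot ≤ |Al|/1000 ≤ |E|/999`. Case 2: otherwise `S₀ ≥ (199/200) a⁺ b⁺`. The `y` with `A_y <
(99/100) a⁺` have `∑ b ≤ b⁺/2` (as `∑_y b (a⁺ - A_y) ≤ a⁺ b⁺/200`), so they contribute at most
`a⁺ b⁺/2 < (3/4) S₀` to `S₀`; hence (if `S₀ > 0`) there is `y₀` in the product with `A_(y₀) ≥ (99/100) a⁺`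
and `GoodA` for `f x = if (x, y₀) ∈ E then a x else 0`; in the same way `x₀` with
`B_(x₀) ≥ (99/100) b⁺` and `GoodB` for `g`. LC1 for `f ≤ a` and `g ≤ b 1_product`: `S₁ ≥ (49/50)
(K d/q) (99/100)² a⁺ b⁺ ≥ 0.9604 (K d/q) a⁺ b⁺`, and `tot/|E| ≤ (1001/999) K d/q`,
`(47/50) (1001/999) ≤ 0.942`. -/
def Stmt_LOC : Prop := ∀ {z k K d N q : ℕ} {β : Fin N → Wo d q}
  {Y : Fin k → Fin d → Finset (Fin q)}, Par z k K d N q β Y →
  ∀ (u : Fin k) (a : Nm K N → ℝ) (b : Wo d q → ℝ), (∀ x, 0 ≤ a x) → (∀ y, 0 ≤ b y) →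
  (47 / 50 * ∑ p ∈ Ed β K (Y u), a p.1 * b p.2 - 4 *
    (∑ p ∈ (Ed β K (Y u)).filter (fun p => ¬GoodA (1 / 200) z β
        (fun x => if (x, p.2) ∈ Ed β K (Y u) then a x else 0)), a p.1 * b p.2 +
      ∑ p ∈ (Ed β K (Y u)).filter (fun p => ¬GoodB (1 / 200) z
        (fun y => if (p.1, y) ∈ Ed β K (Y u) then b y else 0)), a p.1 * b p.2)) *
    tot β K (Y u) ≤
  (∑ p ∈ Al K N (Y u), (agr β p.1 p.2 : ℝ) * (a p.1 * b p.2)) * (Ed β K (Y u)).card

/-! ### D. Large rectangles -/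

open Classical in
/-- SAA. In a large set of names most marginals are well spread (from JEN, SIZ). PROOF. `S = P ∩ As`,
`f_u = marg S u`, `F = |S| = ∑ f_u`. Call `(u, r)` bad if `(w u).isRight` and
`∑_i |T i| ≥ z q`, `T i = low f_u r i`. By the definition of `low`
`∑_(v ∈ S) #{i : β (v u r) i ∈ T i} q ≤ (99/100) F ∑ |T i|`; the `v` for which `v u r` is not an
exceptional name for `T` (`Code.exc`) contribute at least `(199/200) ∑ |T i|` each; so at least
`F/200` of the `v ∈ S` have an exceptional name at `(u, r)`. JEN with `W u` the factor of `As`,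
`φ u x = 5 log z #{r : (u, r) bad, x r exceptional}`: for `w u = inr y` (if `y` is not allowed then
`As = ∅`) the factor is the product over `r` of `{x₀ : ∀ i, β x₀ i ≠ y i}`, with at least `N/2`
elements, so the mean of `exp φ` is at most `(1 + z^5 z^11/(N/2))^K = 3^K`; for `w u = inl x` put
`φ = 0`. So `(number of bad (u, r)) (1/200) 5 log z ≤ a + 2 k K` (`log (|As|/|S|) ≤ a`), i.e. at most
`k K (4 10^(-6) + 80/log z)` pairs are bad, and at most `k/1000` of the `u` have more than `K/200`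
bad `r`. -/
def Stmt_SAA : Prop := ∀ {z k K d N q : ℕ} {β : Fin N → Wo d q}
  {Y : Fin k → Fin d → Finset (Fin q)}, Par z k K d N q β Y →
  ∀ (P : Finset (Fin k → Nm K N)) (w : Pub k K d N q) (a : ℝ),
  a ≤ k * K * Real.log z / 10 ^ 7 → (P ∩ As (fun u => Ed β K (Y u)) w).Nonempty →
  Real.exp (-a) * (As (fun u => Ed β K (Y u)) w).card ≤
    (P ∩ As (fun u => Ed β K (Y u)) w).card →
  ((univ.filter fun u => (w u).isRight = true ∧
    ¬GoodA (1 / 200) z β (marg (P ∩ As (fun u => Ed β K (Y u)) w) u)).card : ℝ) ≤ k / 1000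

open Classical in
/-- SBB. The same for the words (from JEN). PROOF. `S = D ∩ Bs`. For every `u` with `w u = inl x` which
is not good choose `T^u` with `∑ |T^u i| ≤ z q` and `∑_i #{v ∈ S : v u i ∈ T^u i} > (d/200) |S|`.
JEN with `φ u y = log z #{i : y i ∈ T^u i}` for these `u`, `0` for the others. The factor of `Bs` is
the product over `i` of `Y u i` minus `{β (x r) i : r}`, with at least `q - d - K ≥ q/2` elements, so the
mean of `exp φ` is at most `∏ (1 + z |T^u i| 2/q) ≤ exp (2 z^2) ≤ exp (4 d)`. So `#bad (d/200) log z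
≤ a + 4 k d`. -/
def Stmt_SBB : Prop := ∀ {z k K d N q : ℕ} {β : Fin N → Wo d q}
  {Y : Fin k → Fin d → Finset (Fin q)}, Par z k K d N q β Y →
  ∀ (D : Finset (Fin k → Wo d q)) (w : Pub k K d N q) (a : ℝ),
  a ≤ k * d * Real.log z / 10 ^ 7 → (D ∩ Bs (fun u => Ed β K (Y u)) w).Nonempty →
  Real.exp (-a) * (Bs (fun u => Ed β K (Y u)) w).card ≤
    (D ∩ Bs (fun u => Ed β K (Y u)) w).card →
  ((univ.filter fun u => (w u).isLeft = true ∧
    ¬GoodB (1 / 200) z (marg (D ∩ Bs (fun u => Ed β K (Y u)) w) u)).card : ℝ) ≤ k / 1000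

open Classical in
/-- MRG. The marginals. PROOF. For `(x, y) ∈ E u₀` the elements `v` of `As E (w with inr y at u₀)` with
`v u₀ = x` are the elements of `As E (w with inl x at u₀)`; otherwise there are none. -/
def Stmt_MRG : Prop := ∀ {k K d N q : ℕ} (E : Fin k → Finset (Nm K N × Wo d q))
  (w : Pub k K d N q) (u₀ : Fin k) (P : Finset (Fin k → Nm K N)) (D : Finset (Fin k → Wo d q)),
  (∀ y x, marg (P ∩ As E (Function.update w u₀ (Sum.inr y))) u₀ x =
    if (x, y) ∈ E u₀ then ((P ∩ As E (Function.update w u₀ (Sum.inl x))).card : ℝ) else 0) ∧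
  ∀ x y, marg (D ∩ Bs E (Function.update w u₀ (Sum.inl x))) u₀ y =
    if (x, y) ∈ E u₀ then ((D ∩ Bs E (Function.update w u₀ (Sum.inr y))).card : ℝ) else 0

/-! ### E. Public parts -/

open Classical in
/-- ID0. PROOF. Bijection between the `(w, v, v')`, `w` of type `R`, `v ∈ P ∩ As E w`,
`v' ∈ D ∩ Bs E w`, and the configurations: `z u = (v u, v' u)`; `w u = inr (z u).2` for `u ∈ R`,
`inl (z u).1` for `u ∉ R`. -/
def Stmt_ID0 : Prop := ∀ {k K d N q : ℕ} (E : Fin k → Finset (Nm K N × Wo d q))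
  (R : Finset (Fin k)) (P : Finset (Fin k → Nm K N)) (D : Finset (Fin k → Wo d q)),
  ∑ w ∈ Wt K d N q R, (P ∩ As E w).card * (D ∩ Bs E w).card =
    ((Om E).filter fun z => nms z ∈ P ∧ wds z ∈ D).card

open Classical in
/-- ID1. PROOF. As ID0: `z u₀ = p`, `z u = (v u, v' u)`; `w` is determined by `z` outside `u₀`. For fixed
`p` the elements `v` of `As E (w with inl p.1)` have `v u₀ = p.1`, and those of `Bs E (w with inr
p.2)` have `v' u₀ = p.2`. -/
def Stmt_ID1 : Prop := ∀ {k K d N q : ℕ} (E : Fin k → Finset (Nm K N × Wo d q))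
  (R : Finset (Fin k)) (u₀ : Fin k) (x₀ : Nm K N) (P : Finset (Fin k → Nm K N))
  (D : Finset (Fin k → Wo d q)) (G : Finset (Nm K N × Wo d q)) (ψ : Nm K N × Wo d q → ℝ),
  ∑ w ∈ Wm d q R u₀ x₀, ∑ p ∈ G, ψ p *
      (((P ∩ As E (Function.update w u₀ (Sum.inl p.1))).card : ℝ) *
        ((D ∩ Bs E (Function.update w u₀ (Sum.inr p.2))).card : ℝ)) =
    ∑ z ∈ (Oy E u₀ G).filter (fun z => nms z ∈ P ∧ wds z ∈ D), ψ (z u₀)

/-- ID2. PROOF. Bijections `(w, y) ↦ w with inr y at u₀`, `(w, x) ↦ w with inl x at u₀`. -/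
def Stmt_ID2 : Prop := ∀ {k K d N q : ℕ} (R : Finset (Fin k)) (u₀ : Fin k) (x₀ : Nm K N)
  (Ψ : Pub k K d N q → ℝ),
  (u₀ ∈ R → ∑ w ∈ Wm d q R u₀ x₀, ∑ y, Ψ (Function.update w u₀ (Sum.inr y)) =
    ∑ w ∈ Wt K d N q R, Ψ w) ∧
  (u₀ ∉ R → ∑ w ∈ Wm d q R u₀ x₀, ∑ x, Ψ (Function.update w u₀ (Sum.inl x)) =
    ∑ w ∈ Wt K d N q R, Ψ w)

open Classical in
/-- SML. Rectangles with a small side (from ID0). PROOF. (first part) A summand is at most
`exp (-a) |As E w| |D c ∩ Bs E w|`, and it is `0` unless `P c` is nonempty. For fixed `w`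
`∑_(c : P c ≠ ∅) |D c ∩ Bs E w| = ∑_(y ∈ Bs E w) #{c : y ∈ D c, P c ≠ ∅} ≤ exp a₀ |Bs E w|`, and
`∑_w |As E w| |Bs E w| = |Om E|` by ID0 with `P = D = univ`. The second part in the same way. -/
def Stmt_SML : Prop := ∀ {k K d N q : ℕ} (E : Fin k → Finset (Nm K N × Wo d q))
  (R : Finset (Fin k)) (C : Type) [Fintype C] (P : C → Finset (Fin k → Nm K N))
  (D : C → Finset (Fin k → Wo d q)) (a₀ a : ℝ),
  ((∀ y, ((univ.filter fun c => y ∈ D c ∧ (P c).Nonempty).card : ℝ) ≤ Real.exp a₀) →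
    ∑ c, ∑ w ∈ (Wt K d N q R).filter (fun w => ((P c ∩ As E w).card : ℝ) <
        Real.exp (-a) * (As E w).card),
      ((P c ∩ As E w).card : ℝ) * (D c ∩ Bs E w).card ≤ Real.exp (a₀ - a) * (Om E).card) ∧
  ((∀ x, ((univ.filter fun c => x ∈ P c ∧ (D c).Nonempty).card : ℝ) ≤ Real.exp a₀) →
    ∑ c, ∑ w ∈ (Wt K d N q R).filter (fun w => ((D c ∩ Bs E w).card : ℝ) <
        Real.exp (-a) * (Bs E w).card),
      ((P c ∩ As E w).card : ℝ) * (D c ∩ Bs E w).card ≤ Real.exp (a₀ - a) * (Om E).card)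

open Classical in
/-- DCA. The bad vertices on the side of the names, one type `R` (from SAA, SML, ID0). PROOF.
`a = a₀ + 10`. The sum over `u₀ ∈ R` of the left-hand sides is
`∑_c ∑_(w ∈ Wt R) |P c ∩ As| |D c ∩ Bs| #{u₀ ∈ R : not GoodA}` (for `w` of type `R`, `u₀ ∈ R` iff
`(w u₀).isRight`). If `|P c ∩ As| ≥ exp (-a) |As|` (and the product is not `0`) the last factor is at
most `k/1000` by SAA, otherwise at most `k`; use SML, and
`∑_(c ∈ C') ∑_w |P c ∩ As| |D c ∩ Bs| = ∑_(c ∈ C') #{z ∈ Om E : z ∈ c} ≤ |Om E|` (ID0, the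
rectangles are disjoint). `exp (-10) ≤ 1/20000`. -/
def Stmt_DCA : Prop := ∀ {z k K d N q : ℕ} {β : Fin N → Wo d q}
  {Y : Fin k → Fin d → Finset (Fin q)}, Par z k K d N q β Y →
  ∀ (C : Type) [Fintype C] (P : C → Finset (Fin k → Nm K N)) (D : C → Finset (Fin k → Wo d q))
    (a₀ : ℝ), (∀ c c' x y, x ∈ P c → y ∈ D c → x ∈ P c' → y ∈ D c' → c = c') →
  (∀ y, ((univ.filter fun c => y ∈ D c ∧ (P c).Nonempty).card : ℝ) ≤ Real.exp a₀) →
  a₀ + 10 ≤ k * K * Real.log z / 10 ^ 7 → ∀ (C' : Finset C) (R : Finset (Fin k)),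
  ∑ u₀ ∈ R, ∑ c ∈ C', ∑ w ∈ (Wt K d N q R).filter (fun w => ¬GoodA (1 / 200) z β
      (marg (P c ∩ As (fun u => Ed β K (Y u)) w) u₀)),
    ((P c ∩ As (fun u => Ed β K (Y u)) w).card : ℝ) * (D c ∩ Bs (fun u => Ed β K (Y u)) w).card ≤
  k * (21 / 20000) * (Om fun u => Ed β K (Y u)).card

open Classical in
/-- DCB. The same for the words, `u₀ ∉ R` (from SBB, SML, ID0). -/
def Stmt_DCB : Prop := ∀ {z k K d N q : ℕ} {β : Fin N → Wo d q}
  {Y : Fin k → Fin d → Finset (Fin q)}, Par z k K d N q β Y →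
  ∀ (C : Type) [Fintype C] (P : C → Finset (Fin k → Nm K N)) (D : C → Finset (Fin k → Wo d q))
    (a₀ : ℝ), (∀ c c' x y, x ∈ P c → y ∈ D c → x ∈ P c' → y ∈ D c' → c = c') →
  (∀ x, ((univ.filter fun c => x ∈ P c ∧ (D c).Nonempty).card : ℝ) ≤ Real.exp a₀) →
  a₀ + 10 ≤ k * d * Real.log z / 10 ^ 7 → ∀ (C' : Finset C) (R : Finset (Fin k)),
  ∑ u₀ ∈ Rᶜ, ∑ c ∈ C', ∑ w ∈ (Wt K d N q R).filter (fun w => ¬GoodB (1 / 200) z
      (marg (D c ∩ Bs (fun u => Ed β K (Y u)) w) u₀)),
    ((P c ∩ As (fun u => Ed β K (Y u)) w).card : ℝ) * (D c ∩ Bs (fun u => Ed β K (Y u)) w).card ≤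
  k * (21 / 20000) * (Om fun u => Ed β K (Y u)).card

open Classical in
/-- DC1. One vertex `u₀` and one set `R⁻` not containing `u₀` (from LOC, MRG, ID1, ID2). PROOF. Fix
`x₀` (names exist) and `c`. For `w ∈ Wm R⁻ u₀ x₀` apply LOC at `u₀` to
`a x = |P c ∩ As (w with inl x)|`, `b y = |D c ∩ Bs (w with inr y)|` and sum over `w` and `c ∈ C'`. By
ID1 with `G = E u₀`, `ψ = 1` the first sum gives the number of the `z ∈ Oy E u₀ (E u₀) = Om E` in
the rectangle; with `G = Al`, `ψ = agr` the right-hand side. The sum over the pairs which are not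
`GoodA`: for fixed `y` the function `x ↦ if (x, y) ∈ E then a x else 0` is the marginal at `u₀` of
`P c ∩ As w'`, `w' = w with inr y` (MRG), its sum over `x` is `|P c ∩ As w'|`, and `b y =
|D c ∩ Bs w'|`; so the sum over `w ∈ Wm` and `y` is by ID2 (for `R⁻ ∪ {u₀}`, `Wm` does not see
`u₀`) the sum over `w' ∈ Wt (R⁻ ∪ {u₀})`. In the same way for `GoodB` with `R⁻`. -/
def Stmt_DC1 : Prop := ∀ {z k K d N q : ℕ} {β : Fin N → Wo d q}
  {Y : Fin k → Fin d → Finset (Fin q)}, Par z k K d N q β Y →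
  ∀ (C : Type) [Fintype C] (P : C → Finset (Fin k → Nm K N)) (D : C → Finset (Fin k → Wo d q))
    (C' : Finset C) (u₀ : Fin k) (R : Finset (Fin k)), u₀ ∉ R →
  (47 / 50 * ∑ c ∈ C', (((Om fun u => Ed β K (Y u)).filter fun z =>
      nms z ∈ P c ∧ wds z ∈ D c).card : ℝ) -
    4 * (∑ c ∈ C', ∑ w ∈ (Wt K d N q (insert u₀ R)).filter (fun w => ¬GoodA (1 / 200) z β
        (marg (P c ∩ As (fun u => Ed β K (Y u)) w) u₀)),
        ((P c ∩ As (fun u => Ed β K (Y u)) w).card : ℝ) *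
          (D c ∩ Bs (fun u => Ed β K (Y u)) w).card +
      ∑ c ∈ C', ∑ w ∈ (Wt K d N q R).filter (fun w => ¬GoodB (1 / 200) z
        (marg (D c ∩ Bs (fun u => Ed β K (Y u)) w) u₀)),
        ((P c ∩ As (fun u => Ed β K (Y u)) w).card : ℝ) *
          (D c ∩ Bs (fun u => Ed β K (Y u)) w).card)) * tot β K (Y u₀) ≤
  (∑ c ∈ C', ∑ z ∈ (Oy (fun u => Ed β K (Y u)) u₀ (Al K N (Y u₀))).filter
      (fun z => nms z ∈ P c ∧ wds z ∈ D c), (agr β (z u₀).1 (z u₀).2 : ℝ)) *
    (Ed β K (Y u₀)).card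

open Classical in
/-- DEC. Decoupling (from SIZ, DCA, DCB, DC1). PROOF. Divide DC1 by `tot > 0` and average over the
`k 2^(k-1)` pairs `(u₀, R)`, `u₀ ∉ R`: the right-hand side becomes `∑_(c ∈ C') yes (z ∈ c)`, the
first sum stays, the sums of DCA type are, with `R' = insert u₀ R`, the sum over all `R'` and
`u₀ ∈ R'`, at most `2^k k (21/20000) |Om|`, divided by `k 2^(k-1)`: `2 (21/20000) |Om|`; the same
for DCB. Altogether at most `4 · 4 · (21/20000) |Om| = (21/1250) |Om| ≤ |Om|/50`. -/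
def Stmt_DEC : Prop := ∀ {z k K d N q : ℕ} {β : Fin N → Wo d q}
  {Y : Fin k → Fin d → Finset (Fin q)}, Par z k K d N q β Y →
  ∀ (C : Type) [Fintype C] (P : C → Finset (Fin k → Nm K N)) (D : C → Finset (Fin k → Wo d q))
    (a₀ b₀ : ℝ), (∀ c c' x y, x ∈ P c → y ∈ D c → x ∈ P c' → y ∈ D c' → c = c') →
  (∀ y, ((univ.filter fun c => y ∈ D c ∧ (P c).Nonempty).card : ℝ) ≤ Real.exp a₀) →
  (∀ x, ((univ.filter fun c => x ∈ P c ∧ (D c).Nonempty).card : ℝ) ≤ Real.exp b₀) →
  a₀ + 10 ≤ k * K * Real.log z / 10 ^ 7 → b₀ + 10 ≤ k * d * Real.log z / 10 ^ 7 →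
  ∀ C' : Finset C,
  47 / 50 * ∑ c ∈ C', (((Om fun u => Ed β K (Y u)).filter fun z =>
      nms z ∈ P c ∧ wds z ∈ D c).card : ℝ) - 1 / 50 * (Om fun u => Ed β K (Y u)).card ≤
    ∑ c ∈ C', yes β Y (fun z => nms z ∈ P c ∧ wds z ∈ D c)

open Classical in
/-- STA. One block (from LAB, HSH, BIN, RUN, DEC). PROOF. `H = B L`, `mE = 200 B`, `h` from HSH for the
set of the `z ∈ Om` with cost `≤ B` and at most `B L` changed registers, `W z` = the changed
registers, `T z` = the touched ones (at most `B` by RUN). Labels from LAB (`XX = names`,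
`YY = words`), `C'` = the labels with answer `false`. All `z` of the set with answer `false` are in
a rectangle of `C'`, except those with more than `200 B` entries, at most
`2 B |Om|/(200 B) = |Om|/100` by HSH. The rectangles of `C'` are disjoint and contained in
`answer = false`, and `yes` is monotone and additive. `a₀ = log 2 + B (1 + log L)` (BIN),
`b₀ = log |Q| + 200 B log (|A| |Γ| + 1)`. -/
def Stmt_STA : Prop := ∀ {z k K d N q : ℕ} {β : Fin N → Wo d q}
  {Y : Fin k → Fin d → Finset (Fin q)}, Par z k K d N q β Y →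
  ∀ (A Γ Q : Type) [Fintype A] [DecidableEq A] [Fintype Γ] [Fintype Q]
    (t : (Fin k → Nm K N) → Q → Comp A Γ Q) (cf : (Fin k → Wo d q) → Q × (A → Γ))
    (M₀ : A → Γ) (B L : ℕ), 1 ≤ B → 1 ≤ L →
  20 + B * (1 + Real.log L) ≤ k * K * Real.log z / 10 ^ 7 →
  20 + Real.log (Fintype.card Q) +
    200 * B * Real.log (Fintype.card A * Fintype.card Γ + 1) ≤ k * d * Real.log z / 10 ^ 7 →
  47 / 50 * (((Om fun u => Ed β K (Y u)).filter fun z =>
      ((t (nms z) (cf (wds z)).1).out (cf (wds z)).2).1 = false ∧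
      (t (nms z) (cf (wds z)).1).cost (cf (wds z)).2 ≤ B ∧
      (chg (cf (wds z)).2 M₀).card ≤ B * L).card : ℝ) -
    3 / 100 * (Om fun u => Ed β K (Y u)).card ≤
  yes β Y (fun z => ((t (nms z) (cf (wds z)).1).out (cf (wds z)).2).1 = false)

/-! ### F. All blocks -/

/-- FUL. PROOF. Bijection between the `(o, z)`, `z ∈ Om`, and the `(p, x)`, `p ∈ Ome`,
`x : Fin k → Nm K N`: `p = (ins o j₀ (nms z), wds z)`, `x u = o u j₀`. (`z ∈ Om` iff for all `u` the
word has no agreement with the names of the other blocks, this is `Yo`, and none with `(z u).1`.) -/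
def Stmt_FUL : Prop := ∀ {k K d N q L : ℕ} (β : Fin N → Wo d q) (j₀ : Fin L)
  (g : Xs k L K N × Ys k d q → ℝ),
  ∑ o : Xs k L K N, ∑ z ∈ Om (fun u => Ed β K (Yo β o j₀ u)), g (ins o j₀ (nms z), wds z) =
    (Fintype.card (Fin k → Nm K N) : ℝ) * ∑ p ∈ Ome β, g p

/-- YTO. The total weight. PROOF. `∑_(z ∈ Oy E u₀ Al) agr (z u₀) = tot(u₀) ∏_(u ≠ u₀) |E u|`
(`Finset.sum_prod_piFinset` or a bijection), `|Om| = ∏ |E u|`. -/
def Stmt_YTO : Prop := ∀ {k K d N q : ℕ} (β : Fin N → Wo d q)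
  (Y : Fin k → Fin d → Finset (Fin q)), 0 < k → (∀ u, 0 < tot β K (Y u)) →
  yes β Y (fun _ : Cf k K d N q => True) = ((Om fun u => Ed β K (Y u)).card : ℝ)

/-- MCH. The machine (from RUN). PROOF. Induction on `j`; a phase changes only registers which it
touches, at most as many as its cost. -/
def Stmt_MCH : Prop := ∀ (A Γ Q E : Type) [Fintype A] [DecidableEq A] (P : Machine A Γ Q E)
  (bl bl' : ℕ → List E) (j : ℕ),
  ((∀ i < j, bl i = bl' i) → P.conf bl j = P.conf bl' j) ∧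
    (chg (P.conf bl j).2 P.mem0).card ≤ ∑ i ∈ range j, P.cost bl i

open Classical in
/-- AVG. One block of a deterministic machine, all instances (from STA, FUL, MCH). PROOF. For every
`o` apply STA with `Y = Yo β o j₀`, `t x q = P.prog (j₀ + 1) q (b₁ j₀ x)`, `cf y` = the
configuration of `P` before the phase `j₀ + 1` for the instance `(o, y)`; by MCH it is that for
`(ins o j₀ x, y)` because the block number `j₀` is read in the phase `j₀ + 1`. Sum over `o`; by FUL
the sums over `o` and `z ∈ Om` are `V` times the sums over `Ome`. The number of the changed registers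
is at most the cost of the phases `0, .., j₀` (MCH). -/
def Stmt_AVG : Prop := ∀ {z k K d N q L : ℕ} {β : Fin N → Wo d q},
  (∀ (o : Xs k L K N) (j₀ : Fin L), Par z k K d N q β (Yo β o j₀)) →
  ∀ (A Γ Q E : Type) [Fintype A] [DecidableEq A] [Fintype Γ] [Fintype Q]
    (P : Machine A Γ Q E) (b₀ : Ys k d q → List E) (b₁ : Fin L → (Fin k → Nm K N) → List E)
    (B : ℕ) (j₀ : Fin L), 1 ≤ B →
  20 + B * (1 + Real.log L) ≤ k * K * Real.log z / 10 ^ 7 →
  20 + Real.log (Fintype.card Q) +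
    200 * B * Real.log (Fintype.card A * Fintype.card Γ + 1) ≤ k * d * Real.log z / 10 ^ 7 →
  (Fintype.card (Fin k → Nm K N) : ℝ) *
    (47 / 50 * (((Ome β : Finset (Xs k L K N × Ys k d q)).filter fun p =>
      P.ans (blk b₀ b₁ p) (j₀ + 1) = false ∧ P.cost (blk b₀ b₁ p) (j₀ + 1) ≤ B ∧
      ∑ i ∈ range (j₀ + 1), P.cost (blk b₀ b₁ p) i ≤ B * L).card : ℝ) -
    3 / 100 * (Ome β : Finset (Xs k L K N × Ys k d q)).card) ≤
  ∑ o : Xs k L K N, yes β (Yo β o j₀) (fun z =>
    P.ans (blk b₀ b₁ (ins o j₀ (nms z), wds z)) (j₀ + 1) = false)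

/-! ### G. Graphs -/

/-- NUM. Numbers of the edges. PROOF. `finProdFinEquiv`, `finSumFinEquiv`: first the pairs in
`Fin k × Fin d`, then the code, then the names, block after block; `(j, t)` has the number
`m₀ + j (k K) + t'`, `t' < k K`, `m₀ = k d + L K N d`. -/
def Stmt_NUM : Prop := ∀ k L K N d m : ℕ, m = k * d + L * K * N * d + L * (k * K) →
  ∃ φ : Fin m ≃ Ix k L K N d, ∀ (i : Fin m) (j : ℕ), j ≤ L →
    (i.val < k * d + L * K * N * d + j * (k * K) ↔
      ∀ t, φ i = Sum.inr (Sum.inr t) → t.1.val < j)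

/-- EDG. The graph of an instance. PROOF. The three kinds of edges join different parts of `Vt`, so a
triangle has one vertex in each part: `inl u`, `inr (inl ((j, r), x))`, `inr (inr (i, t))` with
`p.2 u i = t`, `β x i = t`, `p.1 u j r = x` and `j < j'`. -/
def Stmt_EDG : Prop := ∀ {k L K N d q : ℕ} (β : Fin N → Wo d q) (p : Xs k L K N × Ys k d q),
  Function.Injective (edg β p) ∧ (∀ s, ¬(edg β p s).IsDiag) ∧
  ∀ j : ℕ, (SimpleGraph.fromEdgeSet {x | ∃ s : Ix k L K N d,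
      (∀ t, s = Sum.inr (Sum.inr t) → t.1.val < j) ∧ edg β p s = x}).CliqueFree 3 ↔
    ∀ (u : Fin k) (i : Fin L), i.val < j → agr β (p.1 u i) (p.2 u) = 0

/-- ENC. Instances as sequences of edges (from NUM, EDG). PROOF. `ι : Vt k L K N d q ↪ Fin n` (the
cardinality), `enc p i = Sym2.map ι (edg β p (φ i))`. For `j ≤ L`: `moment m L (k K) (j + 1) =
m₀ + j (k K)`, `m₀ = k d + L K N d`, so by NUM the graph of the edges before this moment is the
image under `ι` of the graph in EDG (`SimpleGraph.map`; a clique of three vertices in the image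
consists of images of vertices). Block `0` contains only edges of the first two kinds, which do not
depend on `p.1`; block `j + 1` only the names of the block `j` (NUM for `j` and `j + 1`), so define
`b₁` by the same list of numbers, with the edge computed from `x` (`List.map_congr_left`). -/
def Stmt_ENC : Prop := ∀ (k L K d N q n m : ℕ) (β : Fin N → Wo d q),
  m = k * d + L * K * N * d + L * (k * K) → k + L * K * N + d * q ≤ n →
  ∃ (enc : Xs k L K N × Ys k d q → Fin m → Sym2 (Fin n)) (b₀ : Ys k d q → List (Sym2 (Fin n)))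
    (b₁ : Fin L → (Fin k → Nm K N) → List (Sym2 (Fin n))), Enc β enc b₀ b₁

/-! ### H. Random machines -/

/-- PRO. The parameters of one block. PROOF. Letters which are not in `Yo β o j₀ u i` are the
`β (o u j r) i`, `j ≠ j₀`: at most `(L - 1) K ≤ d`. -/
def Stmt_PRO : Prop := ∀ {z k K d N q L : ℕ} {β : Fin N → Wo d q}, Code (1 / 200) z β →
  (10 : ℝ) ^ 9 ≤ Real.log z → N = z ^ 16 → q = z ^ 10 → d = L * K → d ≤ z ^ 2 → z ^ 2 ≤ 2 * d →
  1 ≤ K → 1 ≤ L → 1 ≤ k → ∀ (o : Xs k L K N) (j₀ : Fin L), Par z k K d N q β (Yo β o j₀)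

/-- INA. One block of a random machine (from AVG, YTO, SIZ, FUL, MCH). PROOF. Integrate AVG for
`P ω`; by `blo` and MCH the answers and costs in the phases `≤ L` are those for `block (enc p)`.
Left-hand side: for `p ∈ Ome` the graph before the phase `j₀ + 2` is triangle-free (`tri`), so
`{answer false}` is the event of `right`, of measure `≥ 2/3`; subtract the two events. Right-hand
side: `yes` is a finite sum of nonnegative multiples of indicators; if `agr (z u₀) ≥ 1` then by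
`tri` the graph has a triangle, so the answer is `false` with probability `≤ 1/3`; the right-hand
side is at most `1/3 ∑_o yes (..) (True) = 1/3 ∑_o |Om| = V |Ome|/3` (YTO, FUL). Divide by `V > 0`. -/
def Stmt_INA : Prop := ∀ {z k K d N q L n m : ℕ} {β : Fin N → Wo d q}
  {enc : Xs k L K N × Ys k d q → Fin m → Sym2 (Fin n)} {b₀ : Ys k d q → List (Sym2 (Fin n))}
  {b₁ : Fin L → (Fin k → Nm K N) → List (Sym2 (Fin n))},
  (∀ (o : Xs k L K N) (j₀ : Fin L), Par z k K d N q β (Yo β o j₀)) → Enc β enc b₀ b₁ →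
  ∀ (Ω A Γ Q : Type) [MeasurableSpace Ω] [Fintype A] [DecidableEq A] [Fintype Γ] [Fintype Q]
    (μ : Measure Ω) [IsProbabilityMeasure μ] (P : Ω → Machine A Γ Q (Sym2 (Fin n))) (T : ℝ)
    (B : ℕ) (j₀ : Fin L), Works μ P m L (k * K) T → 1 ≤ B →
  20 + B * (1 + Real.log L) ≤ k * K * Real.log z / 10 ^ 7 →
  20 + Real.log (Fintype.card Q) +
    200 * B * Real.log (Fintype.card A * Fintype.card Γ + 1) ≤ k * d * Real.log z / 10 ^ 7 →
  47 / 50 * ∑ p ∈ (Ome β : Finset (Xs k L K N × Ys k d q)), (2 / 3 -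
      μ.real {ω | B < (P ω).cost (block (enc p) (moment m L (k * K))) (j₀ + 1)} -
      μ.real {ω | B * L < ∑ i ∈ range (j₀ + 1),
        (P ω).cost (block (enc p) (moment m L (k * K))) i}) -
    3 / 100 * (Ome β : Finset (Xs k L K N × Ys k d q)).card ≤
  1 / 3 * (Ome β : Finset (Xs k L K N × Ys k d q)).card

/-- INB. The contradiction (from INA, SIZ, FUL). PROOF. `Ome` is not empty (FUL with `g = 1`, and
`|Om| = ∏ |Ed| > 0` by SIZ, an `o` exists because `N > 0`). Its instances are triangle-free (`tri`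
for `j = L`; `moment m L b (L + 1) = m`), so by Markov (`mul_meas_ge_le_lintegral₀`) the measures in
INA are at most `E cost_(j₀ + 1)/B` and `T⁺/(B L) ≤ 1/100`, and the sum over `j₀` of the first ones
is at most `T⁺/B ≤ L/100`. Sum INA over `j₀`: `(47/50) (2/3 - 1/100 - 1/100) - 3/100 ≤ 1/3`, which
is wrong. -/
def Stmt_INB : Prop := ∀ {z k K d N q L n m : ℕ} {β : Fin N → Wo d q}
  {enc : Xs k L K N × Ys k d q → Fin m → Sym2 (Fin n)} {b₀ : Ys k d q → List (Sym2 (Fin n))}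
  {b₁ : Fin L → (Fin k → Nm K N) → List (Sym2 (Fin n))}, 0 < N →
  (∀ (o : Xs k L K N) (j₀ : Fin L), Par z k K d N q β (Yo β o j₀)) → Enc β enc b₀ b₁ →
  ∀ (Ω A Γ Q : Type) [MeasurableSpace Ω] [Fintype A] [DecidableEq A] [Fintype Γ] [Fintype Q]
    (μ : Measure Ω) [IsProbabilityMeasure μ] (P : Ω → Machine A Γ Q (Sym2 (Fin n))) (T : ℝ)
    (B : ℕ), Works μ P m L (k * K) T → 1 ≤ B → 1 ≤ L →
  20 + B * (1 + Real.log L) ≤ k * K * Real.log z / 10 ^ 7 →
  20 + Real.log (Fintype.card Q) +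
    200 * B * Real.log (Fintype.card A * Fintype.card Γ + 1) ≤ k * d * Real.log z / 10 ^ 7 →
  ¬100 * T ≤ B * L

/-! ### I. Numbers -/

/-- PAA. The choice of `z` and `K`. PROOF. `z` = the largest number with `8 z^20 ≤ s`
(`Nat.findGreatest`); for `s` large `z` is large and `s < 8 (z + 1)^20 ≤ 16 z^20`, so
`log s ≤ log 16 + 20 log z ≤ 21 log z`. `L ≤ log s ≤ 21 log z ≤ z`, because `log log s ≥ 1`.
`K = z^2/L`: `L K ≤ z^2 < L K + L ≤ L K + z`. -/
def Stmt_PAA : Prop := ∀ Z : ℕ, ∃ s₀ : ℕ, ∀ s L : ℕ, s₀ ≤ s → 1 ≤ L →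
  L * Real.log (Real.log s) ≤ Real.log s → ∃ z K : ℕ, Z ≤ z ∧ 1 ≤ K ∧ L * K ≤ z ^ 2 ∧
    z ^ 2 ≤ 2 * (L * K) ∧ 8 * z ^ 20 ≤ s ∧ s ≤ 16 * z ^ 20 ∧ Real.log s ≤ 21 * Real.log z ∧
    1 ≤ Real.log (Real.log s)

/-- PAB. The conditions on `B`. PROOF. `c = 1/(10^15 (2 κ + 1))`, `B = ⌈100 T/L⌉₊ + 1`, so
`B ≤ 100 c s + 2` (if `T < 0` then `B = 1`). First condition: `z^18 K ≥ z^20/(2 L)`,
`L (1 + log L) ≤ L + L log log s ≤ 2 log s ≤ 42 log z` (`L ≤ log s`), so
`L B (1 + log L) ≤ (1600 c z^20 + 2) 42 log z ≤ z^20 log z/(4 10^7)`, and `20 L ≤` the same. Second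
condition: `z^18 (L K) ≥ z^20/2`, `log |Q| ≤ 336 c z^20 log z`, `a g + 1 ≤ s^(2 κ + 1)`, so
`200 B log (a g + 1) ≤ 200 (1600 c z^20 + 2) (2 κ + 1) 21 log z`. -/
def Stmt_PAB : Prop := ∀ κ : ℕ, ∃ c : ℝ, 0 < c ∧ ∃ Z : ℕ, ∀ z K L s : ℕ, Z ≤ z → 1 ≤ L →
  z ^ 2 ≤ 2 * (L * K) → 8 * z ^ 20 ≤ s → s ≤ 16 * z ^ 20 → Real.log s ≤ 21 * Real.log z →
  1 ≤ Real.log (Real.log s) → L * Real.log (Real.log s) ≤ Real.log s →
  ∀ (T : ℝ) (a g r : ℕ), T < c * L * s → a ≤ s ^ κ → g ≤ s ^ κ →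
    Real.log r ≤ c * s * Real.log s →
    ∃ B : ℕ, 1 ≤ B ∧ 100 * T ≤ B * L ∧
      20 + B * (1 + Real.log L) ≤ (z ^ 18 : ℕ) * K * Real.log z / 10 ^ 7 ∧
      20 + Real.log r + 200 * B * Real.log (a * g + 1) ≤
        (z ^ 18 : ℕ) * (L * K : ℕ) * Real.log z / 10 ^ 7

/-! ### J. The theorem -/

/-- FIN. The theorem (from everything). -/
def Stmt_FIN : Prop := ∀ κ : ℕ, ∃ c : ℝ, 0 < c ∧ ∃ s₀ : ℕ, ∀ s L : ℕ, s₀ ≤ s → 1 ≤ L →
  L * Real.log (Real.log s) ≤ Real.log s →
  ∃ n m b : ℕ, n + m = s ∧ L * b ≤ m ∧ s ≤ 64 * L * b ∧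
    ∀ (Ω A Γ Q : Type) [MeasurableSpace Ω] [Fintype A] [DecidableEq A] [Fintype Γ] [Fintype Q]
      (μ : Measure Ω) [IsProbabilityMeasure μ] (P : Ω → Machine A Γ Q (Sym2 (Fin n))) (T : ℝ),
      Fintype.card A ≤ s ^ κ → Fintype.card Γ ≤ s ^ κ →
      Real.log (Fintype.card Q) ≤ c * s * Real.log s → Works μ P m L b T → c * L * s ≤ T

end

end Pool.Agent.ANC
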